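import Pool.Agent.Lib.MP_0dbebe_co.Extend

/-! # Connecting two vertices, or a large zero clique -/

namespace MP0dbebe

section
variable {V α G : Type*} [AddCommGroup G]

/-- all pairs of distinct elements of `C` have weight zero -/
def ZeroClique (w : α → α → G) (C : Finset α) : Prop := ∀ a ∈ C, ∀ b ∈ C, a ≠ b → w a b = 0

theorem hasModel_of_clique [Fintype V] [Fintype α] {w : α → α → G}
    (hw : ∀ a b, w a b = w b a) (H : SimpleGraph V) (C : Finset α) (hC : Fintype.card V ≤ C.card)
    (hz : ZeroClique w C) : HasModel w (EE H Finset.univ) Finset.univ Finset.univ := by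
  obtain ⟨f, hf⟩ : ∃ f : V ↪ α, ∀ v, f v ∈ C := by
    have h1 : Fintype.card V ≤ Fintype.card C := by rw [Fintype.card_coe]; exact hC
    obtain ⟨g⟩ := Function.Embedding.nonempty_of_card_le h1
    exact ⟨g.trans (Function.Embedding.subtype _), fun v => (g v).2⟩
  have h2 : ZE w H f = EE H Finset.univ := by
    ext e
    induction e using Sym2.ind with
    | _ a b =>
      rw [mem_ZE hw, mk_mem_EE]
      constructor
      · rintro ⟨h, _⟩; exact ⟨⟨Finset.mem_univ _, Finset.mem_univ _⟩, h⟩
      · rintro ⟨_, h⟩
        exact ⟨h, hz _ (hf a) _ (hf b) (fun hab => h.ne (f.injective hab))⟩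
  rw [← h2]
  exact ⟨f, _, (model_zero f.injective).mono (Finset.subset_univ _)⟩

theorem pw_append_singleton (w : α → α → G) (a : α) (l : List α) (c b : α)
    (h : (a :: l).getLast (List.cons_ne_nil a l) = c) :
    pw w (a :: (l ++ [b])) = pw w (a :: l) + w c b := by
  induction l generalizing a with
  | nil =>
    simp only [List.getLast_singleton] at h
    subst h
    rw [List.nil_append, pw_cons_cons, pw_single, pw_single, add_comm]
  | cons x l ih =>
    rw [List.getLast_cons_cons] at h
    rw [List.cons_append, pw_cons_cons, pw_cons_cons, ih x h, add_assoc]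

end

section
variable {V α : Type*}

open Classical Pointwise in
/-- **Connecting lemma**, odd primes. -/
theorem fb_odd {q : ℕ} [Fact q.Prime] (hq2 : q ≠ 2) {w : α → α → ZMod q}
    (hw : ∀ a b, w a b = w b a) (n : ℕ) (R : Finset α) (hR : n + 2 * q ≤ R.card) (a b : α) :
    (∃ C ⊆ R, n ≤ C.card ∧ ZeroClique w C) ∨
      ∃ l : List α, l.Nodup ∧ (∀ x ∈ l, x ∈ R) ∧ l.length ≤ 2 * (q - 1) ∧
        pw w (a :: (l ++ [b])) = 0 := by
  by_cases hcl : ∃ C ⊆ R, n ≤ C.card ∧ ZeroClique w C
  · exact Or.inl hcl
  right
  have hqp : q.Prime := Fact.out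
  have h2 : (2 : ZMod q) ≠ 0 := by
    intro h
    have h3 : ((2 : ℕ) : ZMod q) = 0 := by exact_mod_cast h
    rw [ZMod.natCast_eq_zero_iff] at h3
    have := Nat.le_of_dvd (by omega) h3
    have := hqp.two_le
    omega
  have key : ∀ k ≤ q - 1, ∃ (U : Finset α) (c : α) (A : Finset (ZMod q)), U ⊆ R ∧
      U.card ≤ 2 * k ∧ A.Nonempty ∧ min q (k + 1) ≤ A.card ∧
      ∀ s ∈ A, ∃ l : List α, l.Nodup ∧ (∀ x ∈ l, x ∈ U) ∧ l.length ≤ 2 * k ∧
        (a :: l).getLast (List.cons_ne_nil a l) = c ∧ pw w (a :: l) = s := by
    intro k
    induction k with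
    | zero =>
      intro _
      refine ⟨∅, a, {0}, by simp, by simp, by simp, by simp, ?_⟩
      intro s hs
      rw [Finset.mem_singleton] at hs
      subst hs
      exact ⟨[], by simp, by simp, by simp, by simp, by simp⟩
    | succ k ih =>
      intro hk
      obtain ⟨U, c, A, hU, hUc, hAne, hAc, hA⟩ := ih (by omega)
      -- a nonzero pair outside `U`
      obtain ⟨y, hy, y', hy', hyy, hwy⟩ : ∃ y ∈ R \ U, ∃ y' ∈ R \ U, y ≠ y' ∧ w y y' ≠ 0 := by
        by_contra hcon
        push Not at hcon
        apply hcl
        refine ⟨R \ U, Finset.sdiff_subset, ?_, hcon⟩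
        have := Finset.le_card_sdiff U R
        omega
      have hgad : ∃ x ∈ R \ U, ∃ x' ∈ R \ U, x ≠ x' ∧ w c x + w x x' - w c x' ≠ 0 := by
        by_cases h1 : w c y + w y y' - w c y' = 0
        · refine ⟨y', hy', y, hy, hyy.symm, ?_⟩
          intro h3
          have h4 : 2 * w y y' = 0 := by
            have : w c y + w y y' - w c y' + (w c y' + w y' y - w c y) = 2 * w y y' := by
              rw [hw y' y]; ring
            rw [h1, h3, add_zero] at this
            exact this.symm
          rcases mul_eq_zero.1 h4 with h5 | h5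
          · exact h2 h5
          · exact hwy h5
        · exact ⟨y, hy, y', hy', hyy, h1⟩
      obtain ⟨x, hx, x', hx', hxx, hδ⟩ := hgad
      rw [Finset.mem_sdiff] at hx hx'
      set δ := w c x + w x x' - w c x' with hδdef
      let A' : Finset (ZMod q) := (A + {0, δ}).image (fun s => s + w c x')
      refine ⟨insert x (insert x' U), x', A', ?_, ?_, ?_, ?_, ?_⟩
      · exact Finset.insert_subset hx.1 (Finset.insert_subset hx'.1 hU)
      · have h1 := Finset.card_insert_le x (insert x' U)
        have h3 := Finset.card_insert_le x' U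
        omega
      · exact (hAne.add (by simp)).image _
      · have h1 : A'.card = (A + {0, δ}).card :=
          Finset.card_image_of_injective _ (fun s t hst => by simpa using hst)
        rw [h1]
        have h3 := ZMod.cauchy_davenport hqp (s := A) (t := {0, δ}) hAne (by simp)
        have h4 : ({0, δ} : Finset (ZMod q)).card = 2 := Finset.card_pair (Ne.symm hδ)
        rw [h4] at h3
        omega
      · intro s hs
        simp only [A', Finset.mem_image] at hs
        obtain ⟨s', hs', rfl⟩ := hs
        rw [Finset.mem_add] at hs'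
        obtain ⟨s0, hs0, ε, hε, rfl⟩ := hs'
        obtain ⟨l, hl1, hl2, hl3, hl4, hl5⟩ := hA s0 hs0
        rw [Finset.mem_insert, Finset.mem_singleton] at hε
        rcases hε with rfl | rfl
        · refine ⟨l ++ [x'], ?_, ?_, ?_, ?_, ?_⟩
          · rw [List.nodup_append]
            refine ⟨hl1, by simp, ?_⟩
            intro z hz z' hz' hzz
            rw [List.mem_singleton] at hz'
            subst hz'; subst hzz
            exact hx'.2 (hl2 _ hz)
          · intro z hz
            rw [List.mem_append, List.mem_singleton] at hz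
            rcases hz with hz | rfl
            · exact Finset.mem_insert_of_mem (Finset.mem_insert_of_mem (hl2 z hz))
            · exact Finset.mem_insert_of_mem (Finset.mem_insert_self _ _)
          · rw [List.length_append, List.length_singleton]; omega
          · simp
          · rw [pw_append_singleton w a l c x' hl4, hl5]; ring
        · refine ⟨(l ++ [x]) ++ [x'], ?_, ?_, ?_, ?_, ?_⟩
          · rw [List.nodup_append]
            refine ⟨?_, by simp, ?_⟩
            · rw [List.nodup_append]
              refine ⟨hl1, by simp, ?_⟩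
              intro z hz z' hz' hzz
              rw [List.mem_singleton] at hz'
              subst hz'; subst hzz
              exact hx.2 (hl2 _ hz)
            · intro z hz z' hz' hzz
              rw [List.mem_singleton] at hz'
              subst hz'; subst hzz
              rw [List.mem_append, List.mem_singleton] at hz
              rcases hz with hz | hz
              · exact hx'.2 (hl2 _ hz)
              · exact hxx hz.symm
          · intro z hz
            rw [List.mem_append, List.mem_append, List.mem_singleton, List.mem_singleton] at hz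
            rcases hz with (hz | rfl) | rfl
            · exact Finset.mem_insert_of_mem (Finset.mem_insert_of_mem (hl2 z hz))
            · exact Finset.mem_insert_self _ _
            · exact Finset.mem_insert_of_mem (Finset.mem_insert_self _ _)
          · rw [List.length_append, List.length_append, List.length_singleton,
              List.length_singleton]; omega
          · simp
          · rw [pw_append_singleton w a (l ++ [x]) x x' (by simp),
              pw_append_singleton w a l c x hl4, hl5, hδdef]
            ring
  obtain ⟨U, c, A, hU, hUc, hAne, hAc, hA⟩ := key (q - 1) le_rfl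
  have hAuniv : A = Finset.univ := by
    rw [← Finset.card_eq_iff_eq_univ, ZMod.card]
    have h1 : A.card ≤ q := by
      have := Finset.card_le_univ A
      rwa [ZMod.card] at this
    have := hqp.two_le
    have h3 : min q (q - 1 + 1) = q := by omega
    omega
  obtain ⟨l, hl1, hl2, hl3, hl4, hl5⟩ := hA (- w c b) (by rw [hAuniv]; exact Finset.mem_univ _)
  refine ⟨l, hl1, fun x hx => hU (hl2 x hx), hl3, ?_⟩
  rw [pw_append_singleton w a l c b hl4, hl5]
  ring

theorem two_cases' (a : ZMod 2) : a = 0 ∨ a = 1 := by
  revert a; decide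

open Classical in
/-- **Connecting lemma**, two weights. -/
theorem fb_two {w : α → α → ZMod 2}
    (hw : ∀ a b, w a b = w b a) (n : ℕ) (R : Finset α) (hR : 2 * n ≤ R.card + 1) (a b : α) :
    (∃ C ⊆ R, n ≤ C.card ∧ ZeroClique w C) ∨
      ∃ l : List α, l.Nodup ∧ (∀ x ∈ l, x ∈ R) ∧ l.length ≤ 2 ∧
        pw w (a :: (l ++ [b])) = 0 := by
  by_cases hcl : ∃ l : List α, l.Nodup ∧ (∀ x ∈ l, x ∈ R) ∧ l.length ≤ 2 ∧
        pw w (a :: (l ++ [b])) = 0
  · exact Or.inr hcl
  left
  have hcut : ∀ x ∈ R, w a x + w b x = 1 := by
    intro x hx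
    rcases two_cases' (w a x + w b x) with h | h
    · exfalso
      apply hcl
      refine ⟨[x], by simp, by simpa using hx, by simp, ?_⟩
      rw [List.singleton_append, pw_cons_cons, pw_cons_cons, pw_single, add_zero, hw x]
      exact h
    · exact h
  have htri : ∀ y ∈ R, ∀ y' ∈ R, y ≠ y' → w y y' = w a y + w a y' := by
    intro y hy y' hy' hyy
    by_contra hne
    apply hcl
    refine ⟨[y, y'], by simpa using hyy, ?_, by simp, ?_⟩
    · intro x hx
      simp only [List.mem_cons, List.not_mem_nil, or_false] at hx
      rcases hx with rfl | rfl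
      · exact hy
      · exact hy'
    · simp only [List.cons_append, List.nil_append, pw_cons_cons, pw_single, add_zero]
      have h1 := hcut y' hy'
      rw [hw y' b]
      revert hne h1
      generalize w y y' = a1
      generalize w a y = b1
      generalize w a y' = c1
      generalize w b y' = d1
      revert a1 b1 c1 d1
      decide
  have hL : (R.filter (fun y => w a y = 0)).card +
      (R.filter (fun y => ¬ w a y = 0)).card = R.card :=
    Finset.card_filter_add_card_filter_not _
  rcases Nat.lt_or_ge (R.filter (fun y => w a y = 0)).card n with hlt | hge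
  · refine ⟨R.filter (fun y => ¬ w a y = 0), Finset.filter_subset _ _, by omega, ?_⟩
    intro x hx y hy hxy
    rw [Finset.mem_filter] at hx hy
    rw [htri x hx.1 y hy.1 hxy, (two_cases' _).resolve_left hx.2,
      (two_cases' _).resolve_left hy.2]
    decide
  · refine ⟨R.filter (fun y => w a y = 0), Finset.filter_subset _ _, hge, ?_⟩
    intro x hx y hy hxy
    rw [Finset.mem_filter] at hx hy
    rw [htri x hx.1 y hy.1 hxy, hx.2, hy.2, add_zero]

/-- **Connecting lemma.** -/
theorem fb {q : ℕ} [Fact q.Prime] {w : α → α → ZMod q}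
    (hw : ∀ a b, w a b = w b a) (n : ℕ) (R : Finset α) (hR : 2 * n + 2 * q ≤ R.card) (a b : α) :
    (∃ C ⊆ R, n ≤ C.card ∧ ZeroClique w C) ∨
      ∃ l : List α, l.Nodup ∧ (∀ x ∈ l, x ∈ R) ∧ l.length ≤ 2 * (q - 1) ∧
        pw w (a :: (l ++ [b])) = 0 := by
  by_cases h2 : q = 2
  · subst h2
    exact fb_two hw n R (by omega) a b
  · exact fb_odd h2 hw n R (by omega) a b

open Classical in
/-- adding edges with the connecting lemma -/
theorem Model.addFB {q : ℕ} [Fact q.Prime] [Fintype α] {w : α → α → ZMod q}
    (hw : ∀ a b, w a b = w b a) (n : ℕ) {E : Finset (Sym2 V)} {X : Finset V} {S : Finset α}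
    {φ : V → α} {I : Sym2 V → List α} (m : Model w E X S φ I) (F : Finset (Sym2 V))
    (hF : ∀ e ∈ F, ∀ v ∈ e, v ∈ X)
    (hc : S.card + 2 * (q - 1) * F.card + (2 * n + 2 * q) ≤ Fintype.card α) :
    (∃ C : Finset α, n ≤ C.card ∧ ZeroClique w C) ∨
      ∃ S' I', Model w (E ∪ F) X S' φ I' ∧ S'.card ≤ S.card + 2 * (q - 1) * F.card := by
  induction F using Finset.induction_on with
  | empty => right; exact ⟨S, I, by rw [Finset.union_empty]; exact m, by simp⟩
  | insert e F heF ih =>
    rw [Finset.card_insert_of_notMem heF] at hc ⊢
    rcases ih (fun e' he' => hF e' (Finset.mem_insert_of_mem he'))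
      (by rw [mul_add] at hc; omega) with h | ⟨S', I', m', hS'⟩
    · exact Or.inl h
    by_cases he : e ∈ E ∪ F
    · right
      refine ⟨S', I', ?_, by rw [mul_add]; omega⟩
      rw [Finset.union_insert, Finset.insert_eq_of_mem he]
      exact m'
    · induction e using Sym2.ind with
      | _ u v =>
        have hu := hF _ (Finset.mem_insert_self _ _) u (Sym2.mem_mk_left u v)
        have hv := hF _ (Finset.mem_insert_self _ _) v (Sym2.mem_mk_right u v)
        have hRc : 2 * n + 2 * q ≤ (S'ᶜ).card := by
          rw [Finset.card_compl]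
          rw [mul_add] at hc
          omega
        rcases fb hw n S'ᶜ hRc (φ u) (φ v) with ⟨C, -, h1, h2⟩ | ⟨l, h1, h2, h3, h4⟩
        · exact Or.inl ⟨C, h1, h2⟩
        · right
          have m'' := m'.insertEdge hu hv he h1 (fun a ha => by
              have := h2 a ha
              rwa [Finset.mem_compl] at this) h4
          rw [← Finset.union_insert] at m''
          refine ⟨_, _, m'', ?_⟩
          · have h5 := Finset.card_union_le S' l.toFinset
            have h6 := List.toFinset_card_le l
            rw [mul_add]
            omega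

end

end MP0dbebe
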