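import Pool.Agent.Lib.MP_0dbebe_co.FB

/-! # Sets in which most pairs have weight zero -/

namespace MP0dbebe

section
variable {V α : Type*}

open Classical in
/-- the new edges when `v` is added to `X` -/
noncomputable def NE (H : SimpleGraph V) (X : Finset V) (v : V) : Finset V :=
  X.filter (fun u => H.Adj v u)

open Classical in
theorem EE_insert (H : SimpleGraph V) (X : Finset V) (v : V) :
    EE H (insert v X) = EE H X ∪ (NE H X v).image (fun u => s(v, u)) := by
  ext e
  induction e using Sym2.ind with
  | _ a b =>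
    rw [Finset.mem_union, mk_mem_EE, mk_mem_EE, Finset.mem_image, Finset.mem_insert,
      Finset.mem_insert]
    simp only [NE, Finset.mem_filter]
    constructor
    · rintro ⟨⟨ha | ha, hb | hb⟩, hab⟩
      · subst ha; subst hb; exact absurd rfl hab.ne
      · subst ha; exact Or.inr ⟨b, ⟨hb, hab⟩, rfl⟩
      · subst hb; exact Or.inr ⟨a, ⟨ha, hab.symm⟩, Sym2.eq_swap⟩
      · exact Or.inl ⟨⟨ha, hb⟩, hab⟩
    · rintro (⟨⟨ha, hb⟩, hab⟩ | ⟨u, ⟨hu, hvu⟩, huv⟩)
      · exact ⟨⟨Or.inr ha, Or.inr hb⟩, hab⟩
      · rw [Sym2.eq_iff] at huv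
        rcases huv with ⟨rfl, rfl⟩ | ⟨rfl, rfl⟩
        · exact ⟨⟨Or.inl rfl, Or.inr hu⟩, hvu⟩
        · exact ⟨⟨Or.inr hu, Or.inl rfl⟩, hvu.symm⟩

open Classical in
theorem EE_insert_disjoint (H : SimpleGraph V) (X : Finset V) (v : V) (hv : v ∉ X) :
    Disjoint (EE H X) ((NE H X v).image (fun u => s(v, u))) := by
  rw [Finset.disjoint_left]
  intro e h1 h2
  rw [Finset.mem_image] at h2
  obtain ⟨u, _, rfl⟩ := h2
  rw [mk_mem_EE] at h1
  exact hv h1.1.1

theorem star_injective (v : V) : Function.Injective (fun u : V => s(v, u)) :=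
  fun _ _ h => Sym2.congr_right.1 h

open Classical in
theorem card_EE_insert (H : SimpleGraph V) (X : Finset V) (v : V) (hv : v ∉ X) :
    (EE H (insert v X)).card = (EE H X).card + (NE H X v).card := by
  rw [EE_insert, Finset.card_union_of_disjoint (EE_insert_disjoint H X v hv),
    Finset.card_image_of_injective _ (star_injective v)]

open Classical in
theorem EE_mono (H : SimpleGraph V) {X Y : Finset V} (h : X ⊆ Y) : EE H X ⊆ EE H Y := by
  intro e he
  rw [mem_EE] at he ⊢
  exact ⟨fun v hv => h (he.1 v hv), he.2⟩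

variable {G : Type*} [AddCommGroup G]

open Classical in
/-- every element of `W` has nonzero weight to at most a quarter of `W` -/
def NZ (w : α → α → G) (W : Finset α) : Prop :=
  ∀ x ∈ W, 4 * (W.filter (fun y => w x y ≠ 0)).card ≤ W.card

open Classical in
theorem exists_of_not_NZ {w : α → α → G} {W : Finset α} (h : ¬ NZ w W) :
    ∃ x ∈ W, ∃ Q : Finset α, (∀ y, y ∈ Q ↔ y ∈ W ∧ w x y ≠ 0) ∧ W.card < 4 * Q.card := by
  unfold NZ at h
  push Not at h
  obtain ⟨x, hx, h⟩ := h
  exact ⟨x, hx, _, fun y => Finset.mem_filter, h⟩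

open Classical in
/-- the edges inside `X` of nonzero weight -/
noncomputable def NZE (w : α → α → G) (H : SimpleGraph V) (X : Finset V) (φ : V → α) :
    Finset (Sym2 V) :=
  (EE H X).filter (fun e => ∃ u v, e = s(u, v) ∧ w (φ u) (φ v) ≠ 0)

theorem NZE_subset (w : α → α → G) (H : SimpleGraph V) (X : Finset V) (φ : V → α) :
    NZE w H X φ ⊆ EE H X := by
  classical
  exact Finset.filter_subset _ _

theorem mem_NZE {w : α → α → G} (hw : ∀ a b, w a b = w b a) {H : SimpleGraph V} {X : Finset V}
    {φ : V → α} {u v : V} : s(u, v) ∈ NZE w H X φ ↔ s(u, v) ∈ EE H X ∧ w (φ u) (φ v) ≠ 0 := by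
  classical
  unfold NZE
  rw [Finset.mem_filter]
  constructor
  · rintro ⟨h1, a, b, hab, h2⟩
    refine ⟨h1, ?_⟩
    rw [Sym2.eq_iff] at hab
    rcases hab with ⟨rfl, rfl⟩ | ⟨rfl, rfl⟩
    · exact h2
    · rw [hw]; exact h2
  · rintro ⟨h1, h2⟩
    exact ⟨h1, u, v, rfl, h2⟩

open Classical in
theorem nz_embed [Fintype V] {w : α → α → G} (hw : ∀ a b, w a b = w b a) (H : SimpleGraph V)
    (W : Finset α) (hW : NZ w W) (hWc : 2 * Fintype.card V ≤ W.card) (hV : Nonempty α)
    (X : Finset V) :
    ∃ φ : V → α, (∀ u ∈ X, φ u ∈ W) ∧ (∀ u ∈ X, ∀ v ∈ X, φ u = φ v → u = v) ∧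
      2 * (NZE w H X φ).card ≤ (EE H X).card := by
  induction X using Finset.induction_on with
  | empty =>
    refine ⟨fun _ => Classical.arbitrary α, by simp, by simp, ?_⟩
    have := NZE_subset w H ∅ (fun _ => Classical.arbitrary α)
    have h2 : EE H ∅ = ∅ := by
      ext e
      induction e using Sym2.ind with
      | _ a b => rw [mk_mem_EE]; simp
    rw [h2] at this
    rw [Finset.subset_empty.1 this]
    simp
  | insert v X hv ih =>
    obtain ⟨φ, h1, h2, h3⟩ := ih
    have hXlt : X.card < Fintype.card V := Finset.card_lt_univ_of_notMem hv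
    set C := W \ X.image φ with hC
    have hCc : W.card ≤ 2 * C.card ∧ 0 < C.card := by
      have e1 := Finset.le_card_sdiff (X.image φ) W
      have e2 := Finset.card_image_le (s := X) (f := φ)
      rw [← hC] at e1
      omega
    set N := NE H X v with hN
    have hsum : ∑ y ∈ C, (N.filter (fun u => w y (φ u) ≠ 0)).card =
        ∑ u ∈ N, (C.filter (fun y => w y (φ u) ≠ 0)).card := by
      simp only [Finset.card_filter]
      exact Finset.sum_comm
    have hsum2 : 4 * ∑ u ∈ N, (C.filter (fun y => w y (φ u) ≠ 0)).card ≤ N.card * W.card := by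
      rw [Finset.mul_sum, ← smul_eq_mul N.card]
      apply Finset.sum_le_card_nsmul
      intro u hu
      have huX : u ∈ X := (Finset.mem_filter.1 hu).1
      refine le_trans ?_ (hW (φ u) (h1 u huX))
      apply Nat.mul_le_mul_left
      apply Finset.card_le_card
      intro y hy
      rw [Finset.mem_filter] at hy ⊢
      refine ⟨(Finset.mem_sdiff.1 hy.1).1, ?_⟩
      rw [hw]; exact hy.2
    obtain ⟨y, hyC, hy⟩ : ∃ y ∈ C, 2 * (N.filter (fun u => w y (φ u) ≠ 0)).card ≤ N.card := by
      by_contra hcon
      push Not at hcon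
      have h4 : C.card • (N.card + 1) ≤ ∑ y ∈ C, 2 * (N.filter (fun u => w y (φ u) ≠ 0)).card :=
        Finset.card_nsmul_le_sum _ _ _ (fun y hy => hcon y hy)
      rw [← Finset.mul_sum, hsum, smul_eq_mul] at h4
      nlinarith [h4, hsum2, hCc.1, hCc.2]
    have hyW : y ∈ W := (Finset.mem_sdiff.1 hyC).1
    have hyX : ∀ u ∈ X, φ u ≠ y := by
      intro u hu h
      exact (Finset.mem_sdiff.1 hyC).2 (h ▸ Finset.mem_image_of_mem φ hu)
    have hφv : ∀ a ∈ X, Function.update φ v y a = φ a := by
      intro a ha
      rw [Function.update_of_ne]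
      rintro rfl; exact hv ha
    refine ⟨Function.update φ v y, ?_, ?_, ?_⟩
    · intro u hu
      rw [Finset.mem_insert] at hu
      rcases hu with rfl | hu
      · rw [Function.update_self]; exact hyW
      · rw [hφv u hu]; exact h1 u hu
    · intro a ha b hb hab
      rw [Finset.mem_insert] at ha hb
      rcases ha with rfl | ha <;> rcases hb with rfl | hb
      · rfl
      · rw [Function.update_self, hφv b hb] at hab
        exact absurd hab.symm (hyX b hb)
      · rw [Function.update_self, hφv a ha] at hab
        exact absurd hab (hyX a ha)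
      · rw [hφv a ha, hφv b hb] at hab
        exact h2 a ha b hb hab
    · have hsub : NZE w H (insert v X) (Function.update φ v y) ⊆
          NZE w H X φ ∪ (N.filter (fun u => w y (φ u) ≠ 0)).image (fun u => s(v, u)) := by
        intro e he
        induction e using Sym2.ind with
        | _ a b =>
          rw [mem_NZE hw, EE_insert, Finset.mem_union] at he
          obtain ⟨he1, hne⟩ := he
          rw [Finset.mem_union, mem_NZE hw]
          rcases he1 with he1 | he1
          · left
            refine ⟨he1, ?_⟩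
            rw [mk_mem_EE] at he1
            rw [hφv a he1.1.1, hφv b he1.1.2] at hne
            exact hne
          · right
            rw [Finset.mem_image] at he1 ⊢
            obtain ⟨u, hu, huv⟩ := he1
            refine ⟨u, ?_, huv⟩
            rw [Finset.mem_filter]
            refine ⟨hu, ?_⟩
            have huX : u ∈ X := (Finset.mem_filter.1 hu).1
            rw [Sym2.eq_iff] at huv
            rcases huv with ⟨rfl, rfl⟩ | ⟨rfl, rfl⟩
            · rw [Function.update_self, hφv u huX] at hne
              exact hne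
            · rw [Function.update_self, hφv u huX, hw] at hne
              exact hne
      have h5 := Finset.card_le_card hsub
      have h6 := Finset.card_union_le (NZE w H X φ)
        ((N.filter (fun u => w y (φ u) ≠ 0)).image (fun u => s(v, u)))
      rw [Finset.card_image_of_injective _ (star_injective v)] at h6
      rw [card_EE_insert H X v hv, ← hN]
      omega

end

section
variable {V α : Type*}

open Classical in
theorem nz_finish {q : ℕ} [Fact q.Prime] [Fintype V] [Fintype α] {w : α → α → ZMod q}
    (hw : ∀ a b, w a b = w b a) (H : SimpleGraph V) (W : Finset α) (hW : NZ w W)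
    (hWc : 2 * Fintype.card V ≤ W.card) (hα : Nonempty α)
    (hc : (q - 1) * (EE H Finset.univ).card + 3 * Fintype.card V + 2 * q ≤ Fintype.card α) :
    HasModel w (EE H Finset.univ) Finset.univ Finset.univ := by
  obtain ⟨φ, h1, h2, h3⟩ := nz_embed hw H W hW hWc hα Finset.univ
  have hinj : Function.Injective φ := fun a b hab =>
    h2 a (Finset.mem_univ _) b (Finset.mem_univ _) hab
  have m := model_zero (w := w) (H := H) hinj
  have himg : (Finset.univ.image φ).card = Fintype.card V := by
    rw [Finset.card_image_of_injective _ hinj, Finset.card_univ]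
  have hle : 2 * (q - 1) * (NZE w H Finset.univ φ).card ≤
      (q - 1) * (EE H Finset.univ).card := by
    calc 2 * (q - 1) * (NZE w H Finset.univ φ).card =
        (q - 1) * (2 * (NZE w H Finset.univ φ).card) := by ring
      _ ≤ _ := Nat.mul_le_mul_left _ h3
  rcases m.addFB hw (Fintype.card V) (NZE w H Finset.univ φ) (fun e _ v _ => Finset.mem_univ v)
    (by rw [himg]; omega) with ⟨C, h4, h5⟩ | ⟨S', I', m', _⟩
  · exact hasModel_of_clique hw H C h4 h5
  · have hE : ZE w H φ ∪ NZE w H Finset.univ φ = EE H Finset.univ := by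
      apply Finset.Subset.antisymm
      · exact Finset.union_subset (ZE_subset w H φ) (NZE_subset w H _ φ)
      · intro e he
        induction e using Sym2.ind with
        | _ a b =>
          rw [Finset.mem_union, mem_ZE hw]
          by_cases h0 : w (φ a) (φ b) = 0
          · left
            rw [mk_mem_EE] at he
            exact ⟨he.2, h0⟩
          · right
            rw [mem_NZE hw]
            exact ⟨he, h0⟩
    rw [hE] at m'
    exact ⟨φ, I', m'.mono (Finset.subset_univ _)⟩

end

end MP0dbebe
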