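import Pool.Agent.Lib.MP_0dbebe_co.Dense4

/-! # Composite moduli: zero-rich sets of linear size, monochromatic cliques in linear sets -/

namespace MP0dbebe

section
variable {V α G : Type*} [AddCommGroup G]

open Classical in
/-- `W` is zero-rich: every element of `W` has nonzero weight to at most `|W|² / (32 f)` elements
of `W` -/
def ZR (w : α → α → G) (f : ℕ) (W : Finset α) : Prop :=
  ∀ x ∈ W, 32 * f * (W.filter (fun y => w x y ≠ 0)).card ≤ W.card ^ 2

open Classical in
theorem exists_of_not_ZR {w : α → α → G} {f : ℕ} {W : Finset α} (h : ¬ ZR w f W) :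
    ∃ x ∈ W, ∃ Q : Finset α, (∀ y, y ∈ Q ↔ y ∈ W ∧ w x y ≠ 0) ∧
      W.card ^ 2 < 32 * f * Q.card := by
  unfold ZR at h
  push Not at h
  obtain ⟨x, hx, h⟩ := h
  exact ⟨x, hx, _, fun y => Finset.mem_filter, h⟩

open Classical in
theorem zr_embed [Fintype V] {w : α → α → G} (hw : ∀ a b, w a b = w b a) (H : SimpleGraph V)
    (f : ℕ) (W : Finset α) (hW : ZR w f W) (hWc : 2 * Fintype.card V ≤ W.card)
    (hpos : 0 < W.card) (X : Finset V) :
    ∃ φ : V → α, (∀ u ∈ X, φ u ∈ W) ∧ (∀ u ∈ X, ∀ v ∈ X, φ u = φ v → u = v) ∧
      16 * f * (NZE w H X φ).card ≤ W.card * (EE H X).card := by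
  induction X using Finset.induction_on with
  | empty =>
    obtain ⟨a, _⟩ := Finset.card_pos.1 hpos
    refine ⟨fun _ => a, by simp, by simp, ?_⟩
    have := NZE_subset w H ∅ (fun _ => a)
    have h2 : EE H ∅ = ∅ := by
      ext e
      induction e using Sym2.ind with
      | _ a b => rw [mk_mem_EE]; simp
    rw [h2] at this
    rw [Finset.subset_empty.1 this]
    simp
  | insert v X hv ih =>
    obtain ⟨φ, h1, h2, h3⟩ := ih
    have hXlt : X.card < Fintype.card V := Finset.card_lt_univ_of_notMem hv
    set C := W \ X.image φ with hC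
    have hCc : W.card ≤ 2 * C.card ∧ 0 < C.card := by
      have e1 := Finset.le_card_sdiff (X.image φ) W
      have e2 := Finset.card_image_le (s := X) (f := φ)
      rw [← hC] at e1
      omega
    set N := NE H X v with hN
    have hsum : ∑ y ∈ C, (N.filter (fun u => w y (φ u) ≠ 0)).card =
        ∑ u ∈ N, (C.filter (fun y => w y (φ u) ≠ 0)).card := by
      simp only [Finset.card_filter]
      exact Finset.sum_comm
    have hsum2 : 32 * f * ∑ u ∈ N, (C.filter (fun y => w y (φ u) ≠ 0)).card ≤
        N.card * W.card ^ 2 := by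
      rw [Finset.mul_sum, ← smul_eq_mul N.card]
      apply Finset.sum_le_card_nsmul
      intro u hu
      have huX : u ∈ X := (Finset.mem_filter.1 hu).1
      refine le_trans ?_ (hW (φ u) (h1 u huX))
      apply Nat.mul_le_mul_left
      apply Finset.card_le_card
      intro y hy
      rw [Finset.mem_filter] at hy ⊢
      refine ⟨(Finset.mem_sdiff.1 hy.1).1, ?_⟩
      rw [hw]; exact hy.2
    obtain ⟨y, hyC, hy⟩ : ∃ y ∈ C, 16 * f * (N.filter (fun u => w y (φ u) ≠ 0)).card ≤
        W.card * N.card := by
      by_contra hcon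
      push Not at hcon
      have h4 : C.card • (W.card * N.card + 1) ≤
          ∑ y ∈ C, 16 * f * (N.filter (fun u => w y (φ u) ≠ 0)).card :=
        Finset.card_nsmul_le_sum _ _ _ (fun y hy => hcon y hy)
      rw [← Finset.mul_sum, hsum, smul_eq_mul] at h4
      have h5 : N.card * W.card ^ 2 ≤ 2 * C.card * (W.card * N.card) := by
        calc N.card * W.card ^ 2 = W.card * (W.card * N.card) := by ring
          _ ≤ 2 * C.card * (W.card * N.card) := Nat.mul_le_mul_right _ hCc.1
      have h6 : C.card * (W.card * N.card + 1) = C.card * (W.card * N.card) + C.card := by ring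
      have h7 : 32 * f * ∑ u ∈ N, (C.filter (fun y => w y (φ u) ≠ 0)).card =
          2 * (16 * f * ∑ u ∈ N, (C.filter (fun y => w y (φ u) ≠ 0)).card) := by ring
      have h8 : 2 * C.card * (W.card * N.card) = 2 * (C.card * (W.card * N.card)) := by ring
      omega
    have hyW : y ∈ W := (Finset.mem_sdiff.1 hyC).1
    have hyX : ∀ u ∈ X, φ u ≠ y := by
      intro u hu h
      exact (Finset.mem_sdiff.1 hyC).2 (h ▸ Finset.mem_image_of_mem φ hu)
    have hφv : ∀ a ∈ X, Function.update φ v y a = φ a := by
      intro a ha
      rw [Function.update_of_ne]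
      rintro rfl; exact hv ha
    refine ⟨Function.update φ v y, ?_, ?_, ?_⟩
    · intro u hu
      rw [Finset.mem_insert] at hu
      rcases hu with rfl | hu
      · rw [Function.update_self]; exact hyW
      · rw [hφv u hu]; exact h1 u hu
    · intro a ha b hb hab
      rw [Finset.mem_insert] at ha hb
      rcases ha with rfl | ha <;> rcases hb with rfl | hb
      · rfl
      · rw [Function.update_self, hφv b hb] at hab
        exact absurd hab.symm (hyX b hb)
      · rw [Function.update_self, hφv a ha] at hab
        exact absurd hab (hyX a ha)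
      · rw [hφv a ha, hφv b hb] at hab
        exact h2 a ha b hb hab
    · have hsub : NZE w H (insert v X) (Function.update φ v y) ⊆
          NZE w H X φ ∪ (N.filter (fun u => w y (φ u) ≠ 0)).image (fun u => s(v, u)) := by
        intro e he
        induction e using Sym2.ind with
        | _ a b =>
          rw [mem_NZE hw, EE_insert, Finset.mem_union] at he
          obtain ⟨he1, hne⟩ := he
          rw [Finset.mem_union, mem_NZE hw]
          rcases he1 with he1 | he1
          · left
            refine ⟨he1, ?_⟩
            rw [mk_mem_EE] at he1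
            rw [hφv a he1.1.1, hφv b he1.1.2] at hne
            exact hne
          · right
            rw [Finset.mem_image] at he1 ⊢
            obtain ⟨u, hu, huv⟩ := he1
            refine ⟨u, ?_, huv⟩
            rw [Finset.mem_filter]
            refine ⟨hu, ?_⟩
            have huX : u ∈ X := (Finset.mem_filter.1 hu).1
            rw [Sym2.eq_iff] at huv
            rcases huv with ⟨rfl, rfl⟩ | ⟨rfl, rfl⟩
            · rw [Function.update_self, hφv u huX] at hne
              exact hne
            · rw [Function.update_self, hφv u huX, hw] at hne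
              exact hne
      have h5 := Finset.card_le_card hsub
      have h6 := Finset.card_union_le (NZE w H X φ)
        ((N.filter (fun u => w y (φ u) ≠ 0)).image (fun u => s(v, u)))
      rw [Finset.card_image_of_injective _ (star_injective v)] at h6
      rw [card_EE_insert H X v hv, ← hN, mul_add]
      have h7 := Nat.mul_le_mul_left (16 * f) (h5.trans h6)
      rw [mul_add] at h7
      omega

open Classical in
/-- a zero-rich set of linear size finishes everything -/
theorem zero_finish [Fintype V] [Fintype α] {w : α → α → G} (hw : ∀ a b, w a b = w b a)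
    (H : SimpleGraph V) (W : Finset α) (hW : ZR w (Fintype.card α) W)
    (hWc : 16 * Fintype.card V ≤ W.card) (hpos : 0 < W.card)
    (hm : (EE H Finset.univ).card ≤ Fintype.card α) :
    HasModel w (EE H Finset.univ) Finset.univ Finset.univ := by
  obtain ⟨φ, h1, h2, h3⟩ := zr_embed hw H _ W hW (by omega) hpos Finset.univ
  have hWα : W.card ≤ Fintype.card α := Finset.card_le_univ W
  have hα : 0 < Fintype.card α := by omega
  have hinj : Function.Injective φ := fun a b hab =>
    h2 a (Finset.mem_univ _) b (Finset.mem_univ _) hab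
  have m := model_zero (w := w) (H := H) hinj
  have himg : (Finset.univ.image φ).card = Fintype.card V := by
    rw [Finset.card_image_of_injective _ hinj, Finset.card_univ]
  set f := Fintype.card α with hf
  have hNZ : 16 * (NZE w H Finset.univ φ).card ≤ W.card := by
    have h4 : f * (16 * (NZE w H Finset.univ φ).card) ≤ f * W.card := by
      calc f * (16 * (NZE w H Finset.univ φ).card) = 16 * f * (NZE w H Finset.univ φ).card := by
            ring
        _ ≤ W.card * (EE H Finset.univ).card := h3
        _ ≤ W.card * f := Nat.mul_le_mul_left _ hm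
        _ = f * W.card := mul_comm _ _
    exact Nat.le_of_mul_le_mul_left h4 hα
  have hbad : ∀ x ∈ W, 32 * (W.filter (fun y => w x y ≠ 0)).card ≤ W.card := by
    intro x hx
    have h4 : f * (32 * (W.filter (fun y => w x y ≠ 0)).card) ≤ f * W.card := by
      calc f * (32 * (W.filter (fun y => w x y ≠ 0)).card) =
            32 * f * (W.filter (fun y => w x y ≠ 0)).card := by ring
        _ ≤ W.card ^ 2 := hW x hx
        _ = W.card * W.card := by ring
        _ ≤ f * W.card := Nat.mul_le_mul_right _ hWα
    exact Nat.le_of_mul_le_mul_left h4 hα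
  obtain ⟨S', I', _, m', _⟩ := m.addGen (NZE w H Finset.univ φ) 1
    (Fintype.card V + (NZE w H Finset.univ φ).card) (by rw [himg]; omega) (by
      intro e he S' _ hS'
      induction e using Sym2.ind with
      | _ u v =>
        refine ⟨u, v, rfl, Finset.mem_univ _, Finset.mem_univ _, ?_⟩
        have hu := h1 u (Finset.mem_univ _)
        have hv := h1 v (Finset.mem_univ _)
        obtain ⟨y, hyW, hyS, hy1, hy2⟩ : ∃ y ∈ W, y ∉ S' ∧ w (φ u) y = 0 ∧ w (φ v) y = 0 := by
          by_contra hcon
          push Not at hcon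
          have hsub : W ⊆ S' ∪ (W.filter (fun y => w (φ u) y ≠ 0) ∪
              W.filter (fun y => w (φ v) y ≠ 0)) := by
            intro y hy
            rw [Finset.mem_union, Finset.mem_union, Finset.mem_filter, Finset.mem_filter]
            by_cases a1 : y ∈ S'
            · exact Or.inl a1
            · by_cases a2 : w (φ u) y = 0
              · exact Or.inr (Or.inr ⟨hy, hcon y hy a1 a2⟩)
              · exact Or.inr (Or.inl ⟨hy, a2⟩)
          have c1 := Finset.card_le_card hsub
          have c2 := Finset.card_union_le S' (W.filter (fun y => w (φ u) y ≠ 0) ∪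
              W.filter (fun y => w (φ v) y ≠ 0))
          have c3 := Finset.card_union_le (W.filter (fun y => w (φ u) y ≠ 0))
              (W.filter (fun y => w (φ v) y ≠ 0))
          have c4 := hbad _ hu
          have c5 := hbad _ hv
          omega
        refine ⟨[y], by simp, ?_, by simp, ?_⟩
        · intro x hx
          rw [List.mem_singleton] at hx
          subst hx
          exact hyS
        · rw [List.singleton_append, pw_cons_cons, pw_cons_cons, pw_single, hy1, hw y, hy2]
          simp)
  have hE : ZE w H φ ∪ NZE w H Finset.univ φ = EE H Finset.univ := by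
    apply Finset.Subset.antisymm
    · exact Finset.union_subset (ZE_subset w H φ) (NZE_subset w H _ φ)
    · intro e he
      induction e using Sym2.ind with
      | _ a b =>
        rw [Finset.mem_union, mem_ZE hw]
        by_cases h0 : w (φ a) (φ b) = 0
        · left
          rw [mk_mem_EE] at he
          exact ⟨he.2, h0⟩
        · right
          rw [mem_NZE hw]
          exact ⟨he, h0⟩
  rw [hE] at m'
  exact ⟨φ, I', m'.mono (Finset.subset_univ _)⟩

end

section
variable {V α : Type*} {q : ℕ}

open Classical in
/-- one step: a zero-rich half, or a vertex with many neighbours of one nonzero colour -/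
theorem nested_lin [Fact (1 < q)] {w : α → α → ZMod q} (U : α → Finset α) (u f D : ℕ)
    (hU : ∀ y, (U y).card ≤ u) (hf : 256 * D ^ 2 * (3 * u + 1) ≤ f) (hfpos : 0 < f)
    (S : Finset α) (hS : f ≤ D * S.card) :
    (∃ W ⊆ S, ZR w f W ∧ S.card ≤ 2 * W.card) ∨
      ∃ x ∈ S, ∃ t : ZMod q, t ≠ 0 ∧ ∃ P ⊆ S, x ∉ P ∧ f ≤ 256 * q * D ^ 2 * P.card ∧
        ∀ y ∈ P, w x y = t ∧ ¬ Bad U x y := by
  have hq : 1 < q := Fact.out
  set S₁ := S.filter (fun x => (S.filter (fun y => x ∈ U y)).card ≤ 2 * u) with hS₁
  have hS₁sub : S₁ ⊆ S := Finset.filter_subset _ _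
  have hsum : ∑ x ∈ S, (S.filter (fun y => x ∈ U y)).card ≤ S.card * u := by
    have e : ∑ x ∈ S, (S.filter (fun y => x ∈ U y)).card =
        ∑ y ∈ S, (S.filter (fun x => x ∈ U y)).card := by
      simp only [Finset.card_filter]
      exact Finset.sum_comm
    rw [e, ← smul_eq_mul]
    apply Finset.sum_le_card_nsmul
    intro y _
    refine le_trans (Finset.card_le_card ?_) (hU y)
    intro x hx
    exact (Finset.mem_filter.1 hx).2
  have hhalf : S.card ≤ 2 * S₁.card := by
    have h1 : (S.filter (fun x => ¬ (S.filter (fun y => x ∈ U y)).card ≤ 2 * u)).card •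
        (2 * u + 1) ≤ ∑ x ∈ S.filter (fun x => ¬ (S.filter (fun y => x ∈ U y)).card ≤ 2 * u),
          (S.filter (fun y => x ∈ U y)).card := by
      apply Finset.card_nsmul_le_sum
      intro x hx
      have := (Finset.mem_filter.1 hx).2
      omega
    have h2 : ∑ x ∈ S.filter (fun x => ¬ (S.filter (fun y => x ∈ U y)).card ≤ 2 * u),
          (S.filter (fun y => x ∈ U y)).card ≤ ∑ x ∈ S, (S.filter (fun y => x ∈ U y)).card :=
      Finset.sum_le_sum_of_subset (Finset.filter_subset _ _)
    have h3 := Finset.card_filter_add_card_filter_not (s := S)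
      (fun x => (S.filter (fun y => x ∈ U y)).card ≤ 2 * u)
    rw [← hS₁] at h3
    rw [smul_eq_mul] at h1
    by_contra hcon
    push Not at hcon
    have h4 := h1.trans (h2.trans hsum)
    nlinarith
  by_cases hZR : ZR w f S₁
  · exact Or.inl ⟨S₁, hS₁sub, hZR, hhalf⟩
  right
  obtain ⟨x, hx, Q, hQ, hbig⟩ := exists_of_not_ZR hZR
  -- the neighbourhood is large
  have hQbig : f < 128 * D ^ 2 * Q.card := by
    have h1 : f ^ 2 ≤ D ^ 2 * (4 * S₁.card ^ 2) := by
      calc f ^ 2 ≤ (D * S.card) ^ 2 := Nat.pow_le_pow_left hS 2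
        _ ≤ (D * (2 * S₁.card)) ^ 2 := Nat.pow_le_pow_left (Nat.mul_le_mul_left _ hhalf) 2
        _ = D ^ 2 * (4 * S₁.card ^ 2) := by ring
    have hDpos : 0 < D := by
      rcases Nat.eq_zero_or_pos D with h0 | h0
      · rw [h0, zero_mul] at hS; omega
      · exact h0
    have h2 : D ^ 2 * (4 * S₁.card ^ 2) < D ^ 2 * (4 * (32 * f * Q.card)) := by
      apply Nat.mul_lt_mul_of_pos_left _ (by positivity)
      omega
    have h3 : f * f < f * (128 * D ^ 2 * Q.card) := by
      calc f * f = f ^ 2 := by ring
        _ < D ^ 2 * (4 * (32 * f * Q.card)) := lt_of_le_of_lt h1 h2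
        _ = f * (128 * D ^ 2 * Q.card) := by ring
    exact lt_of_mul_lt_mul_left h3 (Nat.zero_le _)
  set P₀ := Q.filter (fun y => y ≠ x ∧ ¬ Bad U x y) with hP₀
  have hQP : Q.card ≤ P₀.card + (3 * u + 1) := by
    have h1 := Finset.card_filter_add_card_filter_not (s := Q) (fun y => y ≠ x ∧ ¬ Bad U x y)
    rw [← hP₀] at h1
    have h2 : Q.filter (fun y => ¬ (y ≠ x ∧ ¬ Bad U x y)) ⊆
        ({x} ∪ U x) ∪ S.filter (fun y => x ∈ U y) := by
      intro y hy
      rw [Finset.mem_filter] at hy
      obtain ⟨hy1, hy2⟩ := hy
      rw [Finset.mem_union, Finset.mem_union, Finset.mem_singleton, Finset.mem_filter]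
      by_cases hyx : y = x
      · exact Or.inl (Or.inl hyx)
      · have hb : Bad U x y := by
          by_contra h
          exact hy2 ⟨hyx, h⟩
        rcases hb with hb | hb
        · exact Or.inr ⟨hS₁sub ((hQ y).1 hy1).1, hb⟩
        · exact Or.inl (Or.inr hb)
    have h3 := Finset.card_le_card h2
    have h4 := Finset.card_union_le ({x} ∪ U x) (S.filter (fun y => x ∈ U y))
    have h5 := Finset.card_union_le {x} (U x)
    rw [Finset.card_singleton] at h5
    have h6 := hU x
    have h7 := (Finset.mem_filter.1 hx).2
    omega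
  have hP₀big : f < 256 * D ^ 2 * P₀.card := by
    have h1 : 256 * D ^ 2 * Q.card ≤ 256 * D ^ 2 * (P₀.card + (3 * u + 1)) :=
      Nat.mul_le_mul_left _ hQP
    rw [mul_add] at h1
    have h2 : 256 * D ^ 2 * Q.card = 2 * (128 * D ^ 2 * Q.card) := by ring
    omega
  have hfib : P₀.card = ∑ t ∈ Finset.univ.erase (0 : ZMod q),
      (P₀.filter (fun y => w x y = t)).card := by
    apply Finset.card_eq_sum_card_fiberwise
    intro y hy
    rw [Finset.mem_coe, Finset.mem_erase]
    refine ⟨?_, Finset.mem_univ _⟩
    rw [Finset.mem_coe, hP₀, Finset.mem_filter, hQ] at hy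
    exact hy.1.2
  have hpos : 0 < P₀.card := by
    rcases Nat.eq_zero_or_pos P₀.card with h0 | h0
    · rw [h0, mul_zero] at hP₀big; omega
    · exact h0
  have hne : (Finset.univ.erase (0 : ZMod q)).Nonempty := by
    rw [Finset.nonempty_iff_ne_empty]
    intro h
    rw [h, Finset.sum_empty] at hfib
    omega
  obtain ⟨t, ht, hle⟩ : ∃ t ∈ Finset.univ.erase (0 : ZMod q),
      P₀.card ≤ (q - 1) * (P₀.filter (fun y => w x y = t)).card := by
    by_contra hcon
    push Not at hcon
    have := Finset.sum_lt_sum_of_nonempty hne hcon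
    rw [← Finset.mul_sum, ← hfib, Finset.sum_const, Finset.card_erase_of_mem (Finset.mem_univ _),
      Finset.card_univ, ZMod.card, smul_eq_mul] at this
    exact lt_irrefl _ this
  refine ⟨x, hS₁sub hx, t, (Finset.mem_erase.1 ht).1, P₀.filter (fun y => w x y = t), ?_, ?_, ?_,
    ?_⟩
  · intro y hy
    exact hS₁sub ((hQ y).1 (Finset.mem_filter.1 (Finset.mem_filter.1 hy).1).1).1
  · intro h
    exact (Finset.mem_filter.1 (Finset.mem_filter.1 h).1).2.1 rfl
  · calc f ≤ 256 * D ^ 2 * P₀.card := hP₀big.le
      _ ≤ 256 * D ^ 2 * (q * (P₀.filter (fun y => w x y = t)).card) :=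
        Nat.mul_le_mul_left _ (hle.trans (Nat.mul_le_mul_right _ (by omega)))
      _ = _ := by ring
  · intro y hy
    exact ⟨(Finset.mem_filter.1 hy).2, (Finset.mem_filter.1 (Finset.mem_filter.1 hy).1).2.2⟩

/-- the loss of `N` steps -/
def sqD (q : ℕ) : ℕ → ℕ → ℕ
  | 0, D => D
  | N + 1, D => sqD q N (256 * q * D ^ 2)

theorem le_sqD (hq : 1 < q) (N D : ℕ) : D ≤ sqD q N D := by
  induction N generalizing D with
  | zero => exact le_rfl
  | succ N ih =>
    refine le_trans ?_ (ih _)
    rcases Nat.eq_zero_or_pos D with h | h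
    · rw [h]; exact Nat.zero_le _
    · calc D ≤ D * (256 * q * D) := Nat.le_mul_of_pos_right _ (by positivity)
        _ = 256 * q * D ^ 2 := by ring

theorem sqD_mono (N D D' : ℕ) (h : D ≤ D') : sqD q N D ≤ sqD q N D' := by
  induction N generalizing D D' with
  | zero => exact h
  | succ N ih =>
    apply ih
    exact Nat.mul_le_mul_left _ (Nat.pow_le_pow_left h 2)

open Classical in
/-- **Cliques in sets of linear size**: a set of linear size contains a monochromatic clique of
nonzero colour and prescribed size, free of conflicts, or everything is easy. -/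
theorem ramsey_lin [Fact (1 < q)] [Fintype V] [Fintype α] {w : α → α → ZMod q}
    (hw : ∀ a b, w a b = w b a) (H : SimpleGraph V)
    (hm : (EE H Finset.univ).card ≤ Fintype.card α) (hα : 0 < Fintype.card α)
    (U : α → Finset α) (u : ℕ) (hU : ∀ y, (U y).card ≤ u) :
    ∀ N D : ℕ, ∀ g : ZMod q → ℕ, (∑ t ∈ Finset.univ.erase (0 : ZMod q), g t) ≤ N →
      sqD q N D * (3 * u + 1 + Fintype.card V) ≤ Fintype.card α →
      ∀ S : Finset α, Fintype.card α ≤ D * S.card →
        HasModel w (EE H Finset.univ) Finset.univ Finset.univ ∨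
          ∃ t : ZMod q, t ≠ 0 ∧ ∃ T ⊆ S, T.card = g t ∧
            ∀ x ∈ T, ∀ y ∈ T, x ≠ y → w x y = t ∧ ¬ Bad U x y := by
  have hq : 1 < q := Fact.out
  intro N
  induction N with
  | zero =>
    intro D g hg _ S hS
    right
    refine ⟨1, one_ne_zero, ∅, Finset.empty_subset _, ?_, by simp⟩
    have h2 : g 1 ≤ ∑ t ∈ Finset.univ.erase (0 : ZMod q), g t :=
      Finset.single_le_sum (fun _ _ => Nat.zero_le _)
        (Finset.mem_erase.2 ⟨one_ne_zero, Finset.mem_univ _⟩)
    rw [Finset.card_empty]; omega
  | succ N ih =>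
    intro D g hg hbig S hS
    by_cases h0 : ∃ t : ZMod q, t ≠ 0 ∧ g t = 0
    · obtain ⟨t, ht, ht0⟩ := h0
      right
      exact ⟨t, ht, ∅, Finset.empty_subset _, by rw [ht0]; simp, by simp⟩
    push Not at h0
    have hDpos : 0 < D := by
      rcases Nat.eq_zero_or_pos D with h0 | h0
      · rw [h0, zero_mul] at hS; omega
      · exact h0
    have hD1 : 256 * q * D ^ 2 ≤ sqD q (N + 1) D := le_sqD hq N _
    have hbig1 : 256 * q * D ^ 2 * (3 * u + 1 + Fintype.card V) ≤ Fintype.card α :=
      (Nat.mul_le_mul_right _ hD1).trans hbig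
    rcases nested_lin (w := w) U u (Fintype.card α) D hU (by
        refine le_trans ?_ hbig1
        calc 256 * D ^ 2 * (3 * u + 1) ≤ 256 * D ^ 2 * (q * (3 * u + 1 + Fintype.card V)) := by
              apply Nat.mul_le_mul_left
              calc 3 * u + 1 ≤ 3 * u + 1 + Fintype.card V := by omega
                _ ≤ q * (3 * u + 1 + Fintype.card V) := Nat.le_mul_of_pos_left _ (by omega)
          _ = 256 * q * D ^ 2 * (3 * u + 1 + Fintype.card V) := by ring) hα S hS with
      ⟨W, h1, h2, h3⟩ | ⟨x, hx, t, ht, P, hPS, hxP, hPc, hP⟩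
    · left
      have hW : Fintype.card α ≤ 2 * D * W.card := by
        calc Fintype.card α ≤ D * S.card := hS
          _ ≤ D * (2 * W.card) := Nat.mul_le_mul_left _ h3
          _ = 2 * D * W.card := by ring
      have hWpos : 0 < W.card := by
        rcases Nat.eq_zero_or_pos W.card with h0 | h0
        · rw [h0, mul_zero] at hW; omega
        · exact h0
      apply zero_finish hw H W h2 _ hWpos hm
      have h4 : 2 * D * (16 * Fintype.card V) ≤ 2 * D * W.card := by
        refine le_trans ?_ hW
        refine le_trans ?_ hbig1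
        calc 2 * D * (16 * Fintype.card V) = 32 * D * Fintype.card V := by ring
          _ ≤ 256 * q * D ^ 2 * (3 * u + 1 + Fintype.card V) := by
            apply Nat.mul_le_mul _ (by omega)
            calc 32 * D ≤ 32 * D * (8 * q * D) := Nat.le_mul_of_pos_right _ (by positivity)
              _ = 256 * q * D ^ 2 := by ring
      exact Nat.le_of_mul_le_mul_left h4 (by omega)
    · have hg' : (∑ s ∈ Finset.univ.erase (0 : ZMod q), Function.update g t (g t - 1) s) ≤ N := by
        have htm : t ∈ Finset.univ.erase (0 : ZMod q) := Finset.mem_erase.2 ⟨ht, Finset.mem_univ _⟩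
        rw [← Finset.add_sum_erase _ _ htm] at hg ⊢
        rw [Function.update_self]
        have h5 : ∑ s ∈ (Finset.univ.erase (0 : ZMod q)).erase t,
            Function.update g t (g t - 1) s = ∑ s ∈ (Finset.univ.erase (0 : ZMod q)).erase t, g s := by
          apply Finset.sum_congr rfl
          intro s hs
          rw [Function.update_of_ne (Finset.mem_erase.1 hs).1]
        rw [h5]
        have := h0 t ht
        omega
      rcases ih (256 * q * D ^ 2) _ hg' hbig P hPc with h1 | ⟨s, hs, T, hTP, hTc, hT⟩
      · exact Or.inl h1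
      · right
        by_cases hst : s = t
        · subst hst
          refine ⟨s, hs, insert x T, Finset.insert_subset hx (hTP.trans hPS), ?_, ?_⟩
          · rw [Finset.card_insert_of_notMem (fun h => hxP (hTP h)), hTc, Function.update_self]
            have := h0 s hs
            omega
          · intro a ha b hb hab
            rw [Finset.mem_insert] at ha hb
            rcases ha with rfl | ha <;> rcases hb with rfl | hb
            · exact absurd rfl hab
            · exact hP b (hTP hb)
            · have := hP a (hTP ha)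
              exact ⟨by rw [hw]; exact this.1, fun h => this.2 h.symm⟩
            · exact hT a ha b hb hab
        · refine ⟨s, hs, T, hTP.trans hPS, ?_, hT⟩
          rw [hTc, Function.update_of_ne hst]

end

end MP0dbebe
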