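import Pool.Agent.Lib.MP_0dbebe_co.CQ0

/-! # Composite moduli: the part of the vertices without cliques of unit colour -/

namespace MP0dbebe

section
variable {V α : Type*} {q : ℕ}

/-- for a suitable small conflict function there is no conflict-free monochromatic clique of size
`r` whose colour is a unit -/
def UnitFree (w : α → α → ZMod q) (u r : ℕ) (A : Finset α) : Prop :=
  ∃ U : α → Finset α, (∀ y, (U y).card ≤ u) ∧ ∀ t : ZMod q, IsUnit t → ∀ T ⊆ A, T.card = r →
    ¬ ∀ x ∈ T, ∀ y ∈ T, x ≠ y → w x y = t ∧ ¬ Bad U x y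

theorem UnitFree.mono {w : α → α → ZMod q} {u r : ℕ} {A B : Finset α} (h : UnitFree w u r A)
    (hB : B ⊆ A) : UnitFree w u r B := by
  obtain ⟨U, h1, h2⟩ := h
  exact ⟨U, h1, fun t ht T hT => h2 t ht T (hT.trans hB)⟩

open Classical in
/-- a maximal family of disjoint unit-free sets of linear size -/
theorem exists_unitfree_part [Fintype α] (hα : 0 < Fintype.card α) (w : α → α → ZMod q)
    (u r D : ℕ) :
    ∃ P : Finset (Finset α), (∀ A ∈ P, ∀ B ∈ P, A ≠ B → Disjoint A B) ∧
      (∀ A ∈ P, Fintype.card α ≤ D * A.card ∧ UnitFree w u r A) ∧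
      ∀ A : Finset α, Disjoint A (P.biUnion id) → Fintype.card α ≤ D * A.card →
        ¬ UnitFree w u r A := by
  obtain ⟨P, hP, hmax⟩ := Finset.exists_max_image
    ((Finset.univ : Finset (Finset (Finset α))).filter (fun P =>
      (∀ A ∈ P, ∀ B ∈ P, A ≠ B → Disjoint A B) ∧
      (∀ A ∈ P, Fintype.card α ≤ D * A.card ∧ UnitFree w u r A))) Finset.card
    ⟨∅, Finset.mem_filter.2 ⟨Finset.mem_univ _, by simp, by simp⟩⟩
  rw [Finset.mem_filter] at hP
  obtain ⟨-, h1, h2⟩ := hP
  refine ⟨P, h1, h2, ?_⟩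
  intro A hA hAc hAf
  have hAP : A ∉ P := by
    intro hmem
    have h3 : A ⊆ P.biUnion id := fun x hx => Finset.mem_biUnion.2 ⟨A, hmem, hx⟩
    have h4 : A = ∅ := by
      rw [Finset.eq_empty_iff_forall_notMem]
      intro x hx
      exact Finset.disjoint_left.1 hA hx (h3 hx)
    rw [h4, Finset.card_empty, mul_zero] at hAc
    omega
  have hdis : ∀ B ∈ P, Disjoint A B := by
    intro B hB
    rw [Finset.disjoint_left]
    intro x hx hxB
    exact Finset.disjoint_left.1 hA hx (Finset.mem_biUnion.2 ⟨B, hB, hxB⟩)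
  have h5 := hmax (insert A P) (Finset.mem_filter.2 ⟨Finset.mem_univ _, ?_, ?_⟩)
  · rw [Finset.card_insert_of_notMem hAP] at h5
    omega
  · intro B hB B' hB' hne
    rw [Finset.mem_insert] at hB hB'
    rcases hB with rfl | hB <;> rcases hB' with rfl | hB'
    · exact absurd rfl hne
    · exact hdis B' hB'
    · exact (hdis B hB).symm
    · exact h1 B hB B' hB' hne
  · intro B hB
    rw [Finset.mem_insert] at hB
    rcases hB with rfl | hB
    · exact ⟨hAc, hAf⟩
    · exact h2 B hB

open Classical in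
/-- a linear part of a subset of the union lies in one of the sets -/
theorem exists_piece [Fintype α] (hα : 0 < Fintype.card α) {w : α → α → ZMod q} {u r D : ℕ}
    {P : Finset (Finset α)} (h1 : ∀ A ∈ P, ∀ B ∈ P, A ≠ B → Disjoint A B)
    (h2 : ∀ A ∈ P, Fintype.card α ≤ D * A.card ∧ UnitFree w u r A)
    (W : Finset α) (hW : W ⊆ P.biUnion id) (D' : ℕ) (hWc : Fintype.card α ≤ D' * W.card) :
    ∃ B ⊆ W, UnitFree w u r B ∧ Fintype.card α ≤ D * D' * B.card := by
  have hPD : P.card ≤ D := by
    have h3 : P.card * Fintype.card α ≤ D * Fintype.card α := by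
      calc P.card * Fintype.card α ≤ ∑ A ∈ P, D * A.card := by
            rw [← smul_eq_mul]
            exact Finset.card_nsmul_le_sum _ _ _ (fun A hA => (h2 A hA).1)
        _ = D * ∑ A ∈ P, A.card := (Finset.mul_sum _ _ _).symm
        _ = D * (P.biUnion id).card := by
            congr 1
            rw [Finset.card_biUnion]
            · rfl
            · intro A hA B hB hne
              exact h1 A hA B hB hne
        _ ≤ D * Fintype.card α := Nat.mul_le_mul_left _ (Finset.card_le_univ _)
    exact Nat.le_of_mul_le_mul_right h3 hα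
  have hWpos : 0 < W.card := by
    rcases Nat.eq_zero_or_pos W.card with h0 | h0
    · rw [h0, mul_zero] at hWc; omega
    · exact h0
  obtain ⟨A, hA, hAW⟩ : ∃ A ∈ P, W.card ≤ D * (W ∩ A).card := by
    by_contra hcon
    push Not at hcon
    have h3 : W.card ≤ ∑ A ∈ P, (W ∩ A).card := by
      have h4 : W ⊆ P.biUnion (fun A => W ∩ A) := by
        intro x hx
        obtain ⟨A, hA, hxA⟩ := Finset.mem_biUnion.1 (hW hx)
        exact Finset.mem_biUnion.2 ⟨A, hA, Finset.mem_inter.2 ⟨hx, hxA⟩⟩
      exact (Finset.card_le_card h4).trans Finset.card_biUnion_le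
    have hPne : P.Nonempty := by
      rw [Finset.nonempty_iff_ne_empty]
      rintro rfl
      rw [Finset.sum_empty] at h3
      omega
    have h5 := Finset.sum_lt_sum_of_nonempty hPne hcon
    rw [← Finset.mul_sum, Finset.sum_const, smul_eq_mul] at h5
    have h6 : D * W.card ≤ D * ∑ A ∈ P, (W ∩ A).card := Nat.mul_le_mul_left _ h3
    have h7 : P.card * W.card ≤ D * W.card := Nat.mul_le_mul_right _ hPD
    omega
  refine ⟨W ∩ A, Finset.inter_subset_left, (h2 A hA).2.mono Finset.inter_subset_right, ?_⟩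
  calc Fintype.card α ≤ D' * W.card := hWc
    _ ≤ D' * (D * (W ∩ A).card) := Nat.mul_le_mul_left _ hAW
    _ = D * D' * (W ∩ A).card := by ring

/-- the constant in `exists_adm` -/
def admC (q R D D' : ℕ) : ℕ := 3 * q * sqD q ((q + 1 + R) * (q - 1)) (D * D')

open Classical in
/-- **Admissible cliques**: every linear subset of the unit-free part contains a large clique
whose colour is neither zero nor a unit, or everything is easy. -/
theorem exists_adm [Fact (1 < q)] [Fintype V] [Fintype α] {w : α → α → ZMod q}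
    (hw : ∀ a b, w a b = w b a) (H : SimpleGraph V) (hn : 1 ≤ Fintype.card V)
    (hm : (EE H Finset.univ).card ≤ Fintype.card α) (R D D' : ℕ)
    {P : Finset (Finset α)} (h1 : ∀ A ∈ P, ∀ B ∈ P, A ≠ B → Disjoint A B)
    (h2 : ∀ A ∈ P, Fintype.card α ≤ D * A.card ∧
      UnitFree w ((q - 1) * Fintype.card V) (q + 1) A)
    (hbig : admC q R D D' * Fintype.card V ≤ Fintype.card α) (hα : 0 < Fintype.card α) :
    HasModel w (EE H Finset.univ) Finset.univ Finset.univ ∨
      ∀ W ⊆ P.biUnion id, Fintype.card α ≤ D' * W.card →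
        ∃ t : ZMod q, t ≠ 0 ∧ ¬ IsUnit t ∧ ∃ T ⊆ W, T.card = R ∧
          ∀ x ∈ T, ∀ y ∈ T, x ≠ y → w x y = t := by
  have hq : 1 < q := Fact.out
  by_cases hfull : HasModel w (EE H Finset.univ) Finset.univ Finset.univ
  · exact Or.inl hfull
  right
  intro W hW hWc
  obtain ⟨B, hBW, ⟨U, hU1, hU2⟩, hBc⟩ := exists_piece hα h1 h2 W hW D' hWc
  have hg : (∑ t ∈ Finset.univ.erase (0 : ZMod q), (if IsUnit t then q + 1 else R)) ≤
      (q + 1 + R) * (q - 1) := by
    refine (Finset.sum_le_card_nsmul _ _ (q + 1 + R) ?_).trans ?_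
    · intro t _
      split_ifs <;> omega
    · rw [Finset.card_erase_of_mem (Finset.mem_univ _), Finset.card_univ, ZMod.card, smul_eq_mul,
        mul_comm]
  have hbig' : sqD q ((q + 1 + R) * (q - 1)) (D * D') *
      (3 * ((q - 1) * Fintype.card V) + 1 + Fintype.card V) ≤ Fintype.card α := by
    refine le_trans ?_ hbig
    unfold admC
    calc sqD q ((q + 1 + R) * (q - 1)) (D * D') *
          (3 * ((q - 1) * Fintype.card V) + 1 + Fintype.card V)
        ≤ sqD q ((q + 1 + R) * (q - 1)) (D * D') * (3 * q * Fintype.card V) := by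
          apply Nat.mul_le_mul_left
          obtain ⟨k, rfl⟩ : ∃ k, q = k + 1 := ⟨q - 1, by omega⟩
          rw [Nat.add_sub_cancel]
          nlinarith
      _ = _ := by ring
  rcases ramsey_lin hw H hm hα U _ hU1 ((q + 1 + R) * (q - 1)) (D * D')
    (fun t => if IsUnit t then q + 1 else R) hg hbig' B hBc with h | ⟨t, ht, T, hTB, hTc, hT⟩
  · exact absurd h hfull
  · by_cases htu : IsUnit t
    · rw [if_pos htu] at hTc
      exact absurd hT (hU2 t htu T hTB hTc)
    · rw [if_neg htu] at hTc
      exact ⟨t, ht, htu, T, hTB.trans hBW, hTc, fun x hx y hy hxy => (hT x hx y hy hxy).1⟩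

end

/-- **Claim N**: in a union of unit-free sets of linear size, a graph with few edges can be
subdivided, at the cost of less than `q - 2 + small` vertices per edge. -/
def ClaimN (q : ℕ) : Prop :=
  ∀ D : ℕ, 2 ≤ D → ∃ C : ℕ, ∀ (V α : Type) [Fintype V] [Fintype α] (w : α → α → ZMod q),
    (∀ a b, w a b = w b a) → ∀ (H : SimpleGraph V) (P : Finset (Finset α)) (N : Finset α),
      (∀ A ∈ P, ∀ B ∈ P, A ≠ B → Disjoint A B) →
      (∀ A ∈ P, Fintype.card α ≤ D * A.card ∧
        UnitFree w ((q - 1) * Fintype.card V) (q + 1) A) →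
      (∀ x, x ∈ N ↔ ∃ A ∈ P, x ∈ A) →
      Fintype.card α ≤ D * N.card →
      Fintype.card α = (q - 1) * (EE H Finset.univ).card + Fintype.card V →
      ∀ X : Finset V, (q - 2) * D * (EE H X).card ≤ (D - 1) * N.card →
        Fintype.card α ≤ 8 * q * D * (EE H X).card →
        C * Fintype.card V ≤ (EE H X).card →
        HasModel w (EE H Finset.univ) Finset.univ Finset.univ ∨ HasModel w (EE H X) X N

end MP0dbebe
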