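import Pool.Agent.Lib.MP_0dbebe_co.CQ1

/-! # Composite moduli: adding one vertex while there are cliques of unit colour -/

namespace MP0dbebe

section
variable {V α : Type*} {q : ℕ}

/-- there are conflict-free cliques of unit colour in every large set outside `Wa` -/
def Rich [Fintype α] (w : α → α → ZMod q) (u D : ℕ) (Wa : Finset α) : Prop :=
  ∀ A : Finset α, Disjoint A Wa → Fintype.card α ≤ D * A.card → ¬ UnitFree w u (q + 1) A

theorem exists_unit_clique {w : α → α → ZMod q} {u r : ℕ} {A : Finset α}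
    (h : ¬ UnitFree w u r A) (U : α → Finset α) (hU : ∀ y, (U y).card ≤ u) :
    ∃ t : ZMod q, IsUnit t ∧ ∃ T ⊆ A, T.card = r ∧
      ∀ x ∈ T, ∀ y ∈ T, x ≠ y → w x y = t ∧ ¬ Bad U x y := by
  by_contra hcon
  apply h
  refine ⟨U, hU, ?_⟩
  intro t ht T hT hTc hmono
  exact hcon ⟨t, ht, T, hT, hTc, hmono⟩

open Classical in
/-- a clique of unit colour joins any two vertices -/
theorem unit_join [Fact (1 < q)] {w : α → α → ZMod q} (T : Finset α) (t : ZMod q)
    (ht : IsUnit t) (hTc : T.card = q + 1) (hT : ∀ x ∈ T, ∀ y ∈ T, x ≠ y → w x y = t)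
    (a b : α) :
    ∃ l : List α, l.Nodup ∧ (∀ x ∈ l, x ∈ T) ∧ l.length ≤ q + 1 ∧
      pw w (a :: (l ++ [b])) = 0 := by
  have hq : 1 < q := Fact.out
  obtain ⟨x, hx, y, hy, hxy⟩ := Finset.one_lt_card.1 (by omega : 1 < T.card)
  obtain ⟨j, hj1, hjq, hj⟩ : ∃ j : ℕ, 1 ≤ j ∧ j ≤ q ∧
      w a x + (j : ZMod q) * t + w y b = 0 := by
    set j := ((- (w a x + w y b)) * t⁻¹).val with hj
    have hjt : ((j : ℕ) : ZMod q) * t = - (w a x + w y b) := by
      rw [hj, ZMod.natCast_zmod_val, mul_assoc, ZMod.inv_mul_of_unit t ht, mul_one]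
    have hjq : j < q := ZMod.val_lt _
    by_cases h0 : j = 0
    · refine ⟨q, hq.le, le_rfl, ?_⟩
      rw [h0, Nat.cast_zero, zero_mul] at hjt
      rw [ZMod.natCast_self, zero_mul, add_zero]
      have := congrArg Neg.neg hjt
      rw [neg_zero, neg_neg] at this
      exact this.symm
    · refine ⟨j, by omega, hjq.le, ?_⟩
      rw [hjt]; ring
  set T' := (T.erase x).erase y with hT'
  have hT'c : T'.card = q - 1 := by
    rw [hT', Finset.card_erase_of_mem (Finset.mem_erase.2 ⟨hxy.symm, hy⟩),
      Finset.card_erase_of_mem hx, hTc]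
    omega
  set rest := T'.toList.take (j - 1) with hrest
  have hrl : rest.length = j - 1 := by
    rw [hrest, List.length_take, Finset.length_toList]
    omega
  have hrnd : rest.Nodup := (Finset.nodup_toList T').sublist (List.take_sublist _ _)
  have hrT : ∀ a ∈ rest, a ∈ T ∧ a ≠ x ∧ a ≠ y := by
    intro c hc
    have := Finset.mem_toList.1 (List.mem_of_mem_take hc)
    rw [hT', Finset.mem_erase, Finset.mem_erase] at this
    exact ⟨this.2.2, this.2.1, this.1⟩
  have hxr : x ∉ rest := fun h => (hrT x h).2.1 rfl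
  have hyr : y ∉ rest := fun h => (hrT y h).2.2 rfl
  have hnd : (x :: (rest ++ [y])).Nodup := by
    rw [List.nodup_cons, List.nodup_append, List.mem_append, List.mem_singleton]
    refine ⟨fun h => h.elim hxr hxy, hrnd, by simp, ?_⟩
    intro c hc d hd hcd
    rw [List.mem_singleton] at hd
    subst hd; subst hcd
    exact hyr hc
  have hmem : ∀ z ∈ x :: (rest ++ [y]), z ∈ T := by
    intro z hz
    rw [List.mem_cons, List.mem_append, List.mem_singleton] at hz
    rcases hz with rfl | hz | rfl
    · exact hx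
    · exact (hrT z hz).1
    · exact hy
  refine ⟨x :: (rest ++ [y]), hnd, hmem, ?_, ?_⟩
  · rw [List.length_cons, List.length_append, hrl, List.length_singleton]
    omega
  · have hlast : (a :: (x :: (rest ++ [y]))).getLast (List.cons_ne_nil _ _) = y := by simp
    rw [pw_append_singleton w a (x :: (rest ++ [y])) y b hlast, pw_cons_cons,
      pw_mono w T t hT x (rest ++ [y]) hnd hmem, List.length_append, hrl,
      List.length_singleton, show j - 1 + 1 = j by omega, nsmul_eq_mul]
    exact hj

open Classical in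
/-- **Adding one vertex, with savings**, while there are cliques of unit colour. -/
theorem stepSaveU [Fact (1 < q)] (hq3 : 3 ≤ q) [Fintype V] [Fintype α] {w : α → α → ZMod q}
    (H : SimpleGraph V) (X : Finset V) (v : V) (hv : v ∉ X)
    (S : Finset α) (φ : V → α) (I : Sym2 V → List α) (m : Model w (EE H X) X S φ I)
    (D : ℕ) (Wa : Finset α) (hrich : Rich w ((q - 1) * Fintype.card V) D Wa) (hWa : Wa ⊆ S)
    (R' : Finset α) (hR'S : ∀ y ∈ R', y ∉ S) (hR' : Fintype.card α ≤ D * R'.card)
    (z : ℕ) (Q : α → Finset V) (hQN : ∀ y ∈ R', Q y ⊆ NE H X v) (hQz : ∀ y ∈ R', z ≤ (Q y).card)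
    (s : ℕ) (hQs : ∀ y ∈ R', ∀ u ∈ Q y, Short w s (φ u) y)
    (hs : S.card + 1 + q * Fintype.card V ≤ s ∨ z = 0)
    (hfb : Fintype.card α + D * (S.card + 1 + (q - 1) * (NE H X v).card) ≤
      D * Fintype.card α) :
    ∃ y ∈ R', ∃ S' I', S ⊆ S' ∧
      Model w (EE H (insert v X)) (insert v X) S' (Function.update φ v y) I' ∧
        2 * S'.card + z ≤ 2 * (S.card + 1 + (q - 1) * (NE H X v).card) := by
  -- it suffices to treat the case where the families exist
  wlog hs' : S.card + 1 + q * Fintype.card V ≤ s generalizing s Q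
  · have hz : z = 0 := hs.resolve_left hs'
    subst hz
    exact this (fun _ => ∅) (fun y _ => Finset.empty_subset _) (fun y _ => Nat.zero_le _)
      (S.card + 1 + q * Fintype.card V) (fun y _ u hu => absurd hu (Finset.notMem_empty u))
      (Or.inl le_rfl) le_rfl
  have hq2 : 2 ≤ q := by omega
  have hn1 : 1 ≤ Fintype.card V := Fintype.card_pos_iff.2 ⟨v⟩
  set N := NE H X v with hN
  have hNX : N ⊆ X := Finset.filter_subset _ _
  have hNc : N.card ≤ Fintype.card V := Finset.card_le_univ _
  let Z : α → Finset V := fun y => N.filter (fun u => w (φ u) y = 0)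
  let Q₀ : α → Finset V := fun y => if y ∈ R' then (Q y).filter (fun u => ¬ w (φ u) y = 0) else ∅
  let N₀ : α → Finset V := fun y => (N.filter (fun u => ¬ w (φ u) y = 0)) \ Q₀ y
  have hQ₀N : ∀ y, Q₀ y ⊆ N.filter (fun u => ¬ w (φ u) y = 0) := by
    intro y
    by_cases hy : y ∈ R'
    · simp only [Q₀, if_pos hy]
      exact Finset.filter_subset_filter _ (hQN y hy)
    · simp only [Q₀, if_neg hy]; exact Finset.empty_subset _
  have hQ₀s : ∀ y, ∀ u ∈ Q₀ y, Short w s (φ u) y := by
    intro y u hu
    by_cases hy : y ∈ R'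
    · simp only [Q₀, if_pos hy] at hu
      exact hQs y hy u (Finset.mem_filter.1 hu).1
    · simp only [Q₀, if_neg hy] at hu; exact absurd hu (Finset.notMem_empty u)
  have hcount : ∀ y, (Z y).card + ((Q₀ y).card + (N₀ y).card) = N.card := by
    intro y
    have h1 : (Z y).card + (N.filter (fun u => ¬ w (φ u) y = 0)).card = N.card :=
      Finset.card_filter_add_card_filter_not _
    have h2 : (N₀ y).card + (Q₀ y).card = (N.filter (fun u => ¬ w (φ u) y = 0)).card :=
      Finset.card_sdiff_add_card_eq_card (hQ₀N y)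
    omega
  have hQz' : ∀ y ∈ R', z ≤ (Z y).card + (Q₀ y).card := by
    intro y hy
    have h1 := Finset.card_filter_add_card_filter_not (s := Q y) (fun u => w (φ u) y = 0)
    have h2 : ((Q y).filter (fun u => w (φ u) y = 0)).card ≤ (Z y).card :=
      Finset.card_le_card (Finset.filter_subset_filter _ (hQN y hy))
    have h3 : Q₀ y = (Q y).filter (fun u => ¬ w (φ u) y = 0) := if_pos hy
    rw [h3]
    have := hQz y hy
    omega
  choose L₀ hL₀nd hL₀mem hL₀len hL₀zero hL₀disj using fun y =>
    exists_short_fam w s φ y (Q₀ y) S (by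
      have h1 : (Q₀ y).card ≤ Fintype.card V := Finset.card_le_univ _
      have h2 := Nat.mul_le_mul_left q h1
      omega) (hQ₀s y)
  let U₀ : α → Finset α := fun y => (Q₀ y).biUnion (fun u => (L₀ y u).toFinset)
  have hU₀ : ∀ y, (U₀ y).card ≤ (q - 2) * (Q₀ y).card := by
    intro y
    have h1 : (U₀ y).card ≤ (Q₀ y).card * (q - 2) := by
      apply Finset.card_biUnion_le_card_mul
      intro u hu
      have := hL₀len y u hu
      have := List.toFinset_card_le (L₀ y u)
      omega
    rw [mul_comm] at h1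
    exact h1
  choose A L hAN hF hmax using fun y => exists_fam w φ (Sᶜ \ U₀ y) (q - 1) y (N₀ y)
  let U₁ : α → Finset α := fun y => (A y).biUnion (fun u => (L y u).toFinset)
  have hU₁ : ∀ y, (U₁ y).card ≤ (q - 1) * (A y).card := by
    intro y
    have h1 : (U₁ y).card ≤ (A y).card * (q - 1) := by
      apply Finset.card_biUnion_le_card_mul
      intro u hu
      exact (List.toFinset_card_le _).trans ((hF y).len u hu)
    rw [mul_comm] at h1
    exact h1
  let U : α → Finset α := fun y => U₀ y ∪ U₁ y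
  have hUc : ∀ y, (U y).card ≤ (q - 2) * (Q₀ y).card + (q - 1) * (A y).card := by
    intro y
    have h1 := Finset.card_union_le (U₀ y) (U₁ y)
    have h2 := hU₀ y
    have h3 := hU₁ y
    change (U₀ y ∪ U₁ y).card ≤ _
    omega
  have hAc : ∀ y, (A y).card ≤ (N₀ y).card := fun y => Finset.card_le_card (hAN y)
  have hU : ∀ y, (U y).card ≤ (q - 1) * Fintype.card V := by
    intro y
    have h1 := hUc y
    have h2 := hcount y
    have h3 := hAc y
    calc (U y).card ≤ (q - 2) * (Q₀ y).card + (q - 1) * (A y).card := h1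
      _ ≤ (q - 1) * (Q₀ y).card + (q - 1) * (A y).card :=
        Nat.add_le_add_right (Nat.mul_le_mul_right _ (by omega)) _
      _ = (q - 1) * ((Q₀ y).card + (A y).card) := by ring
      _ ≤ (q - 1) * Fintype.card V := Nat.mul_le_mul_left _ (by omega)
  have hR'W : Disjoint R' Wa := by
    rw [Finset.disjoint_left]
    intro a ha ha'
    exact hR'S a ha (hWa ha')
  obtain ⟨t, ht, T, hTR, hTc, hT⟩ := exists_unit_clique (hrich R' hR'W hR') U hU
  -- the exchange trick
  let J : α → Finset V := fun y => N₀ y \ A y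
  have hJZ : ∀ x ∈ T, ∀ y ∈ T, x ≠ y → J y ⊆ Z x := by
    intro x hx y hy hxy u hu
    rw [Finset.mem_sdiff] at hu
    have huN : u ∈ N := (Finset.mem_filter.1 (Finset.mem_sdiff.1 hu.1).1).1
    refine Finset.mem_filter.2 ⟨huN, ?_⟩
    have hbad : ∀ a ∈ T, a ≠ y → a ∉ U y := fun a ha hay hmem =>
      (hT a ha y hy hay).2 (Or.inl hmem)
    apply trick_unit φ (Sᶜ \ U₀ y) T t ht (by omega)
      (fun a ha b hb hab => (hT a ha b hb hab).1) (A y) (L y) x y ?_ hx hy
      hxy ?_ u (hmax y u hu.1 hu.2)
    · intro a ha hay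
      rw [Finset.mem_sdiff, Finset.mem_compl]
      exact ⟨hR'S a (hTR ha), fun h => hbad a ha hay (Finset.mem_union_left _ h)⟩
    · intro a ha hay u' hu' hmem
      apply hbad a ha hay
      exact Finset.mem_union_right _ (Finset.mem_biUnion.2 ⟨u', hu', List.mem_toFinset.2 hmem⟩)
  have hJnZ : ∀ y, ∀ u ∈ J y, u ∉ Z y := by
    intro y u hu hz
    rw [Finset.mem_sdiff] at hu
    exact (Finset.mem_filter.1 (Finset.mem_sdiff.1 hu.1).1).2 (Finset.mem_filter.1 hz).2
  have hJJ : ∀ x ∈ T, ∀ y ∈ T, ∀ y' ∈ T, x ≠ y → x ≠ y' → y ≠ y' →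
      (J y).card + (J y').card ≤ (Z x).card := by
    intro x hx y hy y' hy' hxy hxy' hyy'
    rw [← Finset.card_union_of_disjoint]
    · exact Finset.card_le_card (Finset.union_subset (hJZ x hx y hy hxy) (hJZ x hx y' hy' hxy'))
    · rw [Finset.disjoint_left]
      intro u hu hu'
      exact hJnZ y u hu (hJZ y hy y' hy' hyy' hu')
  obtain ⟨y, hyT, hyJ⟩ : ∃ y ∈ T, 2 * (J y).card ≤ (Z y).card := by
    have h1 : 2 < T.card := by rw [hTc]; omega
    obtain ⟨x, hx, y, hy, y', hy', hxy, hxy', hyy'⟩ := Finset.two_lt_card.1 h1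
    by_contra hcon
    push Not at hcon
    have a1 := hJJ x hx y hy y' hy' hxy hxy' hyy'
    have a2 := hJJ y hy x hx y' hy' hxy.symm hyy' hxy'
    have a3 := hJJ y' hy' x hx y hy hxy'.symm hyy'.symm hxy
    have b1 := hcon x hx
    have b2 := hcon y hy
    have b3 := hcon y' hy'
    omega
  have hyR : y ∈ R' := hTR hyT
  have hyS : y ∉ S := hR'S y hyR
  have m₁ := m.insertVertex hv hyS
  have hφ' : ∀ u ∈ X, Function.update φ v y u = φ u := by
    intro u hu
    rw [Function.update_of_ne]
    rintro rfl; exact hv hu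
  -- the combined family
  have hAQ : ∀ u ∈ A y, u ∉ Q₀ y := fun u hu => (Finset.mem_sdiff.1 (hAN y hu)).2
  let L' : V → List α := fun u => if u ∈ A y then L y u else if u ∈ Q₀ y then L₀ y u else []
  have hL'A : ∀ u ∈ A y, L' u = L y u := fun u hu => if_pos hu
  have hL'Q : ∀ u ∈ Q₀ y, L' u = L₀ y u := by
    intro u hu
    simp only [L']
    rw [if_neg (fun h => hAQ u h hu), if_pos hu]
  have hL'n : ∀ u, u ∉ A y → u ∉ Q₀ y → L' u = [] := by
    intro u hu hu'
    simp only [L']
    rw [if_neg hu, if_neg hu']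
  have hL₁mem : ∀ u ∈ A y, ∀ a ∈ L y u, a ∉ S ∧ a ≠ y ∧ a ∉ U₀ y := by
    intro u hu a ha
    have := (hF y).mem u hu a ha
    rw [Finset.mem_sdiff, Finset.mem_compl] at this
    exact ⟨this.1.1, this.2, this.1.2⟩
  have hL'mem : ∀ u, ∀ a ∈ L' u, a ∉ S ∧ a ≠ y ∧ a ∈ U y := by
    intro u a ha
    by_cases hu : u ∈ A y
    · rw [hL'A u hu] at ha
      have := hL₁mem u hu a ha
      exact ⟨this.1, this.2.1, Finset.mem_union_right _
        (Finset.mem_biUnion.2 ⟨u, hu, List.mem_toFinset.2 ha⟩)⟩
    · by_cases hu' : u ∈ Q₀ y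
      · rw [hL'Q u hu'] at ha
        have := hL₀mem y u hu' a ha
        exact ⟨this.1, this.2, Finset.mem_union_left _
          (Finset.mem_biUnion.2 ⟨u, hu', List.mem_toFinset.2 ha⟩)⟩
      · rw [hL'n u hu hu'] at ha; exact absurd ha (List.not_mem_nil)
  obtain ⟨I₂, m₂⟩ := m₁.insertStar v (Finset.mem_insert_self _ _) (Z y ∪ (Q₀ y ∪ A y)) L'
    (by
      intro u hu
      rw [Finset.mem_union, Finset.mem_union] at hu
      apply Finset.mem_insert_of_mem
      rcases hu with hu | hu | hu
      · exact hNX (Finset.mem_filter.1 hu).1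
      · exact hNX (Finset.mem_filter.1 (hQ₀N y hu)).1
      · exact hNX (Finset.mem_filter.1 (Finset.mem_sdiff.1 (hAN y hu)).1).1)
    (by
      intro u _ h
      rw [mk_mem_EE] at h
      exact hv h.1.1)
    (by
      intro u _
      by_cases hu : u ∈ A y
      · rw [hL'A u hu]; exact (hF y).nodup u hu
      · by_cases hu' : u ∈ Q₀ y
        · rw [hL'Q u hu']; exact hL₀nd y u hu'
        · rw [hL'n u hu hu']; exact List.nodup_nil)
    (by
      intro u _ a ha
      have := hL'mem u a ha
      rw [Finset.mem_insert]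
      rintro (h | h)
      · exact this.2.1 h
      · exact this.1 h)
    (by
      intro u hu
      rw [Function.update_self]
      by_cases hu' : u ∈ A y
      · rw [hL'A u hu', hφ' u (hNX
          (Finset.mem_filter.1 (Finset.mem_sdiff.1 (hAN y hu')).1).1)]
        exact (hF y).zero u hu'
      · by_cases hu'' : u ∈ Q₀ y
        · rw [hL'Q u hu'', hφ' u (hNX (Finset.mem_filter.1 (hQ₀N y hu'')).1)]
          exact hL₀zero y u hu''
        · rw [hL'n u hu' hu'']
          have huZ : u ∈ Z y := by
            rw [Finset.mem_union, Finset.mem_union] at hu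
            tauto
          rw [List.nil_append, pw_cons_cons, pw_single, add_zero,
            hφ' u (hNX (Finset.mem_filter.1 huZ).1)]
          exact (Finset.mem_filter.1 huZ).2)
    (by
      intro u _ u' _ hne a ha ha'
      by_cases hu : u ∈ A y
      · rw [hL'A u hu] at ha
        by_cases hu' : u' ∈ A y
        · rw [hL'A u' hu'] at ha'
          exact (hF y).disj u hu u' hu' hne a ha ha'
        · by_cases hu'' : u' ∈ Q₀ y
          · rw [hL'Q u' hu''] at ha'
            exact (hL₁mem u hu a ha).2.2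
              (Finset.mem_biUnion.2 ⟨u', hu'', List.mem_toFinset.2 ha'⟩)
          · rw [hL'n u' hu' hu''] at ha'; exact absurd ha' (List.not_mem_nil)
      · by_cases hu₀ : u ∈ Q₀ y
        · rw [hL'Q u hu₀] at ha
          by_cases hu' : u' ∈ A y
          · rw [hL'A u' hu'] at ha'
            exact (hL₁mem u' hu' a ha').2.2
              (Finset.mem_biUnion.2 ⟨u, hu₀, List.mem_toFinset.2 ha⟩)
          · by_cases hu'' : u' ∈ Q₀ y
            · rw [hL'Q u' hu''] at ha'
              exact hL₀disj y u hu₀ u' hu'' hne a ha ha'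
            · rw [hL'n u' hu' hu''] at ha'; exact absurd ha' (List.not_mem_nil)
        · rw [hL'n u hu hu₀] at ha; exact absurd ha (List.not_mem_nil))
  have hcard₂ : (insert y S ∪ (Z y ∪ (Q₀ y ∪ A y)).biUnion (fun u => (L' u).toFinset)).card ≤
      S.card + 1 + ((q - 2) * (Q₀ y).card + (q - 1) * (A y).card) := by
    have e1 : (Z y ∪ (Q₀ y ∪ A y)).biUnion (fun u => (L' u).toFinset) ⊆ U y := by
      intro a ha
      rw [Finset.mem_biUnion] at ha
      obtain ⟨u, _, hua⟩ := ha
      exact (hL'mem u a (List.mem_toFinset.1 hua)).2.2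
    have e2 := Finset.card_union_le (insert y S)
      ((Z y ∪ (Q₀ y ∪ A y)).biUnion (fun u => (L' u).toFinset))
    have e3 := Finset.card_insert_le y S
    have e4 := Finset.card_le_card e1
    have e5 := hUc y
    omega
  have hsplit : (A y).card + (J y).card = (N₀ y).card := by
    have := Finset.card_sdiff_add_card_eq_card (hAN y)
    rw [add_comm]; exact this
  have htot : 2 * ((q - 2) * (Q₀ y).card + (q - 1) * (A y).card + 2 * (q - 1) * (J y).card) + z ≤
      2 * ((q - 1) * N.card) := by
    have h1 := hcount y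
    have h2 := hQz' y hyR
    obtain ⟨k, hk⟩ : ∃ k, q = k + 2 := ⟨q - 2, by omega⟩
    have hk1 : q - 1 = k + 1 := by omega
    have hk2 : q - 2 = k := by omega
    rw [hk1, hk2, ← h1, ← hsplit]
    nlinarith [Nat.mul_le_mul_left k hyJ]
  have hJimg : ((J y).image (fun u => s(v, u))).card = (J y).card :=
    Finset.card_image_of_injective _ (star_injective v)
  have hsub₂ : S ⊆ insert y S ∪ (Z y ∪ (Q₀ y ∪ A y)).biUnion (fun u => (L' u).toFinset) :=
    fun a ha => Finset.mem_union_left _ (Finset.mem_insert_of_mem ha)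
  obtain ⟨S', I', hSS', m₃, hS'⟩ := m₂.addGen ((J y).image (fun u => s(v, u))) (2 * (q - 1))
    (S.card + 1 + (q - 1) * N.card) (by rw [hJimg]; omega) (by
      intro e he S'' hS''1 hS''2
      rw [Finset.mem_image] at he
      obtain ⟨u, hu, rfl⟩ := he
      refine ⟨v, u, rfl, Finset.mem_insert_self _ _, Finset.mem_insert_of_mem
          (hNX (Finset.mem_filter.1 (Finset.mem_sdiff.1 (Finset.mem_sdiff.1 hu).1).1).1), ?_⟩
      have hc1 : Fintype.card α ≤ D * (S''ᶜ).card := by
        have e1 : (S''ᶜ).card + S''.card = Fintype.card α := by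
          rw [add_comm]; exact Finset.card_add_card_compl S''
        have e2 : D * S''.card ≤ D * (S.card + 1 + (q - 1) * N.card) :=
          Nat.mul_le_mul_left _ hS''2
        have e3 : D * ((S''ᶜ).card + S''.card) = D * Fintype.card α := by rw [e1]
        rw [mul_add] at e3
        omega
      have hc2 : Disjoint S''ᶜ Wa := by
        rw [Finset.disjoint_left]
        intro a ha ha'
        exact (Finset.mem_compl.1 ha) (hS''1 (hsub₂ (hWa ha')))
      obtain ⟨t', ht', T', hT'S, hT'c, hT'⟩ :=
        exists_unit_clique (hrich _ hc2 hc1) (fun _ => ∅) (fun _ => by simp)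
      obtain ⟨l, l1, l2, l3, l4⟩ := unit_join T' t' ht' hT'c
        (fun a ha b hb hab => (hT' a ha b hb hab).1) (Function.update φ v y v)
        (Function.update φ v y u)
      exact ⟨l, l1, fun a ha => Finset.mem_compl.1 (hT'S (l2 a ha)), by omega, l4⟩)
  · have e : EE H (insert v X) = EE H X ∪ (Z y ∪ (Q₀ y ∪ A y)).image (fun u => s(v, u)) ∪
        (J y).image (fun u => s(v, u)) := by
        rw [EE_insert, Finset.union_assoc, ← Finset.image_union]
        congr 2
        ext u
        rw [Finset.mem_union, Finset.mem_union, Finset.mem_union]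
        constructor
        · intro hu
          by_cases h0 : w (φ u) y = 0
          · exact Or.inl (Or.inl (Finset.mem_filter.2 ⟨hu, h0⟩))
          · by_cases hQ : u ∈ Q₀ y
            · exact Or.inl (Or.inr (Or.inl hQ))
            · by_cases hA : u ∈ A y
              · exact Or.inl (Or.inr (Or.inr hA))
              · exact Or.inr (Finset.mem_sdiff.2
                  ⟨Finset.mem_sdiff.2 ⟨Finset.mem_filter.2 ⟨hu, h0⟩, hQ⟩, hA⟩)
        · rintro ((hu | hu | hu) | hu)
          · exact (Finset.mem_filter.1 hu).1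
          · exact (Finset.mem_filter.1 (hQ₀N y hu)).1
          · exact (Finset.mem_filter.1 (Finset.mem_sdiff.1 (hAN y hu)).1).1
          · exact (Finset.mem_filter.1 (Finset.mem_sdiff.1 (Finset.mem_sdiff.1 hu).1).1).1
    rw [e]
    refine ⟨y, hyR, S', I', hsub₂.trans hSS', m₃, ?_⟩
    rw [hJimg] at hS'
    omega

end

end MP0dbebe
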