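import Pool.Agent.Lib.MP_0dbebe_co.CQ2

/-! # Composite moduli: many short zero paths, and the last phase -/

namespace MP0dbebe

section
variable {V α : Type*} {q : ℕ}

open Classical in
/-- **The last phase**: a partial model that has saved enough extends to a model. -/
theorem lateU [Fact (1 < q)] (hq3 : 3 ≤ q) [Fintype V] [Fintype α] {w : α → α → ZMod q}
    (H : SimpleGraph V) (D : ℕ) (Wa : Finset α)
    (hrich : Rich w ((q - 1) * Fintype.card V) D Wa) (X₀ : Finset V) (S₀ : Finset α)
    (φ₀ : V → α) (I₀ : Sym2 V → List α) (m₀ : Model w (EE H X₀) X₀ S₀ φ₀ I₀) (hWa : Wa ⊆ S₀)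
    (W : ℕ) (hW : Fintype.card α ≤ D * W)
    (hS₀ : S₀.card + W ≤ X₀.card + (q - 1) * (EE H X₀).card)
    (hc : (q - 1) * (EE H Finset.univ).card + Fintype.card V ≤ Fintype.card α) :
    HasModel w (EE H Finset.univ) Finset.univ Finset.univ := by
  set n := Fintype.card V with hn
  set E := (EE H Finset.univ).card with hE
  set a := Fintype.card α with ha
  set k := q - 1 with hk
  have late : ∀ Y : Finset V, ∃ S φ I, Wa ⊆ S ∧ Model w (EE H (X₀ ∪ Y)) (X₀ ∪ Y) S φ I ∧
        S.card + W ≤ (X₀ ∪ Y).card + k * (EE H (X₀ ∪ Y)).card := by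
    intro Y
    induction Y using Finset.induction_on with
    | empty =>
      rw [Finset.union_empty]
      exact ⟨S₀, φ₀, I₀, hWa, m₀, hS₀⟩
    | insert v Y _ ih =>
      obtain ⟨S, φ, I, hWS, m, hS⟩ := ih
      rw [Finset.union_insert]
      by_cases hv : v ∈ X₀ ∪ Y
      · rw [Finset.insert_eq_of_mem hv]
        exact ⟨S, φ, I, hWS, m, hS⟩
      have hXc := card_EE_insert H (X₀ ∪ Y) v hv
      have hXi := Finset.card_insert_of_notMem hv
      have hXn : (X₀ ∪ Y).card + 1 ≤ n := Finset.card_lt_univ_of_notMem hv
      have hEm : (EE H (insert v (X₀ ∪ Y))).card ≤ E :=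
        Finset.card_le_card (EE_mono H (Finset.subset_univ _))
      rw [hXc] at hEm
      rw [hXc, hXi]
      set e := (EE H (X₀ ∪ Y)).card with he
      set d := (NE H (X₀ ∪ Y) v).card with hd
      have h1 : k * (e + d) ≤ k * E := Nat.mul_le_mul_left k hEm
      have h2 : k * (e + d) = k * e + k * d := by ring
      have hfb : a + D * (S.card + 1 + k * d) ≤ D * a := by
        have e1 : D * (S.card + 1 + k * d + W) ≤ D * a := Nat.mul_le_mul_left _ (by omega)
        rw [mul_add D _ W] at e1
        omega
      have hR' : a ≤ D * (Sᶜ).card := by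
        have e1 : (Sᶜ).card + S.card = a := by
          rw [add_comm]; exact Finset.card_add_card_compl S
        have e3 : D * ((Sᶜ).card + S.card) = D * a := by rw [e1]
        rw [mul_add] at e3
        have e4 : D * S.card ≤ D * (S.card + 1 + k * d) := Nat.mul_le_mul_left _ (by omega)
        omega
      obtain ⟨y, -, S', I', hSS', m', hS'⟩ := stepSaveU hq3 H (X₀ ∪ Y) v hv S φ I m D Wa hrich
        hWS Sᶜ (fun y hy => Finset.mem_compl.1 hy) hR' 0 (fun _ => ∅)
        (fun y _ => Finset.empty_subset _) (fun y _ => Nat.zero_le _) 0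
        (fun y _ u hu => absurd hu (Finset.notMem_empty u)) (Or.inr rfl) hfb
      refine ⟨S', _, I', hWS.trans hSS', m', ?_⟩
      rw [← hk, ← hd] at hS'
      omega
  obtain ⟨S, φ, I, _, m, _⟩ := late Finset.univ
  rw [Finset.union_eq_right.2 (Finset.subset_univ X₀)] at m
  exact ⟨φ, I, m.mono (Finset.subset_univ _)⟩

open Classical in
/-- **Many short zero paths**, composite moduli. -/
theorem case1U [Fact (1 < q)] (hq3 : 3 ≤ q) [Fintype V] [Nonempty V] [Fintype α]
    {w : α → α → ZMod q} (H : SimpleGraph V) (g s D : ℕ) (hg : 2 ≤ g) (hgD : g ≤ 2 * D)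
    (hD : 4 ≤ D) (Wa : Finset α) (hrich : Rich w ((q - 1) * Fintype.card V) D Wa)
    (V' : Finset α) (hV' : V'.Nonempty)
    (hdeg : ∀ a ∈ V', 4 * Fintype.card α ≤ g * (V'.filter (fun b => Short w s a b)).card)
    (hs : 2 * Fintype.card α ≤ g * s)
    (hWa : 4 * g * (Wa.card + q * Fintype.card V + 1) ≤ Fintype.card α)
    (hc : (q - 1) * (EE H Finset.univ).card + Fintype.card V ≤ Fintype.card α)
    (W : ℕ) (hW : Fintype.card α ≤ D * W)
    (hm : 2 * g * (2 * g * (Wa.card + W) + Fintype.card V + 1) ≤ (EE H Finset.univ).card) :
    HasModel w (EE H Finset.univ) Finset.univ Finset.univ := by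
  have hn1 : 1 ≤ Fintype.card V := Fintype.card_pos
  set n := Fintype.card V with hn
  set E := (EE H Finset.univ).card with hE
  set a := Fintype.card α with ha
  set k := q - 1 with hk
  have hk1 : 1 ≤ k := by omega
  have hEa : k * E + n ≤ a := hc
  have hqn : k * n ≤ q * n := Nat.mul_le_mul_right _ (by omega)
  have hαne : Nonempty α := ⟨hV'.choose⟩
  have hWa' : 4 * (g * Wa.card + g * (q * n) + g) ≤ a := by
    have e1 : 4 * g * (Wa.card + q * n + 1) = 4 * (g * Wa.card + g * (q * n) + g) := by ring
    omega
  have hgn : g * n ≤ g * (q * n) := Nat.mul_le_mul_left _ (Nat.le_mul_of_pos_left _ (by omega))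
  have hgW : Wa.card ≤ g * Wa.card := Nat.le_mul_of_pos_left _ (by omega)
  have hgq : 2 * (q * n) ≤ g * (q * n) := Nat.mul_le_mul_right _ hg
  -- early phase
  have early : ∀ X : Finset V, g * (k * (EE H X).card + X.card + Wa.card) ≤ a →
      ∃ S φ I, Wa ⊆ S ∧ Model w (EE H X) X S φ I ∧ (∀ u ∈ X, φ u ∈ V') ∧
        2 * g * S.card + (EE H X).card ≤
          2 * g * (Wa.card + X.card + k * (EE H X).card) := by
    intro X
    induction X using Finset.induction_on with
    | empty =>
      intro _
      refine ⟨Wa, fun _ => Classical.arbitrary α, fun _ => [], Finset.Subset.refl _, ?_, by simp,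
        by simp [EE_empty]⟩
      rw [EE_empty]
      exact ⟨by simp, by simp, by simp, by simp, by simp, by simp, by simp, by simp⟩
    | insert v X hv ih =>
      intro hX
      have hXc := card_EE_insert H X v hv
      have hXi := Finset.card_insert_of_notMem hv
      rw [hXc, hXi] at hX ⊢
      set e := (EE H X).card with he
      set N := NE H X v with hN
      set d := N.card with hd
      have hdn : d ≤ n := Finset.card_le_univ _
      have hXe : g * (k * e + X.card + Wa.card) ≤ a := by
        refine le_trans (Nat.mul_le_mul_left g ?_) hX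
        have : k * e ≤ k * (e + d) := Nat.mul_le_mul_left _ (by omega)
        omega
      obtain ⟨S, φ, I, hWS, m, hφ, hS⟩ := ih hXe
      have hS1 : S.card ≤ Wa.card + X.card + k * e := by
        have : 2 * g * S.card ≤ 2 * g * (Wa.card + X.card + k * e) := by omega
        exact Nat.le_of_mul_le_mul_left this (by omega)
      have hgS : g * S.card ≤ a := by
        refine le_trans (Nat.mul_le_mul_left g hS1) ?_
        rw [show Wa.card + X.card + k * e = k * e + X.card + Wa.card by ring]; exact hXe
      let Q : α → Finset V := fun y => N.filter (fun u => Short w s (φ u) y)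
      let R' : Finset α := (V' \ S).filter (fun y => d ≤ g * (Q y).card)
      have hNX : N ⊆ X := Finset.filter_subset _ _
      have hR' : 2 * a ≤ g * R'.card := by
        rcases Nat.eq_zero_or_pos d with hd0 | hd0
        · have e1 : R' = V' \ S := by
            apply Finset.filter_true_of_mem
            intro y _
            rw [hd0]; exact Nat.zero_le _
          obtain ⟨b, hb⟩ := hV'
          have e2 := hdeg b hb
          have e3 : g * (V'.filter (fun c => Short w s b c)).card ≤ g * V'.card :=
            Nat.mul_le_mul_left g (Finset.card_le_card (Finset.filter_subset _ _))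
          have e4 := Finset.le_card_sdiff S V'
          rw [← e1] at e4
          have e5 : g * V'.card ≤ g * (R'.card + S.card) := Nat.mul_le_mul_left g (by omega)
          rw [mul_add] at e5
          omega
        · -- double counting
          have e1 : ∑ y ∈ V' \ S, (Q y).card =
              ∑ u ∈ N, ((V' \ S).filter (fun y => Short w s (φ u) y)).card := by
            simp only [Q, Finset.card_filter]
            exact Finset.sum_comm
          have e2 : d * (3 * a) ≤
              g * ∑ u ∈ N, ((V' \ S).filter (fun y => Short w s (φ u) y)).card := by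
            rw [Finset.mul_sum, ← smul_eq_mul]
            apply Finset.card_nsmul_le_sum
            intro u hu
            have f1 := hdeg (φ u) (hφ u (hNX hu))
            have f2 : V'.filter (fun y => Short w s (φ u) y) ⊆
                (V' \ S).filter (fun y => Short w s (φ u) y) ∪ S := by
              intro y hy
              rw [Finset.mem_filter] at hy
              rw [Finset.mem_union, Finset.mem_filter, Finset.mem_sdiff]
              by_cases hyS : y ∈ S
              · exact Or.inr hyS
              · exact Or.inl ⟨⟨hy.1, hyS⟩, hy.2⟩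
            have f3 := (Finset.card_le_card f2).trans (Finset.card_union_le _ _)
            have f4 := Nat.mul_le_mul_left g f3
            rw [mul_add] at f4
            omega
          have e3 : g * ∑ y ∈ V' \ S, (Q y).card ≤ d * (g * R'.card) + d * a := by
            have f1 : ∑ y ∈ V' \ S, (Q y).card = ∑ y ∈ R', (Q y).card +
                ∑ y ∈ (V' \ S).filter (fun y => ¬ d ≤ g * (Q y).card), (Q y).card :=
              (Finset.sum_filter_add_sum_filter_not _ _ _).symm
            have f2 : ∑ y ∈ R', (Q y).card ≤ R'.card * d := by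
              rw [← smul_eq_mul]
              apply Finset.sum_le_card_nsmul
              intro y _
              exact Finset.card_le_card (Finset.filter_subset _ _)
            have f3 : g * ∑ y ∈ (V' \ S).filter (fun y => ¬ d ≤ g * (Q y).card), (Q y).card ≤
                ((V' \ S).filter (fun y => ¬ d ≤ g * (Q y).card)).card * d := by
              rw [Finset.mul_sum, ← smul_eq_mul]
              apply Finset.sum_le_card_nsmul
              intro y hy
              have := (Finset.mem_filter.1 hy).2
              omega
            have f4 : ((V' \ S).filter (fun y => ¬ d ≤ g * (Q y).card)).card ≤ a :=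
              Finset.card_le_univ _
            have f5 := Nat.mul_le_mul_right d f4
            rw [f1, mul_add]
            have f6 := Nat.mul_le_mul_left g f2
            nlinarith
          rw [e1] at e3
          have e4 : d * (3 * a) ≤ d * (g * R'.card + a) := by
            rw [mul_add]
            exact e2.trans e3
          have e5 := Nat.le_of_mul_le_mul_left e4 hd0
          omega
      obtain ⟨z, hz1, hz2⟩ : ∃ z, d ≤ g * z ∧ ∀ j, d ≤ g * j → z ≤ j := by
        have hex : ∃ z, d ≤ g * z := ⟨d, Nat.le_mul_of_pos_left d (by omega)⟩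
        exact ⟨Nat.find hex, Nat.find_spec hex, fun j hj => Nat.find_min' hex hj⟩
      have hR'D : a ≤ D * R'.card := by
        have h1 : g * R'.card ≤ 2 * D * R'.card := Nat.mul_le_mul_right _ hgD
        have h2 : 2 * D * R'.card = 2 * (D * R'.card) := by ring
        omega
      have hsS : S.card + 1 + q * n ≤ s := by
        have h1 : g * (S.card + 1 + q * n) ≤ g * s := by
          refine le_trans ?_ hs
          have h6 : g * (S.card + 1 + q * n) = g * S.card + g + g * (q * n) := by ring
          omega
        exact Nat.le_of_mul_le_mul_left h1 (by omega)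
      have hfb : a + D * (S.card + 1 + k * d) ≤ D * a := by
        have h1 : 2 * S.card ≤ a := (Nat.mul_le_mul_right _ hg).trans hgS
        have h2 : k * d ≤ k * n := Nat.mul_le_mul_left _ hdn
        have h3 : 4 * (1 + k * d) ≤ a := by omega
        have h4 : D * (4 * S.card + 4 * (1 + k * d)) ≤ D * (3 * a) :=
          Nat.mul_le_mul_left _ (by omega)
        have h5 : D * (4 * S.card + 4 * (1 + k * d)) = 4 * (D * (S.card + 1 + k * d)) := by ring
        have h6 : D * (3 * a) = 3 * (D * a) := by ring
        have h7 : 4 * a ≤ D * a := Nat.mul_le_mul_right _ hD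
        omega
      obtain ⟨y, hy, S', I', hSS', m', hS'⟩ := stepSaveU hq3 H X v hv S φ I m D Wa hrich hWS R'
        (fun y hy => (Finset.mem_sdiff.1 (Finset.mem_filter.1 hy).1).2) hR'D z Q
        (fun y _ => Finset.filter_subset _ _)
        (fun y hy => hz2 _ (Finset.mem_filter.1 hy).2) s
        (fun y _ u hu => (Finset.mem_filter.1 hu).2) (Or.inl hsS) hfb
      refine ⟨S', _, I', hWS.trans hSS', m', ?_, ?_⟩
      · intro u hu
        rw [Finset.mem_insert] at hu
        rcases hu with rfl | hu
        · rw [Function.update_self]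
          exact (Finset.mem_sdiff.1 (Finset.mem_filter.1 hy).1).1
        · rw [Function.update_of_ne]
          · exact hφ u hu
          · rintro rfl; exact hv hu
      · rw [← hk, ← hN, ← hd] at hS'
        have h1 := Nat.mul_le_mul_left g hS'
        nlinarith
  -- a set of medium size
  set c := E / (2 * g) with hcdef
  have hcE : 2 * g * c ≤ E := Nat.mul_div_le _ _
  have hcc : 2 * g * (Wa.card + W) + n + 1 ≤ c := by
    rw [hcdef, Nat.le_div_iff_mul_le (by omega), mul_comm]
    exact hm
  obtain ⟨X₀, hX1, hX2⟩ := exists_middle H c (by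
    have : c ≤ 2 * g * c := Nat.le_mul_of_pos_left _ (by omega)
    omega)
  have hX₀ : g * (k * (EE H X₀).card + X₀.card + Wa.card) ≤ a := by
    have h1 : X₀.card ≤ n := Finset.card_le_univ _
    have h2 : k * (EE H X₀).card ≤ k * c := Nat.mul_le_mul_left k hX1
    have h3 : 2 * (g * (k * (EE H X₀).card + X₀.card + Wa.card)) ≤
        2 * (g * (k * c + n + Wa.card)) :=
      Nat.mul_le_mul_left 2 (Nat.mul_le_mul_left g (by omega))
    have h4 : 2 * (g * (k * c + n + Wa.card)) = k * (2 * g * c) + 2 * (g * n) +
        2 * (g * Wa.card) := by ring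
    have h5 : k * (2 * g * c) ≤ k * E := Nat.mul_le_mul_left k hcE
    omega
  obtain ⟨S₀, φ₀, I₀, hWS, m₀, -, hS₀⟩ := early X₀ hX₀
  have hS₀' : S₀.card + W ≤ X₀.card + k * (EE H X₀).card := by
    have h1 : 2 * g * (S₀.card + (Wa.card + W)) ≤
        2 * g * (Wa.card + X₀.card + k * (EE H X₀).card) := by
      rw [mul_add]
      omega
    have h2 := Nat.le_of_mul_le_mul_left h1 (by omega)
    omega
  exact lateU hq3 H D Wa hrich X₀ S₀ φ₀ I₀ m₀ hWS W hW hS₀' hc

end

end MP0dbebe
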