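import Pool.Agent.Lib.MP_0dbebe_co.PackE

/-! # Dense graphs, primes `q ≥ 5`: the exact value -/

namespace MP0dbebe

/-- the parameter `D` -/
def parD (q : ℕ) : ℕ := 2 * parL q * parB q

/-- the parameter `K` of the greedy embedding -/
def parK (q : ℕ) : ℕ := 48 * q * (16 * (q - 1)) ^ ((q + 1) * (q - 1)) + 2 + 2 * q

/-- the parameter `g` of the greedy embedding -/
def parG (q : ℕ) : ℕ := 8 * constG q (parD q)

/-- the density that is needed -/
def denseC (q : ℕ) : ℕ := 2 * parG q * (2 * parG q * parK q + 2) + 2 * parL q + 2 * parD q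

section
variable {V α : Type*}

open Classical in
/-- either many short zero paths (and then there is a model), or almost constant weights -/
theorem dense_dichotomy {q : ℕ} [Fact q.Prime] [Fintype V] [Fintype α] {w : α → α → ZMod q}
    (hw : ∀ a b, w a b = w b a) (H : SimpleGraph V) (hn : 1 ≤ Fintype.card V)
    (ha : Fintype.card α = (q - 1) * (EE H Finset.univ).card + Fintype.card V)
    (hE : denseC q * Fintype.card V ≤ (EE H Finset.univ).card) :
    HasModel w (EE H Finset.univ) Finset.univ Finset.univ ∨
      ∃ c : ZMod q, c ≠ 0 ∧ ∃ 𝒢 : Finset α, Near (fun a b => c * w a b) (parB q) (parL q) 𝒢 := by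
  have hqp : q.Prime := Fact.out
  have hq2 : 2 ≤ q := hqp.two_le
  have hV : Nonempty V := Fintype.card_pos_iff.1 (by omega)
  set n := Fintype.card V with hn'
  set E := (EE H Finset.univ).card with hE'
  set N := Fintype.card α with hN
  have hqpos : 0 < q := by omega
  set G := constG q (parD q) with hG
  have hGpos : 0 < G := by
    rw [hG]; unfold constG; positivity
  have hg8 : parG q = 8 * G := rfl
  have hEN : E ≤ N := by
    have : E ≤ (q - 1) * E := Nat.le_mul_of_pos_left _ (by omega)
    omega
  have hbig : 2 * parG q * (2 * parG q * (parK q * n) + n + 1) ≤ E := by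
    refine le_trans ?_ hE
    unfold denseC
    calc 2 * parG q * (2 * parG q * (parK q * n) + n + 1)
        ≤ 2 * parG q * (2 * parG q * (parK q * n) + 2 * n) := by
          apply Nat.mul_le_mul_left
          omega
      _ = 2 * parG q * (2 * parG q * parK q + 2) * n := by ring
      _ ≤ (2 * parG q * (2 * parG q * parK q + 2) + 2 * parL q + 2 * parD q) * n := by
          apply Nat.mul_le_mul_right
          omega
  have h2G : 2 * parG q ≤ E := by
    refine le_trans ?_ hbig
    exact Nat.le_mul_of_pos_right _ (by omega)
  have hGN : 16 * G ≤ N := by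
    rw [hg8] at h2G; omega
  have hNpos : 0 < N := by omega
  -- the robustness parameter
  set s := N / G with hs
  have hs1 : G * s ≤ N := Nat.mul_div_le _ _
  have hs2 : N < G * (s + 1) := Nat.lt_mul_div_succ N hGpos
  by_cases hcase : N * (Finset.univ : Finset α).card < G *
      (((Finset.univ : Finset α) ×ˢ Finset.univ).filter (fun p => Short w s p.1 p.2)).card
  · left
    obtain ⟨V', -, hne, hdeg⟩ := min_degree (Short w s) (fun _ _ h => h.symm hw) Finset.univ N
      G hcase
    apply case1 hw H (parG q) s (parK q) (by rw [hg8]; omega) le_rfl V' hne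
    · intro x hx
      have := hdeg x hx
      rw [hg8]
      have e1 : 8 * G * (V'.filter (fun b => Short w s x b)).card =
          4 * (2 * G * (V'.filter (fun b => Short w s x b)).card) := by ring
      omega
    · rw [hg8]
      have e1 : G * (s + 1) = G * s + G := by ring
      have e2 : 8 * G * s = 8 * (G * s) := by ring
      omega
    · exact le_of_eq ha.symm
    · exact hbig
  · right
    push Not at hcase
    rw [Finset.card_univ, ← hN, ← pow_two] at hcase
    obtain ⟨t, ht, hD⟩ := near_const (parD q) hw (s := s) (by rw [← hG, ← hN]; exact hs1)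
      (by rw [← hG, ← hN]; omega) (by rw [← hG, ← hN]; exact hcase)
    refine ⟨t⁻¹, inv_ne_zero ht, ?_⟩
    apply near_of_const (w := fun a b => t⁻¹ * w a b) (fun a b => by rw [hw]) (parB q) (parL q)
    · have h1 : parD q ≤ denseC q * n := by
        calc parD q ≤ denseC q := by unfold denseC; omega
          _ ≤ denseC q * n := Nat.le_mul_of_pos_right _ hn
      have h2 : 2 * parL q * parB q = parD q := rfl
      rw [h2, ← hN]
      omega
    · exact hNpos
    · refine le_trans (Nat.mul_le_mul_left _ (Finset.card_le_card ?_)) hD
      intro p hp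
      rw [Finset.mem_filter] at hp ⊢
      refine ⟨hp.1, hp.2.1, fun h => hp.2.2 ?_⟩
      rw [h, inv_mul_cancel₀ ht]

/-- **Dense graphs, primes `q ≥ 5`.** -/
theorem dense_ge5 {q : ℕ} [Fact q.Prime] (hq : 5 ≤ q) [Fintype V] [Fintype α]
    {w : α → α → ZMod q}
    (hw : ∀ a b, w a b = w b a) (H : SimpleGraph V) (hn : 1 ≤ Fintype.card V)
    (ha : Fintype.card α = (q - 1) * (EE H Finset.univ).card + Fintype.card V)
    (hE : denseC q * Fintype.card V ≤ (EE H Finset.univ).card) :
    HasModel w (EE H Finset.univ) Finset.univ Finset.univ := by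
  rcases dense_dichotomy hw H hn ha hE with h | ⟨c, hc, 𝒢, h⟩
  · exact h
  · apply hasModel_scale hc
    apply h.case2_ge5 hq H ha
    refine le_trans ?_ hE
    calc parL q * (Fintype.card V + 1) ≤ parL q * (2 * Fintype.card V) :=
          Nat.mul_le_mul_left _ (by omega)
      _ = 2 * parL q * Fintype.card V := by ring
      _ ≤ denseC q * Fintype.card V := by
          apply Nat.mul_le_mul_right
          unfold denseC
          omega

end

end MP0dbebe
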