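import Pool.Agent.Lib.MP_0dbebe_co.CQ3
import Pool.Agent.Lib.MP_0dbebe_co.DenseGe5

/-! # Composite moduli: dense graphs, assembly from the statement on the unit-free part -/

namespace MP0dbebe

section
variable {V α : Type} {q : ℕ}

open Classical in
/-- few short zero paths: almost constant weights, or a set with many short zero paths -/
theorem few_or_many [Fact (1 < q)] (hq : 4 ≤ q) [Fintype V] [Fintype α] {w : α → α → ZMod q}
    (hw : ∀ a b, w a b = w b a) (H : SimpleGraph V) (hn : 1 ≤ Fintype.card V)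
    (ha : Fintype.card α = (q - 1) * (EE H Finset.univ).card + Fintype.card V)
    (hE : (2 * parL q + 2 * parD q + 2 * parG q) * Fintype.card V ≤
      (EE H Finset.univ).card) :
    HasModel w (EE H Finset.univ) Finset.univ Finset.univ ∨
      ∃ (s : ℕ) (V' : Finset α), V'.Nonempty ∧ 2 * Fintype.card α ≤ parG q * s ∧
        ∀ a ∈ V', 4 * Fintype.card α ≤ parG q * (V'.filter (fun b => Short w s a b)).card := by
  set n := Fintype.card V with hn'
  set E := (EE H Finset.univ).card with hE'
  set N := Fintype.card α with hN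
  have hqpos : 0 < q := by omega
  set G := constG q (parD q) with hG
  have hGpos : 0 < G := by
    rw [hG]; unfold constG; positivity
  have hg8 : parG q = 8 * G := rfl
  have hEN : E ≤ N := by
    have : E ≤ (q - 1) * E := Nat.le_mul_of_pos_left _ (by omega)
    omega
  have hE1 : 2 * parL q * n ≤ E := by
    refine le_trans (Nat.mul_le_mul_right _ ?_) hE
    omega
  have hE2 : 2 * parD q ≤ E := by
    refine le_trans ?_ hE
    calc 2 * parD q ≤ 2 * parL q + 2 * parD q + 2 * parG q := by omega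
      _ ≤ _ := Nat.le_mul_of_pos_right _ hn
  have hE3 : 2 * parG q ≤ E := by
    refine le_trans ?_ hE
    calc 2 * parG q ≤ 2 * parL q + 2 * parD q + 2 * parG q := by omega
      _ ≤ _ := Nat.le_mul_of_pos_right _ hn
  have hGN : 16 * G ≤ N := by
    rw [hg8] at hE3; omega
  have hNpos : 0 < N := by omega
  -- the robustness parameter
  set s := N / G with hs
  have hs1 : G * s ≤ N := Nat.mul_div_le _ _
  have hs2 : N < G * (s + 1) := Nat.lt_mul_div_succ N hGpos
  by_cases hcase : N * (Finset.univ : Finset α).card < G *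
      (((Finset.univ : Finset α) ×ˢ Finset.univ).filter (fun p => Short w s p.1 p.2)).card
  · right
    obtain ⟨V', -, hne, hdeg⟩ := min_degree (Short w s) (fun _ _ h => h.symm hw) Finset.univ N
      G hcase
    refine ⟨s, V', hne, ?_, ?_⟩
    · rw [hg8]
      have e1 : G * (s + 1) = G * s + G := by ring
      have e2 : 8 * G * s = 8 * (G * s) := by ring
      omega
    · intro x hx
      have := hdeg x hx
      rw [hg8]
      have e1 : 8 * G * (V'.filter (fun b => Short w s x b)).card =
          4 * (2 * G * (V'.filter (fun b => Short w s x b)).card) := by ring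
      omega
  · left
    push Not at hcase
    rw [Finset.card_univ, ← hN, ← pow_two] at hcase
    obtain ⟨t, ht, hD⟩ := near_const_unit (parD q) hw (s := s) (by rw [← hG, ← hN]; exact hs1)
      (by rw [← hG, ← hN]; omega) (by rw [← hG, ← hN]; exact hcase)
    have ht1 : t⁻¹ * t = 1 := ZMod.inv_mul_of_unit t ht
    have ht2 : t * t⁻¹ = 1 := ZMod.mul_inv_of_unit t ht
    have htu : IsUnit (t⁻¹) := IsUnit.of_mul_eq_one t ht1
    obtain ⟨𝒢, h𝒢⟩ : ∃ 𝒢 : Finset α, Near (fun a b => t⁻¹ * w a b) (parB q) (parL q) 𝒢 := by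
      apply near_of_const (w := fun a b => t⁻¹ * w a b) (fun a b => by rw [hw]) (parB q) (parL q)
      · have h2 : 2 * parL q * parB q = parD q := rfl
        rw [h2, ← hN]
        omega
      · exact hNpos
      · refine le_trans (Nat.mul_le_mul_left _ (Finset.card_le_card ?_)) hD
        intro p hp
        rw [Finset.mem_filter] at hp ⊢
        refine ⟨hp.1, hp.2.1, fun h => hp.2.2 ?_⟩
        rw [h, ht1]
    apply hasModel_scale_unit htu
    apply h𝒢.case2_ge4 hq H ha
    refine le_trans ?_ hE1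
    calc parL q * (n + 1) ≤ parL q * (2 * n) := Nat.mul_le_mul_left _ (by omega)
      _ = 2 * parL q * n := by ring

/-- the count in the first case -/
theorem count_large (q D₁ D n f E c N W e : ℕ) (hq : 4 ≤ q) (hD : D = 4 * q * D₁)
    (hD₁ : 0 < D₁) (hn : 1 ≤ n) (hEf : E ≤ f) (hcase : f ≤ D₁ * N)
    (hc2 : (D - 1) * N < (q - 2) * D * (c + 1)) (hX2 : c ≤ e + n)
    (hW2 : D * W ≤ f + D) (hE : 2 * q * D * n ≤ E) :
    N + W ≤ (q - 1) * e := by
  obtain ⟨k, hk⟩ : ∃ k, q = k + 2 := ⟨q - 2, by omega⟩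
  have hq1 : q - 1 = k + 1 := by omega
  have hq2 : q - 2 = k := by omega
  have hkpos : 0 < k := by omega
  have hD4 : 4 * q ≤ D := by rw [hD]; exact Nat.le_mul_of_pos_right _ hD₁
  obtain ⟨D', hD'⟩ : ∃ D', D = D' + 1 := ⟨D - 1, by omega⟩
  have hDpos : 0 < D := by omega
  have hgoal : k * D * (N + W) ≤ k * D * ((k + 1) * e) := by
    have hNbig : 4 * k * (1 + (k + 1) * (n + 1) + 1) ≤ N := by
      have h1 : D₁ * (4 * k * (1 + (k + 1) * (n + 1) + 1)) ≤ D₁ * N := by
        refine le_trans ?_ hcase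
        refine le_trans ?_ hEf
        refine le_trans ?_ hE
        rw [hD]
        have h3 : 1 + (k + 1) * (n + 1) + 1 ≤ 2 * q * n := by
          rw [hk]; nlinarith
        calc D₁ * (4 * k * (1 + (k + 1) * (n + 1) + 1)) ≤ D₁ * (4 * q * (2 * q * n)) := by
              apply Nat.mul_le_mul_left
              apply Nat.mul_le_mul _ h3
              omega
          _ = 2 * q * (4 * q * D₁) * n := by ring
      exact Nat.le_of_mul_le_mul_left h1 hD₁
    have e1 : k * D * (c + 1) ≤ k * D * (e + n + 1) :=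
      Nat.mul_le_mul_left _ (by omega)
    rw [hq2] at hc2
    have e2 : (k + 1) * ((D - 1) * N) ≤ (k + 1) * (k * D * (e + n + 1)) :=
      Nat.mul_le_mul_left _ (hc2.le.trans e1)
    have e3 : (k + 1) * (k * D * (e + n + 1)) =
        k * D * ((k + 1) * e) + k * D * ((k + 1) * (n + 1)) := by ring
    have e4 : (k + 1) * ((D - 1) * N) + (k + 1) * N = k * D * N + D * N := by
      rw [hD', Nat.add_sub_cancel]; ring
    have e5 : k * D * (N + W) ≤ k * D * N + k * f + k * D := by
      calc k * D * (N + W) = k * D * N + k * (D * W) := by ring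
        _ ≤ k * D * N + k * (f + D) := by
          apply Nat.add_le_add_left
          exact Nat.mul_le_mul_left _ hW2
        _ = k * D * N + k * f + k * D := by ring
    have e6 : 4 * (k * f) ≤ D * N := by
      calc 4 * (k * f) ≤ 4 * (k * (D₁ * N)) :=
            Nat.mul_le_mul_left _ (Nat.mul_le_mul_left _ hcase)
        _ = 4 * k * D₁ * N := by ring
        _ ≤ D * N := by
          apply Nat.mul_le_mul_right
          rw [hD]
          apply Nat.mul_le_mul_right
          omega
    have e7 : 4 * ((k + 1) * N) ≤ D * N := by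
      calc 4 * ((k + 1) * N) = 4 * (k + 1) * N := by ring
        _ ≤ D * N := Nat.mul_le_mul_right _ (by omega)
    have e8 : 4 * (k * D * (1 + (k + 1) * (n + 1) + 1)) ≤ D * N := by
      calc 4 * (k * D * (1 + (k + 1) * (n + 1) + 1)) =
            D * (4 * k * (1 + (k + 1) * (n + 1) + 1)) := by ring
        _ ≤ D * N := Nat.mul_le_mul_left _ hNbig
    have e9 : k * D * (1 + (k + 1) * (n + 1) + 1) =
        k * D + k * D * ((k + 1) * (n + 1)) + k * D := by ring
    omega
  have hfin := Nat.le_of_mul_le_mul_left hgoal (by positivity)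
  rw [hq1]
  exact hfin

/-- `c` is large in the first case -/
theorem count_c (q D₁ D n f E c N C₀ : ℕ) (hq : 4 ≤ q) (hD₁ : 0 < D₁) (hD : 2 ≤ D)
    (hDD : D = 4 * q * D₁)
    (hEf : E ≤ f) (hcase : f ≤ D₁ * N) (hc2 : (D - 1) * N < (q - 2) * D * (c + 1))
    (hE : 2 * q * D₁ * (C₀ + 3) * n ≤ E) :
    (C₀ + 3) * n ≤ c + 1 ∧ 2 * f ≤ D * (c + 1) := by
  have hDpos : 0 < D := by omega
  have hNc : N ≤ 2 * q * (c + 1) := by
    have h1 : D * N ≤ 2 * ((D - 1) * N) := by
      rw [← mul_assoc]
      exact Nat.mul_le_mul_right _ (by omega)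
    have h2 : D * N ≤ D * (2 * q * (c + 1)) := by
      calc D * N ≤ 2 * ((D - 1) * N) := h1
        _ ≤ 2 * ((q - 2) * D * (c + 1)) := Nat.mul_le_mul_left _ hc2.le
        _ ≤ 2 * (q * D * (c + 1)) := by
          apply Nat.mul_le_mul_left
          apply Nat.mul_le_mul_right
          exact Nat.mul_le_mul_right _ (by omega)
        _ = D * (2 * q * (c + 1)) := by ring
    exact Nat.le_of_mul_le_mul_left h2 hDpos
  have h1 : 2 * q * D₁ * ((C₀ + 3) * n) ≤ 2 * q * D₁ * (c + 1) := by
    calc 2 * q * D₁ * ((C₀ + 3) * n) = 2 * q * D₁ * (C₀ + 3) * n := by ring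
      _ ≤ E := hE
      _ ≤ f := hEf
      _ ≤ D₁ * N := hcase
      _ ≤ D₁ * (2 * q * (c + 1)) := Nat.mul_le_mul_left _ hNc
      _ = 2 * q * D₁ * (c + 1) := by ring
  refine ⟨Nat.le_of_mul_le_mul_left h1 (by positivity), ?_⟩
  calc 2 * f ≤ 2 * (D₁ * N) := Nat.mul_le_mul_left _ hcase
    _ ≤ 2 * (D₁ * (2 * q * (c + 1))) := Nat.mul_le_mul_left _ (Nat.mul_le_mul_left _ hNc)
    _ = D * (c + 1) := by rw [hDD]; ring

/-- the count in the second case -/
theorem count_small (q g D₁ D n f E N W : ℕ) (hq : 4 ≤ q) (hD₁ : D₁ = 256 * g ^ 2 * q)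
    (hD : D = 4 * q * D₁) (hg : 1 ≤ g) (hn : 1 ≤ n) (hfq : f ≤ q * E)
    (hcase : D₁ * N < f) (hW2 : D * W ≤ f + D)
    (hE1 : 64 * g * q * n ≤ E) (hE2 : 256 * g ^ 2 * n ≤ E) (hEf : E ≤ f) :
    4 * g * (N + q * n + 1) ≤ f ∧ 2 * g * (2 * g * (N + W) + n + 1) ≤ E := by
  have hqpos : 0 < q := by omega
  have hgg : g ≤ g ^ 2 := by rw [pow_two]; exact Nat.le_mul_of_pos_left _ hg
  have h1 : 256 * g ^ 2 * N ≤ E := by
    have h2 : q * (256 * g ^ 2 * N) ≤ q * E := by
      calc q * (256 * g ^ 2 * N) = D₁ * N := by rw [hD₁]; ring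
        _ ≤ f := hcase.le
        _ ≤ q * E := hfq
    exact Nat.le_of_mul_le_mul_left h2 hqpos
  have hgN : g * N ≤ g ^ 2 * N := Nat.mul_le_mul_right _ hgg
  have h256N : 256 * g ^ 2 * N = 256 * (g ^ 2 * N) := by ring
  have h256n : 256 * g ^ 2 * n = 256 * (g ^ 2 * n) := by ring
  have hg2n : g ^ 2 ≤ g ^ 2 * n := Nat.le_mul_of_pos_right _ hn
  have hgn : g * n ≤ g ^ 2 * n := Nat.mul_le_mul_right _ hgg
  have hD₁pos : 0 < D₁ := by rw [hD₁]; positivity
  have h2 : 256 * (g ^ 2 * W) ≤ E + 256 * g ^ 2 := by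
    have h3 : 4 * q * (q * (256 * (g ^ 2 * W))) ≤ 4 * q * (q * (E + 256 * g ^ 2)) := by
      calc 4 * q * (q * (256 * (g ^ 2 * W))) = D * W := by rw [hD, hD₁]; ring
        _ ≤ f + D := hW2
        _ ≤ q * E + D := by omega
        _ ≤ 4 * q * (q * E) + D := Nat.add_le_add_right (Nat.le_mul_of_pos_left _ (by omega)) _
        _ = 4 * q * (q * (E + 256 * g ^ 2)) := by rw [hD, hD₁]; ring
    exact Nat.le_of_mul_le_mul_left (Nat.le_of_mul_le_mul_left h3 (by omega)) hqpos
  constructor
  · have e1 : 4 * g * (N + q * n + 1) = 4 * (g * N) + 4 * (g * (q * n)) + 4 * g := by ring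
    have e2 : 64 * g * q * n = 64 * (g * (q * n)) := by ring
    omega
  · have e1 : 2 * g * (2 * g * (N + W) + n + 1) =
        4 * (g ^ 2 * N) + 4 * (g ^ 2 * W) + 2 * (g * n) + 2 * g := by ring
    omega

open Classical in
/-- the assembly, with abstract constants -/
theorem dense_core [Fact (1 < q)] (hq : 4 ≤ q) (g D₁ D C₀ C₁ : ℕ) (hg : 8 ≤ g)
    (hD₁ : D₁ = 256 * g ^ 2 * q) (hD : D = 4 * q * D₁)
    (hC₀ : ∀ (V α : Type) [Fintype V] [Fintype α] (w : α → α → ZMod q),
      (∀ a b, w a b = w b a) → ∀ (H : SimpleGraph V) (P : Finset (Finset α)) (N : Finset α),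
      (∀ A ∈ P, ∀ B ∈ P, A ≠ B → Disjoint A B) →
      (∀ A ∈ P, Fintype.card α ≤ D * A.card ∧
        UnitFree w ((q - 1) * Fintype.card V) (q + 1) A) →
      (∀ x, x ∈ N ↔ ∃ A ∈ P, x ∈ A) →
      Fintype.card α ≤ D * N.card →
      Fintype.card α = (q - 1) * (EE H Finset.univ).card + Fintype.card V →
      ∀ X : Finset V, (q - 2) * D * (EE H X).card ≤ (D - 1) * N.card →
        Fintype.card α ≤ 8 * q * D * (EE H X).card →
        C₀ * Fintype.card V ≤ (EE H X).card →
        HasModel w (EE H Finset.univ) Finset.univ Finset.univ ∨ HasModel w (EE H X) X N)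
    [Fintype V] [Fintype α] (w : α → α → ZMod q) (hw : ∀ a b, w a b = w b a)
    (H : SimpleGraph V) (hn : 1 ≤ Fintype.card V)
    (ha : Fintype.card α = (q - 1) * (EE H Finset.univ).card + Fintype.card V)
    (hmany : C₁ * Fintype.card V ≤ (EE H Finset.univ).card →
      HasModel w (EE H Finset.univ) Finset.univ Finset.univ ∨
      ∃ (s : ℕ) (V' : Finset α), V'.Nonempty ∧ 2 * Fintype.card α ≤ g * s ∧
        ∀ a ∈ V', 4 * Fintype.card α ≤ g * (V'.filter (fun b => Short w s a b)).card)
    (hE : (2 * q * D₁ * (C₀ + 3) + 2 * q * D + 64 * g * q + 256 * g ^ 2 + C₁ + C₀) *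
      Fintype.card V ≤ (EE H Finset.univ).card) :
    HasModel w (EE H Finset.univ) Finset.univ Finset.univ := by
  have hqpos : 0 < q := by omega
  have hD₁pos : 0 < D₁ := by rw [hD₁]; positivity
  have hD₁g : g ≤ D₁ := by
    rw [hD₁, pow_two]
    calc g ≤ g * (256 * g * q) := Nat.le_mul_of_pos_right _ (by positivity)
      _ = 256 * (g * g) * q := by ring
  have hD₂D₁ : 16 * D₁ ≤ D := by rw [hD]; exact Nat.mul_le_mul_right _ (by omega)
  set n := Fintype.card V with hn'
  set E := (EE H Finset.univ).card with hE'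
  set f := Fintype.card α with hf
  -- consequences of the density
  simp only [add_mul _ _ n] at hE
  have hEf : E ≤ f := by
    have : E ≤ (q - 1) * E := Nat.le_mul_of_pos_left _ (by omega)
    omega
  have hgn : n ≤ 64 * g * q * n := Nat.le_mul_of_pos_left _ (by positivity)
  have hnE : n ≤ E := by omega
  have hfq : f ≤ q * E := by
    have h2 : q * E = (q - 1) * E + E := by
      obtain ⟨k, hk⟩ : ∃ k, q = k + 1 := ⟨q - 1, by omega⟩
      rw [hk, Nat.add_sub_cancel]; ring
    omega
  have hfpos : 0 < f := by omega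
  have hV : Nonempty V := Fintype.card_pos_iff.1 (by omega)
  -- the unit-free part
  obtain ⟨P, hP1, hP2, hP3⟩ := exists_unitfree_part hfpos w ((q - 1) * n) (q + 1) D
  set N := P.biUnion id with hN
  have hmemN : ∀ x, x ∈ N ↔ ∃ A ∈ P, x ∈ A := fun x => by
    rw [hN, Finset.mem_biUnion]; rfl
  have hrich : Rich w ((q - 1) * n) D N := hP3
  have hDpos : 0 < D := by omega
  -- the waste at the end
  obtain ⟨W, hW1, hW2⟩ : ∃ W, f ≤ D * W ∧ D * W ≤ f + D := by
    refine ⟨f / D + 1, (Nat.lt_mul_div_succ f hDpos).le, ?_⟩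
    have := Nat.mul_div_le f D
    rw [mul_add, mul_one]; omega
  by_cases hcase : f ≤ D₁ * N.card
  · -- the unit-free part is large
    have hND : f ≤ D * N.card := hcase.trans (Nat.mul_le_mul_right _ (by omega))
    have hq2D : 0 < (q - 2) * D := Nat.mul_pos (by omega) hDpos
    obtain ⟨c, hc1, hc2⟩ : ∃ c, (q - 2) * D * c ≤ (D - 1) * N.card ∧
        (D - 1) * N.card < (q - 2) * D * (c + 1) :=
      ⟨(D - 1) * N.card / ((q - 2) * D), Nat.mul_div_le _ _, Nat.lt_mul_div_succ _ hq2D⟩
    rcases Nat.lt_or_ge c E with hcE | hcE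
    · -- embed a part in `N`
      obtain ⟨X, hX1, hX2⟩ := exists_middle H c hcE.le
      obtain ⟨hcbig, hfc⟩ := count_c q D₁ D n f E c N.card C₀ hq hD₁pos (by omega) hD hEf hcase
        hc2 (by omega)
      have hCX : C₀ * n ≤ (EE H X).card := by
        rw [add_mul] at hcbig
        omega
      have hfX : f ≤ 8 * q * D * (EE H X).card := by
        have h1 : c + 1 ≤ 2 * (EE H X).card + 2 := by
          rw [add_mul] at hcbig
          omega
        have h2 : D * (c + 1) ≤ D * (2 * (EE H X).card + 2) := Nat.mul_le_mul_left _ h1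
        have h3 : D * (2 * (EE H X).card + 2) = 2 * (D * (EE H X).card) + 2 * D := by ring
        have h4 : 1 ≤ (EE H X).card := by
          rw [add_mul] at hcbig
          omega
        have h5 : D ≤ D * (EE H X).card := Nat.le_mul_of_pos_right _ h4
        have h6 : 2 * (D * (EE H X).card) ≤ 8 * q * D * (EE H X).card := by
          calc 2 * (D * (EE H X).card) = 2 * D * (EE H X).card := by ring
            _ ≤ 8 * q * D * (EE H X).card := by
              apply Nat.mul_le_mul_right
              apply Nat.mul_le_mul_right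
              omega
        omega
      rcases hC₀ V α w hw H P N hP1 hP2 hmemN hND ha X
        ((Nat.mul_le_mul_left _ hX1).trans hc1) hfX hCX with h | ⟨φ, I, m⟩
      · exact h
      · refine lateU (by omega) H D N hrich X N φ I m (Finset.Subset.refl _) W hW1 ?_
          (le_of_eq ha.symm)
        have := count_large q D₁ D n f E c N.card W (EE H X).card hq hD hD₁pos hn hEf hcase hc2
          hX2 hW2 (by omega)
        omega
    · -- embed everything in `N`
      rcases hC₀ V α w hw H P N hP1 hP2 hmemN hND ha Finset.univ (by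
          refine le_trans ?_ hc1
          exact Nat.mul_le_mul_left _ hcE) (by
          refine hfq.trans (Nat.mul_le_mul_right _ ?_)
          calc q ≤ q * (8 * D) := Nat.le_mul_of_pos_right _ (by omega)
            _ = 8 * q * D := by ring) (show C₀ * n ≤ E by omega) with h | h
      · exact h
      · exact hasModel_mono h (Finset.subset_univ _)
  · -- the unit-free part is small
    push Not at hcase
    rcases hmany (by omega) with h | ⟨s, V', hne, hs, hdeg⟩
    · exact h
    obtain ⟨c1, c2⟩ := count_small q g D₁ D n f E N.card W hq hD₁ hD (by omega) hn hfq hcase hW2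
      (by omega) (by omega) hEf
    exact case1U (by omega) H g s D (by omega) (by omega) (by omega) N hrich V' hne hdeg hs
      c1 (le_of_eq ha.symm) W hW1 c2

open Classical in
/-- **Dense graphs, moduli `q ≥ 4`**, from Claim N. -/
theorem dense_of_claimN [Fact (1 < q)] (hq : 4 ≤ q) (hclaim : ClaimN q) :
    ∃ C : ℕ, ∀ (V α : Type) [Fintype V] [Fintype α] (w : α → α → ZMod q),
      (∀ a b, w a b = w b a) → ∀ H : SimpleGraph V, 1 ≤ Fintype.card V →
      Fintype.card α = (q - 1) * (EE H Finset.univ).card + Fintype.card V →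
      C * Fintype.card V ≤ (EE H Finset.univ).card →
      HasModel w (EE H Finset.univ) Finset.univ Finset.univ := by
  have hqpos : 0 < q := by omega
  have hg8 : 8 ≤ parG q := by
    have : 0 < constG q (parD q) := by unfold constG; positivity
    have h2 : parG q = 8 * constG q (parD q) := rfl
    omega
  obtain ⟨g, hg⟩ : ∃ g, g = parG q := ⟨_, rfl⟩
  obtain ⟨D, hD⟩ : ∃ D, D = 4 * q * (256 * g ^ 2 * q) := ⟨_, rfl⟩
  have hD2 : 2 ≤ D := by
    rw [hD]
    have h1 : 1 ≤ 256 * g ^ 2 * q := Nat.mul_pos (by rw [hg]; positivity) hqpos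
    calc 2 ≤ 4 * q * 1 := by omega
      _ ≤ _ := Nat.mul_le_mul_left _ h1
  obtain ⟨C₀, hC₀⟩ := hclaim D hD2
  refine ⟨2 * q * (256 * g ^ 2 * q) * (C₀ + 3) + 2 * q * D + 64 * g * q + 256 * g ^ 2 +
    (2 * parL q + 2 * parD q + 2 * parG q) + C₀, ?_⟩
  intro V α _ _ w hw H hn ha hE
  rw [← hg] at hg8
  refine dense_core hq g (256 * g ^ 2 * q) D C₀ (2 * parL q + 2 * parD q + 2 * parG q) hg8 rfl hD
    hC₀ w hw H hn ha ?_ hE
  intro h
  rw [hg]
  exact few_or_many hq hw H hn ha h

end

end MP0dbebe
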