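import Pool.Agent.Lib.MP_0dbebe_co.CQ1
import Pool.Agent.Lib.MP_0dbebe_co.CQ.ClaimN

/-! # Composite moduli: Claim N -/

namespace MP0dbebe

open Classical in
/-- **Claim N** holds for all `q ≥ 4`. -/
theorem claimN (q : ℕ) (hq : 4 ≤ q) : ClaimN q := by
  intro D hD
  have hF : Fact (1 < q) := ⟨by omega⟩
  obtain ⟨D₁, R, C, hC⟩ := CQ.claimN_core q hq D hD
  refine ⟨C + admC q R D D₁, ?_⟩
  intro V α _ _ w hw H P N hP1 hP2 hN hND ha X hX hfX hCX
  rcases Nat.eq_zero_or_pos (Fintype.card V) with h0 | hn
  · -- no vertices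
    right
    have hV : IsEmpty V := Fintype.card_eq_zero_iff.1 h0
    refine ⟨fun v => isEmptyElim v, fun _ => [], ?_⟩
    have hno : ∀ e : Sym2 V, False := by
      intro e
      induction e using Sym2.ind with
      | _ u v => exact isEmptyElim u
    exact ⟨fun v => isEmptyElim v, fun v => isEmptyElim v, fun e => (hno e).elim,
      fun e => (hno e).elim, fun e => (hno e).elim, fun e => (hno e).elim,
      fun e => (hno e).elim, fun e => (hno e).elim⟩
  have hNP : N = P.biUnion id := by
    ext x
    rw [hN, Finset.mem_biUnion]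
    rfl
  have hEf : (EE H Finset.univ).card ≤ Fintype.card α := by
    have : (EE H Finset.univ).card ≤ (q - 1) * (EE H Finset.univ).card :=
      Nat.le_mul_of_pos_left _ (by omega)
    omega
  have hXE : (EE H X).card ≤ (EE H Finset.univ).card :=
    Finset.card_le_card (EE_mono H (Finset.subset_univ _))
  rw [add_mul] at hCX
  have hα : 0 < Fintype.card α := by omega
  rcases exists_adm hw H hn hEf R D D₁ hP1 hP2 (by omega) hα with h | h
  · exact Or.inl h
  · right
    exact hC V α w hw H N hND (by rw [hNP]; exact h) X hX (by omega) hfX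

end MP0dbebe
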