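import Pool.Agent.Lib.MP_0dbebe_co.Dense4

/-! # Few short zero paths: the weights are almost constant -/

namespace MP0dbebe

section
variable {α : Type*}

open Classical in
theorem count_comp {J κ : Type*} [Fintype J] [Fintype κ] [DecidableEq J] [DecidableEq κ]
    [Fintype α] (g : κ → J)
    (hg : Function.Injective g) (P : (κ → α) → Prop) :
    (Finset.univ.filter (fun f : J → α => P (f ∘ g))).card * Fintype.card α ^ Fintype.card κ =
      (Finset.univ.filter (fun b : κ → α => P b)).card * Fintype.card α ^ Fintype.card J := by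
  let e : {f : J → α // P (f ∘ g)} ≃
      {b : κ → α // P b} × ({j // ¬ j ∈ Set.range g} → α) :=
    { toFun := fun f => (⟨f.1 ∘ g, f.2⟩, fun j => f.1 j.1)
      invFun := fun p => ⟨fun j => if h : j ∈ Set.range g then
        p.1.1 ((Equiv.ofInjective g hg).symm ⟨j, h⟩) else p.2 ⟨j, h⟩, by
          have : (fun j => if h : j ∈ Set.range g then
            p.1.1 ((Equiv.ofInjective g hg).symm ⟨j, h⟩) else p.2 ⟨j, h⟩) ∘ g = p.1.1 := by
            funext k
            have hk : g k ∈ Set.range g := ⟨k, rfl⟩
            simp only [Function.comp_apply, hk, dif_pos]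
            exact congrArg p.1.1 ((Equiv.ofInjective g hg).symm_apply_apply k)
          rw [this]
          exact p.1.2⟩
      left_inv := by
        rintro ⟨f, hf⟩
        apply Subtype.ext
        funext j
        by_cases h : j ∈ Set.range g
        · simp only [h, dif_pos, Function.comp_apply]
          congr 1
          have := (Equiv.ofInjective g hg).apply_symm_apply ⟨j, h⟩
          exact congrArg Subtype.val this
        · simp only [h, dif_neg, not_false_eq_true]
      right_inv := by
        rintro ⟨⟨b, hb⟩, r⟩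
        apply Prod.ext
        · apply Subtype.ext
          funext k
          have hk : g k ∈ Set.range g := ⟨k, rfl⟩
          simp only [Function.comp_apply, hk, dif_pos]
          congr 1
          exact (Equiv.ofInjective g hg).symm_apply_apply k
        · funext j
          simp only [j.2, dif_neg, not_false_eq_true] }
  have h1 := Fintype.card_congr e
  rw [Fintype.card_prod, Fintype.card_fun, Fintype.card_subtype, Fintype.card_subtype] at h1
  have h2 : Fintype.card {j // ¬ j ∈ Set.range g} + Fintype.card κ = Fintype.card J := by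
    have h3 : Fintype.card {j // j ∈ Set.range g} = Fintype.card κ :=
      Fintype.card_congr (Equiv.ofInjective g hg).symm
    have h4 := Fintype.card_subtype_compl (fun j => j ∈ Set.range g)
    have h5 := Fintype.card_subtype_le (fun j => j ∈ Set.range g)
    omega
  rw [h1, mul_assoc, ← pow_add, h2]

open Classical in
theorem count_pair {J : Type*} [Fintype J] [DecidableEq J] [Fintype α] (i j : J) (hij : i ≠ j)
    (r : α → α → Prop) :
    (Finset.univ.filter (fun f : J → α => r (f i) (f j))).card * Fintype.card α ^ 2 =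
      (((Finset.univ : Finset α) ×ˢ Finset.univ).filter (fun p => r p.1 p.2)).card *
        Fintype.card α ^ Fintype.card J := by
  have h := count_comp (α := α) (![i, j] : Fin 2 → J) (by
    intro a b hab
    fin_cases a <;> fin_cases b <;> simp_all) (fun b => r (b 0) (b 1))
  rw [Fintype.card_fin] at h
  have h1 : (Finset.univ.filter (fun f : J → α => r (f i) (f j))) =
      (Finset.univ.filter (fun f : J → α => (fun b : Fin 2 → α => r (b 0) (b 1))
        (f ∘ (![i, j] : Fin 2 → J)))) := by
    apply Finset.filter_congr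
    intro f _
    simp
  rw [h1, h]
  congr 1
  apply Finset.card_bij (fun b _ => (b 0, b 1))
  · intro b hb
    rw [Finset.mem_filter] at hb ⊢
    exact ⟨by simp, hb.2⟩
  · intro b _ b' _ hbb
    rw [Prod.mk.injEq] at hbb
    funext k
    fin_cases k
    · exact hbb.1
    · exact hbb.2
  · rintro ⟨a, b⟩ hab
    rw [Finset.mem_filter] at hab
    exact ⟨![a, b], by rw [Finset.mem_filter]; exact ⟨Finset.mem_univ _, hab.2⟩, rfl⟩

open Classical in
theorem count_fiber {J : Type*} [Fintype J] [DecidableEq J] [Fintype α] (l : J)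
    (P : (J → α) → Prop) (s : ℕ)
    (h : ∀ f : J → α, (Finset.univ.filter (fun a => P (Function.update f l a))).card ≤ s) :
    (Finset.univ.filter P).card * Fintype.card α ≤ s * Fintype.card α ^ Fintype.card J := by
  let e : (J → α) × α ≃ (J → α) × α :=
    { toFun := fun p => (Function.update p.1 l p.2, p.1 l)
      invFun := fun p => (Function.update p.1 l p.2, p.1 l)
      left_inv := by rintro ⟨f, a⟩; simp
      right_inv := by rintro ⟨f, a⟩; simp }
  have h1 : ∑ p : (J → α) × α, (if P (Function.update p.1 l p.2) then 1 else 0) =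
      ∑ p : (J → α) × α, (if P p.1 then 1 else 0) :=
    Equiv.sum_comp e (fun p : (J → α) × α => if P p.1 then 1 else 0)
  rw [Fintype.sum_prod_type, Fintype.sum_prod_type] at h1
  have h2 : ∑ f : J → α, ∑ _a : α, (if P f then 1 else 0) =
      (Finset.univ.filter P).card * Fintype.card α := by
    rw [Finset.card_filter, Finset.sum_mul]
    apply Finset.sum_congr rfl
    intro f _
    rw [Finset.sum_const, Finset.card_univ, smul_eq_mul, mul_comm]
  have h3 : ∑ f : J → α, ∑ a : α, (if P (Function.update f l a) then 1 else 0) ≤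
      s * Fintype.card α ^ Fintype.card J := by
    calc ∑ f : J → α, ∑ a : α, (if P (Function.update f l a) then 1 else 0)
        ≤ ∑ _f : J → α, s := by
          apply Finset.sum_le_sum
          intro f _
          rw [← Finset.card_filter]
          exact h f
      _ = s * Fintype.card α ^ Fintype.card J := by
          rw [Finset.sum_const, Finset.card_univ, Fintype.card_fun, smul_eq_mul, mul_comm]
  rw [← h2, ← h1]
  exact h3

/-- a residue without small multiples that vanish is a unit -/
theorem isUnit_of_mul_ne {q : ℕ} [Fact (1 < q)] {t : ZMod q}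
    (h : ∀ j : ℕ, 1 ≤ j → j < q → (j : ZMod q) * t ≠ 0) : IsUnit t := by
  have hq : 1 < q := Fact.out
  rw [← ZMod.natCast_zmod_val t, ZMod.isUnit_iff_coprime]
  by_contra hcop
  have hd3 : Nat.gcd t.val q ∣ q := Nat.gcd_dvd_right _ _
  have hd2 : Nat.gcd t.val q ∣ t.val := Nat.gcd_dvd_left _ _
  have hd0 : 0 < Nat.gcd t.val q := Nat.gcd_pos_of_pos_right _ (by omega)
  have hd1 : 2 ≤ Nat.gcd t.val q := by
    have h1 : Nat.gcd t.val q ≠ 1 := hcop
    omega
  generalize Nat.gcd t.val q = d at hd0 hd1 hd2 hd3
  obtain ⟨j, hj⟩ := hd3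
  have hj1 : 1 ≤ j := by
    rcases Nat.eq_zero_or_pos j with h0 | h0
    · rw [h0, mul_zero] at hj; omega
    · exact h0
  refine h j hj1 ?_ ?_
  · rw [hj]
    calc j < 2 * j := by omega
      _ ≤ d * j := Nat.mul_le_mul_right _ hd1
  · obtain ⟨e, he⟩ := hd2
    have h1 : (j : ZMod q) * t = ((j * t.val : ℕ) : ZMod q) := by
      push_cast
      rw [ZMod.natCast_zmod_val]
    rw [h1, ZMod.natCast_eq_zero_iff, he]
    have h2 : j * (d * e) = q * e := by
      calc j * (d * e) = (d * j) * e := by ring
        _ = q * e := by rw [← hj]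
    rw [h2]
    exact Nat.dvd_mul_right _ _

open Classical in
/-- if no path with at most `q` vertices inside a large set has weight zero, the weights are
constant, equal to a unit -/
theorem mono_of_no_short {q : ℕ} [Fact (1 < q)] {w : α → α → ZMod q}
    (hw : ∀ a b, w a b = w b a) (S : Finset α)
    (hS : 16 * (16 * (q - 1)) ^ ((q + 1) * (q - 1)) ≤ S.card)
    (hno : ∀ l : List α, l.Nodup → (∀ x ∈ l, x ∈ S) → 2 ≤ l.length → l.length ≤ q →
      pw w l ≠ 0) :
    ∃ t : ZMod q, IsUnit t ∧ ∀ x ∈ S, ∀ y ∈ S, x ≠ y → w x y = t := by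
  have hq2 : 2 ≤ q := (Fact.out : 1 < q)
  have hpair : ∀ x ∈ S, ∀ y ∈ S, x ≠ y → w x y ≠ 0 := by
    intro x hx y hy hxy h0
    apply hno [x, y] (by simpa using hxy) _ (by simp) (by simpa using hq2)
    · rw [pw_cons_cons, pw_single, h0, add_zero]
    · intro z hz
      simp only [List.mem_cons, List.not_mem_nil, or_false] at hz
      rcases hz with rfl | rfl <;> assumption
  have hg : (∑ t ∈ Finset.univ.erase (0 : ZMod q), (fun _ => q + 1) t) ≤ (q + 1) * (q - 1) := by
    rw [Finset.sum_const, Finset.card_erase_of_mem (Finset.mem_univ _), Finset.card_univ,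
      ZMod.card, smul_eq_mul, mul_comm]
  rcases ramsey hq2 hw (fun _ => (∅ : Finset α)) 0 (by simp) 16 (by norm_num)
    ((q + 1) * (q - 1)) (fun _ => q + 1) hg S hS with
    ⟨W, hWS, hW, hWc⟩ | ⟨t, ht, T, hTS, hTc, hT⟩
  · exfalso
    have h1 : 0 < W.card := by omega
    obtain ⟨x, hx⟩ := Finset.card_pos.1 h1
    have h2 : 4 * (W.erase x).card ≤ W.card := by
      refine le_trans (Nat.mul_le_mul_left 4 (Finset.card_le_card ?_)) (hW x hx)
      intro y hy
      rw [Finset.mem_erase] at hy
      simp only [Finset.mem_filter]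
      exact ⟨hy.2, hpair x (hWS hx) y (hWS hy.2) hy.1.symm⟩
    rw [Finset.card_erase_of_mem hx] at h2
    omega
  -- lists in `T`
  have hlist : ∀ (T' : Finset α) (j : ℕ), T' ⊆ T → j ≤ T'.card → ∃ l : List α, l.Nodup ∧
      l.length = j ∧ ∀ x ∈ l, x ∈ T' := by
    intro T' j _ hj
    refine ⟨T'.toList.take j, (Finset.nodup_toList T').sublist (List.take_sublist _ _), ?_, ?_⟩
    · rw [List.length_take, Finset.length_toList]; omega
    · intro x hx
      exact Finset.mem_toList.1 (List.mem_of_mem_take hx)
  -- the colour is a unit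
  have htu : IsUnit t := by
    apply isUnit_of_mul_ne
    intro j hj1 hjq h0
    obtain ⟨l, hl1, hl2, hl3⟩ := hlist T (j + 1) (Finset.Subset.refl _) (by rw [hTc]; omega)
    obtain ⟨x, l', rfl⟩ := List.exists_cons_of_ne_nil (by
      intro h; rw [h] at hl2; simp at hl2 : l ≠ [])
    rw [List.length_cons] at hl2
    apply hno (x :: l') hl1 (fun z hz => hTS (hl3 z hz)) (by rw [List.length_cons]; omega)
      (by rw [List.length_cons]; omega)
    rw [pw_mono w T t (fun a ha b hb hab => (hT a ha b hb hab).1) x l' hl1 hl3, nsmul_eq_mul,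
      show l'.length = j by omega]
    exact h0
  refine ⟨t, htu, ?_⟩
  -- the multiple of `t`
  have hval : ∀ β : ZMod q, β ≠ 0 → β ≠ t → ∃ j : ℕ, 1 ≤ j ∧ j + 2 ≤ q ∧
      β + (j : ZMod q) * t = 0 := by
    intro β hβ hβt
    set j := ((- β) * t⁻¹).val with hj
    have hjt : ((j : ℕ) : ZMod q) * t = - β := by
      rw [hj, ZMod.natCast_zmod_val, mul_assoc, ZMod.inv_mul_of_unit t htu, mul_one]
    have hj0 : j ≠ 0 := by
      intro h
      rw [h, Nat.cast_zero, zero_mul] at hjt
      exact hβ (by rw [← neg_eq_zero, ← hjt])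
    have hjq : j < q := ZMod.val_lt _
    have hjq1 : j ≠ q - 1 := by
      intro h
      rw [h, Nat.cast_sub (by omega), ZMod.natCast_self, Nat.cast_one, zero_sub, neg_one_mul,
        neg_inj] at hjt
      exact hβt hjt.symm
    exact ⟨j, by omega, by omega, by rw [hjt, add_neg_cancel]⟩
  have hA : ∀ u ∈ S, ∀ x ∈ T, u ≠ x → w u x = t := by
    intro u hu x hx hux
    by_cases huT : u ∈ T
    · exact (hT u huT x hx hux).1
    by_contra hne
    obtain ⟨j, hj1, hj2, hj3⟩ := hval (w u x) (hpair u hu x (hTS hx) hux) hne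
    obtain ⟨l, hl1, hl2, hl3⟩ := hlist (T.erase x) j (Finset.erase_subset _ _) (by
      rw [Finset.card_erase_of_mem hx, hTc]; omega)
    have hxl : x ∉ l := fun h => (Finset.mem_erase.1 (hl3 x h)).1 rfl
    have hul : u ∉ l := fun h => huT (Finset.mem_erase.1 (hl3 u h)).2
    apply hno (u :: x :: l)
    · rw [List.nodup_cons, List.nodup_cons, List.mem_cons]
      exact ⟨fun h => h.elim (fun h => hux h) hul, hxl, hl1⟩
    · intro z hz
      rw [List.mem_cons, List.mem_cons] at hz
      rcases hz with rfl | rfl | hz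
      · exact hu
      · exact hTS hx
      · exact hTS (Finset.mem_erase.1 (hl3 z hz)).2
    · simp
    · rw [List.length_cons, List.length_cons, hl2]; omega
    · rw [pw_cons_cons, pw_mono w T t (fun a ha b hb hab => (hT a ha b hb hab).1) x l
        (List.nodup_cons.2 ⟨hxl, hl1⟩), hl2, nsmul_eq_mul, hj3]
      intro z hz
      rw [List.mem_cons] at hz
      rcases hz with rfl | hz
      · exact hx
      · exact (Finset.mem_erase.1 (hl3 z hz)).2
  intro u hu v hv huv
  by_cases hvT : v ∈ T
  · exact hA u hu v hvT huv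
  by_cases huT : u ∈ T
  · rw [hw]; exact hA v hv u huT huv.symm
  by_contra hne
  obtain ⟨j, hj1, hj2, hj3⟩ := hval (w u v) (hpair u hu v hv huv) hne
  obtain ⟨l, hl1, hl2, hl3⟩ := hlist T j (Finset.Subset.refl _) (by rw [hTc]; omega)
  obtain ⟨x, l', rfl⟩ := List.exists_cons_of_ne_nil (by
    intro h; rw [h] at hl2; simp at hl2; omega : l ≠ [])
  rw [List.length_cons] at hl2
  have hxT := hl3 x List.mem_cons_self
  apply hno (u :: v :: x :: l')
  · rw [List.nodup_cons, List.nodup_cons, List.mem_cons]
    exact ⟨fun h => h.elim (fun h => huv h) (fun h => huT (hl3 u h)),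
      fun h => hvT (hl3 v h), hl1⟩
  · intro z hz
    rw [List.mem_cons, List.mem_cons] at hz
    rcases hz with rfl | rfl | hz
    · exact hu
    · exact hv
    · exact hTS (hl3 z hz)
  · simp
  · simp only [List.length_cons]; omega
  · rw [pw_cons_cons, pw_cons_cons, hA v hv x hxT (fun h => hvT (h ▸ hxT)),
      pw_mono w T t (fun a ha b hb hab => (hT a ha b hb hab).1) x l' hl1 hl3, nsmul_eq_mul,
      ← hj3]
    have : (j : ZMod q) = (l'.length : ZMod q) + 1 := by
      rw [← hl2]; push_cast; ring
    rw [this]; ring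

end

end MP0dbebe
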