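import Pool.Agent.Lib.MP_0dbebe_co.Const1

/-! # Few short zero paths: the weights are almost constant (conclusion) -/

namespace MP0dbebe

/-- size of the sample -/
def sampleR (q : ℕ) : ℕ := 16 * (16 * (q - 1)) ^ ((q + 1) * (q - 1))

/-- density constant -/
def constG (q D : ℕ) : ℕ := 3 * (sampleR q + 2) ^ 3 * (D + 2)

section
variable {α : Type*}

/-- a sample without short zero paths -/
def GoodSample {J : Type*} {q : ℕ} (w : α → α → ZMod q) (s : ℕ) (F : α → α → Finset α)
    (f : J → α) : Prop :=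
  Function.Injective f ∧ (∀ i j, i ≠ j → ¬ Short w s (f i) (f j)) ∧
    ∀ i j l, i ≠ j → l ≠ i → l ≠ j → f l ∉ F (f i) (f j)

open Classical in
theorem GoodSample.mono {J : Type*} [Fintype J] {q : ℕ} [Fact (1 < q)] {w : α → α → ZMod q}
    (hw : ∀ a b, w a b = w b a) {s : ℕ} {F : α → α → Finset α} {f : J → α}
    (hF : ∀ a b, ¬ Short w s a b → ∀ l : List α, l.Nodup → (∀ x ∈ l, x ∉ F a b) →
      l.length + 2 ≤ q → pw w (a :: (l ++ [b])) ≠ 0)
    (hJ : sampleR q ≤ Fintype.card J) (h : GoodSample w s F f) :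
    ∃ t : ZMod q, IsUnit t ∧ ∀ i j, i ≠ j → w (f i) (f j) = t := by
  obtain ⟨h1, h2, h3⟩ := h
  obtain ⟨t, ht, hS⟩ := mono_of_no_short hw (Finset.univ.image f) (by
    rw [Finset.card_image_of_injective _ h1, Finset.card_univ]; exact hJ) (by
    intro L hL hmem hL2 hLq
    obtain ⟨a, L', rfl⟩ := List.exists_cons_of_ne_nil (by
      rintro rfl; simp at hL2 : L ≠ [])
    obtain ⟨l, b, rfl⟩ : ∃ l b, L' = l ++ [b] := by
      have hne : L' ≠ [] := by rintro rfl; simp at hL2
      exact ⟨L'.dropLast, L'.getLast hne, (List.dropLast_append_getLast hne).symm⟩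
    obtain ⟨i, hi⟩ : ∃ i, f i = a := by
      have := hmem a List.mem_cons_self
      simpa using this
    obtain ⟨j, hj⟩ : ∃ j, f j = b := by
      have := hmem b (by simp)
      simpa using this
    rw [List.nodup_cons, List.nodup_append] at hL
    have hab : a ≠ b := by
      rintro rfl
      exact hL.1 (by simp)
    have hij : i ≠ j := by
      rintro rfl
      exact hab (hi.symm.trans hj)
    rw [← hi, ← hj]
    apply hF _ _ (h2 i j hij) l hL.2.1
    · intro x hx
      obtain ⟨k, hk⟩ : ∃ k, f k = x := by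
        have := hmem x (by simp [hx])
        simpa using this
      rw [← hk]
      apply h3 i j k hij
      · rintro rfl
        apply hL.1
        rw [← hi, hk]
        simp [hx]
      · rintro rfl
        exact hL.2.2.2 x hx b (by simp) (hk.symm.trans hj)
    · simp only [List.length_cons, List.length_append, List.length_nil] at hLq
      omega)
  refine ⟨t, ht, fun i j hij => ?_⟩
  exact hS _ (Finset.mem_image_of_mem f (Finset.mem_univ i)) _
    (Finset.mem_image_of_mem f (Finset.mem_univ j)) (fun h => hij (h1 h))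

open Classical in
theorem count_bad {J : Type*} [Fintype J] [DecidableEq J] [Fintype α] {q : ℕ}
    {w : α → α → ZMod q} {s G : ℕ} {F : α → α → Finset α} (hFs : ∀ a b, (F a b).card ≤ s)
    (hα : 0 < Fintype.card α)
    (hs : G * s ≤ Fintype.card α) (hG : G ≤ Fintype.card α)
    (hS : G * (((Finset.univ : Finset α) ×ˢ Finset.univ).filter
      (fun p => Short w s p.1 p.2)).card ≤ Fintype.card α ^ 2) (hJ : 1 ≤ Fintype.card J) :
    G * (Finset.univ.filter (fun f : J → α => ¬ GoodSample w s F f)).card ≤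
      3 * Fintype.card J ^ 3 * Fintype.card α ^ Fintype.card J := by
  set N := Fintype.card α with hN
  set T := N ^ Fintype.card J with hT
  set R := Fintype.card J with hR
  -- three kinds of failure
  let A₁ : J × J → Finset (J → α) := fun p => Finset.univ.filter (fun f => f p.1 = f p.2)
  let A₂ : J × J → Finset (J → α) := fun p =>
    Finset.univ.filter (fun f => Short w s (f p.1) (f p.2))
  let A₃ : J × J × J → Finset (J → α) := fun p =>
    Finset.univ.filter (fun f => f p.1 ∈ F (f p.2.1) (f p.2.2))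
  let P : Finset (J × J) := Finset.univ.filter (fun p => p.1 ≠ p.2)
  let P₃ : Finset (J × J × J) := Finset.univ.filter
    (fun p => p.2.1 ≠ p.2.2 ∧ p.1 ≠ p.2.1 ∧ p.1 ≠ p.2.2)
  have hsub : Finset.univ.filter (fun f : J → α => ¬ GoodSample w s F f) ⊆
      (P.biUnion A₁ ∪ P.biUnion A₂) ∪ P₃.biUnion A₃ := by
    intro f hf
    rw [Finset.mem_filter] at hf
    by_contra hcon
    apply hf.2
    rw [Finset.mem_union, Finset.mem_union, Finset.mem_biUnion, Finset.mem_biUnion,
      Finset.mem_biUnion] at hcon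
    push Not at hcon
    obtain ⟨⟨c1, c2⟩, c3⟩ := hcon
    refine ⟨?_, ?_, ?_⟩
    · intro i j hij
      by_contra hne
      exact c1 (i, j) (Finset.mem_filter.2 ⟨Finset.mem_univ _, hne⟩)
        (Finset.mem_filter.2 ⟨Finset.mem_univ _, hij⟩)
    · intro i j hij hsh
      exact c2 (i, j) (Finset.mem_filter.2 ⟨Finset.mem_univ _, hij⟩)
        (Finset.mem_filter.2 ⟨Finset.mem_univ _, hsh⟩)
    · intro i j l hij hli hlj hmem
      exact c3 (l, i, j) (Finset.mem_filter.2 ⟨Finset.mem_univ _, hij, hli, hlj⟩)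
        (Finset.mem_filter.2 ⟨Finset.mem_univ _, hmem⟩)
  have b1 : ∀ p ∈ P, G * (A₁ p).card ≤ T := by
    rintro ⟨i, j⟩ hp
    have hij : i ≠ j := (Finset.mem_filter.1 hp).2
    have h1 := count_fiber (α := α) i (fun f : J → α => f i = f j) 1 (by
      intro f
      rw [Finset.card_le_one]
      intro a ha b hb
      rw [Finset.mem_filter, Function.update_self, Function.update_of_ne hij.symm] at ha hb
      rw [ha.2, hb.2])
    rw [one_mul] at h1
    calc G * (A₁ (i, j)).card ≤ N * (A₁ (i, j)).card := Nat.mul_le_mul_right _ hG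
      _ = (A₁ (i, j)).card * N := mul_comm _ _
      _ ≤ T := h1
  have b2 : ∀ p ∈ P, G * (A₂ p).card ≤ T := by
    rintro ⟨i, j⟩ hp
    have hij : i ≠ j := (Finset.mem_filter.1 hp).2
    have h1 := count_pair (α := α) i j hij (fun a b => Short w s a b)
    have h2 : (G * (A₂ (i, j)).card) * N ^ 2 ≤ T * N ^ 2 := by
      calc (G * (A₂ (i, j)).card) * N ^ 2 = G * ((A₂ (i, j)).card * N ^ 2) := by ring
        _ = G * ((((Finset.univ : Finset α) ×ˢ Finset.univ).filter
            (fun p => Short w s p.1 p.2)).card * T) := by rw [hT, ← h1]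
        _ = (G * (((Finset.univ : Finset α) ×ˢ Finset.univ).filter
            (fun p => Short w s p.1 p.2)).card) * T := by ring
        _ ≤ N ^ 2 * T := Nat.mul_le_mul_right _ hS
        _ = T * N ^ 2 := mul_comm _ _
    exact Nat.le_of_mul_le_mul_right h2 (by positivity)
  have b3 : ∀ p ∈ P₃, G * (A₃ p).card ≤ T := by
    rintro ⟨l, i, j⟩ hp
    have hp' := (Finset.mem_filter.1 hp).2
    simp only at hp'
    have h1 := count_fiber (α := α) l (fun f : J → α => f l ∈ F (f i) (f j)) s (by
      intro f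
      refine le_trans (Finset.card_le_card ?_) (hFs (f i) (f j))
      intro a ha
      simp only [Finset.mem_filter, Finset.mem_univ, true_and] at ha
      rw [Function.update_self, Function.update_of_ne hp'.2.1.symm,
        Function.update_of_ne hp'.2.2.symm] at ha
      exact ha)
    have h1' : (A₃ (l, i, j)).card * N ≤ s * T := by convert h1
    have h2 : (G * (A₃ (l, i, j)).card) * N ≤ T * N := by
      calc (G * (A₃ (l, i, j)).card) * N = G * ((A₃ (l, i, j)).card * N) := by ring
        _ ≤ G * (s * T) := Nat.mul_le_mul_left _ h1'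
        _ = (G * s) * T := by ring
        _ ≤ N * T := Nat.mul_le_mul_right _ hs
        _ = T * N := mul_comm _ _
    exact Nat.le_of_mul_le_mul_right h2 hα
  have c1 : G * (P.biUnion A₁).card ≤ R ^ 3 * T := by
    calc G * (P.biUnion A₁).card ≤ G * ∑ p ∈ P, (A₁ p).card :=
          Nat.mul_le_mul_left _ Finset.card_biUnion_le
      _ = ∑ p ∈ P, G * (A₁ p).card := Finset.mul_sum _ _ _
      _ ≤ P.card • T := Finset.sum_le_card_nsmul _ _ _ b1
      _ = P.card * T := smul_eq_mul _ _
      _ ≤ R ^ 3 * T := by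
        apply Nat.mul_le_mul_right
        have h1 : P.card ≤ Fintype.card (J × J) := Finset.card_le_univ _
        rw [Fintype.card_prod] at h1
        calc P.card ≤ R * R := h1
          _ ≤ R ^ 3 := by
            rw [pow_succ, pow_two]
            exact Nat.le_mul_of_pos_right _ hJ
  have c2 : G * (P.biUnion A₂).card ≤ R ^ 3 * T := by
    calc G * (P.biUnion A₂).card ≤ G * ∑ p ∈ P, (A₂ p).card :=
          Nat.mul_le_mul_left _ Finset.card_biUnion_le
      _ = ∑ p ∈ P, G * (A₂ p).card := Finset.mul_sum _ _ _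
      _ ≤ P.card • T := Finset.sum_le_card_nsmul _ _ _ b2
      _ = P.card * T := smul_eq_mul _ _
      _ ≤ R ^ 3 * T := by
        apply Nat.mul_le_mul_right
        have h1 : P.card ≤ Fintype.card (J × J) := Finset.card_le_univ _
        rw [Fintype.card_prod] at h1
        calc P.card ≤ R * R := h1
          _ ≤ R ^ 3 := by
            rw [pow_succ, pow_two]
            exact Nat.le_mul_of_pos_right _ hJ
  have c3 : G * (P₃.biUnion A₃).card ≤ R ^ 3 * T := by
    calc G * (P₃.biUnion A₃).card ≤ G * ∑ p ∈ P₃, (A₃ p).card :=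
          Nat.mul_le_mul_left _ Finset.card_biUnion_le
      _ = ∑ p ∈ P₃, G * (A₃ p).card := Finset.mul_sum _ _ _
      _ ≤ P₃.card • T := Finset.sum_le_card_nsmul _ _ _ b3
      _ = P₃.card * T := smul_eq_mul _ _
      _ ≤ R ^ 3 * T := by
        apply Nat.mul_le_mul_right
        have h1 : P₃.card ≤ Fintype.card (J × J × J) := Finset.card_le_univ _
        rw [Fintype.card_prod, Fintype.card_prod] at h1
        calc P₃.card ≤ R * (R * R) := h1
          _ = R ^ 3 := by ring
  have d1 := Finset.card_le_card hsub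
  have d2 := Finset.card_union_le (P.biUnion A₁ ∪ P.biUnion A₂) (P₃.biUnion A₃)
  have d3 := Finset.card_union_le (P.biUnion A₁) (P.biUnion A₂)
  calc G * (Finset.univ.filter (fun f : J → α => ¬ GoodSample w s F f)).card
      ≤ G * ((P.biUnion A₁).card + (P.biUnion A₂).card + (P₃.biUnion A₃).card) :=
        Nat.mul_le_mul_left _ (by omega)
    _ = G * (P.biUnion A₁).card + G * (P.biUnion A₂).card + G * (P₃.biUnion A₃).card := by ring
    _ ≤ R ^ 3 * T + R ^ 3 * T + R ^ 3 * T := by omega
    _ = 3 * R ^ 3 * T := by ring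

open Classical in
/-- **Few short zero paths: almost all weights are equal.** -/
theorem near_const_unit {q : ℕ} [Fact (1 < q)] [Fintype α] (D : ℕ) {w : α → α → ZMod q}
    (hw : ∀ a b, w a b = w b a) {s : ℕ} (hs : constG q D * s ≤ Fintype.card α)
    (hG : constG q D ≤ Fintype.card α)
    (hS : constG q D * (((Finset.univ : Finset α) ×ˢ Finset.univ).filter
      (fun p => Short w s p.1 p.2)).card ≤ Fintype.card α ^ 2) :
    ∃ t : ZMod q, IsUnit t ∧ D * (((Finset.univ : Finset α) ×ˢ Finset.univ).filter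
      (fun p => p.1 ≠ p.2 ∧ w p.1 p.2 ≠ t)).card ≤ Fintype.card α ^ 2 := by
  have hq2 : 2 ≤ q := (Fact.out : 1 < q)
  set N := Fintype.card α with hN
  have hR16 : 16 ≤ sampleR q := by
    unfold sampleR
    have : 1 ≤ (16 * (q - 1)) ^ ((q + 1) * (q - 1)) := Nat.one_le_pow _ _ (by omega)
    omega
  set R := sampleR q with hR
  have hGpos : 0 < constG q D := by
    unfold constG; positivity
  have hNpos : 0 < N := by omega
  -- the forbidden sets
  have hF : ∀ a b, ∃ F : Finset α, F.card ≤ s ∧ (¬ Short w s a b → ∀ l : List α, l.Nodup →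
      (∀ x ∈ l, x ∉ F) → l.length + 2 ≤ q → pw w (a :: (l ++ [b])) ≠ 0) := by
    intro a b
    by_cases h : Short w s a b
    · exact ⟨∅, by simp, fun h' => absurd h h'⟩
    · unfold Short at h
      push Not at h
      obtain ⟨F, hF1, hF2⟩ := h
      exact ⟨F, hF1, fun _ l h1 h2 h3 => hF2 l h1 h2 h3⟩
  choose F hFs hF using hF
  have hJc : Fintype.card (Fin R ⊕ Fin 2) = R + 2 := by simp
  have hbad := count_bad (J := Fin R ⊕ Fin 2) (w := w) (G := constG q D) (F := F) hFs
    hNpos hs hG hS (by rw [hJc]; omega)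
  rw [hJc] at hbad
  have hbad2 : (D + 2) * (Finset.univ.filter
      (fun f : Fin R ⊕ Fin 2 → α => ¬ GoodSample w s F f)).card ≤ N ^ (R + 2) := by
    have h1 : 3 * (R + 2) ^ 3 * ((D + 2) * (Finset.univ.filter
        (fun f : Fin R ⊕ Fin 2 → α => ¬ GoodSample w s F f)).card) ≤
        3 * (R + 2) ^ 3 * N ^ (R + 2) := by
      refine le_trans (le_of_eq ?_) hbad
      unfold constG
      rw [← hR]; ring
    exact Nat.le_of_mul_le_mul_left h1 (by positivity)
  -- averaging
  have hsplit : (Finset.univ.filter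
      (fun f : Fin R ⊕ Fin 2 → α => ¬ GoodSample w s F f)).card =
      ∑ x : Fin R → α, (Finset.univ.filter
        (fun y : Fin 2 → α => ¬ GoodSample w s F (Sum.elim x y))).card := by
    rw [Finset.card_filter]
    have e1 : ∑ f : Fin R ⊕ Fin 2 → α, (if ¬ GoodSample w s F f then 1 else 0) =
        ∑ p : (Fin R → α) × (Fin 2 → α),
          (if ¬ GoodSample w s F (Sum.elim p.1 p.2) then 1 else 0) := by
      rw [← Equiv.sum_comp (Equiv.sumArrowEquivProdArrow (Fin R) (Fin 2) α)]
      apply Finset.sum_congr rfl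
      intro f _
      have : Sum.elim ((Equiv.sumArrowEquivProdArrow (Fin R) (Fin 2) α) f).1
          ((Equiv.sumArrowEquivProdArrow (Fin R) (Fin 2) α) f).2 = f := by
        funext j
        rcases j with j | j <;> rfl
      rw [this]
    rw [e1, Fintype.sum_prod_type]
    apply Finset.sum_congr rfl
    intro x _
    rw [Finset.card_filter]
  obtain ⟨x, hx⟩ : ∃ x : Fin R → α, (D + 2) * (Finset.univ.filter
      (fun y : Fin 2 → α => ¬ GoodSample w s F (Sum.elim x y))).card ≤ N ^ 2 := by
    by_contra hcon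
    push Not at hcon
    rw [hsplit, Finset.mul_sum] at hbad2
    have h1 : ∑ _x : Fin R → α, (N ^ 2 + 1) ≤ ∑ x : Fin R → α, (D + 2) * (Finset.univ.filter
        (fun y : Fin 2 → α => ¬ GoodSample w s F (Sum.elim x y))).card :=
      Finset.sum_le_sum (fun x _ => hcon x)
    rw [Finset.sum_const, Finset.card_univ, Fintype.card_fun, Fintype.card_fin, smul_eq_mul,
      ← hN] at h1
    have h2 : N ^ (R + 2) = N ^ R * N ^ 2 := pow_add _ _ _
    have h3 : 0 < N ^ R := by positivity
    have h4 := h1.trans hbad2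
    rw [h2] at h4
    have h5 := Nat.le_of_mul_le_mul_left h4 h3
    omega
  obtain ⟨y₀, hy₀⟩ : ∃ y : Fin 2 → α, GoodSample w s F (Sum.elim x y) := by
    by_contra hcon
    push Not at hcon
    rw [Finset.filter_true_of_mem (fun y _ => hcon y), Finset.card_univ, Fintype.card_fun,
      Fintype.card_fin, ← hN] at hx
    have : 0 < N ^ 2 := by positivity
    nlinarith
  have hmono : ∀ y : Fin 2 → α, GoodSample w s F (Sum.elim x y) →
      ∃ t : ZMod q, IsUnit t ∧ ∀ i j, i ≠ j → w (Sum.elim x y i) (Sum.elim x y j) = t :=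
    fun y hy => hy.mono hw (fun a b h => hF a b h) (by rw [hJc]; omega)
  obtain ⟨t, ht, ht'⟩ := hmono y₀ hy₀
  have h01 : (Sum.inl ⟨0, by omega⟩ : Fin R ⊕ Fin 2) ≠ Sum.inl ⟨1, by omega⟩ := by
    intro h
    rw [Sum.inl.injEq, Fin.mk.injEq] at h
    omega
  have hx01 := ht' _ _ h01
  rw [Sum.elim_inl, Sum.elim_inl] at hx01
  refine ⟨t, ht, ?_⟩
  refine le_trans ?_ hx
  refine Nat.mul_le_mul (by omega) ?_
  apply Finset.card_le_card_of_injOn (fun p => ![p.1, p.2])
  · rintro ⟨u, v⟩ huv
    rw [Finset.mem_coe, Finset.mem_filter] at huv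
    rw [Finset.mem_coe, Finset.mem_filter]
    refine ⟨Finset.mem_univ _, fun hgood => ?_⟩
    obtain ⟨t', _, ht''⟩ := hmono _ hgood
    have e1 := ht'' _ _ h01
    rw [Sum.elim_inl, Sum.elim_inl] at e1
    have e2 := ht'' (Sum.inr 0) (Sum.inr 1) (by
      intro h
      rw [Sum.inr.injEq] at h
      exact absurd h (by decide))
    rw [Sum.elim_inr, Sum.elim_inr] at e2
    apply huv.2.2
    have e3 : w u v = t' := e2
    rw [e3, ← e1, hx01]
  · rintro ⟨u, v⟩ _ ⟨u', v'⟩ _ h
    have h0 := congrFun h 0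
    have h1 := congrFun h 1
    simp only [Matrix.cons_val_zero, Matrix.cons_val_one] at h0 h1
    rw [Prod.mk.injEq]
    exact ⟨h0, h1⟩

open Classical in
theorem near_const {q : ℕ} [Fact q.Prime] [Fintype α] (D : ℕ) {w : α → α → ZMod q}
    (hw : ∀ a b, w a b = w b a) {s : ℕ} (hs : constG q D * s ≤ Fintype.card α)
    (hG : constG q D ≤ Fintype.card α)
    (hS : constG q D * (((Finset.univ : Finset α) ×ˢ Finset.univ).filter
      (fun p => Short w s p.1 p.2)).card ≤ Fintype.card α ^ 2) :
    ∃ t : ZMod q, t ≠ 0 ∧ D * (((Finset.univ : Finset α) ×ˢ Finset.univ).filter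
      (fun p => p.1 ≠ p.2 ∧ w p.1 p.2 ≠ t)).card ≤ Fintype.card α ^ 2 := by
  obtain ⟨t, ht, h⟩ := near_const_unit D hw hs hG hS
  exact ⟨t, ht.ne_zero, h⟩

end

end MP0dbebe
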