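import Pool.Agent.Lib.MP_0dbebe_co.Group

/-! # Zero-sum divisions of a cycle -/

namespace MP0dbebe

section paths
variable {α : Type*} {G : Type*} [AddCommGroup G]

/-- weight of a path -/
def pw (w : α → α → G) (l : List α) : G := ((l.zip l.tail).map fun p => w p.1 p.2).sum

@[simp] theorem pw_nil (w : α → α → G) : pw w [] = 0 := by simp [pw]
@[simp] theorem pw_single (w : α → α → G) (a : α) : pw w [a] = 0 := by simp [pw]
theorem pw_cons_cons (w : α → α → G) (a b : α) (l : List α) :
    pw w (a :: b :: l) = w a b + pw w (b :: l) := by simp [pw]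

theorem pw_eq_sum (w : α → α → G) (l : List α) (d : α) :
    pw w l = ∑ t ∈ Finset.range (l.length - 1), w (l.getD t d) (l.getD (t + 1) d) := by
  induction l with
  | nil => simp
  | cons a l ih =>
    cases l with
    | nil => simp
    | cons b l =>
      rw [pw_cons_cons, ih]
      have h1 : (a :: b :: l).length - 1 = ((b :: l).length - 1) + 1 := by simp
      rw [h1, Finset.sum_range_succ']
      simp only [List.getD_cons_succ, List.getD_cons_zero]
      rw [add_comm]

theorem pw_map_range' (w : α → α → G) (y : ℕ → α) (a k : ℕ) :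
    pw w ((List.range' a (k + 1)).map y) = ∑ t ∈ Finset.Ico a (a + k), w (y t) (y (t + 1)) := by
  induction k generalizing a with
  | zero => simp
  | succ k ih =>
    rw [List.range'_succ, List.map_cons, List.range'_succ, List.map_cons, pw_cons_cons]
    have := ih (a + 1)
    rw [List.range'_succ, List.map_cons] at this
    rw [this, Finset.sum_eq_sum_Ico_succ_bot (show a < a + (k + 1) by omega)]
    congr 2
    congr 1
    omega

/-- change of the weight when `v` is dropped from the path `x v y` -/
def tv (w : α → α → G) (p : α × α × α) : G := w p.1 p.2.2 - (w p.1 p.2.1 + w p.2.1 p.2.2)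

/-- the list of all entries of a list of triples -/
def flat : List (α × α × α) → List α
  | [] => []
  | p :: F => p.1 :: p.2.1 :: p.2.2 :: flat F

theorem length_flat (F : List (α × α × α)) : (flat F).length = 3 * F.length := by
  induction F with
  | nil => rfl
  | cons p F ih => simp [flat, ih]; omega

theorem drop_lemma (w : α → α → G) (F : List (α × α × α)) (z : α) (rest : List α) (g : G)
    (hg : g ∈ SS (F.map (tv w))) :
    ∃ l : List α, l.Sublist (flat F) ∧ 2 * F.length ≤ l.length ∧
      pw w (z :: (l ++ rest)) = pw w (z :: (flat F ++ rest)) + g := by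
  induction F generalizing z g with
  | nil =>
    rw [List.map_nil, mem_SS_nil] at hg
    exact ⟨[], List.Sublist.refl _, by simp, by simp [flat, hg]⟩
  | cons p F ih =>
    obtain ⟨x, v, y⟩ := p
    rw [List.map_cons, mem_SS_cons] at hg
    rcases hg with hg | ⟨s, hs, rfl⟩
    · obtain ⟨l, h1, h2, h3⟩ := ih y g hg
      refine ⟨x :: v :: y :: l, ?_, ?_, ?_⟩
      · exact ((h1.cons_cons y).cons_cons v).cons_cons x
      · simp; omega
      · simp only [flat, List.cons_append, pw_cons_cons]
        rw [h3]
        abel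
    · obtain ⟨l, h1, h2, h3⟩ := ih y s hs
      refine ⟨x :: y :: l, ?_, ?_, ?_⟩
      · exact (((h1.cons_cons y).cons v)).cons_cons x
      · simp; omega
      · simp only [flat, List.cons_append, pw_cons_cons]
        rw [h3]
        simp only [tv]
        abel

end paths

section cyc
variable {α : Type*} {G : Type*} [AddCommGroup G] [Finite G] [IsAddCyclic G]

theorem exists_triple (w : α → α → G) (hw : ∀ a b, w a b = w b a) (K : AddSubgroup G)
    (A : Finset α) (hA : 3 ≤ A.card)
    (hK : ∀ B ⊆ A, (∀ a ∈ B, ∀ b ∈ B, a ≠ b → w a b ∈ K) → 2 * B.card < A.card) :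
    ∃ x ∈ A, ∃ v ∈ A, ∃ y ∈ A, x ≠ v ∧ v ≠ y ∧ x ≠ y ∧ tv w (x, v, y) ∉ K := by
  classical
  by_contra hcon
  push Not at hcon
  have h2w : ∀ v ∈ A, ∀ y ∈ A, v ≠ y → w v y + w v y ∈ K := by
    intro v hv y hy hvy
    have : ∃ x ∈ A, x ∉ ({v, y} : Finset α) := by
      apply Finset.exists_mem_notMem_of_card_lt_card
      have := Finset.card_le_two (a := v) (b := y)
      omega
    obtain ⟨x, hx, hxn⟩ := this
    simp only [Finset.mem_insert, Finset.mem_singleton, not_or] at hxn
    have h1 := hcon x hx v hv y hy hxn.1 hvy hxn.2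
    have h2 := hcon x hx y hy v hv hxn.2 hvy.symm hxn.1
    have h3 := K.neg_mem (K.add_mem h1 h2)
    simp only [tv] at h3
    rw [hw y v] at h3
    convert h3 using 1
    abel
  obtain ⟨x0, hx0⟩ := Finset.card_pos.1 (show 0 < A.card by omega)
  have hB0 := hK (A.filter (fun a => a = x0 ∨ w x0 a ∈ K)) (Finset.filter_subset _ _) (by
    intro a ha b hb hab
    rw [Finset.mem_filter] at ha hb
    by_cases hax : a = x0
    · subst hax
      rcases hb.2 with h | h
      · exact absurd h.symm hab
      · exact h
    · by_cases hbx : b = x0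
      · subst hbx
        rcases ha.2 with h | h
        · exact absurd h hax
        · rw [hw]; exact h
      · have ha2 := ha.2.resolve_left hax
        have hb2 := hb.2.resolve_left hbx
        have h1 := hcon a ha.1 x0 hx0 b hb.1 hax (Ne.symm hbx) hab
        simp only [tv] at h1
        rw [hw a x0] at h1
        have h2 := K.add_mem h1 (K.add_mem ha2 hb2)
        simpa using h2)
  have hB1 := hK (A.filter (fun a => ¬ (a = x0 ∨ w x0 a ∈ K))) (Finset.filter_subset _ _) (by
    intro a ha b hb hab
    rw [Finset.mem_filter, not_or] at ha hb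
    have h1 := hcon a ha.1 x0 hx0 b hb.1 ha.2.1 (Ne.symm hb.2.1) hab
    simp only [tv] at h1
    rw [hw a x0] at h1
    have h3 := two_torsion K (w x0 a) (w x0 b) ha.2.2 hb.2.2
      (h2w x0 hx0 a ha.1 (Ne.symm ha.2.1)) (h2w x0 hx0 b hb.1 (Ne.symm hb.2.1))
    have h2 := K.add_mem h1 h3
    simpa using h2)
  have := Finset.card_filter_add_card_filter_not (s := A) (fun a => a = x0 ∨ w x0 a ∈ K)
  omega

/-- the stages of the construction -/
theorem stages (w : α → α → G) (n : ℕ) (hn : 3 ≤ n) (S : Finset α)
    (hS : n * Nat.card G ≤ S.card)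
    (hT : ∀ K : AddSubgroup G, K ≠ ⊤ → ∀ A ⊆ S, 2 * n * Nat.card K ≤ A.card →
      ∃ x ∈ A, ∃ v ∈ A, ∃ y ∈ A, x ≠ v ∧ v ≠ y ∧ x ≠ y ∧ tv w (x, v, y) ∉ K) (d : ℕ) :
    ∃ F : List (α × α × α), (flat F).Nodup ∧ (∀ a ∈ flat F, a ∈ S) ∧
      F.length + 1 ≤ Nat.card G ∧
      (∀ K : AddSubgroup G, K ≠ ⊤ → K.index ≤ d + 1 →
        K.index ≤ cnt (fun a => a ∉ K) (F.map (tv w)) + 1) ∧
      (∀ K : AddSubgroup G, cnt (fun a => a ∈ K) (F.map (tv w)) ≤ d * (Nat.card K - 1)) := by
  classical
  induction d with
  | zero =>
    refine ⟨[], by simp [flat], by simp [flat], ?_, ?_, by simp⟩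
    · have := Nat.card_pos (α := G)
      simp only [List.length_nil]
      omega
    · intro K hK hK2
      exfalso
      apply hK
      apply AddSubgroup.index_eq_one.1
      have : K.index ≠ 0 := AddSubgroup.index_ne_zero_of_finite
      omega
  | succ d ih =>
    obtain ⟨F, h1, h2, h3, h4, h5⟩ := ih
    have hmono : ∀ K : AddSubgroup G, cnt (fun a => a ∈ K) (F.map (tv w)) ≤
        (d + 1) * (Nat.card K - 1) := fun K => (h5 K).trans (Nat.mul_le_mul_right _ (by omega))
    by_cases hex : ∃ K0 : AddSubgroup G, K0.index = d + 1 + 1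
    swap
    · refine ⟨F, h1, h2, h3, ?_, hmono⟩
      intro K hK hK2
      apply h4 K hK
      by_contra hlt
      exact hex ⟨K, by omega⟩
    obtain ⟨K0, hK0⟩ := hex
    have hK0t : K0 ≠ ⊤ := by
      intro h
      rw [h, AddSubgroup.index_top] at hK0
      omega
    have hcard : Nat.card K0 * (d + 2) = Nat.card G := by
      have := K0.card_mul_index
      rw [hK0] at this
      exact this
    have hh : 0 < Nat.card K0 := Nat.card_pos
    by_cases hbig : d + 1 ≤ cnt (fun a => a ∉ K0) (F.map (tv w))
    · refine ⟨F, h1, h2, h3, ?_, hmono⟩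
      intro K hK hK2
      by_cases hK3 : K.index = d + 1 + 1
      · have : K = K0 := subgroup_unique K K0 (hK3.trans hK0.symm)
        subst this
        omega
      · exact h4 K hK (by omega)
    push Not at hbig
    -- inner induction
    have inner : ∀ j : ℕ, cnt (fun a => a ∉ K0) (F.map (tv w)) ≤ j → j ≤ d + 1 →
        ∃ F' : List (α × α × α), (flat F').Nodup ∧ (∀ a ∈ flat F', a ∈ S) ∧
          cnt (fun a => a ∉ K0) (F'.map (tv w)) = j ∧
          (∀ K : AddSubgroup G, K ≠ ⊤ → K.index ≤ d + 1 →
            K.index ≤ cnt (fun a => a ∉ K) (F'.map (tv w)) + 1) ∧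
          (∀ K : AddSubgroup G, K ≤ K0 → cnt (fun a => a ∈ K) (F'.map (tv w)) ≤
            d * (Nat.card K - 1)) := by
      intro j hj
      induction j, hj using Nat.le_induction with
      | base => intro _; exact ⟨F, h1, h2, rfl, h4, fun K _ => h5 K⟩
      | succ j hj ihj =>
        intro hjd
        obtain ⟨F', g1, g2, g3, g4, g5⟩ := ihj (by omega)
        have hlen : F'.length ≤ d * Nat.card K0 := by
          have e1 := cnt_add_not (P := fun a => a ∈ K0) (F'.map (tv w))
          rw [List.length_map, g3] at e1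
          have e2 := g5 K0 le_rfl
          have e3 : d * Nat.card K0 = d * (Nat.card K0 - 1) + d := by
            obtain ⟨k, hk⟩ := Nat.exists_eq_succ_of_ne_zero hh.ne'
            rw [hk]; simp; ring
          omega
        have hA := hT K0 hK0t (S \ (flat F').toFinset) Finset.sdiff_subset (by
          have e1 := Finset.le_card_sdiff (flat F').toFinset S
          have e2 : (flat F').toFinset.card = 3 * F'.length := by
            rw [List.toFinset_card_of_nodup g1, length_flat]
          rw [← hcard] at hS
          have e3 : 3 * (d * Nat.card K0) ≤ n * (d * Nat.card K0) := Nat.mul_le_mul_right _ hn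
          have e4 : n * (Nat.card K0 * (d + 2)) = n * (d * Nat.card K0) + 2 * n * Nat.card K0 := by
            ring
          omega)
        obtain ⟨x, hx, v, hv, y, hy, hxv, hvy, hxy, ht⟩ := hA
        rw [Finset.mem_sdiff, List.mem_toFinset] at hx hv hy
        refine ⟨(x, v, y) :: F', ?_, ?_, ?_, ?_, ?_⟩
        · simp only [flat, List.nodup_cons, List.mem_cons, not_or]
          exact ⟨⟨hxv, hxy, hx.2⟩, ⟨hvy, hv.2⟩, hy.2, g1⟩
        · intro a ha
          simp only [flat, List.mem_cons] at ha
          rcases ha with rfl | rfl | rfl | ha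
          · exact hx.1
          · exact hv.1
          · exact hy.1
          · exact g2 a ha
        · rw [List.map_cons, cnt_cons_pos (P := fun a => a ∉ K0) ht, g3]
        · intro K hK hK2
          refine (g4 K hK hK2).trans ?_
          rw [List.map_cons]
          by_cases hm : tv w (x, v, y) ∉ K
          · rw [cnt_cons_pos (P := fun a => a ∉ K) hm]; omega
          · rw [cnt_cons_neg (P := fun a => a ∉ K) hm]
        · intro K hK
          rw [List.map_cons, cnt_cons_neg (P := fun a => a ∈ K) (fun h => ht (hK h))]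
          exact g5 K hK
    obtain ⟨F', g1, g2, g3, g4, g5⟩ := inner (d + 1) hbig.le le_rfl
    have e1 := cnt_add_not (P := fun a => a ∈ K0) (F'.map (tv w))
    rw [List.length_map, g3] at e1
    refine ⟨F', g1, g2, ?_, ?_, ?_⟩
    · have e2 := g5 K0 le_rfl
      have e3 : d * Nat.card K0 = d * (Nat.card K0 - 1) + d := by
        obtain ⟨k, hk⟩ := Nat.exists_eq_succ_of_ne_zero hh.ne'
        rw [hk]; simp; ring
      have e4 : Nat.card K0 * (d + 2) = d * Nat.card K0 + 2 * Nat.card K0 := by ring
      omega
    · intro K hK hK2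
      by_cases hK3 : K.index = d + 1 + 1
      · have : K = K0 := subgroup_unique K K0 (hK3.trans hK0.symm)
        subst this
        omega
      · exact g4 K hK (by omega)
    · intro L
      by_cases hL : L ≤ K0
      · exact (g5 L hL).trans (Nat.mul_le_mul_right _ (by omega))
      · have e2 := cnt_le_add (P := fun a => a ∈ L) (Q := fun a => a ∈ K0) (F'.map (tv w))
        rw [g3] at e2
        have e3 := g5 (L ⊓ K0) inf_le_right
        have e4 : cnt (fun a => a ∈ L ⊓ K0) (F'.map (tv w)) =
            cnt (fun a => a ∈ L ∧ a ∈ K0) (F'.map (tv w)) := cnt_congr (fun a _ => by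
              exact AddSubgroup.mem_inf)
        -- card (L ⊓ K0) * 2 ≤ card L
        have e5 : Nat.card (L ⊓ K0 : AddSubgroup G) * 2 ≤ Nat.card L := by
          have hdvd : Nat.card (L ⊓ K0 : AddSubgroup G) ∣ Nat.card L :=
            AddSubgroup.card_dvd_of_le inf_le_left
          obtain ⟨k, hk⟩ := hdvd
          have hLpos : 0 < Nat.card L := Nat.card_pos
          have hk0 : k ≠ 0 := by
            rintro rfl
            omega
          have hk1 : k ≠ 1 := by
            rintro rfl
            apply hL
            have hle : L ⊓ K0 ≤ L := inf_le_left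
            have : L ⊓ K0 = L := AddSubgroup.eq_of_le_of_card_ge hle (by omega)
            exact inf_eq_left.1 this
          rw [hk]
          exact Nat.mul_le_mul_left _ (by omega)
        have hpos : 0 < Nat.card (L ⊓ K0 : AddSubgroup G) := Nat.card_pos
        obtain ⟨a, ha⟩ : ∃ a, Nat.card (L ⊓ K0 : AddSubgroup G) = a + 1 :=
          ⟨Nat.card (L ⊓ K0 : AddSubgroup G) - 1, by omega⟩
        obtain ⟨b, hb⟩ : ∃ b, Nat.card L = 2 * a + 2 + b :=
          ⟨Nat.card L - (2 * a + 2), by omega⟩
        rw [ha] at e3
        rw [hb]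
        simp only [Nat.add_sub_cancel] at e3
        have e6 : 2 * a + 2 + b - 1 = 2 * a + 1 + b := by omega
        rw [e6]
        have e7 : (d + 1) * (2 * a + 1 + b) = d * a + (d + 1) + (d * a + 2 * a + (d + 1) * b) := by
          ring
        omega

/-- conclusion of the cycle theorem -/
def Good (w : α → α → G) (n : ℕ) (S : Finset α) : Prop :=
  ∃ (L : ℕ) (y : ℕ → α) (j : ℕ → ℕ), j 0 = 0 ∧ j n = L ∧ (∀ i < n, j i < j (i + 1)) ∧
    (∀ s < L, ∀ t < L, y s = y t → s = t) ∧ (∀ t < L, y t ∈ S) ∧ y L = y 0 ∧
    ∀ i < n, ∑ t ∈ Finset.Ico (j i) (j (i + 1)), w (y t) (y (t + 1)) = 0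

omit [IsAddCyclic G] in
theorem good_of_closed (w : α → α → G) (n : ℕ) (hn : 1 ≤ n) (S : Finset α) (z : α) (C : List α)
    (hnd : (z :: C).Nodup) (hS : ∀ a ∈ z :: C, a ∈ S)
    (hlen : (n - 1) * Nat.card G + 1 ≤ (z :: C).length)
    (h0 : pw w (z :: (C ++ [z])) = 0) : Good w n S := by
  classical
  set L := (z :: C).length with hL
  have hLpos : 0 < L := by simp [hL]
  let Y : ℕ → α := fun t => (z :: C).getD (t % L) z
  have hYper : ∀ t, Y (t + L) = Y t := by
    intro t
    simp only [Y, Nat.add_mod_right]
  have hYmem : ∀ t, Y t ∈ z :: C := by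
    intro t
    have hlt : t % L < (z :: C).length := Nat.mod_lt _ hLpos
    simp only [Y]
    rw [List.getD_eq_getElem _ _ hlt]
    exact List.getElem_mem hlt
  have hYinj : ∀ s t, Y s = Y t → s % L = t % L := by
    intro s t h
    have hs : s % L < (z :: C).length := Nat.mod_lt _ hLpos
    have ht : t % L < (z :: C).length := Nat.mod_lt _ hLpos
    simp only [Y] at h
    rw [List.getD_eq_getElem _ _ hs, List.getD_eq_getElem _ _ ht] at h
    exact (List.Nodup.getElem_inj_iff hnd).1 h
  let P : ℕ → G := fun i => ∑ t ∈ Finset.range i, w (Y t) (Y (t + 1))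
  have hPL : P L = 0 := by
    have h1 := pw_eq_sum w (z :: (C ++ [z])) z
    rw [h0] at h1
    have h2 : (z :: (C ++ [z])).length - 1 = L := by simp [hL]
    rw [h2] at h1
    rw [h1]
    apply Finset.sum_congr rfl
    intro t ht
    rw [Finset.mem_range] at ht
    have key : ∀ i ≤ L, Y i = (z :: (C ++ [z])).getD i z := by
      intro i hi
      rw [← List.cons_append]
      rcases Nat.lt_or_ge i L with h | h
      · simp only [Y]
        rw [Nat.mod_eq_of_lt h, List.getD_append _ _ _ _ h]
      · have : i = L := le_antisymm hi h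
        subst this
        simp only [Y]
        rw [Nat.mod_self, List.getD_append_right _ _ _ _ (le_refl _)]
        simp
    rw [key t ht.le, key (t + 1) ht]
  have hPper : ∀ i, P (i + L) = P i := by
    intro i
    simp only [P]
    rw [add_comm i L, Finset.sum_range_add, show ∑ t ∈ Finset.range L, w (Y t) (Y (t + 1)) = 0
      from hPL, zero_add]
    apply Finset.sum_congr rfl
    intro t _
    rw [show L + t = t + L by omega, show t + L + 1 = (t + 1) + L by omega, hYper, hYper]
  -- pigeonhole
  have : Fintype G := Fintype.ofFinite G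
  obtain ⟨g, _, hg⟩ := Finset.exists_lt_card_fiber_of_mul_lt_card_of_maps_to
    (s := Finset.range L) (t := (Finset.univ : Finset G)) (f := P) (n := n - 1)
    (fun _ _ => Finset.mem_univ _) (by
      rw [Finset.card_range, Finset.card_univ, ← Nat.card_eq_fintype_card, mul_comm]
      omega)
  obtain ⟨T, hT, hTc⟩ := Finset.exists_subset_card_eq (show n ≤ _ by
    exact (show n ≤ (Finset.filter (fun x => P x = g) (Finset.range L)).card by omega))
  let e0 : Fin n ↪o ℕ := T.orderEmbOfFin hTc
  have he0 : ∀ i, e0 i < L ∧ P (e0 i) = g := by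
    intro i
    have := hT (T.orderEmbOfFin_mem hTc i)
    rw [Finset.mem_filter, Finset.mem_range] at this
    exact this
  let i0 : ℕ := e0 ⟨0, hn⟩
  let e : ℕ → ℕ := fun k => if h : k < n then e0 ⟨k, h⟩ else i0 + L
  have he_lt : ∀ k (h : k < n), e k = e0 ⟨k, h⟩ := fun k h => by simp [e, h]
  have he_n : e n = i0 + L := by simp [e]
  have he_0 : e 0 = i0 := by rw [he_lt 0 hn]
  have hP : ∀ k ≤ n, P (e k) = g := by
    intro k hk
    rcases Nat.lt_or_ge k n with h | h
    · rw [he_lt k h]; exact (he0 _).2
    · have : k = n := le_antisymm hk h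
      subst this
      rw [he_n, hPper]; exact (he0 _).2
  have hmono : ∀ k < n, e k < e (k + 1) := by
    intro k hk
    rw [he_lt k hk]
    rcases Nat.lt_or_ge (k + 1) n with h | h
    · rw [he_lt (k + 1) h]
      apply e0.strictMono
      rw [Fin.mk_lt_mk]; omega
    · have : k + 1 = n := le_antisymm hk h
      rw [this, he_n]
      exact lt_of_lt_of_le (he0 _).1 (Nat.le_add_left _ _)
  have hge : ∀ k ≤ n, i0 ≤ e k := by
    intro k
    induction k with
    | zero => intro _; rw [he_0]
    | succ k ih =>
      intro hk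
      exact (ih (by omega)).trans (hmono k hk).le
  refine ⟨L, fun t => Y (i0 + t), fun k => e k - i0, ?_, ?_, ?_, ?_, ?_, ?_, ?_⟩
  · simp only [he_0, Nat.sub_self]
  · simp only [he_n, Nat.add_sub_cancel_left]
  · intro i hi
    have h1 := hmono i hi
    have h2 := hge i hi.le
    change e i - i0 < e (i + 1) - i0
    omega
  · intro s hs t ht hst
    have h1 := hYinj _ _ hst
    have h2 : s ≡ t [MOD L] := Nat.ModEq.add_left_cancel' i0 h1
    have h3 : s % L = t % L := h2
    rwa [Nat.mod_eq_of_lt hs, Nat.mod_eq_of_lt ht] at h3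
  · intro t _
    exact hS _ (hYmem _)
  · simp only [add_zero]
    exact hYper i0
  · intro i hi
    have h1 := hmono i hi
    have h2 := hge i hi.le
    have h3 : ∑ t ∈ Finset.Ico (e i - i0) (e (i + 1) - i0),
        w (Y (i0 + t)) (Y (i0 + (t + 1))) =
        ∑ t ∈ Finset.Ico (e i) (e (i + 1)), w (Y t) (Y (t + 1)) := by
      rw [Finset.sum_Ico_eq_sum_range, Finset.sum_Ico_eq_sum_range]
      have : e (i + 1) - i0 - (e i - i0) = e (i + 1) - e i := by omega
      rw [this]
      apply Finset.sum_congr rfl
      intro t _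
      have e1 : i0 + (e i - i0 + t) = e i + t := by omega
      have e2 : i0 + (e i - i0 + t + 1) = e i + t + 1 := by omega
      rw [e1, e2]
    simp only
    rw [h3, Finset.sum_Ico_eq_sub _ h1.le]
    have h4 := hP i hi.le
    have h5 := hP (i + 1) hi
    simp only [P] at h4 h5
    rw [h4, h5, sub_self]

/-- core case: no proper subgroup has a large clique -/
theorem core (w : α → α → G) (hw : ∀ a b, w a b = w b a) (n : ℕ) (hn : 3 ≤ n) (S : Finset α)
    (hS : n * Nat.card G ≤ S.card)
    (hno : ∀ K : AddSubgroup G, K ≠ ⊤ → ∀ B ⊆ S, (∀ a ∈ B, ∀ b ∈ B, a ≠ b → w a b ∈ K) →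
      B.card < n * Nat.card K) : Good w n S := by
  classical
  have hGpos : 0 < Nat.card G := Nat.card_pos
  have hT : ∀ K : AddSubgroup G, K ≠ ⊤ → ∀ A ⊆ S, 2 * n * Nat.card K ≤ A.card →
      ∃ x ∈ A, ∃ v ∈ A, ∃ y ∈ A, x ≠ v ∧ v ≠ y ∧ x ≠ y ∧ tv w (x, v, y) ∉ K := by
    intro K hK A hA hAc
    have hKpos : 0 < Nat.card K := Nat.card_pos
    have h1 : n * 1 ≤ n * Nat.card K := Nat.mul_le_mul_left _ hKpos
    have h2 : 2 * n * Nat.card K = 2 * (n * Nat.card K) := by ring
    apply exists_triple w hw K A (by omega)
    intro B hB hBc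
    have := hno K hK B (hB.trans hA) hBc
    omega
  obtain ⟨F, h1, h2, h3, h4, -⟩ := stages w n hn S hS hT (Nat.card G)
  have hSS := SS_univ (F.map (tv w)) (fun K hK => h4 K hK (by
    have h5 := K.card_mul_index
    have h6 : 0 < Nat.card K := Nat.card_pos
    have h7 : 1 * K.index ≤ Nat.card K * K.index := Nat.mul_le_mul_right _ h6
    omega))
  -- remaining vertices
  let R := S \ (flat F).toFinset
  have hR : S.card - 3 * F.length ≤ R.card := by
    have e1 := Finset.le_card_sdiff (flat F).toFinset S
    have e2 : (flat F).toFinset.card = 3 * F.length := by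
      rw [List.toFinset_card_of_nodup h1, length_flat]
    rwa [e2] at e1
  have h3n : 3 * Nat.card G ≤ n * Nat.card G := Nat.mul_le_mul_right _ hn
  have hRpos : 0 < R.card := by omega
  obtain ⟨z, hz⟩ := Finset.card_pos.1 hRpos
  let R' := (R.erase z).toList
  have hR'len : R'.length + 1 = R.card := by
    simp only [R', Finset.length_toList]
    exact Finset.card_erase_add_one hz
  obtain ⟨l, hl1, hl2, hl3⟩ := drop_lemma w F z (R' ++ [z])
    (-pw w (z :: (flat F ++ (R' ++ [z])))) (hSS _)
  have hlsub : ∀ a ∈ l, a ∈ flat F := fun a ha => hl1.subset ha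
  have hzR : z ∈ S ∧ z ∉ flat F := by
    have := Finset.mem_sdiff.1 hz
    rwa [List.mem_toFinset] at this
  have hR'mem : ∀ a ∈ R', a ≠ z ∧ a ∈ S ∧ a ∉ flat F := by
    intro a ha
    simp only [R', Finset.mem_toList, Finset.mem_erase, R, Finset.mem_sdiff,
      List.mem_toFinset] at ha
    exact ha
  apply good_of_closed w n (by omega) S z (l ++ R')
  · rw [List.nodup_cons]
    constructor
    · rw [List.mem_append, not_or]
      exact ⟨fun h => hzR.2 (hlsub z h), fun h => (hR'mem z h).1 rfl⟩
    · rw [List.nodup_append]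
      refine ⟨hl1.nodup h1, Finset.nodup_toList _, ?_⟩
      intro a ha b hb hab
      subst hab
      exact (hR'mem a hb).2.2 (hlsub a ha)
  · intro a ha
    rw [List.mem_cons, List.mem_append] at ha
    rcases ha with rfl | ha | ha
    · exact hzR.1
    · exact h2 a (hlsub a ha)
    · exact (hR'mem a ha).2.1
  · have e1 : (n - 1) * Nat.card G + Nat.card G = n * Nat.card G := by
      obtain ⟨m, rfl⟩ : ∃ m, n = m + 1 := ⟨n - 1, by omega⟩
      simp; ring
    rw [List.length_cons, List.length_append]
    omega
  · rw [List.append_assoc, hl3]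
    abel

end cyc

/-- **Cycle theorem.** -/
theorem cycle_theorem (n : ℕ) (hn : 3 ≤ n) : ∀ (q : ℕ) {α : Type*} {G : Type*} [AddCommGroup G]
    [Finite G] [IsAddCyclic G], Nat.card G = q → ∀ (w : α → α → G), (∀ a b, w a b = w b a) →
    ∀ S : Finset α, n * q ≤ S.card → Good w n S := by
  classical
  intro q
  induction q using Nat.strong_induction_on with
  | _ q ih =>
    intro α G _ _ _ hq w hw S hS
    by_cases hno : ∀ K : AddSubgroup G, K ≠ ⊤ → ∀ B ⊆ S,
        (∀ a ∈ B, ∀ b ∈ B, a ≠ b → w a b ∈ K) → B.card < n * Nat.card K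
    · exact core w hw n hn S (by rw [hq]; exact hS) hno
    · push Not at hno
      obtain ⟨K, hK, B, hB, hBK, hBc⟩ := hno
      have hlt : Nat.card K < q := by
        rw [← hq]
        rcases lt_or_eq_of_le (AddSubgroup.card_le_card_addGroup K) with h | h
        · exact h
        · exact absurd (AddSubgroup.eq_top_of_card_eq K h) hK
      let w' : α → α → K := fun a b => if h : w a b ∈ K then ⟨w a b, h⟩ else 0
      have hw' : ∀ a b, w' a b = w' b a := by
        intro a b
        simp only [w', hw a b]
      obtain ⟨L, y, j, h1, h2, h3, h4, h5, h6, h7⟩ := ih (Nat.card K) hlt rfl w' hw' B hBc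
      refine ⟨L, y, j, h1, h2, h3, h4, fun t ht => hB (h5 t ht), h6, ?_⟩
      have hjmono : ∀ k ≤ n, k ≤ j k := by
        intro k
        induction k with
        | zero => intro _; omega
        | succ k ihk =>
          intro hk
          have := ihk (by omega)
          have := h3 k hk
          omega
      have hL3 : 3 ≤ L := by
        have := hjmono n le_rfl
        omega
      have hjle : ∀ k ≤ n, ∀ i ≤ k, j i ≤ j k := by
        intro k
        induction k with
        | zero => intro _ i hi; rw [Nat.le_zero.1 hi]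
        | succ k ihk =>
          intro hk i hi
          rcases Nat.lt_or_ge i (k + 1) with h | h
          · exact (ihk (by omega) i (by omega)).trans (h3 k hk).le
          · rw [le_antisymm hi h]
      intro i hi
      have := congrArg (Subtype.val) (h7 i hi)
      rw [AddSubgroup.val_finsetSum] at this
      rw [AddSubgroup.coe_zero] at this
      rw [← this]
      apply Finset.sum_congr rfl
      intro t ht
      rw [Finset.mem_Ico] at ht
      have htL : t < L := by
        have := hjle n le_rfl (i + 1) hi
        omega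
      have hin : w (y t) (y (t + 1)) ∈ K := by
        rcases Nat.lt_or_ge (t + 1) L with h | h
        · apply hBK _ (h5 t htL) _ (h5 (t + 1) h)
          intro he
          have := h4 t htL (t + 1) h he
          omega
        · have ht1 : t + 1 = L := le_antisymm htL h
          rw [ht1, h6]
          apply hBK _ (h5 t htL) _ (h5 0 (by omega))
          intro he
          have := h4 t htL 0 (by omega) he
          omega
      simp only [w', hin, dif_pos]

end MP0dbebe
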