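import Pool.Agent.Lib.MP_0dbebe_co.Step

/-! # Tools for dense graphs: near-zero sets without slack, and subsets of large minimum degree -/

namespace MP0dbebe

section
variable {V α G : Type*} [AddCommGroup G]

open Classical in
theorem nz_embed_third [Fintype V] {w : α → α → G} (hw : ∀ a b, w a b = w b a)
    (H : SimpleGraph V)
    (W : Finset α) (hW : NZ w W) (hWc : 4 * Fintype.card V ≤ W.card) (hV : Nonempty α)
    (X : Finset V) :
    ∃ φ : V → α, (∀ u ∈ X, φ u ∈ W) ∧ (∀ u ∈ X, ∀ v ∈ X, φ u = φ v → u = v) ∧
      3 * (NZE w H X φ).card ≤ (EE H X).card := by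
  induction X using Finset.induction_on with
  | empty =>
    refine ⟨fun _ => Classical.arbitrary α, by simp, by simp, ?_⟩
    have := NZE_subset w H ∅ (fun _ => Classical.arbitrary α)
    have h2 : EE H ∅ = ∅ := by
      ext e
      induction e using Sym2.ind with
      | _ a b => rw [mk_mem_EE]; simp
    rw [h2] at this
    rw [Finset.subset_empty.1 this]
    simp
  | insert v X hv ih =>
    obtain ⟨φ, h1, h2, h3⟩ := ih
    have hXlt : X.card < Fintype.card V := Finset.card_lt_univ_of_notMem hv
    set C := W \ X.image φ with hC
    have hCc : 3 * W.card ≤ 4 * C.card ∧ 0 < C.card := by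
      have e1 := Finset.le_card_sdiff (X.image φ) W
      have e2 := Finset.card_image_le (s := X) (f := φ)
      rw [← hC] at e1
      omega
    set N := NE H X v with hN
    have hsum : ∑ y ∈ C, (N.filter (fun u => w y (φ u) ≠ 0)).card =
        ∑ u ∈ N, (C.filter (fun y => w y (φ u) ≠ 0)).card := by
      simp only [Finset.card_filter]
      exact Finset.sum_comm
    have hsum2 : 4 * ∑ u ∈ N, (C.filter (fun y => w y (φ u) ≠ 0)).card ≤ N.card * W.card := by
      rw [Finset.mul_sum, ← smul_eq_mul N.card]
      apply Finset.sum_le_card_nsmul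
      intro u hu
      have huX : u ∈ X := (Finset.mem_filter.1 hu).1
      refine le_trans ?_ (hW (φ u) (h1 u huX))
      apply Nat.mul_le_mul_left
      apply Finset.card_le_card
      intro y hy
      rw [Finset.mem_filter] at hy ⊢
      refine ⟨(Finset.mem_sdiff.1 hy.1).1, ?_⟩
      rw [hw]; exact hy.2
    obtain ⟨y, hyC, hy⟩ : ∃ y ∈ C, 3 * (N.filter (fun u => w y (φ u) ≠ 0)).card ≤ N.card := by
      by_contra hcon
      push Not at hcon
      have h4 : C.card • (N.card + 1) ≤ ∑ y ∈ C, 3 * (N.filter (fun u => w y (φ u) ≠ 0)).card :=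
        Finset.card_nsmul_le_sum _ _ _ (fun y hy => hcon y hy)
      rw [← Finset.mul_sum, hsum, smul_eq_mul] at h4
      nlinarith [h4, hsum2, hCc.1, hCc.2]
    have hyW : y ∈ W := (Finset.mem_sdiff.1 hyC).1
    have hyX : ∀ u ∈ X, φ u ≠ y := by
      intro u hu h
      exact (Finset.mem_sdiff.1 hyC).2 (h ▸ Finset.mem_image_of_mem φ hu)
    have hφv : ∀ a ∈ X, Function.update φ v y a = φ a := by
      intro a ha
      rw [Function.update_of_ne]
      rintro rfl; exact hv ha
    refine ⟨Function.update φ v y, ?_, ?_, ?_⟩
    · intro u hu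
      rw [Finset.mem_insert] at hu
      rcases hu with rfl | hu
      · rw [Function.update_self]; exact hyW
      · rw [hφv u hu]; exact h1 u hu
    · intro a ha b hb hab
      rw [Finset.mem_insert] at ha hb
      rcases ha with rfl | ha <;> rcases hb with rfl | hb
      · rfl
      · rw [Function.update_self, hφv b hb] at hab
        exact absurd hab.symm (hyX b hb)
      · rw [Function.update_self, hφv a ha] at hab
        exact absurd hab (hyX a ha)
      · rw [hφv a ha, hφv b hb] at hab
        exact h2 a ha b hb hab
    · have hsub : NZE w H (insert v X) (Function.update φ v y) ⊆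
          NZE w H X φ ∪ (N.filter (fun u => w y (φ u) ≠ 0)).image (fun u => s(v, u)) := by
        intro e he
        induction e using Sym2.ind with
        | _ a b =>
          rw [mem_NZE hw, EE_insert, Finset.mem_union] at he
          obtain ⟨he1, hne⟩ := he
          rw [Finset.mem_union, mem_NZE hw]
          rcases he1 with he1 | he1
          · left
            refine ⟨he1, ?_⟩
            rw [mk_mem_EE] at he1
            rw [hφv a he1.1.1, hφv b he1.1.2] at hne
            exact hne
          · right
            rw [Finset.mem_image] at he1 ⊢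
            obtain ⟨u, hu, huv⟩ := he1
            refine ⟨u, ?_, huv⟩
            rw [Finset.mem_filter]
            refine ⟨hu, ?_⟩
            have huX : u ∈ X := (Finset.mem_filter.1 hu).1
            rw [Sym2.eq_iff] at huv
            rcases huv with ⟨rfl, rfl⟩ | ⟨rfl, rfl⟩
            · rw [Function.update_self, hφv u huX] at hne
              exact hne
            · rw [Function.update_self, hφv u huX, hw] at hne
              exact hne
      have h5 := Finset.card_le_card hsub
      have h6 := Finset.card_union_le (NZE w H X φ)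
        ((N.filter (fun u => w y (φ u) ≠ 0)).image (fun u => s(v, u)))
      rw [Finset.card_image_of_injective _ (star_injective v)] at h6
      rw [card_EE_insert H X v hv, ← hN]
      omega

open Classical in
/-- a subset in which every element has large degree -/
theorem min_degree (r : α → α → Prop) (hr : ∀ a b, r a b → r b a) (A : Finset α) (N g : ℕ)
    (h : N * A.card < g * ((A ×ˢ A).filter (fun p => r p.1 p.2)).card) :
    ∃ B ⊆ A, B.Nonempty ∧ ∀ a ∈ B, N ≤ 2 * g * (B.filter (fun b => r a b)).card := by
  let P : Finset α → ℕ := fun B => ((B ×ˢ B).filter (fun p => r p.1 p.2)).card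
  have hP : ∀ B : Finset α, ((B ×ˢ B).filter (fun p => r p.1 p.2)).card = P B := fun _ => rfl
  obtain ⟨B, hB, hmax⟩ := Finset.exists_max_image A.powerset
    (fun B => (g : ℤ) * P B - (N : ℤ) * B.card) ⟨A, Finset.mem_powerset_self A⟩
  rw [Finset.mem_powerset] at hB
  have hA := hmax A (Finset.mem_powerset_self A)
  rw [hP] at h
  have hpos : (0 : ℤ) < (g : ℤ) * P B - (N : ℤ) * B.card := by
    have : (N : ℤ) * A.card < (g : ℤ) * P A := by exact_mod_cast h
    linarith
  refine ⟨B, hB, ?_, ?_⟩
  · rw [Finset.nonempty_iff_ne_empty]
    rintro rfl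
    simp [P] at hpos
  · intro a ha
    have h1 := hmax (B.erase a) (Finset.mem_powerset.2 ((Finset.erase_subset a B).trans hB))
    have h2 : P B ≤ P (B.erase a) + 2 * (B.filter (fun b => r a b)).card := by
      have hsub : (B ×ˢ B).filter (fun p => r p.1 p.2) ⊆
          ((B.erase a) ×ˢ (B.erase a)).filter (fun p => r p.1 p.2) ∪
            ((B.filter (fun b => r a b)).image (fun b => (a, b)) ∪
              (B.filter (fun b => r a b)).image (fun b => (b, a))) := by
        rintro ⟨x, y⟩ hxy
        rw [Finset.mem_filter, Finset.mem_product] at hxy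
        obtain ⟨⟨hx, hy⟩, hr'⟩ := hxy
        simp only at hx hy hr'
        rw [Finset.mem_union, Finset.mem_union, Finset.mem_filter, Finset.mem_product,
          Finset.mem_image, Finset.mem_image]
        by_cases hxa : x = a
        · subst hxa
          exact Or.inr (Or.inl ⟨y, Finset.mem_filter.2 ⟨hy, hr'⟩, rfl⟩)
        · by_cases hya : y = a
          · subst hya
            exact Or.inr (Or.inr ⟨x, Finset.mem_filter.2 ⟨hx, hr _ _ hr'⟩, rfl⟩)
          · exact Or.inl ⟨⟨Finset.mem_erase.2 ⟨hxa, hx⟩, Finset.mem_erase.2 ⟨hya, hy⟩⟩, hr'⟩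
      have h3 := Finset.card_le_card hsub
      have h4 := Finset.card_union_le (((B.erase a) ×ˢ (B.erase a)).filter (fun p => r p.1 p.2))
        ((B.filter (fun b => r a b)).image (fun b => (a, b)) ∪
              (B.filter (fun b => r a b)).image (fun b => (b, a)))
      have h5 := Finset.card_union_le ((B.filter (fun b => r a b)).image (fun b => (a, b)))
        ((B.filter (fun b => r a b)).image (fun b => (b, a)))
      have h6 := Finset.card_image_le (s := B.filter (fun b => r a b)) (f := fun b => (a, b))
      have h7 := Finset.card_image_le (s := B.filter (fun b => r a b)) (f := fun b => (b, a))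
      rw [hP] at h3 h4
      omega
    have h8 := Finset.card_erase_add_one ha
    have h9 : ((B.erase a).card : ℤ) = B.card - 1 := by
      have : ((B.erase a).card : ℤ) + 1 = B.card := by exact_mod_cast h8
      linarith
    rw [h9] at h1
    have h10 : (P B : ℤ) ≤ P (B.erase a) + 2 * (B.filter (fun b => r a b)).card := by
      exact_mod_cast h2
    have h11 : (g : ℤ) * P B ≤ g * (P (B.erase a) + 2 * (B.filter (fun b => r a b)).card) :=
      mul_le_mul_of_nonneg_left h10 (Int.natCast_nonneg g)
    have h12 : (N : ℤ) ≤ 2 * g * (B.filter (fun b => r a b)).card := by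
      nlinarith
    exact_mod_cast h12

end

section
variable {V α : Type*}

open Classical in
theorem nz_finish_third {q : ℕ} [Fact q.Prime] [Fintype V] [Fintype α] {w : α → α → ZMod q}
    (hw : ∀ a b, w a b = w b a) (H : SimpleGraph V) (W : Finset α) (hW : NZ w W)
    (hWc : 4 * Fintype.card V ≤ W.card) (hα : Nonempty α)
    (hc : (q - 1) * (EE H Finset.univ).card + Fintype.card V ≤ Fintype.card α)
    (hm : 6 * Fintype.card V + 6 * q ≤ (EE H Finset.univ).card) :
    HasModel w (EE H Finset.univ) Finset.univ Finset.univ := by
  have hqp : q.Prime := Fact.out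
  have hq2 : 2 ≤ q := hqp.two_le
  obtain ⟨φ, h1, h2, h3⟩ := nz_embed_third hw H W hW hWc hα Finset.univ
  have hinj : Function.Injective φ := fun a b hab =>
    h2 a (Finset.mem_univ _) b (Finset.mem_univ _) hab
  have m := model_zero (w := w) (H := H) hinj
  have himg : (Finset.univ.image φ).card = Fintype.card V := by
    rw [Finset.card_image_of_injective _ hinj, Finset.card_univ]
  have hle : 3 * (2 * (q - 1) * (NZE w H Finset.univ φ).card) ≤
      2 * ((q - 1) * (EE H Finset.univ).card) := by
    calc 3 * (2 * (q - 1) * (NZE w H Finset.univ φ).card) =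
        2 * ((q - 1) * (3 * (NZE w H Finset.univ φ).card)) := by ring
      _ ≤ _ := Nat.mul_le_mul_left _ (Nat.mul_le_mul_left _ h3)
  have hm' : 6 * Fintype.card V + 6 * q ≤ (q - 1) * (EE H Finset.univ).card :=
    hm.trans (Nat.le_mul_of_pos_left _ (by omega))
  rcases m.addFB hw (Fintype.card V) (NZE w H Finset.univ φ) (fun e _ v _ => Finset.mem_univ v)
    (by rw [himg]; omega) with ⟨C, h4, h5⟩ | ⟨S', I', m', _⟩
  · exact hasModel_of_clique hw H C h4 h5
  · have hE : ZE w H φ ∪ NZE w H Finset.univ φ = EE H Finset.univ := by
      apply Finset.Subset.antisymm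
      · exact Finset.union_subset (ZE_subset w H φ) (NZE_subset w H _ φ)
      · intro e he
        induction e using Sym2.ind with
        | _ a b =>
          rw [Finset.mem_union, mem_ZE hw]
          by_cases h0 : w (φ a) (φ b) = 0
          · left
            rw [mk_mem_EE] at he
            exact ⟨he.2, h0⟩
          · right
            rw [mem_NZE hw]
            exact ⟨he, h0⟩
    rw [hE] at m'
    exact ⟨φ, I', m'.mono (Finset.subset_univ _)⟩

end

end MP0dbebe
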