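import Pool.Agent.Lib.MP_0dbebe_co.Dense2

/-! # Dense graphs: the case of many short zero paths -/

namespace MP0dbebe

section
variable {V α : Type*}

theorem EE_empty (H : SimpleGraph V) : EE H ∅ = ∅ := by
  ext e
  induction e using Sym2.ind with
  | _ a b => rw [mk_mem_EE]; simp

open Classical in
theorem exists_middle [Fintype V] (H : SimpleGraph V) (c : ℕ)
    (hc : c ≤ (EE H Finset.univ).card) :
    ∃ X : Finset V, (EE H X).card ≤ c ∧ c ≤ (EE H X).card + Fintype.card V := by
  obtain ⟨X, hX, hmax⟩ := Finset.exists_max_image
    ((Finset.univ : Finset (Finset V)).filter (fun X => (EE H X).card ≤ c)) Finset.card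
    ⟨∅, Finset.mem_filter.2 ⟨Finset.mem_univ _, by rw [EE_empty]; simp⟩⟩
  rw [Finset.mem_filter] at hX
  refine ⟨X, hX.2, ?_⟩
  by_cases hu : X = Finset.univ
  · rw [hu]; omega
  · obtain ⟨v, hv⟩ : ∃ v, v ∉ X := by
      by_contra hcon
      push Not at hcon
      exact hu (Finset.eq_univ_iff_forall.2 hcon)
    by_contra hcon
    push Not at hcon
    have h1 : (EE H (insert v X)).card ≤ c := by
      rw [card_EE_insert H X v hv]
      have : (NE H X v).card ≤ Fintype.card V := Finset.card_le_univ _
      omega
    have h2 := hmax (insert v X) (Finset.mem_filter.2 ⟨Finset.mem_univ _, h1⟩)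
    rw [Finset.card_insert_of_notMem hv] at h2
    omega

open Classical in
/-- **Many short zero paths.** -/
theorem case1 {q : ℕ} [Fact q.Prime] [Fintype V] [Nonempty V] [Fintype α] {w : α → α → ZMod q}
    (hw : ∀ a b, w a b = w b a) (H : SimpleGraph V) (g s K : ℕ) (hg : 2 ≤ g)
    (hK : 48 * q * (16 * (q - 1)) ^ ((q + 1) * (q - 1)) + 2 + 2 * q ≤ K)
    (V' : Finset α) (hV' : V'.Nonempty)
    (hdeg : ∀ a ∈ V', 4 * Fintype.card α ≤ g * (V'.filter (fun b => Short w s a b)).card)
    (hs : 2 * Fintype.card α ≤ g * s)
    (hc : (q - 1) * (EE H Finset.univ).card + Fintype.card V ≤ Fintype.card α)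
    (hm : 2 * g * (2 * g * (K * Fintype.card V) + Fintype.card V + 1) ≤
      (EE H Finset.univ).card) :
    HasModel w (EE H Finset.univ) Finset.univ Finset.univ := by
  have hqp : q.Prime := Fact.out
  have hq2 : 2 ≤ q := hqp.two_le
  have hn1 : 1 ≤ Fintype.card V := Fintype.card_pos
  set n := Fintype.card V with hn
  set E := (EE H Finset.univ).card with hE
  set a := Fintype.card α with ha
  set k := q - 1 with hk
  have hk1 : 1 ≤ k := by omega
  set K₀ := 48 * q * (16 * k) ^ ((q + 1) * k) with hK₀
  have hK₀n : K₀ * n + 2 * n + 2 * q ≤ K * n := by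
    have h1 : (K₀ + 2 + 2 * q) * n ≤ K * n := Nat.mul_le_mul_right n hK
    have h2 : 2 * q ≤ 2 * q * n := Nat.le_mul_of_pos_right _ hn1
    nlinarith
  have hK₀' : 48 * q * n * (16 * k) ^ ((q + 1) * k) = K₀ * n := by rw [hK₀]; ring
  have hKE : 4 * g * (K * n) + 2 * g * n + 2 * g ≤ E := by
    have h1 : 2 * g * (K * n) ≤ 2 * g * (g * (K * n)) :=
      Nat.mul_le_mul_left _ (Nat.le_mul_of_pos_left _ (by omega))
    nlinarith
  have hEa : k * E + n ≤ a := hc
  have hEa' : E ≤ a := by
    have : E ≤ k * E := Nat.le_mul_of_pos_left _ hk1
    omega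
  have hgn : 2 * g * n ≤ E := by
    have : 0 ≤ 4 * g * (K * n) := Nat.zero_le _
    omega
  have hgK : 4 * g * (K * n) ≤ E := by
    have : 0 ≤ 2 * g * n := Nat.zero_le _
    omega
  have h8K : 8 * (K * n) ≤ E := by
    refine le_trans ?_ hgK
    exact Nat.mul_le_mul_right _ (by omega)
  have hm' : 6 * n + 6 * q ≤ E := by omega
  have hαne : Nonempty α := Fintype.card_pos_iff.1 (by omega)
  -- early phase
  have early : ∀ X : Finset V, g * (k * (EE H X).card + X.card) ≤ a →
      HasModel w (EE H Finset.univ) Finset.univ Finset.univ ∨
      ∃ S φ I, Model w (EE H X) X S φ I ∧ (∀ u ∈ X, φ u ∈ V') ∧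
        2 * g * S.card + (EE H X).card ≤ 2 * g * (X.card + k * (EE H X).card) := by
    intro X
    induction X using Finset.induction_on with
    | empty =>
      intro _
      right
      refine ⟨∅, fun _ => Classical.arbitrary α, fun _ => [], ?_, by simp, by simp [EE_empty]⟩
      rw [EE_empty]
      exact ⟨by simp, by simp, by simp, by simp, by simp, by simp, by simp, by simp⟩
    | insert v X hv ih =>
      intro hX
      have hXc := card_EE_insert H X v hv
      have hXi := Finset.card_insert_of_notMem hv
      rw [hXc, hXi] at hX ⊢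
      set e := (EE H X).card with he
      set N := NE H X v with hN
      set d := N.card with hd
      have hXe : g * (k * e + X.card) ≤ a := by
        refine le_trans (Nat.mul_le_mul_left g ?_) hX
        have : k * e ≤ k * (e + d) := Nat.mul_le_mul_left _ (by omega)
        omega
      rcases ih hXe with h | ⟨S, φ, I, m, hφ, hS⟩
      · exact Or.inl h
      have hS1 : S.card ≤ X.card + k * e := by
        have : 2 * g * S.card ≤ 2 * g * (X.card + k * e) := by omega
        exact Nat.le_of_mul_le_mul_left this (by omega)
      have hgS : g * S.card ≤ a := by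
        refine le_trans (Nat.mul_le_mul_left g hS1) ?_
        rw [add_comm]; exact hXe
      let Q : α → Finset V := fun y => N.filter (fun u => Short w s (φ u) y)
      let R' : Finset α := (V' \ S).filter (fun y => d ≤ g * (Q y).card)
      have hNX : N ⊆ X := Finset.filter_subset _ _
      have hR' : 2 * a ≤ g * R'.card := by
        rcases Nat.eq_zero_or_pos d with hd0 | hd0
        · have e1 : R' = V' \ S := by
            apply Finset.filter_true_of_mem
            intro y _
            rw [hd0]; exact Nat.zero_le _
          obtain ⟨b, hb⟩ := hV'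
          have e2 := hdeg b hb
          have e3 : g * (V'.filter (fun c => Short w s b c)).card ≤ g * V'.card :=
            Nat.mul_le_mul_left g (Finset.card_le_card (Finset.filter_subset _ _))
          have e4 := Finset.le_card_sdiff S V'
          rw [← e1] at e4
          have e5 : g * V'.card ≤ g * (R'.card + S.card) := Nat.mul_le_mul_left g (by omega)
          rw [mul_add] at e5
          omega
        · -- double counting
          have e1 : ∑ y ∈ V' \ S, (Q y).card =
              ∑ u ∈ N, ((V' \ S).filter (fun y => Short w s (φ u) y)).card := by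
            simp only [Q, Finset.card_filter]
            exact Finset.sum_comm
          have e2 : d * (3 * a) ≤
              g * ∑ u ∈ N, ((V' \ S).filter (fun y => Short w s (φ u) y)).card := by
            rw [Finset.mul_sum, ← smul_eq_mul]
            apply Finset.card_nsmul_le_sum
            intro u hu
            have f1 := hdeg (φ u) (hφ u (hNX hu))
            have f2 : V'.filter (fun y => Short w s (φ u) y) ⊆
                (V' \ S).filter (fun y => Short w s (φ u) y) ∪ S := by
              intro y hy
              rw [Finset.mem_filter] at hy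
              rw [Finset.mem_union, Finset.mem_filter, Finset.mem_sdiff]
              by_cases hyS : y ∈ S
              · exact Or.inr hyS
              · exact Or.inl ⟨⟨hy.1, hyS⟩, hy.2⟩
            have f3 := (Finset.card_le_card f2).trans (Finset.card_union_le _ _)
            have f4 := Nat.mul_le_mul_left g f3
            rw [mul_add] at f4
            omega
          have e3 : g * ∑ y ∈ V' \ S, (Q y).card ≤ d * (g * R'.card) + d * a := by
            have f1 : ∑ y ∈ V' \ S, (Q y).card = ∑ y ∈ R', (Q y).card +
                ∑ y ∈ (V' \ S).filter (fun y => ¬ d ≤ g * (Q y).card), (Q y).card :=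
              (Finset.sum_filter_add_sum_filter_not _ _ _).symm
            have f2 : ∑ y ∈ R', (Q y).card ≤ R'.card * d := by
              rw [← smul_eq_mul]
              apply Finset.sum_le_card_nsmul
              intro y _
              exact Finset.card_le_card (Finset.filter_subset _ _)
            have f3 : g * ∑ y ∈ (V' \ S).filter (fun y => ¬ d ≤ g * (Q y).card), (Q y).card ≤
                ((V' \ S).filter (fun y => ¬ d ≤ g * (Q y).card)).card * d := by
              rw [Finset.mul_sum, ← smul_eq_mul]
              apply Finset.sum_le_card_nsmul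
              intro y hy
              have := (Finset.mem_filter.1 hy).2
              omega
            have f4 : ((V' \ S).filter (fun y => ¬ d ≤ g * (Q y).card)).card ≤ a :=
              Finset.card_le_univ _
            have f5 := Nat.mul_le_mul_right d f4
            rw [f1, mul_add]
            have f6 := Nat.mul_le_mul_left g f2
            nlinarith
          rw [e1] at e3
          have e4 : d * (3 * a) ≤ d * (g * R'.card + a) := by
            rw [mul_add]
            exact e2.trans e3
          have e5 := Nat.le_of_mul_le_mul_left e4 hd0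
          omega
      obtain ⟨z, hz1, hz2⟩ : ∃ z, d ≤ g * z ∧ ∀ j, d ≤ g * j → z ≤ j := by
        have hex : ∃ z, d ≤ g * z := ⟨d, Nat.le_mul_of_pos_left d (by omega)⟩
        exact ⟨Nat.find hex, Nat.find_spec hex, fun j hj => Nat.find_min' hex hj⟩
      have hR'K : K₀ * n ≤ R'.card := by
        have h1 : g * (K₀ * n) ≤ g * R'.card := by
          refine le_trans ?_ hR'
          have : g * (K₀ * n) ≤ g * (K * n) := Nat.mul_le_mul_left g (by omega)
          have h2 : 4 * g * (K * n) = 4 * (g * (K * n)) := by ring
          omega
        exact Nat.le_of_mul_le_mul_left h1 (by omega)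
      have hsS : S.card + 1 + q * n ≤ s := by
        have h1 : g * (S.card + 1 + q * n) ≤ g * s := by
          refine le_trans ?_ hs
          have h2 : g * (1 + q * n) ≤ g * (K * n) := by
            apply Nat.mul_le_mul_left
            have h3 : q * n ≤ 2 * q * n := Nat.mul_le_mul_right n (by omega)
            have h4 : (2 + 2 * q) * n ≤ K * n := Nat.mul_le_mul_right n (by omega)
            nlinarith
          have h5 : 4 * g * (K * n) = 4 * (g * (K * n)) := by ring
          have h6 : g * (S.card + 1 + q * n) = g * S.card + g * (1 + q * n) := by ring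
          omega
        exact Nat.le_of_mul_le_mul_left h1 (by omega)
      have hfb : S.card + 1 + k * d + (2 * n + 2 * q) ≤ a := by
        have h1 : 2 * (k * (e + d) + (X.card + 1)) ≤ a :=
          (Nat.mul_le_mul_right _ hg).trans hX
        have h2 : k * (e + d) = k * e + k * d := by ring
        omega
      rcases stepSave hw H X v hv S φ I m R'
        (fun y hy => (Finset.mem_sdiff.1 (Finset.mem_filter.1 hy).1).2)
        (by rw [← hn, ← hk, hK₀']; exact hR'K) z Q
        (fun y _ => Finset.filter_subset _ _)
        (fun y hy => hz2 _ (Finset.mem_filter.1 hy).2) s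
        (fun y _ u hu => (Finset.mem_filter.1 hu).2) (Or.inl hsS) hfb hc hm' with
        h | ⟨y, hy, S', I', m', hS'⟩
      · exact Or.inl h
      · right
        refine ⟨S', _, I', m', ?_, ?_⟩
        · intro u hu
          rw [Finset.mem_insert] at hu
          rcases hu with rfl | hu
          · rw [Function.update_self]
            exact (Finset.mem_sdiff.1 (Finset.mem_filter.1 hy).1).1
          · rw [Function.update_of_ne]
            · exact hφ u hu
            · rintro rfl; exact hv hu
        · rw [← hk, ← hN, ← hd] at hS'
          have h1 := Nat.mul_le_mul_left g hS'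
          nlinarith
  -- a set of medium size
  set c := E / (2 * g) with hcdef
  have hcE : 2 * g * c ≤ E := Nat.mul_div_le _ _
  have hcc : 2 * g * (K * n) + n + 1 ≤ c := by
    rw [hcdef, Nat.le_div_iff_mul_le (by omega), mul_comm]
    exact hm
  obtain ⟨X₀, hX1, hX2⟩ := exists_middle H c (by
    have : c ≤ 2 * g * c := Nat.le_mul_of_pos_left _ (by omega)
    omega)
  have hX₀ : g * (k * (EE H X₀).card + X₀.card) ≤ a := by
    have h1 : X₀.card ≤ n := Finset.card_le_univ _
    have h2 : k * (EE H X₀).card ≤ k * c := Nat.mul_le_mul_left k hX1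
    have h3 : 2 * (g * (k * (EE H X₀).card + X₀.card)) ≤ 2 * (g * (k * c + n)) :=
      Nat.mul_le_mul_left 2 (Nat.mul_le_mul_left g (by omega))
    have h4 : 2 * (g * (k * c + n)) = k * (2 * g * c) + 2 * g * n := by ring
    have h5 : k * (2 * g * c) ≤ k * E := Nat.mul_le_mul_left k hcE
    have h6 : E ≤ k * E := Nat.le_mul_of_pos_left _ hk1
    omega
  rcases early X₀ hX₀ with h | ⟨S₀, φ₀, I₀, m₀, -, hS₀⟩
  · exact h
  have hS₀' : S₀.card + K * n ≤ X₀.card + k * (EE H X₀).card := by
    have h1 : 2 * g * (S₀.card + K * n) ≤ 2 * g * (X₀.card + k * (EE H X₀).card) := by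
      rw [mul_add]
      omega
    exact Nat.le_of_mul_le_mul_left h1 (by omega)
  -- late phase
  have late : ∀ Y : Finset V, HasModel w (EE H Finset.univ) Finset.univ Finset.univ ∨
      ∃ S φ I, Model w (EE H (X₀ ∪ Y)) (X₀ ∪ Y) S φ I ∧
        S.card + K * n ≤ (X₀ ∪ Y).card + k * (EE H (X₀ ∪ Y)).card := by
    intro Y
    induction Y using Finset.induction_on with
    | empty =>
      right
      rw [Finset.union_empty]
      exact ⟨S₀, φ₀, I₀, m₀, hS₀'⟩
    | insert v Y _ ih =>
      rcases ih with h | ⟨S, φ, I, m, hS⟩
      · exact Or.inl h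
      rw [Finset.union_insert]
      by_cases hv : v ∈ X₀ ∪ Y
      · rw [Finset.insert_eq_of_mem hv]
        exact Or.inr ⟨S, φ, I, m, hS⟩
      have hXc := card_EE_insert H (X₀ ∪ Y) v hv
      have hXi := Finset.card_insert_of_notMem hv
      have hXn : (X₀ ∪ Y).card + 1 ≤ n := Finset.card_lt_univ_of_notMem hv
      have hEm : (EE H (insert v (X₀ ∪ Y))).card ≤ E :=
        Finset.card_le_card (EE_mono H (Finset.subset_univ _))
      rw [hXc] at hEm
      rw [hXc, hXi]
      set e := (EE H (X₀ ∪ Y)).card with he
      set d := (NE H (X₀ ∪ Y) v).card with hd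
      have h1 : k * (e + d) ≤ k * E := Nat.mul_le_mul_left k hEm
      have h2 : k * (e + d) = k * e + k * d := by ring
      have hScompl : (Sᶜ).card + S.card = a := by
        rw [add_comm]; exact Finset.card_add_card_compl S
      have hR'K : K₀ * n ≤ (Sᶜ).card := by omega
      rcases stepSave hw H (X₀ ∪ Y) v hv S φ I m Sᶜ
        (fun y hy => Finset.mem_compl.1 hy)
        (by rw [← hn, ← hk, hK₀']; exact hR'K) 0 (fun _ => ∅)
        (fun y _ => Finset.empty_subset _)
        (fun y _ => Nat.zero_le _) s
        (fun y _ u hu => absurd hu (Finset.notMem_empty u)) (Or.inr rfl)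
        (by rw [← hn, ← hk, ← hd]; omega) hc hm' with
        h | ⟨y, hy, S', I', m', hS'⟩
      · exact Or.inl h
      · right
        refine ⟨S', _, I', m', ?_⟩
        rw [← hk, ← hd] at hS'
        omega
  rcases late Finset.univ with h | ⟨S, φ, I, m, _⟩
  · exact h
  · rw [Finset.union_eq_right.2 (Finset.subset_univ X₀)] at m
    exact ⟨φ, I, m.mono (Finset.subset_univ _)⟩

end

end MP0dbebe
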