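import Pool.Agent.Lib.MP_0dbebe_co.PackI
import Pool.Agent.Lib.MP_0dbebe_co.DenseGe5

/-! # Dense graphs, `q = 3`: the exact value -/

namespace MP0dbebe

section
variable {V α : Type*}

open Classical in
/-- **Almost constant weights, `q = 3`.** -/
theorem Near.case2_three [Fintype V] [Fintype α] {w : α → α → ZMod 3}
    {𝒢 : Finset α} (h : Near w (parB 3) (parL 3) 𝒢) (H : SimpleGraph V)
    (hc : Fintype.card α = (3 - 1) * (EE H Finset.univ).card + Fintype.card V)
    (hE : parL 3 * (Fintype.card V + 1) ≤ (EE H Finset.univ).card) :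
    HasModel w (EE H Finset.univ) Finset.univ Finset.univ := by
  have hprime : Fact (Nat.Prime 3) := ⟨Nat.prime_three⟩
  obtain ⟨K, ξ, M, hM1, hM2, hξ1, hξ2, hn, hsave, hsmall, hMn⟩ := h.bad_part le_rfl H hc hE
  have hB : parB 3 = 300 := rfl
  have hLv : parL 3 = 8100000000 := by
    unfold parL parB
    norm_num
  rw [hB] at h hM2 hn hsave
  rw [hLv] at h hE
  have hNpos : 0 < Fintype.card α := by omega
  have hpart : (EE H Finset.univ).card = (EE H K).card + (EE H Kᶜ).card +
      ∑ v ∈ Kᶜ, (NE H K v).card := by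
    rw [← card_EE_union H K Kᶜ disjoint_compl_right, Finset.union_compl]
  obtain ⟨φ, hφ1, hφ2, hφ3, hφ4, hφ5⟩ := h.embed3 (by norm_num) hNpos M (by omega) H K ξ hξ1
    (by omega) (by omega) (by omega)
  let ψ : V → α := fun v => if v ∈ K then ξ v else φ v
  have ψK : ∀ v ∈ K, ψ v = ξ v := fun v hv => if_pos hv
  have ψn : ∀ v, v ∉ K → ψ v = φ v := fun v hv => if_neg hv
  have hψ𝒢 : ∀ v, v ∉ K → ψ v ∈ 𝒢 := fun v hv => by
    rw [ψn v hv]; exact hφ1 v (Finset.mem_compl.2 hv)
  have hψ : Function.Injective ψ := by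
    intro p r hpr
    by_cases hp : p ∈ K <;> by_cases hr : r ∈ K
    · rw [ψK p hp, ψK r hr] at hpr
      exact hξ2 p hp r hr hpr
    · rw [ψK p hp] at hpr
      exact absurd (hpr ▸ hψ𝒢 r hr) (hξ1 p hp)
    · rw [ψK r hr] at hpr
      exact absurd (hpr ▸ hψ𝒢 p hp) (hξ1 r hr)
    · rw [ψn p hp, ψn r hr] at hpr
      exact hφ2 p (Finset.mem_compl.2 hp) r (Finset.mem_compl.2 hr) hpr
  obtain ⟨S, I, hS, m, hSc⟩ := h.serve_K (by norm_num) (by norm_num) hNpos M hM1 H K ψ hψ hψ𝒢 hMn
  have hcost : ∑ v' ∈ Kᶜ, ∑ v ∈ NE H K v', kap w M (ψ v) (ψ v') =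
      ∑ v' ∈ Kᶜ, ∑ v ∈ NE H K v', kap w M (ξ v) (φ v') := by
    apply Finset.sum_congr rfl
    intro v' hv'
    apply Finset.sum_congr rfl
    intro v hv
    rw [ψK v (mem_NE.1 hv).1, ψn v' (Finset.mem_compl.1 hv')]
  rw [hcost] at hSc
  have hVFK : ∀ v ∈ VF H K, v ∉ K := fun v hv =>
    Finset.mem_compl.1 (Finset.mem_filter.1 hv).1
  have ha : ∀ x ∈ 𝒢, (VF H K).card < 2 * ((VF H K).filter (fun v => w x (ψ v) = 1)).card := by
    intro x hx
    have e1 : (VF H K).filter (fun v => w x (ψ v) = 1) =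
        (VF H K).filter (fun v => w x (φ v) = 1) := by
      apply Finset.filter_congr
      intro v hv
      rw [ψn v (hVFK v hv)]
    rw [e1]
    exact hφ4 x hx
  have hWc : ∀ x, Wc w H K ψ x = Wc w H K φ x := by
    intro x
    unfold Wc
    apply Finset.sum_congr _ (fun _ _ => rfl)
    apply Finset.filter_congr
    intro v hv
    rw [ψn v (Finset.mem_compl.1 hv)]
  have hVFn : (VF H K).card ≤ Fintype.card V := Finset.card_le_univ _
  apply h.finish3 H K m hψ𝒢 (by omega) (by omega) _ (by omega) ha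
  · simp only [hWc]
    exact hφ5
  · -- the count
    have hcard : Fintype.card α ≤ (𝒢 \ S).card + (Fintype.card α - 𝒢.card) + S.card := by
      have e1 := Finset.le_card_sdiff S 𝒢
      omega
    omega

open Classical in
/-- **Dense graphs, `q = 3`.** -/
theorem dense_three [Fintype V] [Fintype α] {w : α → α → ZMod 3}
    (hw : ∀ a b, w a b = w b a) (H : SimpleGraph V) (hn : 1 ≤ Fintype.card V)
    (ha : Fintype.card α = (3 - 1) * (EE H Finset.univ).card + Fintype.card V)
    (hE : denseC 3 * Fintype.card V ≤ (EE H Finset.univ).card) :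
    HasModel w (EE H Finset.univ) Finset.univ Finset.univ := by
  have hprime : Fact (Nat.Prime 3) := ⟨Nat.prime_three⟩
  rcases dense_dichotomy hw H hn ha hE with h | ⟨c, hc, 𝒢, h⟩
  · exact h
  · apply hasModel_scale hc
    apply h.case2_three H ha
    refine le_trans ?_ hE
    calc parL 3 * (Fintype.card V + 1) ≤ parL 3 * (2 * Fintype.card V) :=
          Nat.mul_le_mul_left _ (by omega)
      _ = 2 * parL 3 * Fintype.card V := by ring
      _ ≤ denseC 3 * Fintype.card V := by
          apply Nat.mul_le_mul_right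
          unfold denseC
          omega

end

end MP0dbebe
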