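import Pool.Agent.Lib.MP_0dbebe_co.Dense3

/-! # Degree sums, serving edges one at a time, and serving edges by a matching -/

namespace MP0dbebe

section
variable {V α : Type*}

theorem mem_NE {H : SimpleGraph V} {X : Finset V} {v u : V} :
    u ∈ NE H X v ↔ u ∈ X ∧ H.Adj v u := by
  classical
  simp only [NE, Finset.mem_filter]

open Classical in
theorem sum_NE (H : SimpleGraph V) (Y : Finset V) :
    ∑ v ∈ Y, (NE H Y v).card = 2 * (EE H Y).card := by
  induction Y using Finset.induction_on with
  | empty => simp [EE_empty]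
  | insert v Y hv ih =>
    rw [Finset.sum_insert hv, card_EE_insert H Y v hv]
    have h1 : NE H (insert v Y) v = NE H Y v := by
      ext u
      rw [mem_NE, mem_NE, Finset.mem_insert]
      constructor
      · rintro ⟨rfl | h, h'⟩
        · exact absurd rfl h'.ne
        · exact ⟨h, h'⟩
      · rintro ⟨h, h'⟩; exact ⟨Or.inr h, h'⟩
    have h2 : ∀ u ∈ Y, (NE H (insert v Y) u).card = (NE H Y u).card + if H.Adj v u then 1 else 0 := by
      intro u _
      by_cases hadj : H.Adj v u
      · rw [if_pos hadj]
        have : NE H (insert v Y) u = insert v (NE H Y u) := by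
          ext x
          rw [Finset.mem_insert, mem_NE, mem_NE, Finset.mem_insert]
          constructor
          · rintro ⟨rfl | h, h'⟩
            · exact Or.inl rfl
            · exact Or.inr ⟨h, h'⟩
          · rintro (rfl | ⟨h, h'⟩)
            · exact ⟨Or.inl rfl, hadj.symm⟩
            · exact ⟨Or.inr h, h'⟩
        rw [this, Finset.card_insert_of_notMem]
        rw [mem_NE]
        exact fun h => hv h.1
      · rw [if_neg hadj, add_zero]
        congr 1
        ext x
        rw [mem_NE, mem_NE, Finset.mem_insert]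
        constructor
        · rintro ⟨rfl | h, h'⟩
          · exact absurd h'.symm hadj
          · exact ⟨h, h'⟩
        · rintro ⟨h, h'⟩; exact ⟨Or.inr h, h'⟩
    rw [Finset.sum_congr rfl h2, Finset.sum_add_distrib, ih, h1]
    have h3 : ∑ u ∈ Y, (if H.Adj v u then 1 else 0) = (NE H Y v).card := by
      rw [NE, Finset.card_filter]
    rw [h3]
    ring

open Classical in
theorem sum_NE_comm (H : SimpleGraph V) (Y Y' : Finset V) :
    ∑ v ∈ Y, (NE H Y' v).card = ∑ v ∈ Y', (NE H Y v).card := by
  simp only [NE, Finset.card_filter]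
  rw [Finset.sum_comm]
  apply Finset.sum_congr rfl
  intro u _
  apply Finset.sum_congr rfl
  intro v _
  rw [H.adj_comm]

open Classical in
theorem card_EE_union (H : SimpleGraph V) (Y Y' : Finset V) (h : Disjoint Y Y') :
    (EE H (Y ∪ Y')).card = (EE H Y).card + (EE H Y').card + ∑ v ∈ Y', (NE H Y v).card := by
  induction Y' using Finset.induction_on with
  | empty => simp [EE_empty]
  | insert v Y' hv ih =>
    rw [Finset.disjoint_insert_right] at h
    have hvY : v ∉ Y ∪ Y' := by
      rw [Finset.mem_union]; tauto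
    rw [Finset.union_insert, card_EE_insert H _ v hvY, card_EE_insert H Y' v hv,
      Finset.sum_insert hv, ih h.2]
    have h1 : (NE H (Y ∪ Y') v).card = (NE H Y v).card + (NE H Y' v).card := by
      rw [← Finset.card_union_of_disjoint]
      · congr 1
        ext x
        rw [Finset.mem_union, mem_NE, mem_NE, mem_NE, Finset.mem_union]
        tauto
      · rw [Finset.disjoint_left]
        intro x hx hx'
        rw [mem_NE] at hx hx'
        exact Finset.disjoint_left.1 h.2 hx.1 hx'.1
    rw [h1]
    ring

open Classical in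
/-- serving edges one at a time -/
theorem Model.addGen {G : Type*} [AddCommGroup G] {w : α → α → G} {E : Finset (Sym2 V)}
    {X : Finset V} {S : Finset α}
    {φ : V → α} {I : Sym2 V → List α} (m : Model w E X S φ I) (F : Finset (Sym2 V)) (c M : ℕ)
    (hM : S.card + c * F.card ≤ M)
    (hF : ∀ e ∈ F, ∀ S' : Finset α, S ⊆ S' → S'.card ≤ M → ∃ u v, e = s(u, v) ∧ u ∈ X ∧ v ∈ X ∧
      ∃ l : List α, l.Nodup ∧ (∀ x ∈ l, x ∉ S') ∧ l.length ≤ c ∧
        pw w (φ u :: (l ++ [φ v])) = 0) :
    ∃ S' I', S ⊆ S' ∧ Model w (E ∪ F) X S' φ I' ∧ S'.card ≤ S.card + c * F.card := by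
  induction F using Finset.induction_on with
  | empty => exact ⟨S, I, Finset.Subset.refl _, by rw [Finset.union_empty]; exact m, by simp⟩
  | insert e F heF ih =>
    rw [Finset.card_insert_of_notMem heF] at hM ⊢
    have hM' : S.card + c * F.card + c ≤ M := by
      have : c * (F.card + 1) = c * F.card + c := by ring
      omega
    obtain ⟨S', I', hSS', m', hS'⟩ := ih (by omega)
      (fun e' he' => hF e' (Finset.mem_insert_of_mem he'))
    by_cases he : e ∈ E ∪ F
    · refine ⟨S', I', hSS', ?_, by rw [mul_add]; omega⟩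
      rw [Finset.union_insert, Finset.insert_eq_of_mem he]
      exact m'
    · obtain ⟨u, v, rfl, hu, hv, l, h1, h2, h3, h4⟩ := hF e (Finset.mem_insert_self _ _) S' hSS'
        (by omega)
      have m'' := m'.insertEdge hu hv he h1 h2 h4
      rw [← Finset.union_insert] at m''
      refine ⟨_, _, hSS'.trans Finset.subset_union_left, m'', ?_⟩
      have h5 := Finset.card_union_le S' l.toFinset
      have h6 := List.toFinset_card_le l
      rw [mul_add]
      omega

open Classical in
/-- serving edges by a matching -/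
theorem Model.addMatching {G : Type*} [AddCommGroup G] {w : α → α → G} {E : Finset (Sym2 V)}
    {X : Finset V} {S : Finset α}
    {φ : V → α} {I : Sym2 V → List α} (m : Model w E X S φ I) (F : Finset (Sym2 V))
    (f : Sym2 V → α) (hEF : ∀ e ∈ F, e ∉ E)
    (hf : ∀ e ∈ F, ∀ e' ∈ F, f e = f e' → e = e') (hfS : ∀ e ∈ F, f e ∉ S)
    (hF : ∀ e ∈ F, ∃ u v, e = s(u, v) ∧ u ∈ X ∧ v ∈ X ∧ w (φ u) (f e) + w (f e) (φ v) = 0) :
    ∃ I', Model w (E ∪ F) X (S ∪ F.image f) φ I' := by
  induction F using Finset.induction_on with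
  | empty => exact ⟨I, by rw [Finset.union_empty, Finset.image_empty, Finset.union_empty]; exact m⟩
  | insert e F heF ih =>
    obtain ⟨I', m'⟩ := ih (fun e' he' => hEF e' (Finset.mem_insert_of_mem he'))
      (fun e' he' e'' he'' => hf e' (Finset.mem_insert_of_mem he') e''
        (Finset.mem_insert_of_mem he''))
      (fun e' he' => hfS e' (Finset.mem_insert_of_mem he'))
      (fun e' he' => hF e' (Finset.mem_insert_of_mem he'))
    obtain ⟨u, v, huv, hu, hv, h0⟩ := hF e (Finset.mem_insert_self _ _)
    have he : s(u, v) ∉ E ∪ F := by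
      rw [← huv, Finset.mem_union]
      rintro (h | h)
      · exact hEF e (Finset.mem_insert_self _ _) h
      · exact heF h
    have m'' := m'.insertEdge hu hv he (l := [f e]) (by simp) (by
      intro a ha
      rw [List.mem_singleton] at ha
      subst ha
      rw [Finset.mem_union, Finset.mem_image]
      rintro (h | ⟨e', he', h⟩)
      · exact hfS e (Finset.mem_insert_self _ _) h
      · have := hf e' (Finset.mem_insert_of_mem he') e (Finset.mem_insert_self _ _) h
        exact heF (this ▸ he')) (by
      rw [List.singleton_append, pw_cons_cons, pw_cons_cons, pw_single, add_zero]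
      exact h0)
    rw [← huv, ← Finset.union_insert] at m''
    have e1 : S ∪ F.image f ∪ [f e].toFinset = S ∪ (insert e F).image f := by
      rw [Finset.image_insert, Finset.union_assoc]
      congr 1
      ext x
      simp only [List.toFinset_cons, List.toFinset_nil, Finset.mem_union, Finset.mem_insert,
        Finset.mem_image, insert_empty_eq, Finset.mem_singleton]
      exact or_comm
    rw [e1] at m''
    exact ⟨_, m''⟩

open Classical in
/-- Hall's theorem for the last edges -/
theorem hall_finish {G : Type*} [AddCommGroup G] [Fintype V] [Fintype α] {w : α → α → G}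
    (H : SimpleGraph V) {E : Finset (Sym2 V)} {S : Finset α}
    {φ : V → α} {I : Sym2 V → List α} (m : Model w E Finset.univ S φ I)
    (F : Finset (Sym2 V)) (hEF : ∀ e ∈ F, e ∉ E) (hF : E ∪ F = EE H Finset.univ) :
    HasModel w (EE H Finset.univ) Finset.univ Finset.univ ∨
      ∃ F' ⊆ F, ∃ W ⊆ Sᶜ, (Sᶜ).card < F'.card + W.card ∧ ∀ x ∈ W, ∀ e ∈ F', ∀ u v, e = s(u, v) →
        w (φ u) x + w x (φ v) ≠ 0 := by
  let P : Sym2 V → α → Prop := fun e x => ∃ u v, e = s(u, v) ∧ w (φ u) x + w x (φ v) = 0
  by_cases hall : ∀ s : Finset F, s.card ≤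
      (s.biUnion (fun e => (Sᶜ).filter (fun x => P e.1 x))).card
  · left
    obtain ⟨f, hf, hf2⟩ := (Finset.all_card_le_biUnion_card_iff_exists_injective _).1 hall
    rcases F.eq_empty_or_nonempty with rfl | ⟨e₀, he₀⟩
    · rw [← hF, Finset.union_empty]
      exact ⟨φ, I, m.mono (Finset.subset_univ _)⟩
    let g : Sym2 V → α := fun e => if h : e ∈ F then f ⟨e, h⟩ else f ⟨e₀, he₀⟩
    have hg : ∀ e (h : e ∈ F), g e = f ⟨e, h⟩ := fun e h => dif_pos h
    have hfm : ∀ e (h : e ∈ F), f ⟨e, h⟩ ∉ S ∧ P e (f ⟨e, h⟩) := by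
      intro e h
      have := hf2 ⟨e, h⟩
      rw [Finset.mem_filter, Finset.mem_compl] at this
      exact this
    obtain ⟨I', m'⟩ := m.addMatching F g hEF (by
        intro e he e' he' h
        rw [hg e he, hg e' he'] at h
        exact congrArg Subtype.val (hf h))
      (by intro e he; rw [hg e he]; exact (hfm e he).1)
      (by
        intro e he
        rw [hg e he]
        obtain ⟨u, v, h1, h2⟩ := (hfm e he).2
        exact ⟨u, v, h1, Finset.mem_univ _, Finset.mem_univ _, h2⟩)
    rw [hF] at m'
    exact ⟨φ, I', m'.mono (Finset.subset_univ _)⟩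
  · right
    push Not at hall
    obtain ⟨s, hs⟩ := hall
    refine ⟨s.image Subtype.val, ?_, (Sᶜ) \ (s.biUnion (fun e => (Sᶜ).filter (fun x => P e.1 x))),
      Finset.sdiff_subset, ?_, ?_⟩
    · intro e he
      rw [Finset.mem_image] at he
      obtain ⟨e', _, rfl⟩ := he
      exact e'.2
    · rw [Finset.card_image_of_injective _ Subtype.val_injective]
      have h1 : s.biUnion (fun e => (Sᶜ).filter (fun x => P e.1 x)) ⊆ Sᶜ := by
        intro x hx
        rw [Finset.mem_biUnion] at hx
        obtain ⟨e, _, hx⟩ := hx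
        exact (Finset.mem_filter.1 hx).1
      have h2 := Finset.card_sdiff_add_card_eq_card h1
      omega
    · intro x hx e he u v huv h0
      rw [Finset.mem_sdiff, Finset.mem_biUnion] at hx
      rw [Finset.mem_image] at he
      obtain ⟨e', he', rfl⟩ := he
      exact hx.2 ⟨e', he', Finset.mem_filter.2 ⟨hx.1, u, v, huv, h0⟩⟩

end

end MP0dbebe
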