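import Pool.Agent.Lib.MP_0dbebe_co.Dense4

/-! # Choosing the branch vertices that are moved -/

namespace MP0dbebe

section
variable {V α : Type*}

open Classical in
/-- for a cut that contains most of the edges, there is a vertex on a given side with large gain -/
theorem exists_gain [Fintype V] (H : SimpleGraph V) (Z K : Finset V) (b : ℕ)
    (hcut : 9 * (EE H Finset.univ).card ≤ 10 * ∑ v ∈ Zᶜ, (NE H Z v).card)
    (hK : ∑ v ∈ K, (NE H Finset.univ v).card ≤ 8 * (b + Fintype.card V))
    (hb : 1000 * (b + Fintype.card V) ≤ (EE H Finset.univ).card) (hn : 1 ≤ Fintype.card V) :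
    ∃ v, v ∉ Z ∧ v ∉ K ∧ (NE H Finset.univ v).card + 8 + 8 * (NE H Zᶜ v).card +
      32 * (NE H K v).card ≤ 8 * (NE H Z v).card := by
  by_contra hcon
  push Not at hcon
  set n := Fintype.card V with hn'
  set E := (EE H Finset.univ).card with hE
  -- degree sums
  have hsplit : E = (EE H Z).card + (EE H Zᶜ).card + ∑ v ∈ Zᶜ, (NE H Z v).card := by
    rw [hE, ← card_EE_union H Z Zᶜ disjoint_compl_right, Finset.union_compl]
  have hO : ∑ v ∈ Zᶜ, (NE H Zᶜ v).card = 2 * (EE H Zᶜ).card := sum_NE H Zᶜ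
  have hdeg : ∀ v, (NE H Finset.univ v).card = (NE H Z v).card + (NE H Zᶜ v).card := by
    intro v
    rw [← Finset.card_union_of_disjoint]
    · congr 1
      ext x
      rw [Finset.mem_union, mem_NE, mem_NE, mem_NE, Finset.mem_compl]
      constructor
      · rintro ⟨_, h⟩
        by_cases hx : x ∈ Z
        · exact Or.inl ⟨hx, h⟩
        · exact Or.inr ⟨hx, h⟩
      · rintro (h | h)
        · exact ⟨Finset.mem_univ _, h.2⟩
        · exact ⟨Finset.mem_univ _, h.2⟩
    · rw [Finset.disjoint_left]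
      intro x hx hx'
      rw [mem_NE] at hx hx'
      exact (Finset.mem_compl.1 hx'.1) hx.1
  have hKsum : ∑ v ∈ Zᶜ, (NE H K v).card ≤ ∑ v ∈ K, (NE H Finset.univ v).card := by
    rw [← sum_NE_comm H Finset.univ K]
    exact Finset.sum_le_sum_of_subset (Finset.subset_univ _)
  -- bound for the vertices outside `K`
  have h1 : ∀ v ∈ Zᶜ, 8 * (NE H Z v).card ≤ (NE H Finset.univ v).card + 8 +
      8 * (NE H Zᶜ v).card + 32 * (NE H K v).card +
        (if v ∈ K then 8 * (NE H Finset.univ v).card else 0) := by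
    intro v hv
    by_cases hvK : v ∈ K
    · rw [if_pos hvK]
      have := hdeg v
      omega
    · rw [if_neg hvK]
      have := hcon v (Finset.mem_compl.1 hv) hvK
      omega
  have h2 := Finset.sum_le_sum h1
  simp only [Finset.sum_add_distrib, ← Finset.mul_sum, Finset.sum_const, smul_eq_mul] at h2
  rw [hO, Finset.sum_congr rfl (fun v _ => hdeg v), Finset.sum_add_distrib, hO] at h2
  have h3 : ∑ v ∈ Zᶜ, (if v ∈ K then 8 * (NE H Finset.univ v).card else 0) ≤
      8 * ∑ v ∈ K, (NE H Finset.univ v).card := by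
    rw [← Finset.sum_filter, ← Finset.mul_sum]
    apply Nat.mul_le_mul_left
    apply Finset.sum_le_sum_of_subset
    intro v hv
    exact (Finset.mem_filter.1 hv).2
  have h4 : (Zᶜ).card ≤ n := Finset.card_le_univ _
  omega

open Classical in
theorem choose_K [Fintype V] (H : SimpleGraph V) (Bp : Finset α) (Z : α → Finset V) (ξ₀ : V → α)
    (hcut : ∀ x ∈ Bp, 9 * (EE H Finset.univ).card ≤ 10 * ∑ v ∈ (Z x)ᶜ, (NE H (Z x) v).card)
    (hb : 1000 * (Bp.card + Fintype.card V) ≤ (EE H Finset.univ).card)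
    (hn : 1 ≤ Fintype.card V) :
    ∃ (K : Finset V) (ξ : V → α), (∀ v ∈ K, ξ v ∈ Bp ∧ v ∉ Z (ξ v)) ∧
      (∀ u ∈ K, ∀ v ∈ K, ξ u = ξ v → u = v) ∧
      Bp.card + ∑ v ∈ K, (NE H (Z (ξ v))ᶜ v).card + 4 * (EE H K).card ≤
        ∑ v ∈ K, (NE H (Z (ξ v)) v).card ∧
      ∑ v ∈ K, (NE H Finset.univ v).card ≤ 8 * (Bp.card + Fintype.card V) := by
  set n := Fintype.card V with hn'
  set E := (EE H Finset.univ).card with hE
  -- the family
  let P : Finset V → (V → α) → Prop := fun K ξ =>
    (∀ v ∈ K, ξ v ∈ Bp ∧ v ∉ Z (ξ v)) ∧ (∀ u ∈ K, ∀ v ∈ K, ξ u = ξ v → u = v) ∧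
      ∑ v ∈ K, (NE H Finset.univ v).card + 8 * K.card +
        8 * ∑ v ∈ K, (NE H (Z (ξ v))ᶜ v).card + 32 * (EE H K).card ≤
        8 * ∑ v ∈ K, (NE H (Z (ξ v)) v).card ∧
      ∑ v ∈ K, (NE H (Z (ξ v)) v).card ≤
        Bp.card + n + ∑ v ∈ K, (NE H (Z (ξ v))ᶜ v).card + 4 * (EE H K).card
  obtain ⟨K, hK, hmax⟩ := Finset.exists_max_image
    ((Finset.univ : Finset (Finset V)).filter (fun K => ∃ ξ, P K ξ)) Finset.card
    ⟨∅, Finset.mem_filter.2 ⟨Finset.mem_univ _, ξ₀, by simp, by simp, by simp [EE_empty],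
      by simp⟩⟩
  rw [Finset.mem_filter] at hK
  obtain ⟨-, ξ, h1, h2, h3, h4⟩ := hK
  refine ⟨K, ξ, h1, h2, ?_, by omega⟩
  by_contra hcon
  push Not at hcon
  have hKc : K.card < Bp.card := by omega
  obtain ⟨x, hxB, hxK⟩ : ∃ x ∈ Bp, x ∉ K.image ξ := by
    by_contra hno
    push Not at hno
    have h5 := Finset.card_le_card (fun x hx => hno x hx : Bp ⊆ K.image ξ)
    have h6 := Finset.card_image_le (s := K) (f := ξ)
    omega
  obtain ⟨v, hv1, hv2, hv3⟩ := exists_gain H (Z x) K Bp.card (hcut x hxB) (by omega) hb hn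
  have hup : ∀ u ∈ K, Function.update ξ v x u = ξ u := by
    intro u hu
    rw [Function.update_of_ne]
    rintro rfl; exact hv2 hu
  have s1 : ∑ u ∈ insert v K, (NE H (Z (Function.update ξ v x u)) u).card =
      (NE H (Z x) v).card + ∑ u ∈ K, (NE H (Z (ξ u)) u).card := by
    rw [Finset.sum_insert hv2, Function.update_self]
    congr 1
    apply Finset.sum_congr rfl
    intro u hu
    rw [hup u hu]
  have s2 : ∑ u ∈ insert v K, (NE H (Z (Function.update ξ v x u))ᶜ u).card =
      (NE H (Z x)ᶜ v).card + ∑ u ∈ K, (NE H (Z (ξ u))ᶜ u).card := by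
    rw [Finset.sum_insert hv2, Function.update_self]
    congr 1
    apply Finset.sum_congr rfl
    intro u hu
    rw [hup u hu]
  have s3 := card_EE_insert H K v hv2
  have s4 : (NE H (Z x) v).card ≤ n := Finset.card_le_univ _
  have s5 := Finset.card_insert_of_notMem hv2
  have s6 : ∑ u ∈ insert v K, (NE H Finset.univ u).card =
      (NE H Finset.univ v).card + ∑ u ∈ K, (NE H Finset.univ u).card := Finset.sum_insert hv2
  have hnew : P (insert v K) (Function.update ξ v x) := by
    refine ⟨?_, ?_, ?_, ?_⟩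
    · intro u hu
      rw [Finset.mem_insert] at hu
      rcases hu with rfl | hu
      · rw [Function.update_self]; exact ⟨hxB, hv1⟩
      · rw [hup u hu]; exact h1 u hu
    · intro a ha b hb' hab
      rw [Finset.mem_insert] at ha hb'
      rcases ha with rfl | ha <;> rcases hb' with rfl | hb'
      · rfl
      · rw [Function.update_self, hup b hb'] at hab
        exact absurd (Finset.mem_image_of_mem ξ hb') (hab ▸ hxK)
      · rw [Function.update_self, hup a ha] at hab
        exact absurd (Finset.mem_image_of_mem ξ ha) (hab ▸ hxK)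
      · rw [hup a ha, hup b hb'] at hab
        exact h2 a ha b hb' hab
    · rw [s1, s2, s3, s5, s6]
      omega
    · rw [s1, s2, s3]
      omega
  have := hmax (insert v K) (Finset.mem_filter.2 ⟨Finset.mem_univ _, _, hnew⟩)
  omega

end

end MP0dbebe
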