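import Pool.Agent.Lib.MP_0dbebe_co.Dense5

/-! # Two weights, few zeros -/

namespace MP0dbebe

section
variable {V α : Type*}

/-- zero neighbours among the branch vertices -/
noncomputable def ZN [Fintype V] (w : α → α → ZMod 2) (φ : V → α) (x : α) : Finset V := by
  classical
  exact Finset.univ.filter (fun v => w (φ v) x = 0)

theorem mem_ZN [Fintype V] {w : α → α → ZMod 2} {φ : V → α} {x : α} {v : V} :
    v ∈ ZN w φ x ↔ w (φ v) x = 0 := by
  classical
  simp only [ZN, Finset.mem_filter, Finset.mem_univ, true_and]

theorem two_sum_ne {a b : ZMod 2} (h : a + b ≠ 0) : (a = 0 ∧ b = 1) ∨ (a = 1 ∧ b = 0) := by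
  revert a b; decide

open Classical in
theorem cut_bound [Fintype V] {w : α → α → ZMod 2} (hw : ∀ a b, w a b = w b a)
    (H : SimpleGraph V) (φ : V → α) (x : α) (F : Finset (Sym2 V)) (hF : F ⊆ EE H Finset.univ)
    (h : ∀ e ∈ F, ∀ u v, e = s(u, v) → w (φ u) x + w x (φ v) ≠ 0) :
    F.card ≤ ∑ v ∈ (ZN w φ x)ᶜ, (NE H (ZN w φ x) v).card := by
  have hsub : F ⊆ ((ZN w φ x)ᶜ).biUnion
      (fun v => (NE H (ZN w φ x) v).image (fun u => s(v, u))) := by
    intro e he
    have h1 := h e he
    have h2 := hF he
    induction e using Sym2.ind with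
    | _ u v =>
      rw [mk_mem_EE] at h2
      rw [Finset.mem_biUnion]
      rcases two_sum_ne (h1 u v rfl) with ⟨h3, h4⟩ | ⟨h3, h4⟩
      · refine ⟨v, ?_, ?_⟩
        · rw [Finset.mem_compl, mem_ZN, hw, h4]; decide
        · rw [Finset.mem_image]
          refine ⟨u, ?_, Sym2.eq_swap⟩
          rw [mem_NE, mem_ZN]
          exact ⟨h3, h2.2.symm⟩
      · refine ⟨u, ?_, ?_⟩
        · rw [Finset.mem_compl, mem_ZN, h3]; decide
        · rw [Finset.mem_image]
          refine ⟨v, ?_, rfl⟩
          rw [mem_NE, mem_ZN]
          exact ⟨by rw [hw]; exact h4, h2.2⟩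
  refine (Finset.card_le_card hsub).trans (Finset.card_biUnion_le.trans ?_)
  apply Finset.sum_le_sum
  intro v _
  exact Finset.card_image_le

/-- the graph of the edges of weight zero -/
def zeroGraph (w : α → α → ZMod 2) (hw : ∀ a b, w a b = w b a) (H : SimpleGraph V) (φ : V → α) :
    SimpleGraph V where
  Adj u v := H.Adj u v ∧ w (φ u) (φ v) = 0
  symm := ⟨fun _ _ h => ⟨h.1.symm, by rw [hw]; exact h.2⟩⟩
  loopless := ⟨fun _ h => h.1.ne rfl⟩

open Classical in
theorem EE_zeroGraph [Fintype V] {w : α → α → ZMod 2} (hw : ∀ a b, w a b = w b a)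
    (H : SimpleGraph V) (φ : V → α) : EE (zeroGraph w hw H φ) Finset.univ = ZE w H φ := by
  ext e
  induction e using Sym2.ind with
  | _ u v =>
    rw [mk_mem_EE, mem_ZE hw]
    constructor
    · exact fun h => h.2
    · exact fun h => ⟨⟨Finset.mem_univ _, Finset.mem_univ _⟩, h⟩

open Classical in
/-- exchange of one branch vertex -/
theorem swap_bound [Fintype V] {w : α → α → ZMod 2} (hw : ∀ a b, w a b = w b a)
    (H : SimpleGraph V) (φ : V → α) (x : α) (hx : ∀ v, φ v ≠ x)
    (hmax : ∀ u, (ZE w H (Function.update φ u x)).card ≤ (ZE w H φ).card) :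
    ∑ v ∈ (ZN w φ x)ᶜ, (NE H (ZN w φ x) v).card ≤ 2 * (ZE w H φ).card := by
  have key : ∀ u, (NE H (ZN w φ x) u).card ≤
      (NE (zeroGraph w hw H φ) Finset.univ u).card := by
    intro u
    have h1 := hmax u
    set A := (NE (zeroGraph w hw H φ) Finset.univ u).image (fun v => s(u, v)) with hA
    set B := (NE H (ZN w φ x) u).image (fun v => s(u, v)) with hB
    have hAc : A.card = (NE (zeroGraph w hw H φ) Finset.univ u).card :=
      Finset.card_image_of_injective _ (star_injective u)
    have hBc : B.card = (NE H (ZN w φ x) u).card :=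
      Finset.card_image_of_injective _ (star_injective u)
    have hd : Disjoint (ZE w H φ \ A) B := by
      rw [Finset.disjoint_left]
      intro e he he'
      rw [Finset.mem_sdiff] at he
      rw [hB, Finset.mem_image] at he'
      obtain ⟨v, _, rfl⟩ := he'
      apply he.2
      rw [hA, Finset.mem_image]
      refine ⟨v, ?_, rfl⟩
      rw [mem_NE]
      have := he.1
      rw [mem_ZE hw] at this
      exact ⟨Finset.mem_univ _, this⟩
    have hsub : (ZE w H φ \ A) ∪ B ⊆ ZE w H (Function.update φ u x) := by
      intro e he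
      rw [Finset.mem_union, Finset.mem_sdiff] at he
      rcases he with ⟨he1, he2⟩ | he
      · induction e using Sym2.ind with
        | _ a b =>
          rw [mem_ZE hw] at he1 ⊢
          have ha : a ≠ u := by
            rintro rfl
            apply he2
            rw [hA, Finset.mem_image]
            exact ⟨b, mem_NE.2 ⟨Finset.mem_univ _, he1⟩, rfl⟩
          have hb : b ≠ u := by
            rintro rfl
            apply he2
            rw [hA, Finset.mem_image]
            exact ⟨a, mem_NE.2 ⟨Finset.mem_univ _, he1.1.symm, by rw [hw]; exact he1.2⟩,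
              Sym2.eq_swap⟩
          rw [Function.update_of_ne ha, Function.update_of_ne hb]
          exact he1
      · rw [hB, Finset.mem_image] at he
        obtain ⟨v, hv, rfl⟩ := he
        rw [mem_NE, mem_ZN] at hv
        rw [mem_ZE hw, Function.update_self, Function.update_of_ne hv.2.ne.symm]
        exact ⟨hv.2, by rw [hw]; exact hv.1⟩
    have h2 := Finset.card_le_card hsub
    rw [Finset.card_union_of_disjoint hd] at h2
    have h3 := Finset.le_card_sdiff A (ZE w H φ)
    omega
  calc ∑ v ∈ (ZN w φ x)ᶜ, (NE H (ZN w φ x) v).card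
      ≤ ∑ v ∈ (ZN w φ x)ᶜ, (NE (zeroGraph w hw H φ) Finset.univ v).card :=
        Finset.sum_le_sum (fun v _ => key v)
    _ ≤ ∑ v ∈ Finset.univ, (NE (zeroGraph w hw H φ) Finset.univ v).card :=
        Finset.sum_le_sum_of_subset (Finset.subset_univ _)
    _ = 2 * (ZE w H φ).card := by rw [sum_NE, EE_zeroGraph]

open Classical in
/-- **Two weights, few zeros.** -/
theorem case2_two [Fintype V] [Fintype α] {w : α → α → ZMod 2} (hw : ∀ a b, w a b = w b a)
    (H : SimpleGraph V) (hn : 1 ≤ Fintype.card V)
    (ha : Fintype.card α = (EE H Finset.univ).card + Fintype.card V)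
    (hE : 100000 * Fintype.card V ≤ (EE H Finset.univ).card)
    (hbad : 100000 * (Finset.univ.filter (fun x : α =>
      Fintype.card α < 100 * (Finset.univ.filter (fun y => w x y = 0)).card)).card ≤
        Fintype.card α) :
    HasModel w (EE H Finset.univ) Finset.univ Finset.univ := by
  set n := Fintype.card V with hn'
  set E := (EE H Finset.univ).card with hE'
  set a := Fintype.card α with ha'
  let Zd : α → ℕ := fun x => (Finset.univ.filter (fun y => w x y = 0)).card
  set B := Finset.univ.filter (fun x : α => a < 100 * Zd x) with hB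
  set 𝒢 := Finset.univ.filter (fun x : α => ¬ a < 100 * Zd x) with h𝒢
  have hB𝒢 : B.card + 𝒢.card = a := by
    rw [hB, h𝒢, Finset.card_filter_add_card_filter_not, Finset.card_univ]
  have hbB : 100000 * B.card ≤ a := hbad
  have hmemB : ∀ x, x ∈ B ↔ a < 100 * Zd x := fun x => by simp [hB]
  have hmem𝒢 : ∀ x, x ∈ 𝒢 ↔ 100 * Zd x ≤ a := fun x => by simp [h𝒢]
  -- an injection into `𝒢` with the largest number of zero edges
  obtain ⟨φ, hφ, hφ𝒢, hmax⟩ : ∃ φ : V → α, Function.Injective φ ∧ (∀ v, φ v ∈ 𝒢) ∧
      ∀ ψ : V → α, Function.Injective ψ → (∀ v, ψ v ∈ 𝒢) →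
        (ZE w H ψ).card ≤ (ZE w H φ).card := by
    have hne : (Finset.univ.filter (fun φ : V → α => Function.Injective φ ∧
        ∀ v, φ v ∈ 𝒢)).Nonempty := by
      have h1 : Fintype.card V ≤ Fintype.card 𝒢 := by rw [Fintype.card_coe]; omega
      obtain ⟨g⟩ := Function.Embedding.nonempty_of_card_le h1
      exact ⟨fun v => (g v).1, Finset.mem_filter.2 ⟨Finset.mem_univ _,
        Subtype.val_injective.comp g.injective, fun v => (g v).2⟩⟩
    obtain ⟨φ, h1, h2⟩ := Finset.exists_max_image _ (fun φ => (ZE w H φ).card) hne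
    rw [Finset.mem_filter] at h1
    exact ⟨φ, h1.2.1, h1.2.2, fun ψ hψ hψ' => h2 ψ
      (Finset.mem_filter.2 ⟨Finset.mem_univ _, hψ, hψ'⟩)⟩
  set e₀ := (ZE w H φ).card with he₀
  -- few vertices serve no edge of a given nonempty set
  have hfew : ∀ (ψ : V → α) (u v : V) (W : Finset α), ψ u ∈ 𝒢 → ψ v ∈ 𝒢 →
      (∀ x ∈ W, w (ψ u) x + w x (ψ v) ≠ 0) → 50 * W.card ≤ a := by
    intro ψ u v W hu hv hW
    have h1 : W ⊆ Finset.univ.filter (fun y => w (ψ u) y = 0) ∪
        Finset.univ.filter (fun y => w (ψ v) y = 0) := by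
      intro x hx
      rw [Finset.mem_union, Finset.mem_filter, Finset.mem_filter]
      rcases two_sum_ne (hW x hx) with h | h
      · exact Or.inl ⟨Finset.mem_univ _, h.1⟩
      · exact Or.inr ⟨Finset.mem_univ _, by rw [hw]; exact h.2⟩
    have h2 := (Finset.card_le_card h1).trans (Finset.card_union_le _ _)
    rw [hmem𝒢] at hu hv
    simp only [Zd] at hu hv
    omega
  by_cases hcase : a < 50 * e₀
  · -- many zero edges
    have m := model_zero (w := w) (H := H) hφ
    have himg : (Finset.univ.image φ).card = n := by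
      rw [Finset.card_image_of_injective _ hφ, Finset.card_univ]
    rcases hall_finish H m (EE H Finset.univ \ ZE w H φ)
      (fun e he => (Finset.mem_sdiff.1 he).2)
      (by rw [Finset.union_sdiff_of_subset (ZE_subset w H φ)]) with h | ⟨F, hF, W, hW, hc, hFW⟩
    · exact h
    exfalso
    have h1 : F.card + e₀ ≤ E := by
      have h2 := Finset.card_le_card hF
      have h3 := Finset.card_sdiff_add_card_eq_card (ZE_subset w H φ)
      omega
    have h2 : (Finset.univ.image φ)ᶜ.card + n = a := by
      rw [← himg, add_comm]; exact Finset.card_add_card_compl _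
    have h3 : W.card ≤ (Finset.univ.image φ)ᶜ.card := Finset.card_le_card hW
    have h4 : F.Nonempty := by
      rw [← Finset.card_pos]; omega
    obtain ⟨e, he⟩ := h4
    induction e using Sym2.ind with
    | _ u v =>
      have h5 := hfew φ u v W (hφ𝒢 u) (hφ𝒢 v) (fun x hx => hFW x hx _ he u v rfl)
      omega
  · have hcase' : 50 * e₀ ≤ a := by omega
    -- cuts of good vertices are small
    have hgoodcut : ∀ x ∈ 𝒢, (∀ v, φ v ≠ x) →
        ∑ v ∈ (ZN w φ x)ᶜ, (NE H (ZN w φ x) v).card ≤ 2 * e₀ := by
      intro x hx hxφ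
      apply swap_bound hw H φ x hxφ
      intro u
      apply hmax
      · intro p r hpr
        by_cases hp : p = u <;> by_cases hr : r = u
        · rw [hp, hr]
        · rw [hp, Function.update_self, Function.update_of_ne hr] at hpr
          exact absurd hpr.symm (hxφ r)
        · rw [hr, Function.update_self, Function.update_of_ne hp] at hpr
          exact absurd hpr (hxφ p)
        · rw [Function.update_of_ne hp, Function.update_of_ne hr] at hpr
          exact hφ hpr
      · intro v
        by_cases hv : v = u
        · rw [hv, Function.update_self]; exact hx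
        · rw [Function.update_of_ne hv]; exact hφ𝒢 v
    set Bp := B.filter (fun x => 9 * E ≤ 10 * ∑ v ∈ (ZN w φ x)ᶜ, (NE H (ZN w φ x) v).card) with hBp
    have hBpB : Bp.card ≤ B.card := Finset.card_le_card (Finset.filter_subset _ _)
    obtain ⟨K, ξ, hK1, hK2, hK3, hK4⟩ := choose_K H Bp (ZN w φ) φ
      (fun x hx => (Finset.mem_filter.1 hx).2) (by omega) hn
    set h := Bp.card with hh
    -- the new map
    let ψ : V → α := fun v => if v ∈ K then ξ v else φ v
    have ψK : ∀ v ∈ K, ψ v = ξ v := fun v hv => if_pos hv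
    have ψn : ∀ v, v ∉ K → ψ v = φ v := fun v hv => if_neg hv
    have hξB : ∀ v ∈ K, ξ v ∈ B := fun v hv => (Finset.mem_filter.1 (hK1 v hv).1).1
    have hBG : ∀ x ∈ B, x ∉ 𝒢 := by
      intro x hx hx'
      rw [hmemB] at hx
      rw [hmem𝒢] at hx'
      omega
    have hψ : Function.Injective ψ := by
      intro p r hpr
      by_cases hp : p ∈ K <;> by_cases hr : r ∈ K
      · rw [ψK p hp, ψK r hr] at hpr
        exact hK2 p hp r hr hpr
      · rw [ψK p hp, ψn r hr] at hpr
        exact absurd (hφ𝒢 r) (hpr ▸ hBG _ (hξB p hp))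
      · rw [ψn p hp, ψK r hr] at hpr
        exact absurd (hφ𝒢 p) (hpr ▸ hBG _ (hξB r hr))
      · rw [ψn p hp, ψn r hr] at hpr
        exact hφ hpr
    have m := model_zero (w := w) (H := H) hψ
    have himg : (Finset.univ.image ψ).card = n := by
      rw [Finset.card_image_of_injective _ hψ, Finset.card_univ]
    -- nonzero edges inside `K`
    set P₃ := (EE H K) \ ZE w H ψ with hP₃
    -- nonzero edges with one end in `K`
    set P₂ := (EE H Finset.univ \ ZE w H ψ).filter (fun e => ∃ u v, e = s(u, v) ∧ u ∈ K ∧ v ∉ K)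
      with hP₂
    set P₁ := (EE H Finset.univ \ ZE w H ψ).filter (fun e => ∀ v ∈ e, v ∉ K) with hP₁
    have hP₃c : P₃.card ≤ (EE H K).card := Finset.card_le_card Finset.sdiff_subset
    have hP₂c : P₂.card ≤ ∑ v ∈ K, (NE H (ZN w φ (ξ v))ᶜ v).card := by
      have hsub : P₂ ⊆ K.biUnion (fun v => (NE H (ZN w φ (ξ v))ᶜ v).image (fun u => s(v, u))) := by
        intro e he
        rw [hP₂, Finset.mem_filter] at he
        obtain ⟨he1, u, v, rfl, hu, hv⟩ := he
        rw [Finset.mem_sdiff, mk_mem_EE, mem_ZE hw, ψK u hu, ψn v hv] at he1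
        rw [Finset.mem_biUnion]
        refine ⟨u, hu, ?_⟩
        rw [Finset.mem_image]
        refine ⟨v, ?_, rfl⟩
        rw [mem_NE, Finset.mem_compl, mem_ZN]
        refine ⟨fun h0 => he1.2 ⟨he1.1.2, by rw [hw]; exact h0⟩, he1.1.2⟩
      refine (Finset.card_le_card hsub).trans (Finset.card_biUnion_le.trans ?_)
      exact Finset.sum_le_sum (fun v _ => Finset.card_image_le)
    have hZEc : ∑ v ∈ K, (NE H (ZN w φ (ξ v)) v).card ≤
        (ZE w H ψ).card + 2 * (EE H K).card := by
      have h1 : ∀ v ∈ K, (NE H (ZN w φ (ξ v)) v).card ≤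
          ((NE H (ZN w φ (ξ v)) v) \ K).card + (NE H K v).card := by
        intro v _
        have h2 : NE H (ZN w φ (ξ v)) v ⊆ ((NE H (ZN w φ (ξ v)) v) \ K) ∪ NE H K v := by
          intro u hu
          rw [Finset.mem_union, Finset.mem_sdiff]
          by_cases huK : u ∈ K
          · exact Or.inr (mem_NE.2 ⟨huK, (mem_NE.1 hu).2⟩)
          · exact Or.inl ⟨hu, huK⟩
        exact (Finset.card_le_card h2).trans (Finset.card_union_le _ _)
      have h2 := Finset.sum_le_sum h1
      rw [Finset.sum_add_distrib, sum_NE] at h2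
      have h3 : ∑ v ∈ K, ((NE H (ZN w φ (ξ v)) v) \ K).card ≤ (ZE w H ψ).card := by
        have h4 : (K.biUnion (fun v => ((NE H (ZN w φ (ξ v)) v) \ K).image
            (fun u => s(v, u)))).card = ∑ v ∈ K, ((NE H (ZN w φ (ξ v)) v) \ K).card := by
          rw [Finset.card_biUnion]
          · apply Finset.sum_congr rfl
            intro v _
            exact Finset.card_image_of_injective _ (star_injective v)
          · intro v hv v' hv' hne
            rw [Function.onFun, Finset.disjoint_left]
            intro e he he'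
            rw [Finset.mem_image] at he he'
            obtain ⟨u, hu, rfl⟩ := he
            obtain ⟨u', hu', heq⟩ := he'
            rw [Finset.mem_sdiff] at hu hu'
            rw [Sym2.eq_iff] at heq
            rcases heq with ⟨h5, _⟩ | ⟨h5, _⟩
            · exact hne h5.symm
            · exact hu.2 (h5 ▸ hv')
        rw [← h4]
        apply Finset.card_le_card
        intro e he
        rw [Finset.mem_biUnion] at he
        obtain ⟨v, hv, he⟩ := he
        rw [Finset.mem_image] at he
        obtain ⟨u, hu, rfl⟩ := he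
        rw [Finset.mem_sdiff, mem_NE, mem_ZN] at hu
        rw [mem_ZE hw, ψK v hv, ψn u hu.2]
        exact ⟨hu.1.2, by rw [hw]; exact hu.1.1⟩
      omega
    -- the main inequality
    have hmain : P₂.card + 2 * P₃.card + h ≤ (ZE w H ψ).card := by omega
    have hdegK : ∑ v ∈ K, (NE H (ZN w φ (ξ v))ᶜ v).card ≤ 8 * (h + n) := by
      refine le_trans (Finset.sum_le_sum (fun v _ => Finset.card_le_card ?_)) hK4
      intro u hu
      rw [mem_NE] at hu ⊢
      exact ⟨Finset.mem_univ _, hu.2⟩
    have hEK : (EE H K).card ≤ 8 * (h + n) := by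
      have h1 : ∑ v ∈ K, (NE H K v).card ≤ ∑ v ∈ K, (NE H Finset.univ v).card := by
        apply Finset.sum_le_sum
        intro v _
        apply Finset.card_le_card
        intro u hu
        rw [mem_NE] at hu ⊢
        exact ⟨Finset.mem_univ _, hu.2⟩
      rw [sum_NE] at h1
      omega
    -- serving tools
    have htool1 : ∀ x ∈ B, ∀ S' : Finset α, 200 * S'.card ≤ a → ∃ c ∈ 𝒢, c ∉ S' ∧ w x c = 0 := by
      intro x hx S' hS'
      by_contra hcon
      push Not at hcon
      have h1 : Finset.univ.filter (fun y => w x y = 0) ⊆ B ∪ S' := by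
        intro y hy
        rw [Finset.mem_filter] at hy
        rw [Finset.mem_union]
        by_contra h2
        push Not at h2
        have h3 : y ∈ 𝒢 := by
          rw [hmem𝒢]
          have := h2.1
          rw [hmemB] at this
          omega
        exact hcon y h3 h2.2 hy.2
      have h2 := (Finset.card_le_card h1).trans (Finset.card_union_le _ _)
      rw [hmemB] at hx
      simp only [Zd] at hx
      omega
    have htool2 : ∀ c ∈ 𝒢, ∀ d ∈ 𝒢, ∀ S' : Finset α, 200 * S'.card ≤ a + 800 →
        ∃ t, t ∉ S' ∧ w c t = 1 ∧ w t d = 1 := by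
      intro c hc d hd S' hS'
      by_contra hcon
      push Not at hcon
      have h1 : (Finset.univ : Finset α) ⊆ S' ∪ (Finset.univ.filter (fun y => w c y = 0) ∪
          Finset.univ.filter (fun y => w d y = 0)) := by
        intro t _
        rw [Finset.mem_union, Finset.mem_union, Finset.mem_filter, Finset.mem_filter]
        by_contra h2
        push Not at h2
        have h3 : w c t = 1 := (two_cases' _).resolve_left (h2.2.1 (Finset.mem_univ _))
        have h4 : w d t = 1 := (two_cases' _).resolve_left (h2.2.2 (Finset.mem_univ _))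
        exact hcon t h2.1 h3 (by rw [hw]; exact h4)
      have h2 := (Finset.card_le_card h1).trans ((Finset.card_union_le _ _).trans
        (Nat.add_le_add_left (Finset.card_union_le _ _) _))
      rw [Finset.card_univ] at h2
      rw [hmem𝒢] at hc hd
      simp only [Zd] at hc hd
      omega
    have h11 : (1 : ZMod 2) + 1 = 0 := by decide
    -- serve `P₂`
    have hM : n + 2 * P₂.card + 3 * P₃.card ≤ 50 * (h + n) := by omega
    obtain ⟨S₂, I₂, hS₂, m₂, hS₂c⟩ := m.addGen P₂ 2 (50 * (h + n)) (by rw [himg]; omega) (by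
      intro e he S' hSS' hS'
      rw [hP₂, Finset.mem_filter] at he
      obtain ⟨he1, u, v, rfl, hu, hv⟩ := he
      refine ⟨u, v, rfl, Finset.mem_univ _, Finset.mem_univ _, ?_⟩
      obtain ⟨c, hc1, hc2, hc3⟩ := htool1 (ξ u) (hξB u hu) S' (by omega)
      obtain ⟨t, ht1, ht2, ht3⟩ := htool2 c hc1 (φ v) (hφ𝒢 v) (insert c S') (by
        have := Finset.card_insert_le c S'
        omega)
      rw [Finset.mem_insert] at ht1
      push Not at ht1
      refine ⟨[c, t], ?_, ?_, by simp, ?_⟩
      · simpa using Ne.symm ht1.1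
      · intro x hx
        simp only [List.mem_cons, List.not_mem_nil, or_false] at hx
        rcases hx with rfl | rfl
        · exact hc2
        · exact ht1.2
      · rw [ψK u hu, ψn v hv]
        simp only [List.cons_append, List.nil_append, pw_cons_cons, pw_single, add_zero]
        rw [hc3, ht2, ht3, zero_add, h11])
    -- serve `P₃`
    obtain ⟨S₃, I₃, hS₃, m₃, hS₃c⟩ := m₂.addGen P₃ 3 (50 * (h + n)) (by rw [himg] at hS₂c; omega) (by
      intro e he S' hSS' hS'
      rw [hP₃, Finset.mem_sdiff] at he
      obtain ⟨he1, he2⟩ := he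
      induction e using Sym2.ind with
      | _ u v =>
        rw [mk_mem_EE] at he1
        have hu := he1.1.1
        have hv := he1.1.2
        refine ⟨u, v, rfl, Finset.mem_univ _, Finset.mem_univ _, ?_⟩
        obtain ⟨c, hc1, hc2, hc3⟩ := htool1 (ξ u) (hξB u hu) S' (by omega)
        obtain ⟨d, hd1, hd2, hd3⟩ := htool1 (ξ v) (hξB v hv) (insert c S') (by
          have := Finset.card_insert_le c S'
          omega)
        obtain ⟨t, ht1, ht2, ht3⟩ := htool2 c hc1 d hd1 (insert d (insert c S')) (by
          have := Finset.card_insert_le c S'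
          have := Finset.card_insert_le d (insert c S')
          omega)
        rw [Finset.mem_insert] at hd2
        rw [Finset.mem_insert, Finset.mem_insert] at ht1
        push Not at ht1 hd2
        refine ⟨[c, t, d], ?_, ?_, by simp, ?_⟩
        · simp only [List.nodup_cons, List.mem_cons, List.not_mem_nil, or_false, not_or,
            not_false_eq_true, List.nodup_nil, and_true]
          exact ⟨⟨Ne.symm ht1.2.1, Ne.symm hd2.1⟩, ht1.1⟩
        · intro x hx
          simp only [List.mem_cons, List.not_mem_nil, or_false] at hx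
          rcases hx with rfl | rfl | rfl
          · exact hc2
          · exact ht1.2.2
          · exact hd2.2
        · rw [ψK u hu, ψK v hv]
          simp only [List.cons_append, List.nil_append, pw_cons_cons, pw_single, add_zero]
          rw [hc3, ht2, ht3, hw d (ξ v), hd3, zero_add, add_zero, h11])
    -- the remaining edges
    have hpart : (ZE w H ψ ∪ P₂ ∪ P₃) ∪ P₁ = EE H Finset.univ := by
      ext e
      induction e using Sym2.ind with
      | _ u v =>
        simp only [Finset.mem_union, hP₁, hP₂, hP₃, Finset.mem_filter, Finset.mem_sdiff]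
        constructor
        · rintro (((h1 | h1) | h1) | h1)
          · exact ZE_subset w H ψ h1
          · exact h1.1.1
          · exact EE_mono H (Finset.subset_univ _) h1.1
          · exact h1.1.1
        · intro h1
          by_cases h0 : s(u, v) ∈ ZE w H ψ
          · exact Or.inl (Or.inl (Or.inl h0))
          by_cases hu : u ∈ K <;> by_cases hv : v ∈ K
          · left; right
            refine ⟨?_, h0⟩
            rw [mk_mem_EE] at h1 ⊢
            exact ⟨⟨hu, hv⟩, h1.2⟩
          · left; left; right
            exact ⟨⟨h1, h0⟩, u, v, rfl, hu, hv⟩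
          · left; left; right
            exact ⟨⟨h1, h0⟩, v, u, Sym2.eq_swap, hv, hu⟩
          · right
            refine ⟨⟨h1, h0⟩, ?_⟩
            intro x hx
            rw [Sym2.mem_iff] at hx
            rcases hx with rfl | rfl <;> assumption
    have hdisj₁ : ∀ e ∈ P₁, e ∉ ZE w H ψ ∪ P₂ ∪ P₃ := by
      intro e he he'
      rw [hP₁, Finset.mem_filter, Finset.mem_sdiff] at he
      rw [Finset.mem_union, Finset.mem_union] at he'
      rcases he' with (h1 | h1) | h1
      · exact he.1.2 h1
      · rw [hP₂, Finset.mem_filter] at h1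
        obtain ⟨_, u, v, rfl, hu, _⟩ := h1
        exact he.2 u (Sym2.mem_mk_left u v) hu
      · rw [hP₃, Finset.mem_sdiff] at h1
        induction e using Sym2.ind with
        | _ u v =>
          rw [mk_mem_EE] at h1
          exact he.2 u (Sym2.mem_mk_left u v) h1.1.1.1
    have hcount : (ZE w H ψ).card + P₂.card + P₃.card + P₁.card = E := by
      have d1 : Disjoint (ZE w H ψ) P₂ := by
        rw [Finset.disjoint_left]
        intro e h1 h2
        rw [hP₂, Finset.mem_filter, Finset.mem_sdiff] at h2
        exact h2.1.2 h1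
      have d2 : Disjoint (ZE w H ψ ∪ P₂) P₃ := by
        rw [Finset.disjoint_left]
        intro e h1 h2
        rw [hP₃, Finset.mem_sdiff] at h2
        rw [Finset.mem_union] at h1
        rcases h1 with h1 | h1
        · exact h2.2 h1
        · rw [hP₂, Finset.mem_filter] at h1
          obtain ⟨_, u, v, rfl, _, hv⟩ := h1
          have := h2.1
          rw [mk_mem_EE] at this
          exact hv this.1.2
      have d3 : Disjoint (ZE w H ψ ∪ P₂ ∪ P₃) P₁ := by
        rw [Finset.disjoint_left]
        intro e h1 h2
        exact hdisj₁ e h2 h1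
      rw [hE', ← hpart, Finset.card_union_of_disjoint d3, Finset.card_union_of_disjoint d2,
        Finset.card_union_of_disjoint d1]
    have hS₃le : S₃.card ≤ n + 2 * P₂.card + 3 * P₃.card := by
      rw [himg] at hS₂c; omega
    have hcompl : (S₃ᶜ).card + S₃.card = a := by
      rw [add_comm]; exact Finset.card_add_card_compl S₃
    rcases hall_finish H m₃ P₁ hdisj₁ hpart with h | ⟨F, hF, W, hW, hc, hFW⟩
    · exact h
    exfalso
    have hFc : F.card ≤ P₁.card := Finset.card_le_card hF
    have hWc : W.card ≤ (S₃ᶜ).card := Finset.card_le_card hW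
    have hWh : h < W.card := by omega
    have hFne : F.Nonempty := by
      rw [← Finset.card_pos]; omega
    have hFK : ∀ u v, s(u, v) ∈ F → u ∉ K ∧ v ∉ K := by
      intro u v huv
      have := hF huv
      rw [hP₁, Finset.mem_filter] at this
      exact ⟨this.2 u (Sym2.mem_mk_left u v), this.2 v (Sym2.mem_mk_right u v)⟩
    have hW50 : 50 * W.card ≤ a := by
      obtain ⟨e, he⟩ := hFne
      induction e using Sym2.ind with
      | _ u v =>
        obtain ⟨hu, hv⟩ := hFK u v he
        exact hfew ψ u v W (by rw [ψn u hu]; exact hφ𝒢 u) (by rw [ψn v hv]; exact hφ𝒢 v)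
          (fun x hx => hFW x hx _ he u v rfl)
    have hFbig : E ≤ F.card + 50 * (h + n) + W.card := by omega
    have hcutW : ∀ x ∈ W, F.card ≤ ∑ v ∈ (ZN w φ x)ᶜ, (NE H (ZN w φ x) v).card := by
      intro x hx
      apply cut_bound hw H φ x F
      · intro e he
        have := hF he
        rw [hP₁, Finset.mem_filter, Finset.mem_sdiff] at this
        exact this.1.1
      · intro e he u v huv
        have h1 := hFW x hx e he u v huv
        subst huv
        obtain ⟨hu, hv⟩ := hFK u v he
        rw [ψn u hu, ψn v hv] at h1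
        exact h1
    have hWsub : W ⊆ K.image φ ∪ (Bp \ K.image ξ) := by
      intro x hx
      have hxS : x ∉ S₃ := Finset.mem_compl.1 (hW hx)
      have hxψ : ∀ v, ψ v ≠ x := by
        intro v hv
        apply hxS
        exact hS₃ (hS₂ (hv ▸ Finset.mem_image_of_mem ψ (Finset.mem_univ v)))
      have h1 := hcutW x hx
      rw [Finset.mem_union, Finset.mem_image, Finset.mem_sdiff, Finset.mem_image]
      by_cases hxB : x ∈ B
      · right
        refine ⟨?_, ?_⟩
        · rw [hBp, Finset.mem_filter]
          refine ⟨hxB, ?_⟩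
          omega
        · rintro ⟨v, hv, hvx⟩
          exact hxψ v (by rw [ψK v hv]; exact hvx)
      · left
        have hx𝒢 : x ∈ 𝒢 := by
          rw [hmem𝒢]
          rw [hmemB] at hxB
          omega
        by_contra hno
        push Not at hno
        have h2 := hgoodcut x hx𝒢 (by
          intro v hv
          by_cases hvK : v ∈ K
          · exact hno v hvK hv
          · exact hxψ v (by rw [ψn v hvK]; exact hv))
        omega
    have hfinal := (Finset.card_le_card hWsub).trans (Finset.card_union_le _ _)
    have hKφ : (K.image φ).card = K.card := Finset.card_image_of_injective _ hφ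
    have hKξ : (K.image ξ).card = K.card := Finset.card_image_of_injOn (fun u hu v hv huv =>
      hK2 u hu v hv huv)
    have hKsub : K.image ξ ⊆ Bp := by
      intro x hx
      rw [Finset.mem_image] at hx
      obtain ⟨v, hv, rfl⟩ := hx
      exact (hK1 v hv).1
    have hsd := Finset.card_sdiff_add_card_eq_card hKsub
    omega

end

end MP0dbebe
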