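import Pool.Agent.Lib.MP_0dbebe_co.Dense6

/-! # Two weights: the exact value for dense graphs -/

namespace MP0dbebe

section
variable {V α : Type*}

theorem zero_of_short_two {w : α → α → ZMod 2} {s : ℕ} {a b : α} (h : Short w s a b) :
    w a b = 0 := by
  obtain ⟨l, _, _, h3, h4⟩ := h ∅ (by simp)
  have : l = [] := List.length_eq_zero_iff.1 (by omega)
  subst this
  rw [List.nil_append, pw_cons_cons, pw_single, add_zero] at h4
  exact h4

open Classical in
/-- **Two weights, dense graphs.** -/
theorem dense_two [Fintype V] [Fintype α] {w : α → α → ZMod 2} (hw : ∀ a b, w a b = w b a)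
    (H : SimpleGraph V) (hn : 1 ≤ Fintype.card V)
    (ha : Fintype.card α = (EE H Finset.univ).card + Fintype.card V)
    (hE : 10 ^ 23 * Fintype.card V ≤ (EE H Finset.univ).card) :
    HasModel w (EE H Finset.univ) Finset.univ Finset.univ := by
  have hV : Nonempty V := Fintype.card_pos_iff.1 (by omega)
  have hapos : 0 < Fintype.card α := by omega
  set a := Fintype.card α with ha'
  have hsets : ∀ x : α, Finset.univ.filter (fun y => Short w a x y) =
      Finset.univ.filter (fun y => w x y = 0) := by
    intro x
    apply Finset.filter_congr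
    intro y _
    exact ⟨zero_of_short_two, short_of_zero a⟩
  by_cases hcase : a * (Finset.univ : Finset α).card < 10 ^ 7 *
      (((Finset.univ : Finset α) ×ˢ Finset.univ).filter (fun p => Short w a p.1 p.2)).card
  · obtain ⟨V', -, hne, hdeg⟩ := min_degree (Short w a) (fun _ _ h => h.symm hw) Finset.univ a
      (10 ^ 7) hcase
    apply case1 hw H (8 * 10 ^ 7) a (48 * 2 * (16 * (2 - 1)) ^ ((2 + 1) * (2 - 1)) + 2 + 2 * 2)
      (by norm_num) le_rfl V' hne
    · intro x hx
      have := hdeg x hx
      omega
    · omega
    · omega
    · norm_num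
      omega
  · apply case2_two hw H hn ha (by omega)
    have hP : ∑ x : α, (Finset.univ.filter (fun y => w x y = 0)).card =
        (((Finset.univ : Finset α) ×ˢ Finset.univ).filter (fun p => Short w a p.1 p.2)).card := by
      rw [Finset.card_filter, Finset.sum_product]
      apply Finset.sum_congr rfl
      intro x _
      rw [← hsets x, Finset.card_filter]
    rw [← hP, Finset.card_univ, ← ha'] at hcase
    push Not at hcase
    set B := Finset.univ.filter (fun x : α =>
      a < 100 * (Finset.univ.filter (fun y => w x y = 0)).card) with hB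
    have h1 : B.card * a ≤ 100 * ∑ x : α, (Finset.univ.filter (fun y => w x y = 0)).card := by
      rw [Finset.mul_sum, ← smul_eq_mul]
      refine le_trans (Finset.card_nsmul_le_sum B _ a ?_)
        (Finset.sum_le_sum_of_subset (Finset.subset_univ B))
      intro x hx
      exact (Finset.mem_filter.1 hx).2.le
    have h2 : a * (100000 * B.card) ≤ a * a := by
      nlinarith
    exact Nat.le_of_mul_le_mul_left h2 hapos

end

end MP0dbebe
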