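import Pool.Agent.Lib.MP_0dbebe_co.Forest

/-! # Adding one edge or one vertex to a zero-sum subdivision -/

namespace MP0dbebe

section
variable {V α G : Type*} [AddCommGroup G]

open Classical in
theorem Model.insertEdge {w : α → α → G} {E : Finset (Sym2 V)} {X : Finset V} {S : Finset α}
    {φ : V → α} {I : Sym2 V → List α} (m : Model w E X S φ I) {u v : V} (hu : u ∈ X) (hv : v ∈ X)
    (he : s(u, v) ∉ E) {l : List α} (hl : l.Nodup) (hlS : ∀ a ∈ l, a ∉ S)
    (h0 : pw w (φ u :: (l ++ [φ v])) = 0) :
    Model w (insert s(u, v) E) X (S ∪ l.toFinset) φ (Function.update I s(u, v) l) := by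
  have hIe : ∀ e ∈ E, Function.update I s(u, v) l e = I e := by
    intro e he'
    rw [Function.update_of_ne]
    rintro rfl; exact he he'
  constructor
  · exact m.inj
  · exact fun a ha => Finset.mem_union_left _ (m.memφ a ha)
  · intro e he' a ha
    rw [Finset.mem_insert] at he'
    rcases he' with rfl | he'
    · rw [Function.update_self] at ha
      exact Finset.mem_union_right _ (List.mem_toFinset.2 ha)
    · rw [hIe e he'] at ha
      exact Finset.mem_union_left _ (m.memI e he' a ha)
  · intro e he'
    rw [Finset.mem_insert] at he'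
    rcases he' with rfl | he'
    · rw [Function.update_self]; exact hl
    · rw [hIe e he']; exact m.nodup e he'
  · intro e he' x hx hmem
    rw [Finset.mem_insert] at he'
    rcases he' with rfl | he'
    · rw [Function.update_self] at hmem
      exact hlS _ hmem (m.memφ x hx)
    · rw [hIe e he'] at hmem
      exact m.avoid e he' x hx hmem
  · intro e he' e' he'' hne a ha ha'
    rw [Finset.mem_insert] at he' he''
    rcases he' with rfl | he' <;> rcases he'' with rfl | he''
    · exact hne rfl
    · rw [Function.update_self] at ha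
      rw [hIe e' he''] at ha'
      exact hlS _ ha (m.memI e' he'' a ha')
    · rw [Function.update_self] at ha'
      rw [hIe e he'] at ha
      exact hlS _ ha' (m.memI e he' a ha)
    · rw [hIe e he'] at ha; rw [hIe e' he''] at ha'
      exact m.disj e he' e' he'' hne a ha ha'
  · intro e he' x hx
    rw [Finset.mem_insert] at he'
    rcases he' with rfl | he'
    · rw [Sym2.mem_iff] at hx
      rcases hx with rfl | rfl
      · exact hu
      · exact hv
    · exact m.ends e he' x hx
  · intro e he'
    rw [Finset.mem_insert] at he'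
    rcases he' with rfl | he'
    · refine ⟨u, v, rfl, ?_⟩
      rw [Function.update_self]
      exact h0
    · obtain ⟨a, b, hab, h⟩ := m.div e he'
      refine ⟨a, b, hab, ?_⟩
      rw [hIe e he']
      exact h

open Classical in
theorem Model.insertVertex {w : α → α → G} {E : Finset (Sym2 V)} {X : Finset V} {S : Finset α}
    {φ : V → α} {I : Sym2 V → List α} (m : Model w E X S φ I) {v : V} (hv : v ∉ X)
    {y : α} (hy : y ∉ S) :
    Model w E (insert v X) (insert y S) (Function.update φ v y) I := by
  have hφv : ∀ a ∈ X, Function.update φ v y a = φ a := by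
    intro a ha
    rw [Function.update_of_ne]
    rintro rfl; exact hv ha
  constructor
  · intro a ha b hb hab
    rw [Finset.mem_insert] at ha hb
    rcases ha with rfl | ha <;> rcases hb with rfl | hb
    · rfl
    · rw [Function.update_self, hφv b hb] at hab
      exact absurd (m.memφ b hb) (hab ▸ hy)
    · rw [Function.update_self, hφv a ha] at hab
      exact absurd (m.memφ a ha) (hab ▸ hy)
    · rw [hφv a ha, hφv b hb] at hab
      exact m.inj a ha b hb hab
  · intro a ha
    rw [Finset.mem_insert] at ha
    rcases ha with rfl | ha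
    · rw [Function.update_self]; exact Finset.mem_insert_self _ _
    · rw [hφv a ha]; exact Finset.mem_insert_of_mem (m.memφ a ha)
  · exact fun e he a ha => Finset.mem_insert_of_mem (m.memI e he a ha)
  · exact m.nodup
  · intro e he a ha hmem
    rw [Finset.mem_insert] at ha
    rcases ha with rfl | ha
    · rw [Function.update_self] at hmem
      exact hy (m.memI e he _ hmem)
    · rw [hφv a ha] at hmem
      exact m.avoid e he a ha hmem
  · exact m.disj
  · exact fun e he a ha => Finset.mem_insert_of_mem (m.ends e he a ha)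
  · intro e he
    obtain ⟨a, b, hab, h⟩ := m.div e he
    refine ⟨a, b, hab, ?_⟩
    rw [hφv a (m.ends e he a (hab ▸ Sym2.mem_mk_left a b)),
      hφv b (m.ends e he b (hab ▸ Sym2.mem_mk_right a b))]
    exact h

theorem Model.mono {w : α → α → G} {E : Finset (Sym2 V)} {X : Finset V} {S S' : Finset α}
    {φ : V → α} {I : Sym2 V → List α} (m : Model w E X S φ I) (hS : S ⊆ S') :
    Model w E X S' φ I :=
  ⟨m.inj, fun u hu => hS (m.memφ u hu), fun e he a ha => hS (m.memI e he a ha),
    m.nodup, m.avoid, m.disj, m.ends, m.div⟩

open Classical in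
/-- the edges whose image has weight zero -/
noncomputable def ZE (w : α → α → G) (H : SimpleGraph V) [Fintype V] (φ : V → α) :
    Finset (Sym2 V) :=
  (EE H Finset.univ).filter (fun e => ∃ u v, e = s(u, v) ∧ w (φ u) (φ v) = 0)

theorem mem_ZE {w : α → α → G} (hw : ∀ a b, w a b = w b a) {H : SimpleGraph V} [Fintype V]
    {φ : V → α} {u v : V} : s(u, v) ∈ ZE w H φ ↔ H.Adj u v ∧ w (φ u) (φ v) = 0 := by
  classical
  unfold ZE
  rw [Finset.mem_filter, mem_EE]
  constructor
  · rintro ⟨⟨_, h1⟩, a, b, hab, h2⟩
    refine ⟨h1, ?_⟩
    rw [Sym2.eq_iff] at hab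
    rcases hab with ⟨rfl, rfl⟩ | ⟨rfl, rfl⟩
    · exact h2
    · rw [hw]; exact h2
  · rintro ⟨h1, h2⟩
    exact ⟨⟨fun _ _ => Finset.mem_univ _, h1⟩, u, v, rfl, h2⟩

theorem ZE_subset (w : α → α → G) (H : SimpleGraph V) [Fintype V] (φ : V → α) :
    ZE w H φ ⊆ EE H Finset.univ := by
  classical
  exact Finset.filter_subset _ _

open Classical in
theorem model_zero {w : α → α → G} {H : SimpleGraph V} [Fintype V]
    {φ : V → α} (hφ : Function.Injective φ) :
    Model w (ZE w H φ) Finset.univ (Finset.univ.image φ) φ (fun _ => []) := by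
  constructor
  · exact fun a _ b _ hab => hφ hab
  · exact fun a _ => Finset.mem_image_of_mem _ (Finset.mem_univ _)
  · intro e _ a ha; simp at ha
  · intro e _; simp
  · intro e _ v _; simp
  · intro e _ e' _ _ a ha; simp at ha
  · intro e _ v _; exact Finset.mem_univ _
  · intro e he
    unfold ZE at he
    rw [Finset.mem_filter] at he
    obtain ⟨_, u, v, h1, h2⟩ := he
    refine ⟨u, v, h1, ?_⟩
    rw [List.nil_append, pw_cons_cons, pw_single, h2, add_zero]

end

end MP0dbebe
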