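import Pool.Agent.Lib.MP_0dbebe_co.Model

/-! # Pseudoforests -/

namespace MP0dbebe

section
variable {V α G : Type*} [AddCommGroup G]

open Classical in
/-- edges of `H` inside `X` -/
noncomputable def EE (H : SimpleGraph V) (X : Finset V) : Finset (Sym2 V) :=
  X.sym2.filter (fun e => e ∈ H.edgeSet)

theorem mem_EE {H : SimpleGraph V} {X : Finset V} {e : Sym2 V} :
    e ∈ EE H X ↔ (∀ v ∈ e, v ∈ X) ∧ e ∈ H.edgeSet := by
  simp only [EE, Finset.mem_filter, Finset.mem_sym2_iff]

theorem mk_mem_EE {H : SimpleGraph V} {X : Finset V} {a b : V} :
    s(a, b) ∈ EE H X ↔ (a ∈ X ∧ b ∈ X) ∧ H.Adj a b := by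
  rw [mem_EE, SimpleGraph.mem_edgeSet]
  constructor
  · rintro ⟨h1, h2⟩
    exact ⟨⟨h1 a (Sym2.mem_mk_left a b), h1 b (Sym2.mem_mk_right a b)⟩, h2⟩
  · rintro ⟨⟨h1, h2⟩, h3⟩
    refine ⟨fun v hv => ?_, h3⟩
    rw [Sym2.mem_iff] at hv
    rcases hv with rfl | rfl <;> assumption

open Classical in
theorem upper [Finite G] [IsAddCyclic G] [Nonempty α] (w : α → α → G) (hw : ∀ a b, w a b = w b a)
    (H : SimpleGraph V) (g : V → V) (hg : ∀ a b, H.Adj a b → g a = b ∨ g b = a) :
    ∀ X : Finset V, ∀ S : Finset α,
      (EE H X).card * (Nat.card G - 1) + X.card ≤ S.card → HasModel w (EE H X) X S := by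
  have hGpos : 0 < Nat.card G := Nat.card_pos
  intro X
  induction X using Finset.strongInduction with
  | _ X ih =>
    intro S hS
    by_cases hcase : ∃ v ∈ X, ((EE H X).filter (fun e => v ∈ e)).card ≤ 1
    · obtain ⟨v, hv, hcard⟩ := hcase
      have hXss : X.erase v ⊂ X := Finset.erase_ssubset hv
      have hXc : (X.erase v).card + 1 = X.card := Finset.card_erase_add_one hv
      have hEE : EE H (X.erase v) = (EE H X).filter (fun e => ¬ v ∈ e) := by
        ext e
        rw [Finset.mem_filter, mem_EE, mem_EE]
        constructor
        · rintro ⟨h1, h2⟩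
          refine ⟨⟨fun a ha => Finset.mem_of_mem_erase (h1 a ha), h2⟩, fun h => ?_⟩
          exact Finset.notMem_erase v X (h1 v h)
        · rintro ⟨⟨h1, h2⟩, h3⟩
          refine ⟨fun a ha => Finset.mem_erase.2 ⟨?_, h1 a ha⟩, h2⟩
          rintro rfl; exact h3 ha
      have hsum := Finset.card_filter_add_card_filter_not (s := EE H X) (fun e => v ∈ e)
      rw [← hEE] at hsum
      rcases Nat.lt_or_ge ((EE H X).filter (fun e => v ∈ e)).card 1 with h0 | h1
      · -- isolated vertex
        have hz : ((EE H X).filter (fun e => v ∈ e)) = ∅ := Finset.card_eq_zero.1 (by omega)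
        have hEX : EE H X = ∅ ∪ EE H (X.erase v) := by
          rw [Finset.empty_union, hEE]
          symm
          rw [Finset.filter_eq_self]
          intro e he hve
          have : e ∈ ((EE H X).filter (fun e => v ∈ e)) := Finset.mem_filter.2 ⟨he, hve⟩
          rw [hz] at this
          simp at this
        have hX : X = {v} ∪ X.erase v := by
          rw [← Finset.insert_eq, Finset.insert_erase hv]
        have hSpos : 0 < S.card := by
          have : 0 < X.card := Finset.card_pos.2 ⟨v, hv⟩
          omega
        obtain ⟨a, ha⟩ := Finset.card_pos.1 hSpos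
        have hSa : S = {a} ∪ S.erase a := by
          rw [← Finset.insert_eq, Finset.insert_erase ha]
        have hSc : (S.erase a).card + 1 = S.card := Finset.card_erase_add_one ha
        have h2 := ih (X.erase v) hXss (S.erase a) (by
          rw [hz, Finset.card_empty] at hsum
          rw [show (EE H (X.erase v)).card = (EE H X).card by omega]
          omega)
        have h3 := hasModel_union (hasModel_single w v a) h2
          (by simp) (by simp)
        rw [← hEX, ← hX, ← hSa] at h3
        exact h3
      · -- leaf
        have h1' : ((EE H X).filter (fun e => v ∈ e)).card = 1 := le_antisymm hcard h1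
        obtain ⟨e0, he0⟩ := Finset.card_eq_one.1 h1'
        have he0m : e0 ∈ (EE H X).filter (fun e => v ∈ e) := by rw [he0]; simp
        rw [Finset.mem_filter] at he0m
        obtain ⟨u, rfl⟩ := he0m.2
        have hm := mk_mem_EE.1 he0m.1
        have huv : u ≠ v := fun h => H.loopless.irrefl v (by have := hm.2; rwa [h] at this)
        have hu : u ∈ X.erase v := Finset.mem_erase.2 ⟨huv, hm.1.2⟩
        have hEX : EE H X = insert s(u, v) (EE H (X.erase v)) := by
          ext e
          rw [Finset.mem_insert, hEE, Finset.mem_filter]
          constructor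
          · intro he
            by_cases hve : v ∈ e
            · left
              have : e ∈ (EE H X).filter (fun e => v ∈ e) := Finset.mem_filter.2 ⟨he, hve⟩
              rw [he0, Finset.mem_singleton] at this
              rw [this, Sym2.eq_swap]
            · exact Or.inr ⟨he, hve⟩
          · rintro (rfl | ⟨h, _⟩)
            · rw [Sym2.eq_swap]; exact he0m.1
            · exact h
        have hX : X = insert v (X.erase v) := (Finset.insert_erase hv).symm
        have h3 := hasModel_leaf w (EE H (X.erase v)) (X.erase v)
          ((EE H (X.erase v)).card * (Nat.card G - 1) + (X.erase v).card) S u v hu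
          (Finset.notMem_erase v X)
          (fun S' _ hS' => ih (X.erase v) hXss S' hS') (by
            rw [h1'] at hsum
            rw [← hsum, ← hXc, Nat.add_mul, one_mul] at hS
            omega)
        rw [← hEX, ← hX] at h3
        exact h3
    · push Not at hcase
      rcases X.eq_empty_or_nonempty with rfl | ⟨x, hx⟩
      · have : EE H (∅ : Finset V) = ∅ := by
          simp [EE]
        rw [this]
        exact hasModel_empty w S
      -- every vertex has two neighbours
      have htwo : ∀ v ∈ X, ∃ b₁ ∈ X, ∃ b₂ ∈ X, H.Adj v b₁ ∧ H.Adj v b₂ ∧ b₁ ≠ b₂ := by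
        intro v hv
        obtain ⟨e₁, he₁, e₂, he₂, hne⟩ := Finset.one_lt_card.1 (hcase v hv)
        rw [Finset.mem_filter] at he₁ he₂
        obtain ⟨b₁, rfl⟩ := he₁.2
        obtain ⟨b₂, rfl⟩ := he₂.2
        have m1 := mk_mem_EE.1 he₁.1
        have m2 := mk_mem_EE.1 he₂.1
        exact ⟨b₁, m1.1.2, b₂, m2.1.2, m1.2, m2.2, fun h => hne (by rw [h])⟩
      have hsurj : ∀ v ∈ X, ∃ u ∈ X, g u = v := by
        intro v hv
        obtain ⟨b₁, hb₁, b₂, hb₂, a₁, a₂, hne⟩ := htwo v hv
        rcases hg v b₁ a₁ with h | h
        · rcases hg v b₂ a₂ with h' | h'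
          · exact absurd (h.symm.trans h') hne
          · exact ⟨b₂, hb₂, h'⟩
        · exact ⟨b₁, hb₁, h⟩
      have hsubim : X ⊆ X.image g := by
        intro v hv
        obtain ⟨u, hu, h⟩ := hsurj v hv
        exact Finset.mem_image.2 ⟨u, hu, h⟩
      have him : X = X.image g := Finset.eq_of_subset_of_card_le hsubim Finset.card_image_le
      have hmaps : ∀ v ∈ X, g v ∈ X := by
        intro v hv
        rw [him]
        exact Finset.mem_image_of_mem g hv
      have hinj : ∀ a ∈ X, ∀ b ∈ X, g a = g b → a = b := by
        have : Set.InjOn g X := Finset.card_image_iff.1 (by rw [← him])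
        intro a ha b hb h
        exact this (Finset.mem_coe.2 ha) (Finset.mem_coe.2 hb) h
      have hadj : ∀ v ∈ X, H.Adj v (g v) ∧ g (g v) ≠ v := by
        intro v hv
        obtain ⟨b₁, hb₁, b₂, hb₂, a₁, a₂, hne⟩ := htwo v hv
        rcases hg v b₁ a₁ with h | h
        · subst h
          refine ⟨a₁, fun hc => ?_⟩
          rcases hg v b₂ a₂ with h' | h'
          · exact hne h'
          · exact hne (hinj _ hb₁ _ hb₂ (hc.trans h'.symm))
        · rcases hg v b₂ a₂ with h' | h'
          · subst h'
            refine ⟨a₂, fun hc => ?_⟩
            exact hne (hinj _ hb₁ _ hb₂ (h.trans hc.symm))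
          · exact absurd (hinj _ hb₁ _ hb₂ (h.trans h'.symm)) hne
      -- the orbit of `x`
      let c : ℕ → V := fun i => g^[i] x
      have hc0 : c 0 = x := rfl
      have hcs : ∀ i, c (i + 1) = g (c i) := fun i => Function.iterate_succ_apply' g i x
      have hcX : ∀ i, c i ∈ X := by
        intro i
        induction i with
        | zero => exact hx
        | succ i ih => rw [hcs]; exact hmaps _ ih
      have hper : x ∈ Function.periodicPts g := by
        obtain ⟨i, hi, j, hj, hij, h⟩ := Finset.exists_ne_map_eq_of_card_lt_of_maps_to
          (s := Finset.range (X.card + 1)) (t := X) (f := c)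
          (by simp) (fun i _ => hcX i)
        wlog hlt : i < j generalizing i j
        · exact this j hj i hi hij.symm h.symm (by omega)
        have hcancel : ∀ i k, c i = c (i + k) → c 0 = c k := by
          intro i
          induction i with
          | zero => intro k hk; rwa [zero_add] at hk
          | succ i ih =>
            intro k hk
            apply ih k
            rw [hcs, show i + 1 + k = (i + k) + 1 by omega, hcs] at hk
            exact hinj _ (hcX _) _ (hcX _) hk
        have := hcancel i (j - i) (by rw [show i + (j - i) = j by omega]; exact h)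
        refine Function.mk_mem_periodicPts (n := j - i) (by omega) ?_
        exact this.symm
      set k := Function.minimalPeriod g x with hk
      have hkpos : 0 < k := Function.minimalPeriod_pos_of_mem_periodicPts hper
      have hck : c k = x := Function.isPeriodicPt_minimalPeriod g x
      have hk1 : k ≠ 1 := by
        intro h
        rw [h] at hck
        have h2 := (hadj x hx).1
        rw [show g x = x from hck] at h2
        exact H.loopless.irrefl x h2
      have hk2 : k ≠ 2 := by
        intro h
        rw [h] at hck
        exact (hadj x hx).2 hck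
      have hk3 : 3 ≤ k := by omega
      have hcinj : ∀ i < k, ∀ j < k, c i = c j → i = j := by
        intro i hi j hj h
        exact Function.iterate_injOn_Iio_minimalPeriod (f := g) (x := x) hi hj h
      have hcmod : ∀ i < k, c ((i + 1) % k) = c (i + 1) := by
        intro i hi
        rcases Nat.lt_or_ge (i + 1) k with h | h
        · rw [Nat.mod_eq_of_lt h]
        · rw [show i + 1 = k by omega, Nat.mod_self, hck, hc0]
      set O := (Finset.range k).image c with hO
      set EO := (Finset.range k).image (fun i => s(c i, c ((i + 1) % k))) with hEO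
      have hOc : O.card = k := by
        rw [hO, Finset.card_image_of_injOn, Finset.card_range]
        intro i hi j hj h
        rw [Finset.coe_range] at hi hj
        exact hcinj i hi j hj h
      have hEOc : EO.card = k := by
        rw [hEO, Finset.card_image_of_injOn, Finset.card_range]
        intro i hi j hj h
        rw [Finset.coe_range] at hi hj
        exact edge_inj k hk3 c hcinj i j hi hj h
      have hOX : O ⊆ X := by
        intro v hv
        rw [hO, Finset.mem_image] at hv
        obtain ⟨i, _, rfl⟩ := hv
        exact hcX i
      have hXO : O ∪ (X \ O) = X := Finset.union_sdiff_of_subset hOX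
      have hgO : ∀ v ∈ O, g v ∈ O ∧ s(v, g v) ∈ EO := by
        intro v hv
        rw [hO, Finset.mem_image] at hv
        obtain ⟨i, hi, rfl⟩ := hv
        have hi' := Finset.mem_range.1 hi
        rw [← hcs, ← hcmod i hi']
        exact ⟨Finset.mem_image_of_mem c (Finset.mem_range.2 (Nat.mod_lt _ hkpos)),
          Finset.mem_image.2 ⟨i, hi, rfl⟩⟩
      have hgO' : ∀ v ∈ X, g v ∈ O → v ∈ O := by
        intro v hv hgv
        rw [hO, Finset.mem_image] at hgv
        obtain ⟨i, hi, h⟩ := hgv
        rw [Finset.mem_range] at hi
        rcases Nat.eq_zero_or_pos i with rfl | hipos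
        · -- c 0 = x = c k = g (c (k-1))
          have : g (c (k - 1)) = g v := by
            rw [← h, ← hcs, show k - 1 + 1 = k by omega, hck, hc0]
          have := hinj _ (hcX _) _ hv this
          rw [← this]
          exact Finset.mem_image_of_mem c (Finset.mem_range.2 (by omega))
        · have : g (c (i - 1)) = g v := by
            rw [← h, ← hcs, show i - 1 + 1 = i by omega]
          have := hinj _ (hcX _) _ hv this
          rw [← this]
          exact Finset.mem_image_of_mem c (Finset.mem_range.2 (by omega))
      have hEX : EO ∪ EE H (X \ O) = EE H X := by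
        ext e
        rw [Finset.mem_union]
        constructor
        · rintro (he | he)
          · rw [hEO, Finset.mem_image] at he
            obtain ⟨i, hi, rfl⟩ := he
            rw [Finset.mem_range] at hi
            rw [hcmod i hi, mk_mem_EE, hcs]
            exact ⟨⟨hcX i, hmaps _ (hcX i)⟩, (hadj _ (hcX i)).1⟩
          · rw [mem_EE] at he ⊢
            exact ⟨fun v hv => (Finset.mem_sdiff.1 (he.1 v hv)).1, he.2⟩
        · intro he
          induction e using Sym2.ind with
          | _ a b =>
            rw [mk_mem_EE] at he
            obtain ⟨⟨ha, hb⟩, hab⟩ := he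
            wlog hgab : g a = b generalizing a b
            · have h2 := (hg a b hab).resolve_left hgab
              rw [Sym2.eq_swap]
              exact this b a hab.symm hb ha h2
            subst hgab
            by_cases haO : a ∈ O
            · exact Or.inl (hgO a haO).2
            · right
              rw [mk_mem_EE, Finset.mem_sdiff, Finset.mem_sdiff]
              exact ⟨⟨⟨ha, haO⟩, ⟨hb, fun h => haO (hgO' a ha h)⟩⟩, hab⟩
      have hEdisj : Disjoint EO (EE H (X \ O)) := by
        rw [Finset.disjoint_left]
        intro e he he'
        rw [hEO, Finset.mem_image] at he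
        obtain ⟨i, hi, rfl⟩ := he
        rw [mk_mem_EE, Finset.mem_sdiff] at he'
        exact he'.1.1.2 (Finset.mem_image_of_mem c hi)
      have hEcard : k + (EE H (X \ O)).card = (EE H X).card := by
        rw [← hEX, Finset.card_union_of_disjoint hEdisj, hEOc]
      have hXcard : k + (X \ O).card = X.card := by
        conv_rhs => rw [← hXO]
        rw [Finset.card_union_of_disjoint Finset.disjoint_sdiff, hOc]
      have hkq : k * (Nat.card G - 1) + k = k * Nat.card G := by
        obtain ⟨r, hr⟩ := Nat.exists_eq_succ_of_ne_zero hGpos.ne'
        rw [hr]; simp; ring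
      rw [← hEcard, ← hXcard, Nat.add_mul] at hS
      obtain ⟨S₁, hS₁, hS₁c⟩ := Finset.exists_subset_card_eq (s := S) (n := k * Nat.card G) (by omega)
      have hgood := cycle_theorem k hk3 (Nat.card G) rfl w hw S₁ hS₁c.ge
      have hm1 := hasModel_cycle w k hk3 c hcinj S₁ hgood
      have hS₂c : (S \ S₁).card + k * Nat.card G = S.card := by
        rw [Finset.card_sdiff_of_subset hS₁, hS₁c]
        have := Finset.card_le_card hS₁
        omega
      have hss : X \ O ⊂ X := by
        refine Finset.ssubset_iff_subset_ne.2 ⟨Finset.sdiff_subset, fun h => ?_⟩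
        rw [h] at hXcard
        omega
      have hm2 := ih (X \ O) hss (S \ S₁) (by omega)
      have hm := hasModel_union hm1 hm2 Finset.disjoint_sdiff Finset.disjoint_sdiff
      rw [Finset.union_sdiff_of_subset hS₁, hXO, hEX] at hm
      exact hm

end

end MP0dbebe
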