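import Mathlib

/-! # Subset sums in finite abelian groups -/

namespace MP0dbebe

open Classical in
/-- number of entries of a list with a property -/
noncomputable def cnt {G : Type*} (P : G → Prop) (T : List G) : ℕ :=
  T.countP (fun a => decide (P a))

section
variable {G : Type*} {P Q : G → Prop}

@[simp] theorem cnt_nil : cnt P [] = 0 := rfl

theorem cnt_cons_pos {a : G} {T : List G} (h : P a) : cnt P (a :: T) = cnt P T + 1 := by
  simp [cnt, h]

theorem cnt_cons_neg {a : G} {T : List G} (h : ¬ P a) : cnt P (a :: T) = cnt P T := by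
  simp [cnt, h]

theorem cnt_mono {T : List G} (h : ∀ a ∈ T, P a → Q a) : cnt P T ≤ cnt Q T := by
  induction T with
  | nil => simp
  | cons a T ih =>
    have ih' := ih (fun b hb => h b (List.mem_cons_of_mem _ hb))
    by_cases hp : P a
    · rw [cnt_cons_pos hp, cnt_cons_pos (h a List.mem_cons_self hp)]; omega
    · rw [cnt_cons_neg hp]
      by_cases hq : Q a
      · rw [cnt_cons_pos hq]; omega
      · rw [cnt_cons_neg hq]; omega

theorem cnt_congr {T : List G} (h : ∀ a ∈ T, P a ↔ Q a) : cnt P T = cnt Q T :=
  le_antisymm (cnt_mono fun a ha => (h a ha).1) (cnt_mono fun a ha => (h a ha).2)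

theorem cnt_map {H : Type*} (f : H → G) (T : List H) : cnt P (T.map f) = cnt (fun a => P (f a)) T := by
  induction T with
  | nil => simp
  | cons a T ih =>
    rw [List.map_cons]
    by_cases hp : P (f a)
    · rw [cnt_cons_pos hp, cnt_cons_pos (P := fun a => P (f a)) hp, ih]
    · rw [cnt_cons_neg hp, cnt_cons_neg (P := fun a => P (f a)) hp, ih]

theorem cnt_add_not (T : List G) : cnt P T + cnt (fun a => ¬ P a) T = T.length := by
  induction T with
  | nil => simp
  | cons a T ih =>
    by_cases hp : P a
    · rw [cnt_cons_pos hp, cnt_cons_neg (P := fun a => ¬ P a) (not_not.2 hp), List.length_cons]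
      omega
    · rw [cnt_cons_neg hp, cnt_cons_pos (P := fun a => ¬ P a) hp, List.length_cons]
      omega

theorem cnt_le_add (T : List G) : cnt P T ≤ cnt (fun a => P a ∧ Q a) T + cnt (fun a => ¬ Q a) T := by
  induction T with
  | nil => simp
  | cons a T ih =>
    by_cases hp : P a
    · rw [cnt_cons_pos hp]
      by_cases hq : Q a
      · rw [cnt_cons_pos (P := fun a => P a ∧ Q a) ⟨hp, hq⟩,
          cnt_cons_neg (P := fun a => ¬ Q a) (not_not.2 hq)]
        omega
      · rw [cnt_cons_pos (P := fun a => ¬ Q a) hq,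
          cnt_cons_neg (P := fun a => P a ∧ Q a) (fun h => hq h.2)]
        omega
    · rw [cnt_cons_neg hp, cnt_cons_neg (P := fun a => P a ∧ Q a) (fun h => hp h.1)]
      by_cases hq : Q a
      · rw [cnt_cons_neg (P := fun a => ¬ Q a) (not_not.2 hq)]
        omega
      · rw [cnt_cons_pos (P := fun a => ¬ Q a) hq]
        omega

end

open Classical in
/-- subset sums of a list -/
noncomputable def SS {G : Type*} [AddCommGroup G] : List G → Finset G
  | [] => {0}
  | a :: T => SS T ∪ (SS T).image (a + ·)

section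
variable {G : Type*} [AddCommGroup G]

theorem zero_mem_SS (T : List G) : (0 : G) ∈ SS T := by
  induction T with
  | nil => simp [SS]
  | cons a T ih => simp [SS, ih]

theorem mem_SS_nil (g : G) : g ∈ SS ([] : List G) ↔ g = 0 := by
  simp [SS]

theorem mem_SS_cons (a : G) (T : List G) (g : G) :
    g ∈ SS (a :: T) ↔ g ∈ SS T ∨ ∃ s ∈ SS T, a + s = g := by
  simp only [SS, Finset.mem_union, Finset.mem_image]

theorem SS_card (T : List G)
    (hstab : ∀ h : G, (∀ s ∈ SS T, h + s ∈ SS T) → h = 0) :
    cnt (fun a => a ≠ 0) T + 1 ≤ (SS T).card := by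
  induction T with
  | nil => simp [SS]
  | cons a T ih =>
    have hs' : ∀ h : G, (∀ s ∈ SS T, h + s ∈ SS T) → h = 0 := by
      intro h hh
      apply hstab
      intro s hs
      rw [mem_SS_cons] at hs ⊢
      rcases hs with hs | ⟨t, ht, rfl⟩
      · exact Or.inl (hh s hs)
      · exact Or.inr ⟨h + t, hh t ht, by abel⟩
    have ih' := ih hs'
    have hsub : SS T ⊆ SS (a :: T) := by
      intro x hx
      rw [mem_SS_cons]; exact Or.inl hx
    by_cases ha : a = 0
    · rw [cnt_cons_neg (P := fun a : G => a ≠ 0) (not_not.2 ha)]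
      exact ih'.trans (Finset.card_le_card hsub)
    · rw [cnt_cons_pos (P := fun a : G => a ≠ 0) ha]
      have hne : ¬ (∀ s ∈ SS T, a + s ∈ SS T) := fun h => ha (hs' a h)
      push Not at hne
      obtain ⟨s, hs, hs2⟩ := hne
      have : SS T ⊂ SS (a :: T) := by
        refine (Finset.ssubset_iff_of_subset hsub).2 ⟨a + s, ?_, hs2⟩
        rw [mem_SS_cons]; exact Or.inr ⟨s, hs, rfl⟩
      have := Finset.card_lt_card this
      omega

theorem mem_SS_map {Q : Type*} [AddCommGroup Q] (f : G →+ Q) (T : List G) (x : Q) :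
    x ∈ SS (T.map f) ↔ ∃ g ∈ SS T, f g = x := by
  induction T generalizing x with
  | nil => simp [SS, eq_comm]
  | cons a T ih =>
    rw [List.map_cons, mem_SS_cons]
    constructor
    · rintro (h | ⟨s, hs, rfl⟩)
      · obtain ⟨g, hg, rfl⟩ := (ih _).1 h
        exact ⟨g, by rw [mem_SS_cons]; exact Or.inl hg, rfl⟩
      · obtain ⟨g, hg, rfl⟩ := (ih _).1 hs
        exact ⟨a + g, by rw [mem_SS_cons]; exact Or.inr ⟨g, hg, rfl⟩, by simp⟩
    · rintro ⟨g, hg, rfl⟩
      rw [mem_SS_cons] at hg
      rcases hg with hg | ⟨s, hs, rfl⟩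
      · exact Or.inl ((ih _).2 ⟨g, hg, rfl⟩)
      · exact Or.inr ⟨f s, (ih _).2 ⟨s, hs, rfl⟩, by simp⟩

/-- If every proper subgroup `K` misses at least `index K - 1` entries, then every element of `G`
is a subset sum. -/
theorem SS_univ [Finite G] (T : List G)
    (h : ∀ K : AddSubgroup G, K ≠ ⊤ → K.index ≤ cnt (fun a => a ∉ K) T + 1) (g : G) :
    g ∈ SS T := by
  classical
  let K : AddSubgroup G :=
    { carrier := {h | ∀ s ∈ SS T, h + s ∈ SS T}
      zero_mem' := by intro s hs; simpa using hs
      add_mem' := by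
        intro a b ha hb s hs
        rw [add_assoc]; exact ha _ (hb _ hs)
      neg_mem' := by
        intro a ha s hs
        -- the map `s ↦ a + s` is injective on the finite set `SS T`, so surjective
        have : (SS T).image (a + ·) = SS T := by
          apply Finset.eq_of_subset_of_card_le
          · intro x hx
            rw [Finset.mem_image] at hx
            obtain ⟨y, hy, rfl⟩ := hx
            exact ha y hy
          · rw [Finset.card_image_of_injective _ (add_right_injective a)]
        rw [← this, Finset.mem_image] at hs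
        obtain ⟨y, hy, rfl⟩ := hs
        simpa using hy }
  have hK : ∀ x, x ∈ K ↔ ∀ s ∈ SS T, x + s ∈ SS T := fun x => Iff.rfl
  by_cases hKt : K = ⊤
  · have : g ∈ K := by rw [hKt]; trivial
    have := (hK g).1 this 0 (zero_mem_SS T)
    simpa using this
  · have h1 := h K hKt
    let π : G →+ G ⧸ K := QuotientAddGroup.mk' K
    have hz : ∀ x, π x = 0 ↔ x ∈ K := fun x => QuotientAddGroup.eq_zero_iff x
    have hker : ∀ x y : G, π x = π y → ∃ k ∈ K, x = k + y := by
      intro x y hxy
      refine ⟨x - y, ?_, by abel⟩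
      rw [← hz, map_sub, hxy, sub_self]
    have hst : ∀ x : G ⧸ K, (∀ s ∈ SS (T.map π), x + s ∈ SS (T.map π)) → x = 0 := by
      intro x hx
      obtain ⟨y, rfl⟩ := QuotientAddGroup.mk'_surjective K x
      apply (QuotientAddGroup.eq_zero_iff _).2
      rw [hK]
      intro s hs
      have h2 := hx (π s) ((mem_SS_map _ _ _).2 ⟨s, hs, rfl⟩)
      obtain ⟨s', hs', h3⟩ := (mem_SS_map _ _ _).1 h2
      have h4 : π (y + s) = π s' := by rw [map_add]; exact h3.symm
      obtain ⟨k, hk, h5⟩ := hker _ _ h4
      rw [h5]
      exact (hK k).1 hk s' hs'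
    have h2 := SS_card (T.map π) hst
    have h3 : cnt (fun a => a ≠ 0) (T.map π) = cnt (fun a => a ∉ K) T := by
      rw [cnt_map]
      apply cnt_congr
      intro a _
      rw [Ne, hz]
    rw [h3] at h2
    haveI : Fintype (G ⧸ K) := Fintype.ofFinite _
    have h4 : (SS (T.map π)) = Finset.univ := by
      apply Finset.eq_univ_of_card
      apply le_antisymm (Finset.card_le_univ _)
      have : K.index = Fintype.card (G ⧸ K) := by
        rw [AddSubgroup.index, Nat.card_eq_fintype_card]
      omega
    have h5 : π g ∈ SS (T.map π) := by rw [h4]; exact Finset.mem_univ _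
    obtain ⟨s, hs, h6⟩ := (mem_SS_map _ _ _).1 h5
    obtain ⟨k, hk, h7⟩ := hker _ _ h6.symm
    rw [h7]
    exact (hK k).1 hk s hs

end

/-! ## cyclic groups -/

section
variable {G : Type*} [AddCommGroup G] [Finite G] [IsAddCyclic G]

theorem card_torsion_le (n : ℕ) (hn : 0 < n) (s : Finset G) (hs : ∀ x ∈ s, n • x = 0) :
    s.card ≤ n := by
  classical
  have : Fintype G := Fintype.ofFinite _
  refine le_trans (Finset.card_le_card ?_) (IsAddCyclic.card_nsmul_eq_zero_le (α := G) hn)
  intro x hx
  simp [hs x hx]

theorem subgroup_unique (K L : AddSubgroup G) (h : K.index = L.index) : K = L := by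
  classical
  have : Fintype G := Fintype.ofFinite _
  have hc : Nat.card K = Nat.card L := by
    have h1 := K.card_mul_index
    have h2 := L.card_mul_index
    rw [← h2, h] at h1
    have : L.index ≠ 0 := AddSubgroup.index_ne_zero_of_finite
    exact Nat.eq_of_mul_eq_mul_right (Nat.pos_of_ne_zero this) h1
  have hpos : 0 < Nat.card K := Nat.card_pos
  have key : ∀ M : AddSubgroup G, Nat.card M = Nat.card K →
      ∀ x : G, x ∈ M ↔ Nat.card K • x = 0 := by
    intro M hM
    have hsub : (M : Set G).toFinset ⊆ Finset.univ.filter (fun x : G => Nat.card K • x = 0) := by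
      intro x hx
      rw [Set.mem_toFinset] at hx
      rw [Finset.mem_filter]
      refine ⟨Finset.mem_univ _, ?_⟩
      have : Nat.card M • (⟨x, hx⟩ : M) = 0 := card_nsmul_eq_zero'
      rw [← hM]
      have h3 := congrArg (Subtype.val) this
      rw [AddSubgroup.coe_nsmul] at h3
      exact h3
    have heq := Finset.eq_of_subset_of_card_le hsub (by
      refine le_trans (card_torsion_le (Nat.card K) hpos _ (by simp)) ?_
      rw [Set.toFinset_card, ← hM, Nat.card_eq_fintype_card]
      rfl)
    intro x
    have := Finset.ext_iff.1 heq x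
    simpa using this
  ext x
  rw [key K rfl, key L hc.symm]

/-- In the quotient of a cyclic group by `K`, any two elements outside `K` whose doubles are in `K`
differ by an element of `K`. -/
theorem two_torsion (K : AddSubgroup G) (a b : G) (ha : a ∉ K) (hb : b ∉ K)
    (ha2 : a + a ∈ K) (hb2 : b + b ∈ K) : a + b ∈ K := by
  classical
  let π : G →+ G ⧸ K := QuotientAddGroup.mk' K
  have : IsAddCyclic (G ⧸ K) := isAddCyclic_of_surjective π (QuotientAddGroup.mk'_surjective K)
  have hz : ∀ x, π x = 0 ↔ x ∈ K := fun x => QuotientAddGroup.eq_zero_iff x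
  by_contra hab
  have h1 : π a ≠ 0 := by rw [Ne, hz]; exact ha
  have h2 : π b ≠ 0 := by rw [Ne, hz]; exact hb
  have h3 : π a + π a = 0 := by rw [← map_add, hz]; exact ha2
  have h4 : π b + π b = 0 := by rw [← map_add, hz]; exact hb2
  have h5 : π a ≠ π b := by
    intro h
    apply hab
    rw [← hz, map_add, h, h4]
  have := card_torsion_le (G := G ⧸ K) 2 (by norm_num) {0, π a, π b} (by
    intro x hx
    simp only [Finset.mem_insert, Finset.mem_singleton] at hx
    rcases hx with rfl | rfl | rfl
    · simp
    · rw [two_nsmul]; exact h3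
    · rw [two_nsmul]; exact h4)
  rw [Finset.card_insert_of_notMem, Finset.card_insert_of_notMem, Finset.card_singleton] at this
  · omega
  · simpa using h5
  · simp only [Finset.mem_insert, Finset.mem_singleton, not_or]
    exact ⟨fun h => h1 h.symm, fun h => h2 h.symm⟩

end

end MP0dbebe
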