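import Pool.Agent.Lib.MP_0dbebe_co.Cycle

/-! # Zero-sum subdivisions -/

namespace MP0dbebe

section
variable {V α G : Type*} [AddCommGroup G]

/-- a zero-sum subdivision of the edges `E` on the vertices `X`, placed in `S` -/
structure Model (w : α → α → G) (E : Finset (Sym2 V)) (X : Finset V) (S : Finset α)
    (φ : V → α) (I : Sym2 V → List α) : Prop where
  inj : ∀ u ∈ X, ∀ v ∈ X, φ u = φ v → u = v
  memφ : ∀ u ∈ X, φ u ∈ S
  memI : ∀ e ∈ E, ∀ a ∈ I e, a ∈ S
  nodup : ∀ e ∈ E, (I e).Nodup
  avoid : ∀ e ∈ E, ∀ v ∈ X, φ v ∉ I e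
  disj : ∀ e ∈ E, ∀ e' ∈ E, e ≠ e' → ∀ a ∈ I e, a ∉ I e'
  ends : ∀ e ∈ E, ∀ v ∈ e, v ∈ X
  div : ∀ e ∈ E, ∃ u v, e = s(u, v) ∧ pw w (φ u :: (I e ++ [φ v])) = 0

/-- existence of a model -/
def HasModel (w : α → α → G) (E : Finset (Sym2 V)) (X : Finset V) (S : Finset α) : Prop :=
  ∃ φ I, Model w E X S φ I

open Classical in
theorem hasModel_union {w : α → α → G} {E₁ E₂ : Finset (Sym2 V)} {X₁ X₂ : Finset V}
    {S₁ S₂ : Finset α} (h₁ : HasModel w E₁ X₁ S₁) (h₂ : HasModel w E₂ X₂ S₂)
    (hX : Disjoint X₁ X₂) (hS : Disjoint S₁ S₂) :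
    HasModel w (E₁ ∪ E₂) (X₁ ∪ X₂) (S₁ ∪ S₂) := by
  obtain ⟨φ₁, I₁, m₁⟩ := h₁
  obtain ⟨φ₂, I₂, m₂⟩ := h₂
  have hX' : ∀ v ∈ X₂, v ∉ X₁ := fun v h2 h1 => Finset.disjoint_left.1 hX h1 h2
  have hS1 : ∀ a ∈ S₁, a ∉ S₂ := fun a h1 h2 => Finset.disjoint_left.1 hS h1 h2
  have hE' : ∀ e ∈ E₂, e ∉ E₁ := by
    intro e h2 h1
    induction e using Sym2.ind with
    | _ a b =>
      exact hX' a (m₂.ends _ h2 a (Sym2.mem_mk_left a b)) (m₁.ends _ h1 a (Sym2.mem_mk_left a b))
  refine ⟨fun v => if v ∈ X₁ then φ₁ v else φ₂ v, fun e => if e ∈ E₁ then I₁ e else I₂ e, ?_⟩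
  have f1 : ∀ v ∈ X₁, (if v ∈ X₁ then φ₁ v else φ₂ v) = φ₁ v := fun v h => if_pos h
  have f2 : ∀ v ∈ X₂, (if v ∈ X₁ then φ₁ v else φ₂ v) = φ₂ v := fun v h => if_neg (hX' v h)
  have i1 : ∀ e ∈ E₁, (if e ∈ E₁ then I₁ e else I₂ e) = I₁ e := fun v h => if_pos h
  have i2 : ∀ e ∈ E₂, (if e ∈ E₁ then I₁ e else I₂ e) = I₂ e := fun v h => if_neg (hE' v h)
  constructor
  · intro u hu v hv huv
    rw [Finset.mem_union] at hu hv
    rcases hu with hu | hu <;> rcases hv with hv | hv
    · rw [f1 u hu, f1 v hv] at huv; exact m₁.inj u hu v hv huv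
    · rw [f1 u hu, f2 v hv] at huv
      exact absurd (m₂.memφ v hv) (huv ▸ hS1 _ (m₁.memφ u hu))
    · rw [f2 u hu, f1 v hv] at huv
      exact absurd (m₂.memφ u hu) (huv ▸ hS1 _ (m₁.memφ v hv))
    · rw [f2 u hu, f2 v hv] at huv; exact m₂.inj u hu v hv huv
  · intro u hu
    rw [Finset.mem_union] at hu ⊢
    rcases hu with hu | hu
    · rw [f1 u hu]; exact Or.inl (m₁.memφ u hu)
    · rw [f2 u hu]; exact Or.inr (m₂.memφ u hu)
  · intro e he a ha
    rw [Finset.mem_union] at he ⊢
    rcases he with he | he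
    · rw [i1 e he] at ha; exact Or.inl (m₁.memI e he a ha)
    · rw [i2 e he] at ha; exact Or.inr (m₂.memI e he a ha)
  · intro e he
    rw [Finset.mem_union] at he
    rcases he with he | he
    · rw [i1 e he]; exact m₁.nodup e he
    · rw [i2 e he]; exact m₂.nodup e he
  · intro e he v hv hmem
    rw [Finset.mem_union] at he hv
    rcases he with he | he <;> rcases hv with hv | hv
    · rw [i1 e he, f1 v hv] at hmem; exact m₁.avoid e he v hv hmem
    · rw [i1 e he, f2 v hv] at hmem
      exact hS1 _ (m₁.memI e he _ hmem) (m₂.memφ v hv)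
    · rw [i2 e he, f1 v hv] at hmem
      exact hS1 _ (m₁.memφ v hv) (m₂.memI e he _ hmem)
    · rw [i2 e he, f2 v hv] at hmem; exact m₂.avoid e he v hv hmem
  · intro e he e' he' hne a ha ha'
    rw [Finset.mem_union] at he he'
    rcases he with he | he <;> rcases he' with he' | he'
    · rw [i1 e he] at ha; rw [i1 e' he'] at ha'
      exact m₁.disj e he e' he' hne a ha ha'
    · rw [i1 e he] at ha; rw [i2 e' he'] at ha'
      exact hS1 _ (m₁.memI e he _ ha) (m₂.memI e' he' _ ha')
    · rw [i2 e he] at ha; rw [i1 e' he'] at ha'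
      exact hS1 _ (m₁.memI e' he' _ ha') (m₂.memI e he _ ha)
    · rw [i2 e he] at ha; rw [i2 e' he'] at ha'
      exact m₂.disj e he e' he' hne a ha ha'
  · intro e he v hv
    rw [Finset.mem_union] at he ⊢
    rcases he with he | he
    · exact Or.inl (m₁.ends e he v hv)
    · exact Or.inr (m₂.ends e he v hv)
  · intro e he
    rw [Finset.mem_union] at he
    rcases he with he | he
    · obtain ⟨u, v, huv, h⟩ := m₁.div e he
      refine ⟨u, v, huv, ?_⟩
      rw [i1 e he, f1 u (m₁.ends e he u (huv ▸ Sym2.mem_mk_left u v)),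
        f1 v (m₁.ends e he v (huv ▸ Sym2.mem_mk_right u v))]
      exact h
    · obtain ⟨u, v, huv, h⟩ := m₂.div e he
      refine ⟨u, v, huv, ?_⟩
      rw [i2 e he, f2 u (m₂.ends e he u (huv ▸ Sym2.mem_mk_left u v)),
        f2 v (m₂.ends e he v (huv ▸ Sym2.mem_mk_right u v))]
      exact h

theorem hasModel_mono {w : α → α → G} {E : Finset (Sym2 V)} {X : Finset V}
    {S S' : Finset α} (h : HasModel w E X S) (hS : S ⊆ S') : HasModel w E X S' := by
  obtain ⟨φ, I, m⟩ := h
  exact ⟨φ, I, ⟨m.inj, fun u hu => hS (m.memφ u hu), fun e he a ha => hS (m.memI e he a ha),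
    m.nodup, m.avoid, m.disj, m.ends, m.div⟩⟩

theorem hasModel_empty (w : α → α → G) (S : Finset α) [Nonempty α] :
    HasModel w (∅ : Finset (Sym2 V)) (∅ : Finset V) S :=
  ⟨fun _ => Classical.arbitrary α, fun _ => [], ⟨by simp, by simp, by simp, by simp, by simp,
    by simp, by simp, by simp⟩⟩

theorem hasModel_single (w : α → α → G) (v : V) (a : α) :
    HasModel w (∅ : Finset (Sym2 V)) {v} {a} :=
  ⟨fun _ => a, fun _ => [], ⟨by simp, by simp, by simp, by simp, by simp,
    by simp, by simp, by simp⟩⟩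

/-! ### attaching a leaf -/

theorem map_range_getD (l : List α) (d : α) :
    (List.range l.length).map (fun t => l.getD t d) = l := by
  apply List.ext_getElem
  · simp
  · intro i h1 h2
    rw [List.getElem_map, List.getElem_range, List.getD_eq_getElem _ _ h2]

theorem exists_zero_segment [Finite G] (w : α → α → G) (l : List α) (hl : Nat.card G < l.length) :
    ∃ A x M y B, l = A ++ x :: (M ++ y :: B) ∧ pw w (x :: (M ++ [y])) = 0 := by
  classical
  have hne : l ≠ [] := by rintro rfl; simp at hl
  obtain ⟨d, l', rfl⟩ := List.exists_cons_of_ne_nil hne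
  set l := d :: l' with hldef
  let Y : ℕ → α := fun t => l.getD t d
  let P : ℕ → G := fun i => ∑ t ∈ Finset.range i, w (Y t) (Y (t + 1))
  have : Fintype G := Fintype.ofFinite G
  obtain ⟨s, hs, t, ht, hst, hP⟩ := Finset.exists_ne_map_eq_of_card_lt_of_maps_to
    (s := Finset.range l.length) (t := (Finset.univ : Finset G)) (f := P)
    (by rw [Finset.card_range, Finset.card_univ, ← Nat.card_eq_fintype_card]; exact hl)
    (fun _ _ => Finset.mem_univ _)
  rw [Finset.mem_range] at hs ht
  wlog hlt : s < t generalizing s t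
  · exact this t ht s hs hst.symm hP.symm (by omega)
  have hl2 : l = (List.range' 0 l.length).map Y := by
    rw [← List.range_eq_range']
    exact (map_range_getD l d).symm
  have e1 : List.range' 0 l.length =
      List.range' 0 s ++ s :: (List.range' (s + 1) (t - s - 1) ++
        t :: List.range' (t + 1) (l.length - t - 1)) := by
    have a1 : List.range' 0 l.length = List.range' 0 s ++ List.range' s (l.length - s) := by
      have := List.range'_append_1 (s := 0) (m := s) (n := l.length - s)
      rw [zero_add] at this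
      rw [this]
      congr 1
      omega
    have a2 : List.range' s (l.length - s) = s :: List.range' (s + 1) (l.length - s - 1) := by
      have : l.length - s = (l.length - s - 1) + 1 := by omega
      rw [this, List.range'_succ]
      simp
    have a3 : List.range' (s + 1) (l.length - s - 1) =
        List.range' (s + 1) (t - s - 1) ++ List.range' t (l.length - t) := by
      have := List.range'_append_1 (s := s + 1) (m := t - s - 1) (n := l.length - t)
      rw [show s + 1 + (t - s - 1) = t by omega] at this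
      rw [this]
      congr 1
      omega
    have a4 : List.range' t (l.length - t) = t :: List.range' (t + 1) (l.length - t - 1) := by
      have : l.length - t = (l.length - t - 1) + 1 := by omega
      rw [this, List.range'_succ]
      simp
    rw [a1, a2, a3, a4]
  refine ⟨(List.range' 0 s).map Y, Y s, (List.range' (s + 1) (t - s - 1)).map Y, Y t,
    (List.range' (t + 1) (l.length - t - 1)).map Y, ?_, ?_⟩
  · conv_lhs => rw [hl2, e1]
    simp
  · have e2 : Y s :: ((List.range' (s + 1) (t - s - 1)).map Y ++ [Y t]) =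
        (List.range' s ((t - s) + 1)).map Y := by
      rw [List.range'_succ, List.map_cons]
      congr 1
      have : t - s = (t - s - 1) + 1 := by omega
      rw [this, List.range'_concat, List.map_append]
      simp only [one_mul, List.map_cons, List.map_nil]
      have e3 : s + 1 + (t - s - 1) = t := by omega
      have e4 : t - s - 1 + 1 - 1 = t - s - 1 := by omega
      rw [e3, e4]
    rw [e2, pw_map_range', show s + (t - s) = t by omega, Finset.sum_Ico_eq_sub _ hlt.le]
    simp only [P] at hP
    rw [hP, sub_self]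

open Classical in
theorem hasModel_leaf [Finite G] (w : α → α → G) (E : Finset (Sym2 V)) (X : Finset V)
    (N : ℕ) (S : Finset α) (u v : V) (hu : u ∈ X) (hv : v ∉ X)
    (hM : ∀ S' ⊆ S, N ≤ S'.card → HasModel w E X S') (hS : N + Nat.card G ≤ S.card) :
    HasModel w (insert s(u, v) E) (insert v X) S := by
  -- build the list
  have hlist : ∀ k ≤ Nat.card G + 1, ∃ l : List α, l.length = k ∧ l.Nodup ∧ (∀ a ∈ l, a ∈ S) ∧
      ∀ A x B, l = A ++ x :: B → ∃ φ I, Model w E X (S \ B.toFinset) φ I ∧ φ u = x := by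
    intro k
    induction k with
    | zero => intro _; exact ⟨[], rfl, List.nodup_nil, by simp, by simp⟩
    | succ k ih =>
      intro hk
      obtain ⟨l, hl1, hl2, hl3, hl4⟩ := ih (by omega)
      obtain ⟨φ, I, m⟩ := hM (S \ l.toFinset) Finset.sdiff_subset (by
        have e1 := Finset.le_card_sdiff l.toFinset S
        have e2 : l.toFinset.card = k := by rw [List.toFinset_card_of_nodup hl2, hl1]
        omega)
      have hx := m.memφ u hu
      rw [Finset.mem_sdiff, List.mem_toFinset] at hx
      refine ⟨φ u :: l, by simp [hl1], List.nodup_cons.2 ⟨hx.2, hl2⟩, ?_, ?_⟩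
      · intro a ha
        rw [List.mem_cons] at ha
        rcases ha with rfl | ha
        · exact hx.1
        · exact hl3 a ha
      · intro A x B hAB
        cases A with
        | nil =>
          rw [List.nil_append, List.cons.injEq] at hAB
          exact ⟨φ, I, hAB.2 ▸ m, hAB.1⟩
        | cons a A =>
          rw [List.cons_append, List.cons.injEq] at hAB
          exact hl4 A x B hAB.2
  obtain ⟨l, hl1, hl2, hl3, hl4⟩ := hlist (Nat.card G + 1) le_rfl
  obtain ⟨A, x, M, y, B, hl, h0⟩ := exists_zero_segment w l (by omega)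
  obtain ⟨φ, I, m, hφ⟩ := hl4 A x (M ++ y :: B) hl
  have hout : ∀ a ∈ M ++ y :: B, a ∉ S \ (M ++ y :: B).toFinset := by
    intro a ha
    rw [Finset.mem_sdiff, List.mem_toFinset]
    tauto
  have hmemS : ∀ a ∈ M ++ y :: B, a ∈ S := by
    intro a ha
    apply hl3
    rw [hl]
    exact List.mem_append_right _ (List.mem_cons_of_mem _ ha)
  have hy : y ∈ M ++ y :: B := by simp
  have hMm : ∀ a ∈ M, a ∈ M ++ y :: B := fun a ha => List.mem_append_left _ ha
  have hnd : (M ++ y :: B).Nodup := by
    rw [hl] at hl2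
    exact ((List.nodup_append.1 hl2).2.1).of_cons
  have hyM : y ∉ M := by
    intro h
    have := (List.nodup_append.1 hnd).2.2 y h y (by simp)
    exact this rfl
  have hMnd : M.Nodup := (List.nodup_append.1 hnd).1
  have huv : u ≠ v := fun h => hv (h ▸ hu)
  have he0 : s(u, v) ∉ E := fun h => hv (m.ends _ h v (Sym2.mem_mk_right u v))
  have hφv : ∀ a ∈ X, Function.update φ v y a = φ a := by
    intro a ha
    rw [Function.update_of_ne]
    rintro rfl; exact hv ha
  have hIe : ∀ e ∈ E, Function.update I s(u, v) M e = I e := by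
    intro e he
    rw [Function.update_of_ne]
    rintro rfl; exact he0 he
  have hsub : S \ (M ++ y :: B).toFinset ⊆ S := Finset.sdiff_subset
  refine ⟨Function.update φ v y, Function.update I s(u, v) M, ?_⟩
  constructor
  · intro a ha b hb hab
    rw [Finset.mem_insert] at ha hb
    rcases ha with rfl | ha <;> rcases hb with rfl | hb
    · rfl
    · rw [Function.update_self, hφv b hb] at hab
      exact absurd (m.memφ b hb) (hab ▸ hout y hy)
    · rw [Function.update_self, hφv a ha] at hab
      exact absurd (m.memφ a ha) (hab ▸ hout y hy)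
    · rw [hφv a ha, hφv b hb] at hab
      exact m.inj a ha b hb hab
  · intro a ha
    rw [Finset.mem_insert] at ha
    rcases ha with rfl | ha
    · rw [Function.update_self]; exact hmemS y hy
    · rw [hφv a ha]; exact hsub (m.memφ a ha)
  · intro e he a ha
    rw [Finset.mem_insert] at he
    rcases he with rfl | he
    · rw [Function.update_self] at ha; exact hmemS a (hMm a ha)
    · rw [hIe e he] at ha; exact hsub (m.memI e he a ha)
  · intro e he
    rw [Finset.mem_insert] at he
    rcases he with rfl | he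
    · rw [Function.update_self]; exact hMnd
    · rw [hIe e he]; exact m.nodup e he
  · intro e he a ha hmem
    rw [Finset.mem_insert] at he ha
    rcases he with rfl | he <;> rcases ha with rfl | ha
    · rw [Function.update_self, Function.update_self] at hmem; exact hyM hmem
    · rw [Function.update_self, hφv a ha] at hmem
      exact hout _ (hMm _ hmem) (m.memφ a ha)
    · rw [Function.update_self, hIe e he] at hmem
      exact hout y hy (m.memI e he _ hmem)
    · rw [hIe e he, hφv a ha] at hmem
      exact m.avoid e he a ha hmem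
  · intro e he e' he' hne a ha ha'
    rw [Finset.mem_insert] at he he'
    rcases he with rfl | he <;> rcases he' with rfl | he'
    · exact hne rfl
    · rw [Function.update_self] at ha; rw [hIe e' he'] at ha'
      exact hout a (hMm a ha) (m.memI e' he' a ha')
    · rw [Function.update_self] at ha'; rw [hIe e he] at ha
      exact hout a (hMm a ha') (m.memI e he a ha)
    · rw [hIe e he] at ha; rw [hIe e' he'] at ha'
      exact m.disj e he e' he' hne a ha ha'
  · intro e he a ha
    rw [Finset.mem_insert] at he ⊢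
    rcases he with rfl | he
    · rw [Sym2.mem_iff] at ha
      rcases ha with rfl | rfl
      · exact Or.inr hu
      · exact Or.inl rfl
    · exact Or.inr (m.ends e he a ha)
  · intro e he
    rw [Finset.mem_insert] at he
    rcases he with rfl | he
    · refine ⟨u, v, rfl, ?_⟩
      rw [Function.update_self, Function.update_self, hφv u hu, hφ]
      exact h0
    · obtain ⟨a, b, hab, h⟩ := m.div e he
      refine ⟨a, b, hab, ?_⟩
      rw [hIe e he, hφv a (m.ends e he a (hab ▸ Sym2.mem_mk_left a b)),
        hφv b (m.ends e he b (hab ▸ Sym2.mem_mk_right a b))]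
      exact h

/-! ### cycles -/

theorem edge_inj (n : ℕ) (hn : 3 ≤ n) (c : ℕ → V) (hc : ∀ i < n, ∀ j < n, c i = c j → i = j)
    (i j : ℕ) (hi : i < n) (hj : j < n)
    (h : s(c i, c ((i + 1) % n)) = s(c j, c ((j + 1) % n))) : i = j := by
  have hmi : (i + 1) % n < n := Nat.mod_lt _ (by omega)
  have hmj : (j + 1) % n < n := Nat.mod_lt _ (by omega)
  rw [Sym2.eq_iff] at h
  rcases h with ⟨h1, _⟩ | ⟨h1, h2⟩
  · exact hc i hi j hj h1
  · have e1 := hc i hi _ hmj h1
    have e2 := hc _ hmi j hj h2
    rcases Nat.lt_or_ge (i + 1) n with hi' | hi'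
    · rw [Nat.mod_eq_of_lt hi'] at e2
      rcases Nat.lt_or_ge (j + 1) n with hj' | hj'
      · rw [Nat.mod_eq_of_lt hj'] at e1; omega
      · rw [show j + 1 = n by omega, Nat.mod_self] at e1; omega
    · rw [show i + 1 = n by omega, Nat.mod_self] at e2
      rcases Nat.lt_or_ge (j + 1) n with hj' | hj'
      · rw [Nat.mod_eq_of_lt hj'] at e1; omega
      · omega

open Classical in
theorem hasModel_cycle (w : α → α → G) (n : ℕ) (hn : 3 ≤ n) (c : ℕ → V)
    (hc : ∀ i < n, ∀ j < n, c i = c j → i = j) (S : Finset α) (h : Good w n S) :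
    HasModel w ((Finset.range n).image (fun i => s(c i, c ((i + 1) % n))))
      ((Finset.range n).image c) S := by
  obtain ⟨L, y, j, h1, h2, h3, h4, h5, h6, h7⟩ := h
  have hjle : ∀ k ≤ n, ∀ i ≤ k, j i ≤ j k := by
    intro k
    induction k with
    | zero => intro _ i hi; rw [Nat.le_zero.1 hi]
    | succ k ihk =>
      intro hk i hi
      rcases Nat.lt_or_ge i (k + 1) with h | h
      · exact (ihk (by omega) i (by omega)).trans (h3 k hk).le
      · rw [le_antisymm hi h]
  have hjlt : ∀ i < n, j (i + 1) ≤ L := by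
    intro i hi
    have := hjle n le_rfl (i + 1) hi
    omega
  -- index functions
  have hidx : ∃ idx : V → ℕ, ∀ i < n, idx (c i) = i := by
    refine ⟨fun v => if h : ∃ i, i < n ∧ c i = v then h.choose else 0, ?_⟩
    intro i hi
    have hex : ∃ k, k < n ∧ c k = c i := ⟨i, hi, rfl⟩
    simp only [hex, dif_pos]
    exact hc _ hex.choose_spec.1 _ hi hex.choose_spec.2
  obtain ⟨idx, hidx⟩ := hidx
  have heidx : ∃ idx : Sym2 V → ℕ, ∀ i < n, idx s(c i, c ((i + 1) % n)) = i := by
    refine ⟨fun v => if h : ∃ i, i < n ∧ s(c i, c ((i + 1) % n)) = v then h.choose else 0, ?_⟩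
    intro i hi
    have hex : ∃ k, k < n ∧ s(c k, c ((k + 1) % n)) = s(c i, c ((i + 1) % n)) := ⟨i, hi, rfl⟩
    simp only [hex, dif_pos]
    exact edge_inj n hn c hc _ _ hex.choose_spec.1 hi hex.choose_spec.2
  obtain ⟨eidx, heidx⟩ := heidx
  let φ : V → α := fun v => y (j (idx v))
  let I : Sym2 V → List α := fun e =>
    (List.range' (j (eidx e) + 1) (j (eidx e + 1) - j (eidx e) - 1)).map y
  have hφ : ∀ i < n, φ (c i) = y (j i) := fun i hi => by simp only [φ, hidx i hi]
  have hI : ∀ i < n, I s(c i, c ((i + 1) % n)) =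
      (List.range' (j i + 1) (j (i + 1) - j i - 1)).map y := fun i hi => by
    simp only [I, heidx i hi]
  have hmemI : ∀ i < n, ∀ a ∈ I s(c i, c ((i + 1) % n)), ∃ t, j i < t ∧ t < j (i + 1) ∧ y t = a := by
    intro i hi a ha
    rw [hI i hi, List.mem_map] at ha
    obtain ⟨t, ht, rfl⟩ := ha
    rw [List.mem_range'_1] at ht
    exact ⟨t, by omega, by omega, rfl⟩
  have hseg : ∀ i < n, ∀ k < n, ∀ t, j i ≤ t → t < j (i + 1) → j k ≤ t → t < j (k + 1) → i = k := by
    intro i hi k hk t a1 a2 a3 a4
    rcases lt_trichotomy i k with hlt | heq | hgt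
    · have := hjle k hk.le (i + 1) hlt
      omega
    · exact heq
    · have := hjle i hi.le (k + 1) hgt
      omega
  refine ⟨φ, I, ?_⟩
  constructor
  · intro u hu v hv huv
    rw [Finset.mem_image] at hu hv
    obtain ⟨i, hi, rfl⟩ := hu
    obtain ⟨k, hk, rfl⟩ := hv
    rw [Finset.mem_range] at hi hk
    rw [hφ i hi, hφ k hk] at huv
    have b1 := h3 i hi
    have b2 := hjlt i hi
    have b3 := h3 k hk
    have b4 := hjlt k hk
    have e1 := h4 _ (by omega) _ (by omega) huv
    rw [hseg i hi k hk (j i) le_rfl b1 (by omega) (by omega)]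
  · intro u hu
    rw [Finset.mem_image] at hu
    obtain ⟨i, hi, rfl⟩ := hu
    rw [Finset.mem_range] at hi
    rw [hφ i hi]
    have b1 := h3 i hi
    have b2 := hjlt i hi
    exact h5 _ (by omega)
  · intro e he a ha
    rw [Finset.mem_image] at he
    obtain ⟨i, hi, rfl⟩ := he
    rw [Finset.mem_range] at hi
    obtain ⟨t, ht1, ht2, rfl⟩ := hmemI i hi a ha
    have b2 := hjlt i hi
    exact h5 _ (by omega)
  · intro e he
    rw [Finset.mem_image] at he
    obtain ⟨i, hi, rfl⟩ := he
    rw [Finset.mem_range] at hi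
    rw [hI i hi]
    apply List.Nodup.map_on _ List.nodup_range'
    intro s hs t ht hst
    rw [List.mem_range'_1] at hs ht
    have b2 := hjlt i hi
    exact h4 s (by omega) t (by omega) hst
  · intro e he v hv hmem
    rw [Finset.mem_image] at he hv
    obtain ⟨i, hi, rfl⟩ := he
    obtain ⟨k, hk, rfl⟩ := hv
    rw [Finset.mem_range] at hi hk
    rw [hφ k hk] at hmem
    obtain ⟨t, ht1, ht2, ht3⟩ := hmemI i hi _ hmem
    have b1 := hjlt i hi
    have b2 := hjlt k hk
    have b3 := h3 k hk
    have e1 := h4 t (by omega) _ (by omega) ht3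
    have e2 := hseg i hi k hk t ht1.le ht2 (by omega) (by omega)
    subst e2
    omega
  · intro e he e' he' hne a ha ha'
    rw [Finset.mem_image] at he he'
    obtain ⟨i, hi, rfl⟩ := he
    obtain ⟨k, hk, rfl⟩ := he'
    rw [Finset.mem_range] at hi hk
    obtain ⟨t, ht1, ht2, ht3⟩ := hmemI i hi _ ha
    obtain ⟨t', ht1', ht2', ht3'⟩ := hmemI k hk _ ha'
    have b1 := hjlt i hi
    have b2 := hjlt k hk
    have e1 := h4 t (by omega) t' (by omega) (ht3.trans ht3'.symm)
    subst e1
    exact hne (by rw [hseg i hi k hk t ht1.le ht2 ht1'.le ht2'])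
  · intro e he v hv
    rw [Finset.mem_image] at he
    obtain ⟨i, hi, rfl⟩ := he
    rw [Finset.mem_range] at hi
    rw [Sym2.mem_iff] at hv
    rw [Finset.mem_image]
    rcases hv with rfl | rfl
    · exact ⟨i, Finset.mem_range.2 hi, rfl⟩
    · exact ⟨(i + 1) % n, Finset.mem_range.2 (Nat.mod_lt _ (by omega)), rfl⟩
  · intro e he
    rw [Finset.mem_image] at he
    obtain ⟨i, hi, rfl⟩ := he
    rw [Finset.mem_range] at hi
    refine ⟨_, _, rfl, ?_⟩
    have hb : φ (c ((i + 1) % n)) = y (j (i + 1)) := by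
      rcases Nat.lt_or_ge (i + 1) n with h | h
      · rw [Nat.mod_eq_of_lt h, hφ _ h]
      · have : i + 1 = n := le_antisymm hi h
        rw [this, Nat.mod_self, hφ 0 (by omega), h1, h2, h6]
    rw [hb, hφ i hi, hI i hi]
    have b1 := h3 i hi
    have e2 : y (j i) :: ((List.range' (j i + 1) (j (i + 1) - j i - 1)).map y ++ [y (j (i + 1))]) =
        (List.range' (j i) ((j (i + 1) - j i) + 1)).map y := by
      rw [List.range'_succ, List.map_cons]
      congr 1
      have : j (i + 1) - j i = (j (i + 1) - j i - 1) + 1 := by omega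
      rw [this, List.range'_concat, List.map_append]
      simp only [one_mul, List.map_cons, List.map_nil]
      have e3 : j i + 1 + (j (i + 1) - j i - 1) = j (i + 1) := by omega
      have e4 : j (i + 1) - j i - 1 + 1 - 1 = j (i + 1) - j i - 1 := by omega
      rw [e3, e4]
    rw [e2, pw_map_range', show j i + (j (i + 1) - j i) = j (i + 1) by omega]
    exact h7 i hi

end

end MP0dbebe
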