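import Pool.Agent.Lib.MP_0dbebe_co.Const2

/-! # Almost constant weights: connecting vertices -/

namespace MP0dbebe

section
variable {α : Type*} {q : ℕ}

open Classical in
/-- the exceptional neighbours -/
noncomputable def Ex [Fintype α] (w : α → α → ZMod q) (x : α) : Finset α :=
  Finset.univ.filter (fun y => w x y ≠ 1)

theorem mem_Ex [Fintype α] {w : α → α → ZMod q} {x y : α} : y ∈ Ex w x ↔ w x y ≠ 1 := by
  classical
  simp only [Ex, Finset.mem_filter, Finset.mem_univ, true_and]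

/-- weights that are almost always `1`; `𝒢` is the set of good vertices -/
structure Near [Fintype α] (w : α → α → ZMod q) (β L : ℕ) (𝒢 : Finset α) : Prop where
  symm : ∀ a b, w a b = w b a
  good : ∀ x ∈ 𝒢, β * (Ex w x).card ≤ Fintype.card α
  bad : ∀ x, x ∉ 𝒢 → Fintype.card α < β * (Ex w x).card
  few : L * (Fintype.card α - 𝒢.card) ≤ Fintype.card α

open Classical in
theorem Near.pick [Fintype α] {w : α → α → ZMod q} {β L : ℕ} {𝒢 : Finset α}
    (h : Near w β L 𝒢) (hβ : 100 ≤ β) (hL : 100 ≤ L) (a y : α) (ha : a ∈ 𝒢) (hy : y ∈ 𝒢)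
    (S' : Finset α) (hS : 2 * S'.card ≤ Fintype.card α) (hN : 0 < Fintype.card α) :
    ∃ z ∈ 𝒢, z ∉ S' ∧ w a z = 1 ∧ w z y = 1 := by
  by_contra hcon
  push Not at hcon
  have hsub : (Finset.univ : Finset α) ⊆ (S' ∪ 𝒢ᶜ) ∪ (Ex w a ∪ Ex w y) := by
    intro z _
    rw [Finset.mem_union, Finset.mem_union, Finset.mem_union, Finset.mem_compl, mem_Ex, mem_Ex]
    by_contra h1
    push Not at h1
    exact hcon z h1.1.2 h1.1.1 h1.2.1 (by rw [h.symm]; exact h1.2.2)
  have h1 := Finset.card_le_card hsub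
  have h2 := Finset.card_union_le (S' ∪ 𝒢ᶜ) (Ex w a ∪ Ex w y)
  have h3 := Finset.card_union_le S' 𝒢ᶜ
  have h4 := Finset.card_union_le (Ex w a) (Ex w y)
  have h5 := h.good a ha
  have h6 := h.good y hy
  have h7 := h.few
  rw [← Finset.card_compl] at h7
  have h8 := Nat.mul_le_mul_right (Ex w a).card hβ
  have h9 := Nat.mul_le_mul_right (Ex w y).card hβ
  have h10 := Nat.mul_le_mul_right (𝒢ᶜ).card hL
  rw [Finset.card_univ] at h1
  omega

/-- paths of weight-one edges between good vertices -/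
theorem Near.path [Fintype α] {w : α → α → ZMod q} {β L : ℕ} {𝒢 : Finset α}
    (h : Near w β L 𝒢) (hβ : 100 ≤ β) (hL : 100 ≤ L) (hN : 0 < Fintype.card α) (j : ℕ) :
    ∀ a y : α, a ∈ 𝒢 → y ∈ 𝒢 → ∀ S' : Finset α, 2 * (S'.card + j) ≤ Fintype.card α →
    ∃ l : List α, l.Nodup ∧ (∀ z ∈ l, z ∈ 𝒢 ∧ z ∉ S') ∧ l.length = j + 1 ∧
      pw w (a :: (l ++ [y])) = ((j + 2 : ℕ) : ZMod q) := by
  classical
  induction j with
  | zero =>
    intro a y ha hy S' hS
    obtain ⟨z, hz1, hz2, hz3, hz4⟩ := h.pick hβ hL a y ha hy S' (by omega) hN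
    refine ⟨[z], by simp, ?_, by simp, ?_⟩
    · intro x hx
      rw [List.mem_singleton] at hx
      subst hx
      exact ⟨hz1, hz2⟩
    · rw [List.singleton_append, pw_cons_cons, pw_cons_cons, pw_single, hz3, hz4]
      push_cast; ring
  | succ j ih =>
    intro a y ha hy S' hS
    obtain ⟨z, hz1, hz2, hz3, -⟩ := h.pick hβ hL a a ha ha S' (by omega) hN
    obtain ⟨l, hl1, hl2, hl3, hl4⟩ := ih z y hz1 hy (insert z S') (by
      have := Finset.card_insert_le z S'
      omega)
    refine ⟨z :: l, ?_, ?_, by rw [List.length_cons, hl3], ?_⟩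
    · rw [List.nodup_cons]
      exact ⟨fun hz => (hl2 z hz).2 (Finset.mem_insert_self _ _), hl1⟩
    · intro x hx
      rw [List.mem_cons] at hx
      rcases hx with rfl | hx
      · exact ⟨hz1, hz2⟩
      · exact ⟨(hl2 x hx).1, fun hxS => (hl2 x hx).2 (Finset.mem_insert_of_mem hxS)⟩
    · rw [List.cons_append, pw_cons_cons, hl4, hz3]
      push_cast; ring

/-- `x` and `y` can be joined by a zero path with at most `k` inner vertices, robustly -/
def Conn (w : α → α → ZMod q) (M k : ℕ) (x y : α) : Prop :=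
  ∀ S' : Finset α, S'.card ≤ M → ∃ l : List α, l.Nodup ∧ (∀ z ∈ l, z ∉ S') ∧ l.length ≤ k ∧
    pw w (x :: (l ++ [y])) = 0

theorem Conn.mono {w : α → α → ZMod q} {M k k' : ℕ} {x y : α} (h : Conn w M k x y)
    (hk : k ≤ k') : Conn w M k' x y := by
  intro S' hS
  obtain ⟨l, h1, h2, h3, h4⟩ := h S' hS
  exact ⟨l, h1, h2, h3.trans hk, h4⟩

theorem conn_zero {w : α → α → ZMod q} (M k : ℕ) {x y : α} (h : w x y = 0) :
    Conn w M k x y := by
  intro S' _
  exact ⟨[], by simp, by simp, by simp, by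
    rw [List.nil_append, pw_cons_cons, pw_single, h, add_zero]⟩

theorem Near.conn_of_ge_two [Fintype α] {w : α → α → ZMod q} {β L : ℕ} {𝒢 : Finset α}
    (h : Near w β L 𝒢) (hβ : 100 ≤ β) (hL : 100 ≤ L) (hN : 0 < Fintype.card α) (M : ℕ)
    (A : Finset α) (hA : A ⊆ 𝒢) (x y : α) (hy : y ∈ 𝒢) (c : ZMod q) (hAx : ∀ a ∈ A, w x a = c)
    (hAc : M < A.card) (k : ℕ) (hk : 2 ≤ k) (hkM : 2 * (M + k) ≤ Fintype.card α)
    (hc : c + (k : ZMod q) = 0) : Conn w M k x y := by
  classical
  intro S' hS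
  obtain ⟨a, haA, haS⟩ : ∃ a ∈ A, a ∉ S' := by
    by_contra hcon
    push Not at hcon
    have := Finset.card_le_card (fun a ha => hcon a ha : A ⊆ S')
    omega
  obtain ⟨l, hl1, hl2, hl3, hl4⟩ := h.path hβ hL hN (k - 2) a y (hA haA) hy (insert a S') (by
    have := Finset.card_insert_le a S'
    omega)
  refine ⟨a :: l, ?_, ?_, by rw [List.length_cons, hl3]; omega, ?_⟩
  · rw [List.nodup_cons]
    exact ⟨fun hz => (hl2 a hz).2 (Finset.mem_insert_self _ _), hl1⟩
  · intro z hz
    rw [List.mem_cons] at hz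
    rcases hz with rfl | hz
    · exact haS
    · exact fun hzS => (hl2 z hz).2 (Finset.mem_insert_of_mem hzS)
  · rw [List.cons_append, pw_cons_cons, hl4, hAx a haA, show k - 2 + 2 = k by omega, hc]

theorem conn_one {w : α → α → ZMod q} (M : ℕ) (A : Finset α) (x y : α)
    (hAx : ∀ a ∈ A, w x a + w a y = 0) (hAc : M < A.card) : Conn w M 1 x y := by
  classical
  intro S' hS
  obtain ⟨a, haA, haS⟩ : ∃ a ∈ A, a ∉ S' := by
    by_contra hcon
    push Not at hcon
    have := Finset.card_le_card (fun a ha => hcon a ha : A ⊆ S')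
    omega
  refine ⟨[a], by simp, by simpa using haS, by simp, ?_⟩
  rw [List.singleton_append, pw_cons_cons, pw_cons_cons, pw_single, add_zero, hAx a haA]

open Classical in
/-- good vertices with a given weight to `x` -/
noncomputable def NC (w : α → α → ZMod q) (𝒢 : Finset α) (x : α) (c : ZMod q) : Finset α :=
  𝒢.filter (fun y => w x y = c)

theorem mem_NC {w : α → α → ZMod q} {𝒢 : Finset α} {x y : α} {c : ZMod q} :
    y ∈ NC w 𝒢 x c ↔ y ∈ 𝒢 ∧ w x y = c := by
  classical
  simp only [NC, Finset.mem_filter]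

theorem sum_NC [NeZero q] (w : α → α → ZMod q) (𝒢 : Finset α) (x : α) :
    ∑ c : ZMod q, (NC w 𝒢 x c).card = 𝒢.card := by
  classical
  unfold NC
  exact (Finset.card_eq_sum_card_fiberwise (fun y _ => Finset.mem_coe.2 (Finset.mem_univ _))).symm

/-- the number `k` of inner vertices for a first edge of weight `c` -/
theorem exists_len [Fact (1 < q)] (c : ZMod q) : ∃ k : ℕ, 1 ≤ k ∧ k ≤ q ∧
    c + (k : ZMod q) = 0 ∧ (c ≠ 0 → k ≤ q - 1) ∧ (c ≠ 0 → c ≠ 1 → k ≤ q - 2) := by
  have hqp : 1 < q := Fact.out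
  have hq2 : 2 ≤ q := hqp
  refine ⟨q - c.val, ?_, by omega, ?_, ?_, ?_⟩
  · have := ZMod.val_lt c
    omega
  · rw [Nat.cast_sub (ZMod.val_lt c).le, ZMod.natCast_self, ZMod.natCast_zmod_val]
    ring
  · intro h
    have := (ZMod.val_ne_zero c).2 h
    omega
  · intro h0 h1
    have h2 := (ZMod.val_ne_zero c).2 h0
    have h3 : c.val ≠ 1 := by
      intro h
      apply h1
      rw [← ZMod.natCast_zmod_val c, h, Nat.cast_one]
    omega

/-- any vertex can be joined to any good vertex with at most `q` inner vertices -/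
theorem Near.conn_any [Fintype α] [Fact (1 < q)] {w : α → α → ZMod q} {β L : ℕ} {𝒢 : Finset α}
    (h : Near w β L 𝒢) (hβ : 100 * q ≤ β) (hL : 100 ≤ L) (hN : 0 < Fintype.card α) (M : ℕ)
    (hM : 100 * q * (M + q) ≤ Fintype.card α) (x y : α) (hy : y ∈ 𝒢) : Conn w M q x y := by
  classical
  have hqp : 1 < q := Fact.out
  have hq2 : 2 ≤ q := hqp
  have hfew := h.few
  have h100 := Nat.mul_le_mul_right (Fintype.card α - 𝒢.card) hL
  have h𝒢 := Finset.card_le_univ 𝒢
  obtain ⟨c, -, hc⟩ : ∃ c ∈ (Finset.univ : Finset (ZMod q)),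
      𝒢.card ≤ q * (NC w 𝒢 x c).card := by
    by_contra hcon
    push Not at hcon
    have h1 := Finset.sum_lt_sum_of_nonempty (Finset.univ_nonempty) hcon
    rw [← Finset.mul_sum, sum_NC, Finset.sum_const, Finset.card_univ, ZMod.card,
      smul_eq_mul] at h1
    exact lt_irrefl _ h1
  obtain ⟨k, hk1, hk2, hk3, -⟩ := exists_len c
  have hbig : 50 * (M + q) < (NC w 𝒢 x c).card := by
    by_contra hcon
    push Not at hcon
    have h1 : q * (NC w 𝒢 x c).card ≤ q * (50 * (M + q)) := Nat.mul_le_mul_left q hcon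
    have h2 : q * (50 * (M + q)) * 2 = 100 * q * (M + q) := by ring
    omega
  have hMN : 2 * (M + q) ≤ Fintype.card α := by
    have h1 : M + q ≤ q * (M + q) := Nat.le_mul_of_pos_left _ (by omega)
    have h2 : 100 * q * (M + q) = 100 * (q * (M + q)) := by ring
    omega
  rcases Nat.lt_or_ge k 2 with hk | hk
  · have hk' : k = 1 := by omega
    subst hk'
    have hEx : (Ex w y).card * (100 * q) ≤ Fintype.card α := by
      have := h.good y hy
      calc (Ex w y).card * (100 * q) ≤ (Ex w y).card * β := Nat.mul_le_mul_left _ hβ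
        _ = β * (Ex w y).card := mul_comm _ _
        _ ≤ _ := this
    apply (conn_one M ((NC w 𝒢 x c) \ Ex w y) x y ?_ ?_).mono (by omega)
    · intro a ha
      rw [Finset.mem_sdiff, mem_NC, mem_Ex] at ha
      push Not at ha
      rw [ha.1.2, h.symm a y, ha.2]
      rw [Nat.cast_one] at hk3
      exact hk3
    · have h1 := Finset.le_card_sdiff (Ex w y) (NC w 𝒢 x c)
      have h2 : q * (2 * (Ex w y).card) ≤ q * (NC w 𝒢 x c).card := by
        refine le_trans ?_ hc
        have h3 : q * (2 * (Ex w y).card) * 50 = (Ex w y).card * (100 * q) := by ring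
        omega
      have h3 := Nat.le_of_mul_le_mul_left h2 (by omega)
      omega
  · exact (h.conn_of_ge_two (by omega) hL hN M (NC w 𝒢 x c)
      (fun a ha => (mem_NC.1 ha).1) x y hy c (fun a ha => (mem_NC.1 ha).2) (by omega) k hk
      (by omega) hk3).mono hk2

end

end MP0dbebe
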