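import Pool.Agent.Lib.MP_0dbebe_co.PackA

/-! # Almost constant weights: the cost of using a bad vertex as branch vertex -/

namespace MP0dbebe

section
variable {α : Type*} {q : ℕ}

/-- least number of inner vertices needed -/
noncomputable def kap (w : α → α → ZMod q) (M : ℕ) (x y : α) : ℕ := sInf {k | Conn w M k x y}

theorem kap_le {w : α → α → ZMod q} {M k : ℕ} {x y : α} (h : Conn w M k x y) :
    kap w M x y ≤ k := Nat.sInf_le h

theorem kap_spec {w : α → α → ZMod q} {M k : ℕ} {x y : α} (h : Conn w M k x y) :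
    Conn w M (kap w M x y) x y := by
  have : (kap w M x y) ∈ {k | Conn w M k x y} := Nat.sInf_mem ⟨k, h⟩
  exact this

open Classical in
theorem Near.bad_avg [Fintype α] [Fact (1 < q)] {w : α → α → ZMod q} {β L : ℕ} {𝒢 : Finset α}
    (h : Near w β L 𝒢) (hq : 3 ≤ q) (hβ : 100 * q ≤ β) (hL : 8 * β ≤ L)
    (hN : 0 < Fintype.card α) (M : ℕ) (hM : 16 * β * q * (M + q) ≤ Fintype.card α)
    (x : α) (hx : x ∉ 𝒢) (C : Finset α) (hC𝒢 : C ⊆ 𝒢)
    (hC : 8 * β * (Fintype.card α - C.card) ≤ Fintype.card α) :
    8 * β * ∑ y ∈ C, kap w M x y + C.card ≤ 8 * β * ((q - 1) * C.card) := by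
  have hqp : 1 < q := Fact.out
  set N := Fintype.card α with hN'
  have hβ300 : 300 ≤ β := by omega
  have hL100 : 100 ≤ L := by omega
  have hfew : L * (N - 𝒢.card) ≤ N := h.few
  have hfew8 := Nat.mul_le_mul_right (N - 𝒢.card) hL
  have h𝒢N : 𝒢.card ≤ N := Finset.card_le_univ 𝒢
  have hCN : C.card ≤ N := Finset.card_le_univ C
  have hC2 : N ≤ 2 * C.card := by
    have h1 : 8 * 300 * (N - C.card) ≤ 8 * β * (N - C.card) :=
      Nat.mul_le_mul_right _ (by omega)
    omega
  have hM' : 100 * q * (M + q) ≤ N := by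
    refine le_trans (Nat.mul_le_mul_right _ ?_) hM
    calc 100 * q ≤ β * 1 := by omega
      _ ≤ β * (16 * q) := Nat.mul_le_mul_left _ (by omega)
      _ = 16 * β * q := by ring
  have hany : ∀ y ∈ 𝒢, kap w M x y ≤ q := fun y hy =>
    kap_le (h.conn_any hβ hL100 hN M hM' x y hy)
  have hMN : 2 * (M + q) ≤ N := by
    have h1 : 2 * (M + q) ≤ 100 * q * (M + q) := Nat.mul_le_mul_right _ (by omega)
    omega
  -- a value of weight at least `N / (4 β q)` is larger than `M`
  have hpop : ∀ A : Finset α, N ≤ 4 * β * q * A.card → 4 * (M + q) ≤ A.card := by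
    intro A hA
    have h1 : 4 * β * q * (4 * (M + q)) ≤ 4 * β * q * A.card := by
      have : 4 * β * q * (4 * (M + q)) = 16 * β * q * (M + q) := by ring
      omega
    exact Nat.le_of_mul_le_mul_left h1 (by positivity)
  have hExN : ∀ y ∈ 𝒢, β * (Ex w y).card ≤ N := h.good
  by_cases hcase : ∃ c : ZMod q, c ≠ 0 ∧ c ≠ 1 ∧ N ≤ 4 * β * q * (NC w 𝒢 x c).card
  · -- some value different from `0`, `1` is popular
    obtain ⟨c, hc0, hc1, hc⟩ := hcase
    obtain ⟨k, hk1, hk2, hk3, -, hk5⟩ := exists_len c
    have hk := hk5 hc0 hc1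
    have hbig := hpop _ hc
    -- the irregular vertices
    set A := NC w 𝒢 x c with hA
    set I := C.filter (fun y => A.card < 2 * (A ∩ Ex w y).card) with hI
    have hreg : ∀ y ∈ C, y ∉ I → kap w M x y ≤ q - 2 := by
      intro y hy hyI
      have hy2 : 2 * (A ∩ Ex w y).card ≤ A.card := by
        by_contra hcon
        push Not at hcon
        exact hyI (Finset.mem_filter.2 ⟨hy, hcon⟩)
      rcases Nat.lt_or_ge k 2 with hk' | hk'
      · have hk'' : k = 1 := by omega
        subst hk''
        refine (kap_le ((conn_one M (A \ Ex w y) x y ?_ ?_).mono hk))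
        · intro a ha
          rw [Finset.mem_sdiff, hA, mem_NC, mem_Ex] at ha
          push Not at ha
          rw [ha.1.2, h.symm a y, ha.2]
          rw [Nat.cast_one] at hk3
          exact hk3
        · have h1 := Finset.card_sdiff_add_card_inter A (Ex w y)
          omega
      · exact (kap_le (h.conn_of_ge_two (by omega) hL100 hN M A
          (fun a ha => (mem_NC.1 ha).1) x y (hC𝒢 hy) c (fun a ha => (mem_NC.1 ha).2)
          (by omega) k hk' (by omega) hk3)).trans hk
    have hIc : β * I.card ≤ 2 * N := by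
      have h1 : I.card * A.card ≤ 2 * ∑ y ∈ I, (A ∩ Ex w y).card := by
        rw [Finset.mul_sum, ← smul_eq_mul]
        apply Finset.card_nsmul_le_sum
        intro y hy
        exact (Finset.mem_filter.1 hy).2.le
      have h2 : ∑ y ∈ I, (A ∩ Ex w y).card ≤ ∑ a ∈ A, (Ex w a).card := by
        have e1 : ∀ y ∈ I, (A ∩ Ex w y).card = ∑ a ∈ A, if w y a ≠ 1 then 1 else 0 := by
          intro y _
          rw [← Finset.card_filter]
          congr 1
          ext a
          rw [Finset.mem_inter, mem_Ex, Finset.mem_filter]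
        rw [Finset.sum_congr rfl e1, Finset.sum_comm]
        apply Finset.sum_le_sum
        intro a _
        rw [← Finset.card_filter]
        apply Finset.card_le_card
        intro y hy
        rw [mem_Ex, h.symm]
        exact (Finset.mem_filter.1 hy).2
      have h3 : β * ∑ a ∈ A, (Ex w a).card ≤ A.card * N := by
        rw [Finset.mul_sum, ← smul_eq_mul]
        apply Finset.sum_le_card_nsmul
        intro a ha
        exact hExN a (mem_NC.1 ha).1
      have h4 : (β * I.card) * A.card ≤ (2 * N) * A.card := by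
        calc (β * I.card) * A.card = β * (I.card * A.card) := by ring
          _ ≤ β * (2 * ∑ a ∈ A, (Ex w a).card) :=
            Nat.mul_le_mul_left _ (h1.trans (Nat.mul_le_mul_left _ h2))
          _ = 2 * (β * ∑ a ∈ A, (Ex w a).card) := by ring
          _ ≤ 2 * (A.card * N) := Nat.mul_le_mul_left _ h3
          _ = (2 * N) * A.card := by ring
      exact Nat.le_of_mul_le_mul_right h4 (by omega)
    have hsum : ∑ y ∈ C, kap w M x y ≤ (q - 2) * C.card + 2 * I.card := by
      have h1 : ∀ y ∈ C, kap w M x y ≤ (q - 2) + (if A.card < 2 * (A ∩ Ex w y).card then 2 else 0) := by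
        intro y hy
        by_cases hyI : A.card < 2 * (A ∩ Ex w y).card
        · rw [if_pos hyI]
          have := hany y (hC𝒢 hy)
          omega
        · rw [if_neg hyI]
          exact hreg y hy (fun h' => hyI (Finset.mem_filter.1 h').2)
      refine (Finset.sum_le_sum h1).trans ?_
      rw [Finset.sum_add_distrib, Finset.sum_const, smul_eq_mul, ← Finset.sum_filter,
        Finset.sum_const, smul_eq_mul, ← hI]
      have := mul_comm C.card (q - 2)
      have := mul_comm I.card 2
      omega
    have e1 : q - 1 = (q - 2) + 1 := by omega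
    rw [e1]
    have e2 : 8 * β * ∑ y ∈ C, kap w M x y ≤ 8 * β * ((q - 2) * C.card) + 16 * (β * I.card) := by
      calc 8 * β * ∑ y ∈ C, kap w M x y ≤ 8 * β * ((q - 2) * C.card + 2 * I.card) :=
            Nat.mul_le_mul_left _ hsum
        _ = 8 * β * ((q - 2) * C.card) + 16 * (β * I.card) := by ring
    have e3 : 8 * β * ((q - 2 + 1) * C.card) = 8 * β * ((q - 2) * C.card) + 8 * (β * C.card) := by
      ring
    have e4 : 300 * C.card ≤ β * C.card := Nat.mul_le_mul_right _ hβ300
    omega
  · push Not at hcase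
    -- the other values are rare
    have hrare : β * (4 * ∑ c ∈ (Finset.univ.erase (0 : ZMod q)).erase 1, (NC w 𝒢 x c).card) ≤ N := by
      have h1 : 4 * β * q * ∑ c ∈ (Finset.univ.erase (0 : ZMod q)).erase 1, (NC w 𝒢 x c).card ≤
          ((Finset.univ.erase (0 : ZMod q)).erase 1).card * N := by
        rw [Finset.mul_sum, ← smul_eq_mul (((Finset.univ.erase (0 : ZMod q)).erase 1).card)]
        apply Finset.sum_le_card_nsmul
        intro c hc
        rw [Finset.mem_erase, Finset.mem_erase] at hc
        exact (hcase c hc.2.1 hc.1).le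
      have h2 : ((Finset.univ.erase (0 : ZMod q)).erase 1).card ≤ q := by
        have := Finset.card_le_univ ((Finset.univ.erase (0 : ZMod q)).erase 1)
        rwa [ZMod.card] at this
      have h3 : q * (β * (4 * ∑ c ∈ (Finset.univ.erase (0 : ZMod q)).erase 1,
          (NC w 𝒢 x c).card)) ≤ q * N := by
        calc q * (β * (4 * ∑ c ∈ (Finset.univ.erase (0 : ZMod q)).erase 1,
          (NC w 𝒢 x c).card)) = 4 * β * q * ∑ c ∈ (Finset.univ.erase (0 : ZMod q)).erase 1,
            (NC w 𝒢 x c).card := by ring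
          _ ≤ _ := h1
          _ ≤ q * N := Nat.mul_le_mul_right _ h2
      exact Nat.le_of_mul_le_mul_left h3 (by omega)
    set Sr := ∑ c ∈ (Finset.univ.erase (0 : ZMod q)).erase 1, (NC w 𝒢 x c).card with hSr
    have h10 : (1 : ZMod q) ≠ 0 := one_ne_zero
    have hsplit : (NC w 𝒢 x 0).card + ((NC w 𝒢 x 1).card + Sr) = 𝒢.card := by
      rw [← sum_NC w 𝒢 x, ← Finset.add_sum_erase _ _ (Finset.mem_univ (0 : ZMod q)),
        ← Finset.add_sum_erase _ _ (Finset.mem_erase.2 ⟨h10, Finset.mem_univ _⟩)]
    have hzero : ∀ y ∈ NC w 𝒢 x 0, kap w M x y = 0 := by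
      intro y hy
      exact Nat.le_zero.1 (kap_le (conn_zero M 0 (mem_NC.1 hy).2))
    -- sums over `C`
    have hsumC : ∀ b : ℕ, (∀ y ∈ 𝒢, kap w M x y ≤ b) →
        ∑ y ∈ C, kap w M x y ≤ (C \ NC w 𝒢 x 0).card * b := by
      intro b hb
      have h1 : ∑ y ∈ C, kap w M x y = ∑ y ∈ C \ NC w 𝒢 x 0, kap w M x y := by
        symm
        apply Finset.sum_subset Finset.sdiff_subset
        intro y hy hy'
        rw [Finset.mem_sdiff] at hy'
        push Not at hy'
        exact hzero y (hy' hy)
      rw [h1, ← smul_eq_mul]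
      apply Finset.sum_le_card_nsmul
      intro y hy
      exact hb y (hC𝒢 (Finset.mem_sdiff.1 hy).1)
    by_cases h1pop : N ≤ 4 * β * q * (NC w 𝒢 x 1).card
    · -- `1` is popular
      have hbig := hpop _ h1pop
      have hle : ∀ y ∈ 𝒢, kap w M x y ≤ q - 1 := by
        intro y hy
        apply kap_le
        apply h.conn_of_ge_two (by omega) hL100 hN M (NC w 𝒢 x 1)
          (fun a ha => (mem_NC.1 ha).1) x y hy 1 (fun a ha => (mem_NC.1 ha).2)
          (by omega) (q - 1) (by omega) (by omega)
        rw [Nat.cast_sub (by omega), ZMod.natCast_self]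
        ring
      have hs := hsumC (q - 1) hle
      -- there are many zeros
      have hEx : N < β * (Ex w x).card := h.bad x hx
      have hExle : (Ex w x).card ≤ (NC w 𝒢 x 0).card + Sr + (N - 𝒢.card) := by
        have h1 : Ex w x ⊆ (𝒢 \ NC w 𝒢 x 1) ∪ 𝒢ᶜ := by
          intro y hy
          rw [mem_Ex] at hy
          rw [Finset.mem_union, Finset.mem_sdiff, mem_NC, Finset.mem_compl]
          by_cases hy𝒢 : y ∈ 𝒢
          · exact Or.inl ⟨hy𝒢, fun h' => hy h'.2⟩
          · exact Or.inr hy𝒢
        have h2 := (Finset.card_le_card h1).trans (Finset.card_union_le _ _)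
        have h3 : NC w 𝒢 x 1 ⊆ 𝒢 := fun y hy => (mem_NC.1 hy).1
        have h4 := Finset.card_sdiff_add_card_eq_card h3
        rw [Finset.card_compl] at h2
        omega
      have hCz : (NC w 𝒢 x 0).card ≤ (C ∩ NC w 𝒢 x 0).card + (N - C.card) := by
        have h1 : NC w 𝒢 x 0 ⊆ (C ∩ NC w 𝒢 x 0) ∪ Cᶜ := by
          intro y hy
          rw [Finset.mem_union, Finset.mem_inter, Finset.mem_compl]
          by_cases hyC : y ∈ C
          · exact Or.inl ⟨hyC, hy⟩
          · exact Or.inr hyC
        have h2 := (Finset.card_le_card h1).trans (Finset.card_union_le _ _)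
        rw [Finset.card_compl] at h2
        exact h2
      have hCs : (C \ NC w 𝒢 x 0).card + (C ∩ NC w 𝒢 x 0).card = C.card :=
        Finset.card_sdiff_add_card_inter C _
      set z := (C ∩ NC w 𝒢 x 0).card with hz
      set d := (C \ NC w 𝒢 x 0).card with hd
      set z₀ := (NC w 𝒢 x 0).card with hz₀
      have hzN : N ≤ 4 * (β * z) := by
        have e1 : β * (Ex w x).card ≤ β * (z + (N - C.card) + Sr + (N - 𝒢.card)) :=
          Nat.mul_le_mul_left _ (by omega)
        have e2 : β * (z + (N - C.card) + Sr + (N - 𝒢.card)) =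
            β * z + β * (N - C.card) + β * Sr + β * (N - 𝒢.card) := by ring
        have e3 : β * (4 * Sr) = 4 * (β * Sr) := by ring
        have e4 : 8 * β * (N - C.card) = 8 * (β * (N - C.card)) := by ring
        have e5 : 8 * β * (N - 𝒢.card) = 8 * (β * (N - 𝒢.card)) := by ring
        omega
      have hfin : C.card + 8 * β * (d * (q - 1)) ≤ 8 * β * ((q - 1) * C.card) := by
        rw [← hCs]
        have e1 : 8 * β * ((q - 1) * (d + z)) = 8 * β * (d * (q - 1)) + 8 * ((q - 1) * (β * z)) := by
          ring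
        have e2 : β * z ≤ (q - 1) * (β * z) := Nat.le_mul_of_pos_left _ (by omega)
        omega
      have := Nat.mul_le_mul_left (8 * β) hs
      omega
    · -- almost all values are `0`
      push Not at h1pop
      have hs := hsumC q hany
      have h1q : 4 * (β * (NC w 𝒢 x 1).card) ≤ N := by
        have e1 : 4 * (β * (NC w 𝒢 x 1).card) ≤ 4 * β * q * (NC w 𝒢 x 1).card := by
          have : 4 * β * q * (NC w 𝒢 x 1).card = q * (4 * (β * (NC w 𝒢 x 1).card)) := by ring
          rw [this]
          exact Nat.le_mul_of_pos_left _ (by omega)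
        omega
      have hd : (C \ NC w 𝒢 x 0).card ≤ (NC w 𝒢 x 1).card + Sr := by
        have h1 : C \ NC w 𝒢 x 0 ⊆ 𝒢 \ NC w 𝒢 x 0 := Finset.sdiff_subset_sdiff hC𝒢 le_rfl
        have h2 := Finset.card_le_card h1
        have h3 : NC w 𝒢 x 0 ⊆ 𝒢 := fun y hy => (mem_NC.1 hy).1
        have h4 := Finset.card_sdiff_add_card_eq_card h3
        omega
      set d := (C \ NC w 𝒢 x 0).card with hd'
      have hβd : 2 * (β * d) ≤ N := by
        have e1 : β * d ≤ β * ((NC w 𝒢 x 1).card + Sr) := Nat.mul_le_mul_left _ hd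
        have e2 : β * ((NC w 𝒢 x 1).card + Sr) = β * (NC w 𝒢 x 1).card + β * Sr := by ring
        have e3 : β * (4 * Sr) = 4 * (β * Sr) := by ring
        omega
      have h1 := Nat.mul_le_mul_left (8 * β) hs
      have e1 : 8 * β * (d * q) = q * (8 * (β * d)) := by ring
      have e2 : q * (8 * (β * d)) ≤ q * (4 * N) := Nat.mul_le_mul_left _ (by omega)
      have e3 : q * (4 * N) ≤ q * (8 * C.card) := Nat.mul_le_mul_left _ (by omega)
      have e4 : 8 * β * ((q - 1) * C.card) = (q - 1) * (8 * (β * C.card)) := by ring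
      have e5 : 300 * C.card ≤ β * C.card := Nat.mul_le_mul_right _ hβ300
      have e6 : (q - 1) * (8 * (300 * C.card)) ≤ (q - 1) * (8 * (β * C.card)) :=
        Nat.mul_le_mul_left _ (Nat.mul_le_mul_left _ e5)
      have e7 : q * (8 * C.card) ≤ (q - 1) * (16 * C.card) := by
        have : q * (8 * C.card) ≤ (2 * (q - 1)) * (8 * C.card) :=
          Nat.mul_le_mul_right _ (by omega)
        calc q * (8 * C.card) ≤ (2 * (q - 1)) * (8 * C.card) := this
          _ = _ := by ring
      have e8 : C.card ≤ (q - 1) * C.card := Nat.le_mul_of_pos_left _ (by omega)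
      have e9 : (q - 1) * (8 * (300 * C.card)) = 2400 * ((q - 1) * C.card) := by ring
      have e10 : (q - 1) * (16 * C.card) = 16 * ((q - 1) * C.card) := by ring
      omega

end

end MP0dbebe
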