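import Pool.Agent.Lib.MP_0dbebe_co.PackB

/-! # Almost constant weights: choosing and serving the branch vertices placed at bad vertices -/

namespace MP0dbebe

section
variable {V α : Type*} {q : ℕ}

theorem pw_append {G : Type*} [AddCommGroup G] (w : α → α → G) (a y : α) (l l' : List α) :
    pw w (a :: (l ++ y :: l')) = pw w (a :: (l ++ [y])) + pw w (y :: l') := by
  induction l generalizing a with
  | nil => rw [List.nil_append, List.nil_append, pw_cons_cons, pw_cons_cons, pw_single, add_zero]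
  | cons x l ih =>
    rw [List.cons_append, List.cons_append, pw_cons_cons, pw_cons_cons, ih, add_assoc]

open Classical in
theorem choose_K_deg [Fintype V] (H : SimpleGraph V) (g A b : ℕ) (hg : 1 ≤ g)
    (hb : (1 + 2 * A) * (2 * g * b + Fintype.card V) + 2 * g * Fintype.card V <
      2 * (EE H Finset.univ).card) :
    ∃ K : Finset V, K.card ≤ b ∧
      g * b + A * (EE H K).card ≤ ∑ v ∈ K, (NE H Finset.univ v).card ∧
      ∑ v ∈ K, (NE H Finset.univ v).card ≤ 2 * g * b + Fintype.card V := by
  set n := Fintype.card V with hn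
  let P : Finset V → Prop := fun K => K.card ≤ b ∧
    2 * g * K.card + 2 * A * (EE H K).card ≤ ∑ v ∈ K, (NE H Finset.univ v).card ∧
    ∑ v ∈ K, (NE H Finset.univ v).card ≤ 2 * g * b + n
  obtain ⟨K, hK, hmax⟩ := Finset.exists_max_image
    ((Finset.univ : Finset (Finset V)).filter (fun K => P K)) Finset.card
    ⟨∅, Finset.mem_filter.2 ⟨Finset.mem_univ _, by simp, by simp [EE_empty], by simp⟩⟩
  rw [Finset.mem_filter] at hK
  obtain ⟨-, h1, h2, h3⟩ := hK
  set D := ∑ v ∈ K, (NE H Finset.univ v).card with hD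
  refine ⟨K, h1, ?_, h3⟩
  by_contra hcon
  push Not at hcon
  have hDlt : D < 2 * g * b := by
    have e1 : 2 * (g * b + A * (EE H K).card) = 2 * g * b + 2 * A * (EE H K).card := by ring
    omega
  have hKb : K.card < b := by
    have h4 : 2 * g * K.card < 2 * g * b := by omega
    exact lt_of_mul_lt_mul_left h4 (Nat.zero_le _)
  obtain ⟨v, hvK, hv⟩ : ∃ v, v ∉ K ∧
      2 * g + 2 * A * (NE H K v).card ≤ (NE H Finset.univ v).card := by
    by_contra hno
    push Not at hno
    have h4 : ∀ v ∈ (Finset.univ : Finset V), (NE H Finset.univ v).card ≤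
        2 * g + 2 * A * (NE H K v).card + (if v ∈ K then (NE H Finset.univ v).card else 0) := by
      intro v _
      by_cases hvK : v ∈ K
      · rw [if_pos hvK]; omega
      · rw [if_neg hvK]
        have := hno v hvK
        omega
    have h5 := Finset.sum_le_sum h4
    simp only [Finset.sum_add_distrib, ← Finset.mul_sum, Finset.sum_const, smul_eq_mul] at h5
    rw [sum_NE, ← Finset.sum_filter, Finset.filter_mem_eq_inter, Finset.univ_inter,
      sum_NE_comm H Finset.univ K, Finset.card_univ, ← hn, ← hD] at h5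
    have e1 : (1 + 2 * A) * (2 * g * b + n) = (2 * g * b + n) + 2 * A * (2 * g * b + n) := by ring
    have e2 : 2 * A * D ≤ 2 * A * (2 * g * b + n) := Nat.mul_le_mul_left _ h3
    have e3 : 2 * (n * g) = 2 * g * n := by ring
    omega
  have hnew : P (insert v K) := by
    refine ⟨by rw [Finset.card_insert_of_notMem hvK]; omega, ?_, ?_⟩
    · rw [Finset.card_insert_of_notMem hvK, card_EE_insert H K v hvK, Finset.sum_insert hvK]
      have e1 : 2 * g * (K.card + 1) + 2 * A * ((EE H K).card + (NE H K v).card) =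
          (2 * g * K.card + 2 * A * (EE H K).card) + (2 * g + 2 * A * (NE H K v).card) := by ring
      omega
    · rw [Finset.sum_insert hvK]
      have : (NE H Finset.univ v).card ≤ n := Finset.card_le_univ _
      omega
  have := hmax (insert v K) (Finset.mem_filter.2 ⟨Finset.mem_univ _, hnew⟩)
  rw [Finset.card_insert_of_notMem hvK] at this
  omega

open Classical in
/-- serving indexed edges one at a time -/
theorem Model.addIdx {ι : Type*} {G : Type*} [AddCommGroup G] {w : α → α → G}
    {E : Finset (Sym2 V)} {X : Finset V} {S : Finset α}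
    {φ : V → α} {I : Sym2 V → List α} (m : Model w E X S φ I) (F : Finset ι) (ed : ι → Sym2 V)
    (c : ι → ℕ) (M : ℕ) (hM : S.card + ∑ i ∈ F, c i ≤ M)
    (hF : ∀ i ∈ F, ∀ S' : Finset α, S ⊆ S' → S'.card ≤ M → ∃ u v, ed i = s(u, v) ∧ u ∈ X ∧
      v ∈ X ∧ ∃ l : List α, l.Nodup ∧ (∀ x ∈ l, x ∉ S') ∧ l.length ≤ c i ∧
        pw w (φ u :: (l ++ [φ v])) = 0) :
    ∃ S' I', S ⊆ S' ∧ Model w (E ∪ F.image ed) X S' φ I' ∧ S'.card ≤ S.card + ∑ i ∈ F, c i := by
  induction F using Finset.induction_on with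
  | empty =>
    exact ⟨S, I, Finset.Subset.refl _, by rw [Finset.image_empty, Finset.union_empty]; exact m,
      by simp⟩
  | insert i F hi ih =>
    rw [Finset.sum_insert hi] at hM ⊢
    obtain ⟨S', I', hSS', m', hS'⟩ := ih (by omega)
      (fun e' he' => hF e' (Finset.mem_insert_of_mem he'))
    obtain ⟨u, v, huv, hu, hv, l, h1, h2, h3, h4⟩ := hF i (Finset.mem_insert_self _ _) S' hSS'
        (by omega)
    by_cases he : s(u, v) ∈ E ∪ F.image ed
    · refine ⟨S', I', hSS', ?_, by omega⟩
      rw [Finset.image_insert, Finset.union_insert, huv, Finset.insert_eq_of_mem he]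
      exact m'
    · have m'' := m'.insertEdge hu hv he h1 h2 h4
      rw [← huv, ← Finset.union_insert, ← Finset.image_insert] at m''
      refine ⟨_, _, hSS'.trans Finset.subset_union_left, m'', ?_⟩
      have h5 := Finset.card_union_le S' l.toFinset
      have h6 := List.toFinset_card_le l
      omega

open Classical in
/-- serving a family of edges simultaneously -/
theorem Model.addFamily {G : Type*} [AddCommGroup G] {w : α → α → G}
    {E : Finset (Sym2 V)} {X : Finset V} {S : Finset α}
    {φ : V → α} {I : Sym2 V → List α} (m : Model w E X S φ I) (F : Finset (Sym2 V))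
    (L : Sym2 V → List α) (hEF : ∀ e ∈ F, e ∉ E) (hnd : ∀ e ∈ F, (L e).Nodup)
    (hS : ∀ e ∈ F, ∀ x ∈ L e, x ∉ S) (hd : ∀ e ∈ F, ∀ e' ∈ F, e ≠ e' → ∀ x ∈ L e, x ∉ L e')
    (h0 : ∀ e ∈ F, ∃ u v, e = s(u, v) ∧ u ∈ X ∧ v ∈ X ∧ pw w (φ u :: (L e ++ [φ v])) = 0) :
    ∃ I', Model w (E ∪ F) X (S ∪ F.biUnion (fun e => (L e).toFinset)) φ I' := by
  induction F using Finset.induction_on with
  | empty =>
    exact ⟨I, by rw [Finset.biUnion_empty, Finset.union_empty, Finset.union_empty]; exact m⟩
  | insert e F he ih =>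
    have hself := Finset.mem_insert_self e F
    obtain ⟨I', m'⟩ := ih (fun e' h' => hEF e' (Finset.mem_insert_of_mem h'))
      (fun e' h' => hnd e' (Finset.mem_insert_of_mem h'))
      (fun e' h' => hS e' (Finset.mem_insert_of_mem h'))
      (fun e' h' e'' h'' => hd e' (Finset.mem_insert_of_mem h') e'' (Finset.mem_insert_of_mem h''))
      (fun e' h' => h0 e' (Finset.mem_insert_of_mem h'))
    obtain ⟨u, v, huv, hu, hv, hp⟩ := h0 e hself
    have m'' := m'.insertEdge hu hv (by
      rw [← huv, Finset.mem_union]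
      rintro (h | h)
      · exact hEF e hself h
      · exact he h) (hnd e hself) (by
      intro a ha
      rw [Finset.mem_union, Finset.mem_biUnion]
      rintro (h | ⟨e', he', h⟩)
      · exact hS e hself a ha h
      · rw [List.mem_toFinset] at h
        exact hd e hself e' (Finset.mem_insert_of_mem he') (fun h' => he (h' ▸ he')) a ha h) hp
    rw [← huv, ← Finset.union_insert] at m''
    have e2 : S ∪ F.biUnion (fun e => (L e).toFinset) ∪ (L e).toFinset =
        S ∪ (insert e F).biUnion (fun e => (L e).toFinset) := by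
      rw [Finset.biUnion_insert, Finset.union_comm (L e).toFinset, Finset.union_assoc]
    rw [e2] at m''
    exact ⟨_, m''⟩

open Classical in
/-- placing the other branch vertices so that the edges to the bad branch vertices are cheap -/
theorem Near.embed_cost [Fintype V] [Fintype α] [Fact (1 < q)] {w : α → α → ZMod q} {β L : ℕ}
    {𝒢 : Finset α} (h : Near w β L 𝒢) (hq : 3 ≤ q) (hβ : 100 * q ≤ β) (hL : 8 * β ≤ L)
    (hN : 0 < Fintype.card α) (M : ℕ) (hM : 16 * β * q * (M + q) ≤ Fintype.card α)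
    (H : SimpleGraph V) (K : Finset V) (ξ : V → α) (hξ : ∀ v ∈ K, ξ v ∉ 𝒢)
    (hn : 8 * β * (Fintype.card α - 𝒢.card + Fintype.card V) ≤ Fintype.card α)
    (X : Finset V) :
    ∃ φ : V → α, (∀ v ∈ X, φ v ∈ 𝒢) ∧ (∀ u ∈ X, ∀ v ∈ X, φ u = φ v → u = v) ∧
      8 * β * ∑ v' ∈ X, ∑ v ∈ NE H K v', kap w M (ξ v) (φ v') + ∑ v' ∈ X, (NE H K v').card ≤
        8 * β * ((q - 1) * ∑ v' ∈ X, (NE H K v').card) := by
  induction X using Finset.induction_on with
  | empty =>
    have hα : Nonempty α := Fintype.card_pos_iff.1 hN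
    exact ⟨fun _ => Classical.arbitrary α, by simp, by simp, by simp⟩
  | insert v' X hv' ih =>
    obtain ⟨φ, h1, h2, h3⟩ := ih
    set N := Fintype.card α with hN'
    have h𝒢N : 𝒢.card ≤ N := Finset.card_le_univ 𝒢
    have hXn : X.card < Fintype.card V := Finset.card_lt_univ_of_notMem hv'
    set C := 𝒢 \ X.image φ with hC
    have hCc : N - C.card ≤ N - 𝒢.card + Fintype.card V := by
      have e1 := Finset.le_card_sdiff (X.image φ) 𝒢
      have e2 := Finset.card_image_le (s := X) (f := φ)
      rw [← hC] at e1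
      omega
    have hCN : 8 * β * (N - C.card) ≤ N := (Nat.mul_le_mul_left _ hCc).trans hn
    have hCpos : 0 < C.card := by
      have e1 : 8 * 300 * (N - C.card) ≤ 8 * β * (N - C.card) :=
        Nat.mul_le_mul_right _ (by omega)
      omega
    set Nv := NE H K v' with hNv
    have havg : ∀ v ∈ Nv, 8 * β * ∑ y ∈ C, kap w M (ξ v) y + C.card ≤
        8 * β * ((q - 1) * C.card) := by
      intro v hv
      exact h.bad_avg hq hβ hL hN M hM (ξ v) (hξ v (mem_NE.1 hv).1) C Finset.sdiff_subset hCN
    have hsum := Finset.sum_le_sum havg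
    rw [Finset.sum_add_distrib, ← Finset.mul_sum, Finset.sum_const, Finset.sum_const,
      smul_eq_mul, smul_eq_mul, Finset.sum_comm] at hsum
    obtain ⟨y, hyC, hy⟩ : ∃ y ∈ C, 8 * β * ∑ v ∈ Nv, kap w M (ξ v) y + Nv.card ≤
        8 * β * ((q - 1) * Nv.card) := by
      by_contra hcon
      push Not at hcon
      have e1 := Finset.sum_lt_sum_of_nonempty (Finset.card_pos.1 hCpos) hcon
      rw [Finset.sum_const, smul_eq_mul] at e1
      have e1' : ∑ y ∈ C, (8 * β * ∑ v ∈ Nv, kap w M (ξ v) y + Nv.card) =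
          8 * β * ∑ y ∈ C, ∑ v ∈ Nv, kap w M (ξ v) y + C.card * Nv.card := by
        rw [Finset.sum_add_distrib, ← Finset.mul_sum, Finset.sum_const, smul_eq_mul]
      rw [e1'] at e1
      have e2 : C.card * (8 * β * ((q - 1) * Nv.card)) = Nv.card * (8 * β * ((q - 1) * C.card)) := by
        ring
      have e3 : C.card * Nv.card = Nv.card * C.card := mul_comm _ _
      omega
    have hyX : ∀ u ∈ X, φ u ≠ y := by
      intro u hu hφ
      exact (Finset.mem_sdiff.1 hyC).2 (hφ ▸ Finset.mem_image_of_mem φ hu)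
    have hφv : ∀ a ∈ X, Function.update φ v' y a = φ a := by
      intro a ha
      rw [Function.update_of_ne]
      rintro rfl; exact hv' ha
    refine ⟨Function.update φ v' y, ?_, ?_, ?_⟩
    · intro u hu
      rw [Finset.mem_insert] at hu
      rcases hu with rfl | hu
      · rw [Function.update_self]; exact (Finset.mem_sdiff.1 hyC).1
      · rw [hφv u hu]; exact h1 u hu
    · intro a ha b hb hab
      rw [Finset.mem_insert] at ha hb
      rcases ha with rfl | ha <;> rcases hb with rfl | hb
      · rfl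
      · rw [Function.update_self, hφv b hb] at hab
        exact absurd hab.symm (hyX b hb)
      · rw [Function.update_self, hφv a ha] at hab
        exact absurd hab (hyX a ha)
      · rw [hφv a ha, hφv b hb] at hab
        exact h2 a ha b hb hab
    · rw [Finset.sum_insert hv', Finset.sum_insert hv', Function.update_self]
      have e1 : ∑ u ∈ X, ∑ v ∈ NE H K u, kap w M (ξ v) (Function.update φ v' y u) =
          ∑ u ∈ X, ∑ v ∈ NE H K u, kap w M (ξ v) (φ u) := by
        apply Finset.sum_congr rfl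
        intro u hu
        rw [hφv u hu]
      rw [e1, ← hNv]
      have e2 : ∀ a b : ℕ, 8 * β * (a + b) = 8 * β * a + 8 * β * b := fun a b => by ring
      have e3 : 8 * β * ((q - 1) * (Nv.card + ∑ u ∈ X, (NE H K u).card)) =
          8 * β * ((q - 1) * Nv.card) + 8 * β * ((q - 1) * ∑ u ∈ X, (NE H K u).card) := by ring
      rw [e2, e3]
      omega

/-- the edges between `K` and its complement -/
noncomputable def CE [Fintype V] (H : SimpleGraph V) (K : Finset V) : Finset (Sym2 V) := by
  classical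
  exact (Kᶜ.sigma (fun v' => NE H K v')).image (fun p => s(p.2, p.1))

open Classical in
theorem mem_CE [Fintype V] {H : SimpleGraph V} {K : Finset V} {e : Sym2 V} :
    e ∈ CE H K ↔ ∃ u v, e = s(u, v) ∧ u ∈ K ∧ v ∉ K ∧ H.Adj u v := by
  unfold CE
  rw [Finset.mem_image]
  constructor
  · rintro ⟨⟨v', v⟩, hp, rfl⟩
    rw [Finset.mem_sigma, Finset.mem_compl, mem_NE] at hp
    exact ⟨v, v', rfl, hp.2.1, hp.1, hp.2.2.symm⟩
  · rintro ⟨u, v, rfl, hu, hv, hadj⟩
    refine ⟨⟨v, u⟩, ?_, rfl⟩
    rw [Finset.mem_sigma, Finset.mem_compl, mem_NE]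
    exact ⟨hv, hu, hadj.symm⟩

open Classical in
theorem CE_partition [Fintype V] (H : SimpleGraph V) (K : Finset V) :
    (CE H K ∪ EE H K) ∪ EE H Kᶜ = EE H Finset.univ := by
  ext e
  induction e using Sym2.ind with
  | _ u v =>
    rw [Finset.mem_union, Finset.mem_union, mem_CE, mk_mem_EE, mk_mem_EE, mk_mem_EE,
      Finset.mem_compl, Finset.mem_compl]
    constructor
    · rintro ((⟨a, b, hab, _, _, hadj⟩ | h) | h)
      · refine ⟨⟨Finset.mem_univ _, Finset.mem_univ _⟩, ?_⟩
        rw [Sym2.eq_iff] at hab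
        rcases hab with ⟨rfl, rfl⟩ | ⟨rfl, rfl⟩
        · exact hadj
        · exact hadj.symm
      · exact ⟨⟨Finset.mem_univ _, Finset.mem_univ _⟩, h.2⟩
      · exact ⟨⟨Finset.mem_univ _, Finset.mem_univ _⟩, h.2⟩
    · rintro ⟨_, hadj⟩
      by_cases hu : u ∈ K <;> by_cases hv : v ∈ K
      · exact Or.inl (Or.inr ⟨⟨hu, hv⟩, hadj⟩)
      · exact Or.inl (Or.inl ⟨u, v, rfl, hu, hv, hadj⟩)
      · exact Or.inl (Or.inl ⟨v, u, Sym2.eq_swap, hv, hu, hadj.symm⟩)
      · exact Or.inr ⟨⟨hu, hv⟩, hadj⟩

open Classical in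
/-- serving the edges at `K` -/
theorem Near.serve_K [Fintype V] [Fintype α] [Fact (1 < q)] {w : α → α → ZMod q} {β L : ℕ}
    {𝒢 : Finset α} (h : Near w β L 𝒢) (hβ : 100 * q ≤ β) (hL : 100 ≤ L)
    (hN : 0 < Fintype.card α) (M : ℕ) (hM : 100 * q * (M + q) ≤ Fintype.card α)
    (H : SimpleGraph V) (K : Finset V) (ψ : V → α) (hψ : Function.Injective ψ)
    (hK : ∀ v, v ∉ K → ψ v ∈ 𝒢)
    (hn : Fintype.card V + q * ∑ v' ∈ Kᶜ, (NE H K v').card + (2 * q + 1) * (EE H K).card +
      (2 * q + 1) ≤ M) :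
    ∃ S I, Finset.univ.image ψ ⊆ S ∧ Model w (CE H K ∪ EE H K) Finset.univ S ψ I ∧
      S.card ≤ Fintype.card V + ∑ v' ∈ Kᶜ, ∑ v ∈ NE H K v', kap w M (ψ v) (ψ v') +
        (2 * q + 1) * (EE H K).card := by
  have hqp : 1 < q := Fact.out
  have hq2 : 2 ≤ q := hqp
  have himg : (Finset.univ.image ψ).card = Fintype.card V := by
    rw [Finset.card_image_of_injective _ hψ, Finset.card_univ]
  have hconn : ∀ v' ∉ K, ∀ v, Conn w M q (ψ v) (ψ v') := fun v' hv' v =>
    h.conn_any hβ hL hN M hM _ _ (hK v' hv')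
  have hkapq : ∑ v' ∈ Kᶜ, ∑ v ∈ NE H K v', kap w M (ψ v) (ψ v') ≤
      q * ∑ v' ∈ Kᶜ, (NE H K v').card := by
    rw [Finset.mul_sum]
    apply Finset.sum_le_sum
    intro v' hv'
    rw [mul_comm, ← smul_eq_mul]
    apply Finset.sum_le_card_nsmul
    intro v _
    exact kap_le (hconn v' (Finset.mem_compl.1 hv') v)
  have m₀ : Model w (∅ : Finset (Sym2 V)) Finset.univ (Finset.univ.image ψ) ψ (fun _ => []) := by
    refine ⟨fun a _ b _ hab => hψ hab, fun a _ => Finset.mem_image_of_mem _ (Finset.mem_univ _),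
      ?_, ?_, ?_, ?_, ?_, ?_⟩
    · intro e he; exact absurd he (Finset.notMem_empty e)
    · intro e he; exact absurd he (Finset.notMem_empty e)
    · intro e he; exact absurd he (Finset.notMem_empty e)
    · intro e he; exact absurd he (Finset.notMem_empty e)
    · intro e he; exact absurd he (Finset.notMem_empty e)
    · intro e he; exact absurd he (Finset.notMem_empty e)
  have hsig : ∑ p ∈ (Kᶜ).sigma (fun v' => NE H K v'), kap w M (ψ p.2) (ψ p.1) =
      ∑ v' ∈ Kᶜ, ∑ v ∈ NE H K v', kap w M (ψ v) (ψ v') := Finset.sum_sigma _ _ _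
  obtain ⟨S₁, I₁, hS₁, m₁, hS₁c⟩ := m₀.addIdx ((Kᶜ).sigma (fun v' => NE H K v'))
    (fun p => s(p.2, p.1)) (fun p => kap w M (ψ p.2) (ψ p.1)) M
    (by rw [hsig, himg]; omega) (by
      rintro ⟨v', v⟩ hp S' _ hS'
      rw [Finset.mem_sigma, Finset.mem_compl] at hp
      refine ⟨v, v', rfl, Finset.mem_univ _, Finset.mem_univ _, ?_⟩
      exact kap_spec (hconn v' hp.1 v) S' hS')
  rw [hsig, himg] at hS₁c
  have hCE : (∅ : Finset (Sym2 V)) ∪ ((Kᶜ).sigma (fun v' => NE H K v')).image
      (fun p => s(p.2, p.1)) = CE H K := by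
    rw [Finset.empty_union]
    ext e
    rw [mem_CE, Finset.mem_image]
    constructor
    · rintro ⟨⟨v', v⟩, hp, rfl⟩
      rw [Finset.mem_sigma, Finset.mem_compl, mem_NE] at hp
      exact ⟨v, v', rfl, hp.2.1, hp.1, hp.2.2.symm⟩
    · rintro ⟨u, v, rfl, hu, hv, hadj⟩
      refine ⟨⟨v, u⟩, ?_, rfl⟩
      rw [Finset.mem_sigma, Finset.mem_compl, mem_NE]
      exact ⟨hv, hu, hadj.symm⟩
  rw [hCE] at m₁
  obtain ⟨S₂, I₂, hS₂, m₂, hS₂c⟩ := m₁.addGen (EE H K) (2 * q + 1) (M - (2 * q + 1))
    (by omega) (by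
      intro e he S' _ hS'
      induction e using Sym2.ind with
      | _ u v =>
        refine ⟨u, v, rfl, Finset.mem_univ _, Finset.mem_univ _, ?_⟩
        -- an unused good vertex
        obtain ⟨y, hy𝒢, hyS⟩ : ∃ y ∈ 𝒢, y ∉ S' := by
          by_contra hcon
          push Not at hcon
          have h1 := Finset.card_le_card (fun a ha => hcon a ha : 𝒢 ⊆ S')
          have h2 := h.few
          have h3 := Nat.mul_le_mul_right (Fintype.card α - 𝒢.card) hL
          have h4 : M + q ≤ 100 * q * (M + q) := Nat.le_mul_of_pos_left _ (by positivity)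
          have h5 : 200 * (M + q) ≤ 100 * q * (M + q) := Nat.mul_le_mul_right _ (by omega)
          omega
        obtain ⟨l₁, a1, a2, a3, a4⟩ := h.conn_any hβ hL hN M hM (ψ u) y hy𝒢 (insert y S') (by
          have := Finset.card_insert_le y S'
          omega)
        obtain ⟨l₂, b1, b2, b3, b4⟩ := h.conn_any hβ hL hN M hM (ψ v) y hy𝒢
          (insert y (S' ∪ l₁.toFinset)) (by
          have c1 := Finset.card_insert_le y (S' ∪ l₁.toFinset)
          have c2 := Finset.card_union_le S' l₁.toFinset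
          have c3 := List.toFinset_card_le l₁
          omega)
        have b2' : ∀ z ∈ l₂, z ≠ y ∧ z ∉ S' ∧ z ∉ l₁ := by
          intro z hz
          have := b2 z hz
          rw [Finset.mem_insert, Finset.mem_union, List.mem_toFinset] at this
          tauto
        have a2' : ∀ z ∈ l₁, z ≠ y ∧ z ∉ S' := by
          intro z hz
          have := a2 z hz
          rw [Finset.mem_insert] at this
          tauto
        refine ⟨l₁ ++ y :: l₂.reverse, ?_, ?_, ?_, ?_⟩
        · rw [List.nodup_append]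
          refine ⟨a1, ?_, ?_⟩
          · rw [List.nodup_cons, List.mem_reverse]
            exact ⟨fun hyl => (b2' y hyl).1 rfl, List.nodup_reverse.2 b1⟩
          · intro z hz z' hz' hzz
            subst hzz
            rw [List.mem_cons, List.mem_reverse] at hz'
            rcases hz' with hz' | hz'
            · exact (a2' z hz).1 hz'
            · exact (b2' z hz').2.2 hz
        · intro z hz
          rw [List.mem_append, List.mem_cons, List.mem_reverse] at hz
          rcases hz with hz | rfl | hz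
          · exact (a2' z hz).2
          · exact hyS
          · exact (b2' z hz).2.1
        · rw [List.length_append, List.length_cons, List.length_reverse]
          omega
        · rw [List.append_assoc, List.cons_append, pw_append, a4, zero_add, ← b4,
            ← pw_reverse w h.symm (ψ v :: (l₂ ++ [y]))]
          congr 1
          simp)
  refine ⟨S₂, I₂, hS₁.trans hS₂, m₂, ?_⟩
  omega

end

end MP0dbebe
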