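import Pool.Agent.Lib.MP_0dbebe_co.PackC

/-! # Almost constant weights: packing the remaining vertices, `q ≥ 4` -/

namespace MP0dbebe

section
variable {ι α : Type*}

open Classical in
theorem hall_exists (F : Finset ι) (Y : Finset α) (ρ : ι → α → Prop) (f₀ : ι → α)
    (h : ∀ s ⊆ F, s.Nonempty → s.card ≤ (Y.filter (fun y => ∃ e ∈ s, ρ e y)).card) :
    ∃ f : ι → α, (∀ e ∈ F, f e ∈ Y ∧ ρ e (f e)) ∧ ∀ e ∈ F, ∀ e' ∈ F, f e = f e' → e = e' := by
  have hall : ∀ s : Finset F, s.card ≤ (s.biUnion (fun e => Y.filter (fun y => ρ e.1 y))).card := by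
    intro s
    rcases s.eq_empty_or_nonempty with rfl | hne
    · simp
    · have h1 := h (s.image Subtype.val) (by
        intro e he
        rw [Finset.mem_image] at he
        obtain ⟨e', _, rfl⟩ := he
        exact e'.2) (hne.image _)
      rw [Finset.card_image_of_injective _ Subtype.val_injective] at h1
      refine h1.trans (Finset.card_le_card ?_)
      intro y hy
      rw [Finset.mem_filter] at hy
      obtain ⟨hyY, e, he, hρ⟩ := hy
      rw [Finset.mem_image] at he
      obtain ⟨e', he', rfl⟩ := he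
      exact Finset.mem_biUnion.2 ⟨e', he', Finset.mem_filter.2 ⟨hyY, hρ⟩⟩
  obtain ⟨f, hf, hf2⟩ := (Finset.all_card_le_biUnion_card_iff_exists_injective _).1 hall
  have hfm : ∀ e (he : e ∈ F), f ⟨e, he⟩ ∈ Y ∧ ρ e (f ⟨e, he⟩) := by
    intro e he
    have := hf2 ⟨e, he⟩
    rw [Finset.mem_filter] at this
    exact this
  refine ⟨fun e => if he : e ∈ F then f ⟨e, he⟩ else f₀ e, ?_, ?_⟩
  · intro e he
    simp only [he, dif_pos]
    exact hfm e he
  · intro e he e' he' hee
    simp only [he, he', dif_pos] at hee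
    exact congrArg Subtype.val (hf hee)

open Classical in
theorem hall_bal (F : Finset ι) (Y : Finset α) (ρ : ι → α → Prop) (f₀ : ι → α) (d : ℕ)
    (hc : F.card ≤ Y.card)
    (h1 : ∀ e ∈ F, ∃ T : Finset α, (∀ y ∈ Y, ¬ ρ e y → y ∈ T) ∧ T.card ≤ d)
    (h2 : ∀ y ∈ Y, ∃ T : Finset ι, (∀ e ∈ F, ¬ ρ e y → e ∈ T) ∧ T.card ≤ d)
    (hd : 2 * d ≤ F.card) :
    ∃ f : ι → α, (∀ e ∈ F, f e ∈ Y ∧ ρ e (f e)) ∧ ∀ e ∈ F, ∀ e' ∈ F, f e = f e' → e = e' := by
  apply hall_exists F Y ρ f₀
  intro s hs hne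
  rcases Nat.lt_or_ge d s.card with hlt | hge
  · have : Y.filter (fun y => ∃ e ∈ s, ρ e y) = Y := by
      apply Finset.filter_true_of_mem
      intro y hy
      by_contra hcon
      push Not at hcon
      obtain ⟨T, hT1, hT2⟩ := h2 y hy
      have h3 : s ⊆ T := fun e he => hT1 e (hs he) (hcon e he)
      have h4 := Finset.card_le_card h3
      omega
    rw [this]
    exact (Finset.card_le_card hs).trans hc
  · obtain ⟨e, he⟩ := hne
    obtain ⟨T, hT1, hT2⟩ := h1 e (hs he)
    have h5 : Y \ T ⊆ Y.filter (fun y => ∃ e ∈ s, ρ e y) := by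
      intro y hy
      rw [Finset.mem_sdiff] at hy
      refine Finset.mem_filter.2 ⟨hy.1, e, he, ?_⟩
      by_contra hρ
      exact hy.2 (hT1 y hy.1 hρ)
    have h6 := Finset.card_le_card h5
    have h7 := Finset.le_card_sdiff T Y
    omega

open Classical in
theorem hall_greedy (F : Finset ι) (Y : Finset α) (ρ : ι → α → Prop) (f₀ : ι → α)
    (h : ∀ e ∈ F, ∃ T : Finset α, (∀ y ∈ Y, ¬ ρ e y → y ∈ T) ∧ F.card + T.card ≤ Y.card) :
    ∃ f : ι → α, (∀ e ∈ F, f e ∈ Y ∧ ρ e (f e)) ∧ ∀ e ∈ F, ∀ e' ∈ F, f e = f e' → e = e' := by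
  apply hall_exists F Y ρ f₀
  intro s hs hne
  obtain ⟨e, he⟩ := hne
  obtain ⟨T, hT1, hT2⟩ := h e (hs he)
  have h5 : Y \ T ⊆ Y.filter (fun y => ∃ e ∈ s, ρ e y) := by
    intro y hy
    rw [Finset.mem_sdiff] at hy
    refine Finset.mem_filter.2 ⟨hy.1, e, he, ?_⟩
    by_contra hρ
    exact hy.2 (hT1 y hy.1 hρ)
  have h6 := Finset.card_le_card h5
  have h7 := Finset.le_card_sdiff T Y
  have h8 := Finset.card_le_card hs
  omega

variable {q : ℕ}

open Classical in
theorem Near.pack_mid [Fintype α] {w : α → α → ZMod q} {β L : ℕ} {𝒢 : Finset α}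
    (h : Near w β L 𝒢) (hβ : 0 < β) (F : Finset ι) (hF : 4 * Fintype.card α ≤ β * F.card) (r : ℕ) :
    ∀ (A A' : ι → α) (Y : Finset α), (∀ e ∈ F, A e ∈ 𝒢) → (∀ e ∈ F, A' e ∈ 𝒢) →
      (∀ e ∈ F, ∀ e' ∈ F, A e = A e' → e = e') → (∀ e ∈ F, ∀ e' ∈ F, A' e = A' e' → e = e') →
      Y ⊆ 𝒢 → Y.card = (r + 1) * F.card →
      ∃ L : ι → List α, (∀ e ∈ F, (L e).Nodup) ∧ (∀ e ∈ F, ∀ x ∈ L e, x ∈ Y) ∧
        (∀ e ∈ F, ∀ e' ∈ F, e ≠ e' → ∀ x ∈ L e, x ∉ L e') ∧
        ∀ e ∈ F, pw w (A e :: (L e ++ [A' e])) = ((r + 2 : ℕ) : ZMod q) := by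
  have hEx : ∀ x ∈ 𝒢, 4 * (Ex w x).card ≤ F.card := by
    intro x hx
    have h1 := h.good x hx
    have h2 : β * (4 * (Ex w x).card) ≤ β * F.card := by
      have : β * (4 * (Ex w x).card) = 4 * (β * (Ex w x).card) := by ring
      omega
    exact Nat.le_of_mul_le_mul_left h2 hβ
  -- exceptional indices of a vertex
  have hidx : ∀ (A : ι → α), (∀ e ∈ F, ∀ e' ∈ F, A e = A e' → e = e') → ∀ y ∈ 𝒢,
      ∃ T : Finset ι, (∀ e ∈ F, ¬ w (A e) y = 1 → e ∈ T) ∧ T.card ≤ (Ex w y).card := by
    intro A hA y _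
    refine ⟨F.filter (fun e => A e ∈ Ex w y), ?_, ?_⟩
    · intro e he hne
      refine Finset.mem_filter.2 ⟨he, ?_⟩
      rw [mem_Ex, h.symm]
      exact hne
    · apply Finset.card_le_card_of_injOn A
      · intro e he
        exact (Finset.mem_filter.1 (Finset.mem_coe.1 he)).2
      · intro e he e' he' hee
        exact hA e (Finset.mem_filter.1 (Finset.mem_coe.1 he)).1 e'
          (Finset.mem_filter.1 (Finset.mem_coe.1 he')).1 hee
  induction r with
  | zero =>
    intro A A' Y hA hA' hAi hAi' hY hYc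
    obtain ⟨f, hf1, hf2⟩ := hall_bal F Y (fun e y => w (A e) y = 1 ∧ w y (A' e) = 1) A (F.card / 2)
      (by omega) (by
        intro e he
        refine ⟨Ex w (A e) ∪ Ex w (A' e), ?_, ?_⟩
        · intro y _ hy
          rw [Finset.mem_union, mem_Ex, mem_Ex, h.symm (A' e) y]
          tauto
        · have h2 := Finset.card_union_le (Ex w (A e)) (Ex w (A' e))
          have h3 := hEx _ (hA e he)
          have h4 := hEx _ (hA' e he)
          omega) (by
        intro y hy
        obtain ⟨T, hT1, hT2⟩ := hidx A hAi y (hY hy)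
        obtain ⟨T', hT1', hT2'⟩ := hidx A' hAi' y (hY hy)
        refine ⟨T ∪ T', ?_, ?_⟩
        · intro e he hρ
          rw [Finset.mem_union]
          by_cases h1 : w (A e) y = 1
          · right
            apply hT1' e he
            rw [h.symm]
            tauto
          · exact Or.inl (hT1 e he h1)
        · have h2 := Finset.card_union_le T T'
          have h5 := hEx _ (hY hy)
          omega) (by omega)
    refine ⟨fun e => [f e], by simp, ?_, ?_, ?_⟩
    · intro e he x hx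
      rw [List.mem_singleton] at hx
      subst hx
      exact (hf1 e he).1
    · intro e he e' he' hne x hx hx'
      rw [List.mem_singleton] at hx hx'
      exact hne (hf2 e he e' he' (hx.symm.trans hx'))
    · intro e he
      rw [List.singleton_append, pw_cons_cons, pw_cons_cons, pw_single, (hf1 e he).2.1,
        (hf1 e he).2.2]
      push_cast; ring
  | succ r ih =>
    intro A A' Y hA hA' hAi hAi' hY hYc
    obtain ⟨Y₁, hY₁, hY₁c⟩ := Finset.exists_subset_card_eq (s := Y) (n := F.card) (by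
      rw [hYc]; exact Nat.le_mul_of_pos_left _ (by omega))
    obtain ⟨f, hf1, hf2⟩ := hall_bal F Y₁ (fun e y => w (A e) y = 1) A (F.card / 2)
      (by omega) (by
        intro e he
        refine ⟨Ex w (A e), ?_, ?_⟩
        · intro y _ hy
          rw [mem_Ex]
          exact hy
        · have h3 := hEx _ (hA e he)
          omega) (by
        intro y hy
        obtain ⟨T, hT1, hT2⟩ := hidx A hAi y (hY (hY₁ hy))
        have h5 := hEx _ (hY (hY₁ hy))
        exact ⟨T, hT1, by omega⟩) (by omega)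
    obtain ⟨L₂, k1, k2, k3, k4⟩ := ih f A' (Y \ Y₁) (fun e he => hY (hY₁ (hf1 e he).1)) hA' hf2
      hAi' (Finset.sdiff_subset.trans hY) (by
        have := Finset.card_sdiff_add_card_eq_card hY₁
        rw [hYc, hY₁c] at this
        have e1 : (r + 1 + 1) * F.card = (r + 1) * F.card + F.card := by ring
        omega)
    refine ⟨fun e => f e :: L₂ e, ?_, ?_, ?_, ?_⟩
    · intro e he
      rw [List.nodup_cons]
      refine ⟨fun hmem => ?_, k1 e he⟩
      exact (Finset.mem_sdiff.1 (k2 e he _ hmem)).2 (hf1 e he).1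
    · intro e he x hx
      rw [List.mem_cons] at hx
      rcases hx with rfl | hx
      · exact hY₁ (hf1 e he).1
      · exact (Finset.mem_sdiff.1 (k2 e he _ hx)).1
    · intro e he e' he' hne x hx hx'
      rw [List.mem_cons] at hx hx'
      rcases hx with rfl | hx <;> rcases hx' with hx' | hx'
      · exact hne (hf2 e he e' he' hx')
      · exact (Finset.mem_sdiff.1 (k2 e' he' _ hx')).2 (hf1 e he).1
      · exact (Finset.mem_sdiff.1 (k2 e he _ hx)).2 (hx' ▸ (hf1 e' he').1)
      · exact k3 e he e' he' hne x hx hx'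
    · intro e he
      rw [List.cons_append, pw_cons_cons, k4 e he, (hf1 e he).2]
      push_cast; ring

end

section
variable {V α : Type*} {q : ℕ}

open Classical in
/-- **Packing**, `q ≥ 4`. -/
theorem Near.finish_ge4 [Fintype V] [Fintype α] [Fact (1 < q)] {w : α → α → ZMod q} {β L : ℕ}
    {𝒢 : Finset α} (h : Near w β L 𝒢) (hq : 4 ≤ q) (hβ : 0 < β)
    (H : SimpleGraph V) (K : Finset V) {S : Finset α} {ψ : V → α} {I : Sym2 V → List α}
    (m : Model w (CE H K ∪ EE H K) Finset.univ S ψ I) (hK : ∀ v, v ∉ K → ψ v ∈ 𝒢)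
    (hF : 4 * Fintype.card α ≤ β * (EE H Kᶜ).card)
    (hU : (q - 1) * (EE H Kᶜ).card ≤ (𝒢 \ S).card) :
    HasModel w (EE H Finset.univ) Finset.univ Finset.univ := by
  set F := EE H Kᶜ with hFdef
  -- the ends
  have hends : ∀ e : Sym2 V, ∃ u v, e = s(u, v) := by
    intro e
    induction e using Sym2.ind with
    | _ u v => exact ⟨u, v, rfl⟩
  choose src dst hsd using hends
  have hFK : ∀ e ∈ F, src e ∉ K ∧ dst e ∉ K := by
    intro e he
    have h1 : s(src e, dst e) ∈ F := by rw [← hsd e]; exact he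
    rw [hFdef, mk_mem_EE, Finset.mem_compl, Finset.mem_compl] at h1
    exact h1.1
  have hEx : ∀ x ∈ 𝒢, 4 * (Ex w x).card ≤ F.card := by
    intro x hx
    have h1 := h.good x hx
    have h2 : β * (4 * (Ex w x).card) ≤ β * F.card := by
      have : β * (4 * (Ex w x).card) = 4 * (β * (Ex w x).card) := by ring
      omega
    exact Nat.le_of_mul_le_mul_left h2 hβ
  have h3F : 3 * F.card ≤ (𝒢 \ S).card := by
    refine le_trans (Nat.mul_le_mul_right _ (by omega)) hU
  -- the first vertices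
  obtain ⟨A, hA1, hA2⟩ := hall_greedy F (𝒢 \ S) (fun e y => w (ψ (src e)) y = 1)
    (fun e => ψ (src e)) (by
      intro e he
      have h4 := hEx _ (hK _ (hFK e he).1)
      exact ⟨Ex w (ψ (src e)), fun y _ hy => by rw [mem_Ex]; exact hy, by omega⟩)
  have hAim : (F.image A).card ≤ F.card := Finset.card_image_le
  -- the last vertices
  obtain ⟨A', hA1', hA2'⟩ := hall_greedy F ((𝒢 \ S) \ F.image A)
    (fun e y => w (ψ (dst e)) y = 1) (fun e => ψ (src e)) (by
      intro e he
      have h4 := hEx _ (hK _ (hFK e he).2)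
      have h5 := Finset.le_card_sdiff (F.image A) (𝒢 \ S)
      exact ⟨Ex w (ψ (dst e)), fun y _ hy => by rw [mem_Ex]; exact hy, by omega⟩)
  have hAim' : (F.image A').card ≤ F.card := Finset.card_image_le
  -- the middle vertices
  obtain ⟨Y, hYsub, hYc⟩ := Finset.exists_subset_card_eq
    (s := ((𝒢 \ S) \ F.image A) \ F.image A') (n := (q - 4 + 1) * F.card) (by
      have h5 := Finset.le_card_sdiff (F.image A) (𝒢 \ S)
      have h6 := Finset.le_card_sdiff (F.image A') ((𝒢 \ S) \ F.image A)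
      have h7 : (q - 1) * F.card = (q - 4 + 1) * F.card + 2 * F.card := by
        rw [← add_mul]
        congr 1
        omega
      omega)
  have hYmem : ∀ y ∈ Y, y ∈ 𝒢 ∧ y ∉ S ∧ y ∉ F.image A ∧ y ∉ F.image A' := by
    intro y hy
    have := hYsub hy
    rw [Finset.mem_sdiff, Finset.mem_sdiff, Finset.mem_sdiff] at this
    tauto
  obtain ⟨L₂, k1, k2, k3, k4⟩ := h.pack_mid hβ F hF (q - 4) A A' Y
    (fun e he => (Finset.mem_sdiff.1 (hA1 e he).1).1)
    (fun e he => (Finset.mem_sdiff.1 (Finset.mem_sdiff.1 (hA1' e he).1).1).1) hA2 hA2'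
    (fun y hy => (hYmem y hy).1) hYc
  have hAS : ∀ e ∈ F, A e ∉ S := fun e he => (Finset.mem_sdiff.1 (hA1 e he).1).2
  have hAS' : ∀ e ∈ F, A' e ∉ S := fun e he =>
    (Finset.mem_sdiff.1 (Finset.mem_sdiff.1 (hA1' e he).1).1).2
  have hAA' : ∀ e ∈ F, ∀ e' ∈ F, A e ≠ A' e' := by
    intro e he e' he' hee
    exact (Finset.mem_sdiff.1 (hA1' e' he').1).2 (hee ▸ Finset.mem_image_of_mem A he)
  have hL₂A : ∀ e ∈ F, ∀ e' ∈ F, A e ∉ L₂ e' := by
    intro e he e' he' hmem
    exact (hYmem _ (k2 e' he' _ hmem)).2.2.1 (Finset.mem_image_of_mem A he)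
  have hL₂A' : ∀ e ∈ F, ∀ e' ∈ F, A' e ∉ L₂ e' := by
    intro e he e' he' hmem
    exact (hYmem _ (k2 e' he' _ hmem)).2.2.2 (Finset.mem_image_of_mem A' he)
  obtain ⟨I', m'⟩ := m.addFamily F (fun e => A e :: (L₂ e ++ [A' e])) (by
      intro e he he'
      rw [Finset.mem_union, mem_CE] at he'
      obtain ⟨hs, hd⟩ := hFK e he
      rcases he' with ⟨u, v, huv, hu, _, _⟩ | he'
      · rw [hsd e, Sym2.eq_iff] at huv
        rcases huv with ⟨h1, _⟩ | ⟨_, h1⟩
        · exact hs (h1 ▸ hu)
        · exact hd (h1 ▸ hu)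
      · rw [hsd e, mk_mem_EE] at he'
        exact hs he'.1.1)
    (by
      intro e he
      rw [List.nodup_cons, List.mem_append, List.mem_singleton, List.nodup_append]
      refine ⟨fun hmem => hmem.elim (hL₂A e he e he) (hAA' e he e he), k1 e he, by simp, ?_⟩
      intro x hx y hy hxy
      rw [List.mem_singleton] at hy
      subst hy; subst hxy
      exact hL₂A' e he e he hx)
    (by
      intro e he x hx
      rw [List.mem_cons, List.mem_append, List.mem_singleton] at hx
      rcases hx with rfl | hx | rfl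
      · exact hAS e he
      · exact (hYmem _ (k2 e he _ hx)).2.1
      · exact hAS' e he)
    (by
      intro e he e' he' hne x hx hx'
      rw [List.mem_cons, List.mem_append, List.mem_singleton] at hx hx'
      rcases hx with rfl | hx | rfl <;> rcases hx' with hx' | hx' | hx'
      · exact hne (hA2 e he e' he' hx')
      · exact hL₂A e he e' he' hx'
      · exact hAA' e he e' he' hx'
      · exact hL₂A e' he' e he (hx' ▸ hx)
      · exact k3 e he e' he' hne x hx hx'
      · exact hL₂A' e' he' e he (hx' ▸ hx)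
      · exact hAA' e' he' e he hx'.symm
      · exact hL₂A' e he e' he' hx'
      · exact hne (hA2' e he e' he' hx'))
    (by
      intro e he
      refine ⟨src e, dst e, hsd e, Finset.mem_univ _, Finset.mem_univ _, ?_⟩
      rw [List.cons_append, List.append_assoc, List.singleton_append, pw_cons_cons, pw_append,
        k4 e he, pw_cons_cons, pw_single, (hA1 e he).2, h.symm (A' e), (hA1' e he).2]
      have h1 : ((q - 4 + 2 : ℕ) : ZMod q) = ((q : ℕ) : ZMod q) - 2 := by
        rw [show q - 4 + 2 = q - 2 by omega, Nat.cast_sub (by omega)]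
        norm_num
      rw [h1, ZMod.natCast_self]
      ring)
  rw [CE_partition] at m'
  exact ⟨ψ, I', m'.mono (Finset.subset_univ _)⟩

end

end MP0dbebe
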