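import Pool.Agent.Lib.MP_0dbebe_co.PackD

/-! # Almost constant weights, `q ≥ 4`: conclusion -/

namespace MP0dbebe

section
variable {V α : Type*} {q : ℕ}

theorem pw_scale (w : α → α → ZMod q) (c : ZMod q) (l : List α) :
    pw (fun a b => c * w a b) l = c * pw w l := by
  induction l with
  | nil => simp
  | cons a l ih =>
    cases l with
    | nil => simp
    | cons b l => rw [pw_cons_cons, pw_cons_cons, ih, mul_add]

theorem hasModel_scale_unit {w : α → α → ZMod q} {c : ZMod q} (hc : IsUnit c)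
    {E : Finset (Sym2 V)} {X : Finset V} {S : Finset α}
    (h : HasModel (fun a b => c * w a b) E X S) : HasModel w E X S := by
  obtain ⟨φ, I, m⟩ := h
  refine ⟨φ, I, m.inj, m.memφ, m.memI, m.nodup, m.avoid, m.disj, m.ends, ?_⟩
  intro e he
  obtain ⟨u, v, h1, h2⟩ := m.div e he
  refine ⟨u, v, h1, ?_⟩
  rw [pw_scale] at h2
  exact (hc.mul_right_eq_zero).1 h2

theorem hasModel_scale [Fact q.Prime] {w : α → α → ZMod q} {c : ZMod q} (hc : c ≠ 0)
    {E : Finset (Sym2 V)} {X : Finset V} {S : Finset α}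
    (h : HasModel (fun a b => c * w a b) E X S) : HasModel w E X S :=
  hasModel_scale_unit (isUnit_iff_ne_zero.2 hc) h

open Classical in
/-- almost all weights equal to `1`: the good vertices -/
theorem near_of_const [Fintype α] [Fact (1 < q)] {w : α → α → ZMod q} (hw : ∀ a b, w a b = w b a)
    (β L : ℕ) (hN : 2 * L * β ≤ Fintype.card α) (hpos : 0 < Fintype.card α)
    (hD : 2 * L * β * (((Finset.univ : Finset α) ×ˢ Finset.univ).filter
      (fun p => p.1 ≠ p.2 ∧ w p.1 p.2 ≠ 1)).card ≤ Fintype.card α ^ 2) :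
    ∃ 𝒢 : Finset α, Near w β L 𝒢 := by
  set N := Fintype.card α with hN'
  refine ⟨Finset.univ.filter (fun x => β * (Ex w x).card ≤ N), hw, ?_, ?_, ?_⟩
  · intro x hx
    exact (Finset.mem_filter.1 hx).2
  · intro x hx
    rw [Finset.mem_filter] at hx
    push Not at hx
    exact hx (Finset.mem_univ x)
  · set 𝒢 := Finset.univ.filter (fun x => β * (Ex w x).card ≤ N) with h𝒢
    rw [← hN', ← Finset.card_compl]
    have h1 : (𝒢ᶜ).card * N ≤ β * ∑ x : α, (Ex w x).card := by
      rw [Finset.mul_sum, ← smul_eq_mul]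
      refine le_trans (Finset.card_nsmul_le_sum 𝒢ᶜ (fun x => β * (Ex w x).card) N ?_)
        (Finset.sum_le_sum_of_subset (Finset.subset_univ _))
      intro x hx
      rw [Finset.mem_compl, h𝒢, Finset.mem_filter] at hx
      push Not at hx
      exact (hx (Finset.mem_univ x)).le
    have h2 : ∑ x : α, (Ex w x).card ≤ (((Finset.univ : Finset α) ×ˢ Finset.univ).filter
        (fun p => p.1 ≠ p.2 ∧ w p.1 p.2 ≠ 1)).card + N := by
      have e1 : ∀ x : α, (Ex w x).card ≤
          ((Finset.univ : Finset α).filter (fun y => x ≠ y ∧ w x y ≠ 1)).card + 1 := by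
        intro x
        have h3 : Ex w x ⊆ insert x (Finset.univ.filter (fun y => x ≠ y ∧ w x y ≠ 1)) := by
          intro y hy
          rw [mem_Ex] at hy
          rw [Finset.mem_insert]
          by_cases hxy : y = x
          · exact Or.inl hxy
          · exact Or.inr (Finset.mem_filter.2 ⟨Finset.mem_univ _, Ne.symm hxy, hy⟩)
        exact (Finset.card_le_card h3).trans (Finset.card_insert_le _ _)
      have e2 := Finset.sum_le_sum (fun x (_ : x ∈ (Finset.univ : Finset α)) => e1 x)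
      rw [Finset.sum_add_distrib, Finset.sum_const, Finset.card_univ, smul_eq_mul, mul_one] at e2
      refine e2.trans (Nat.add_le_add_right (le_of_eq ?_) _)
      rw [Finset.card_filter, Finset.sum_product]
      apply Finset.sum_congr rfl
      intro x _
      rw [Finset.card_filter]
    set T := (((Finset.univ : Finset α) ×ˢ Finset.univ).filter
        (fun p => p.1 ≠ p.2 ∧ w p.1 p.2 ≠ 1)).card with hT
    have h3 : 2 * (N * (L * (𝒢ᶜ).card)) ≤ 2 * (N * N) := by
      calc 2 * (N * (L * (𝒢ᶜ).card)) = 2 * L * ((𝒢ᶜ).card * N) := by ring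
        _ ≤ 2 * L * (β * (T + N)) :=
          Nat.mul_le_mul_left _ (h1.trans (Nat.mul_le_mul_left _ h2))
        _ = 2 * L * β * T + (2 * L * β) * N := by ring
        _ ≤ N ^ 2 + N * N := Nat.add_le_add hD (Nat.mul_le_mul_right _ hN)
        _ = 2 * (N * N) := by ring
    have h4 : N * (L * (𝒢ᶜ).card) ≤ N * N := by omega
    exact Nat.le_of_mul_le_mul_left h4 hpos

/-- degree parameter -/
def parB (q : ℕ) : ℕ := 100 * q

/-- rarity parameter -/
def parL (q : ℕ) : ℕ := 10 ^ 4 * parB q ^ 2 * q ^ 2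

open Classical in
/-- choosing and serving the bad part, all primes `q ≥ 3` -/
theorem Near.bad_part [Fintype V] [Fintype α] [Fact (1 < q)] {w : α → α → ZMod q}
    {𝒢 : Finset α} (h : Near w (parB q) (parL q) 𝒢) (hq : 3 ≤ q) (H : SimpleGraph V)
    (hc : Fintype.card α = (q - 1) * (EE H Finset.univ).card + Fintype.card V)
    (hE : parL q * (Fintype.card V + 1) ≤ (EE H Finset.univ).card) :
    ∃ (K : Finset V) (ξ : V → α) (M : ℕ), 100 * q * (M + q) ≤ Fintype.card α ∧
      16 * parB q * q * (M + q) ≤ Fintype.card α ∧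
      (∀ v ∈ K, ξ v ∉ 𝒢) ∧ (∀ u ∈ K, ∀ v ∈ K, ξ u = ξ v → u = v) ∧
      8 * parB q * (Fintype.card α - 𝒢.card + Fintype.card V) ≤ Fintype.card α ∧
      16 * parB q * (Fintype.card α - 𝒢.card + (q + 2) * (EE H K).card) ≤
        ∑ v' ∈ Kᶜ, (NE H K v').card ∧
      10 * (∑ v' ∈ Kᶜ, (NE H K v').card + (EE H K).card) ≤ (EE H Finset.univ).card ∧
      Fintype.card V + q * ∑ v' ∈ Kᶜ, (NE H K v').card + (2 * q + 1) * (EE H K).card +
        (2 * q + 1) ≤ M := by
  have hqp : 1 < q := Fact.out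
  set n := Fintype.card V with hn
  set E := (EE H Finset.univ).card with hEdef
  set N := Fintype.card α with hN
  set β := parB q with hβ
  set L := parL q with hL
  set b := N - 𝒢.card with hb
  have hβq : β = 100 * q := rfl
  have hLβ : L = 10 ^ 4 * β ^ 2 * q ^ 2 := rfl
  have hqpos : 0 < q := by omega
  have hβpos : 0 < β := by omega
  have hbL : L * b ≤ N := h.few
  have hNq : N ≤ q * E := by
    have h1 : n ≤ E := by
      have : n + 1 ≤ L * (n + 1) := Nat.le_mul_of_pos_left _ (by rw [hLβ, hβq]; positivity)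
      omega
    have h2 : q * E = (q - 1) * E + E := by
      obtain ⟨k, hk⟩ : ∃ k, q = k + 1 := ⟨q - 1, by omega⟩
      rw [hk, Nat.add_sub_cancel]; ring
    omega
  have hEN : E ≤ N := by
    have : E ≤ (q - 1) * E := Nat.le_mul_of_pos_left _ (by omega)
    omega
  -- all small quantities are measured by `β ^ 2 * q * x`
  have hbig1 : 10 ^ 4 * (β ^ 2 * q * b) ≤ E := by
    have h1 : q * (10 ^ 4 * (β ^ 2 * q * b)) ≤ q * E := by
      have : q * (10 ^ 4 * (β ^ 2 * q * b)) = L * b := by rw [hLβ]; ring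
      omega
    exact Nat.le_of_mul_le_mul_left h1 (by omega)
  have hbig2 : 10 ^ 4 * (β ^ 2 * q * (n + 1)) ≤ E := by
    refine le_trans ?_ hE
    rw [hLβ]
    calc 10 ^ 4 * (β ^ 2 * q * (n + 1)) = 10 ^ 4 * β ^ 2 * (n + 1) * q := by ring
      _ ≤ 10 ^ 4 * β ^ 2 * (n + 1) * q * q := Nat.le_mul_of_pos_right _ (by omega)
      _ = 10 ^ 4 * β ^ 2 * q ^ 2 * (n + 1) := by ring
  have hbig1' : 10 ^ 4 * (β ^ 2 * q ^ 2 * b) ≤ N := by
    have : 10 ^ 4 * (β ^ 2 * q ^ 2 * b) = L * b := by rw [hLβ]; ring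
    omega
  have hbig2' : 10 ^ 4 * (β ^ 2 * q ^ 2 * (n + 1)) ≤ N := by
    have : 10 ^ 4 * (β ^ 2 * q ^ 2 * (n + 1)) = L * (n + 1) := by rw [hLβ]; ring
    omega
  -- the choice of `K`
  set g := 16 * β with hg
  set A := g * (q + 2) + 2 with hA
  have hK0 : (1 + 2 * A) * (2 * g * b + n) + 2 * g * n < 2 * E := by
    have e1 : 1 + 2 * A ≤ 70 * (β * q) := by
      rw [hA, hg, hβq]
      nlinarith
    have e2 : 2 * g * b + n ≤ 32 * β * (b + (n + 1)) := by
      rw [hg]
      have : n ≤ 32 * β * (n + 1) := by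
        have : n + 1 ≤ 32 * β * (n + 1) := Nat.le_mul_of_pos_left _ (by omega)
        omega
      have e3 : 32 * β * (b + (n + 1)) = 2 * (16 * β) * b + 32 * β * (n + 1) := by ring
      omega
    have e3 : (1 + 2 * A) * (2 * g * b + n) ≤ 70 * (β * q) * (32 * β * (b + (n + 1))) :=
      Nat.mul_le_mul e1 e2
    have e4 : 70 * (β * q) * (32 * β * (b + (n + 1))) =
        2240 * (β ^ 2 * q * b) + 2240 * (β ^ 2 * q * (n + 1)) := by ring
    have e5 : 2 * g * n ≤ 32 * (β ^ 2 * q * (n + 1)) := by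
      rw [hg]
      calc 2 * (16 * β) * n = 32 * (β * n) := by ring
        _ ≤ 32 * (β ^ 2 * q * (n + 1)) := by
          apply Nat.mul_le_mul_left
          calc β * n ≤ β * (n + 1) := Nat.mul_le_mul_left _ (by omega)
            _ ≤ β * (n + 1) * (β * q) := Nat.le_mul_of_pos_right _ (by positivity)
            _ = β ^ 2 * q * (n + 1) := by ring
    have e6 : 0 < E := by
      have : 0 < 10 ^ 4 * (β ^ 2 * q * (n + 1)) := by positivity
      omega
    omega
  obtain ⟨K, hKb, hK1, hK2⟩ := choose_K_deg H g A b (by omega) hK0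
  set D := ∑ v ∈ K, (NE H Finset.univ v).card with hD
  set Sc := ∑ v' ∈ Kᶜ, (NE H K v').card with hSc
  set eK := (EE H K).card with heK
  -- degrees split
  have hDsplit : D = Sc + 2 * eK := by
    have h1 := sum_NE_comm H K Kᶜ
    have h2 := sum_NE H K
    have h3 : ∀ v ∈ K, (NE H Finset.univ v).card = (NE H Kᶜ v).card + (NE H K v).card := by
      intro v _
      rw [← Finset.card_union_of_disjoint]
      · congr 1
        ext x
        rw [Finset.mem_union, mem_NE, mem_NE, mem_NE, Finset.mem_compl]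
        by_cases hx : x ∈ K
        · constructor
          · exact fun h' => Or.inr ⟨hx, h'.2⟩
          · exact fun _ => ⟨Finset.mem_univ _, by tauto⟩
        · constructor
          · exact fun h' => Or.inl ⟨hx, h'.2⟩
          · exact fun _ => ⟨Finset.mem_univ _, by tauto⟩
      · rw [Finset.disjoint_left]
        intro x hx hx'
        rw [mem_NE] at hx hx'
        exact (Finset.mem_compl.1 hx.1) hx'.1
    rw [hD, Finset.sum_congr rfl h3, Finset.sum_add_distrib, h1, h2]
  have hDE : D ≤ 2 * g * b + n := hK2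
  -- bounds
  have hDsmall : 2 * g * b + n ≤ 32 * (β * (b + (n + 1))) := by
    rw [hg]
    have : n ≤ 32 * (β * (n + 1)) := by
      have : n + 1 ≤ β * (n + 1) := Nat.le_mul_of_pos_left _ (by omega)
      omega
    have e3 : 32 * (β * (b + (n + 1))) = 2 * (16 * β) * b + 32 * (β * (n + 1)) := by ring
    omega
  have hβsmall : 10 ^ 4 * (β * (b + (n + 1))) ≤ 2 * E := by
    have e1 : β * (b + (n + 1)) ≤ β ^ 2 * q * b + β ^ 2 * q * (n + 1) := by
      calc β * (b + (n + 1)) ≤ β * (b + (n + 1)) * (β * q) :=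
            Nat.le_mul_of_pos_right _ (by positivity)
        _ = _ := by ring
    omega
  set M := 5 * q * (32 * (β * (b + (n + 1)))) with hM
  have hMN : 16 * β * q * (M + q) ≤ N := by
    have e1 : 16 * β * q * (M + q) = 2560 * (β ^ 2 * q ^ 2 * (b + (n + 1))) + 16 * (β * q ^ 2) := by
      rw [hM]; ring
    have e2 : β * q ^ 2 ≤ β ^ 2 * q ^ 2 * (n + 1) := by
      calc β * q ^ 2 ≤ β * q ^ 2 * (β * (n + 1)) := Nat.le_mul_of_pos_right _ (by positivity)
        _ = _ := by ring
    have e3 : β ^ 2 * q ^ 2 * (b + (n + 1)) = β ^ 2 * q ^ 2 * b + β ^ 2 * q ^ 2 * (n + 1) := by ring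
    omega
  -- the injection
  obtain ⟨ξ, hξ1, hξ2⟩ : ∃ ξ : V → α, (∀ v ∈ K, ξ v ∉ 𝒢) ∧
      ∀ u ∈ K, ∀ v ∈ K, ξ u = ξ v → u = v := by
    have hα : Nonempty α := by
      have : 0 < N := by
        have : 0 < 10 ^ 4 * (β ^ 2 * q ^ 2 * (n + 1)) := by positivity
        omega
      exact Fintype.card_pos_iff.1 this
    have h1 : Fintype.card K ≤ Fintype.card (𝒢ᶜ : Finset α) := by
      rw [Fintype.card_coe, Fintype.card_coe, Finset.card_compl]
      exact hKb
    obtain ⟨f⟩ := Function.Embedding.nonempty_of_card_le h1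
    refine ⟨fun v => if hv : v ∈ K then (f ⟨v, hv⟩).1 else Classical.arbitrary α, ?_, ?_⟩
    · intro v hv
      simp only [hv, dif_pos]
      exact Finset.mem_compl.1 (f ⟨v, hv⟩).2
    · intro u hu v hv huv
      simp only [hu, hv, dif_pos] at huv
      exact congrArg Subtype.val (f.injective (Subtype.val_injective huv))
  refine ⟨K, ξ, M, ?_, hMN, hξ1, hξ2, ?_, ?_, ?_, ?_⟩
  · refine le_trans (Nat.mul_le_mul_right _ ?_) hMN
    have e1 : 16 * β * q = 1600 * q * q := by rw [hβq]; ring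
    have e2 : 100 * q ≤ 1600 * q * q := by
      calc 100 * q ≤ 1600 * q := by omega
        _ ≤ 1600 * q * q := Nat.le_mul_of_pos_right _ (by omega)
    omega
  · change 8 * β * (b + n) ≤ N
    have e1 : 8 * β * (b + n) ≤ 8 * (β * (b + (n + 1))) := by
      calc 8 * β * (b + n) = 8 * (β * (b + n)) := by ring
        _ ≤ _ := Nat.mul_le_mul_left _ (Nat.mul_le_mul_left _ (by omega))
    omega
  · -- savings
    change 16 * β * (b + (q + 2) * eK) ≤ Sc
    have e1 : 16 * β * (b + (q + 2) * eK) = g * b + g * (q + 2) * eK := by rw [hg]; ring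
    have e2 : A * eK = g * (q + 2) * eK + 2 * eK := by rw [hA]; ring
    omega
  · change 10 * (Sc + eK) ≤ E
    omega
  · change n + q * Sc + (2 * q + 1) * eK + (2 * q + 1) ≤ M
    have e1 : q * Sc + (2 * q + 1) * eK ≤ (2 * q + 1) * D := by
      rw [hDsplit]
      nlinarith
    have e2 : (2 * q + 1) * D ≤ (2 * q + 1) * (32 * (β * (b + (n + 1)))) :=
      Nat.mul_le_mul_left _ (by omega)
    have e3 : M = (2 * q + 1) * (32 * (β * (b + (n + 1)))) +
        (3 * q - 1) * (32 * (β * (b + (n + 1)))) := by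
      rw [hM, ← add_mul]
      congr 1
      omega
    have e4 : n + (2 * q + 1) ≤ (3 * q - 1) * (32 * (β * (b + (n + 1)))) := by
      have h1 : n + 1 ≤ β * (b + (n + 1)) := by
        calc n + 1 ≤ b + (n + 1) := by omega
          _ ≤ β * (b + (n + 1)) := Nat.le_mul_of_pos_left _ (by omega)
      have h2 : 8 * (32 * (n + 1)) ≤ (3 * q - 1) * (32 * (β * (b + (n + 1)))) :=
        Nat.mul_le_mul (by omega) (Nat.mul_le_mul_left _ h1)
      have h3 : (3 * q - 1) * 32 ≤ (3 * q - 1) * (32 * (β * (b + (n + 1)))) := by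
        apply Nat.mul_le_mul_left
        omega
      omega
    omega

open Classical in
/-- **Almost constant weights, `q ≥ 4`.** -/
theorem Near.case2_ge4 [Fintype V] [Fintype α] [Fact (1 < q)] {w : α → α → ZMod q}
    {𝒢 : Finset α} (h : Near w (parB q) (parL q) 𝒢) (hq : 4 ≤ q) (H : SimpleGraph V)
    (hc : Fintype.card α = (q - 1) * (EE H Finset.univ).card + Fintype.card V)
    (hE : parL q * (Fintype.card V + 1) ≤ (EE H Finset.univ).card) :
    HasModel w (EE H Finset.univ) Finset.univ Finset.univ := by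
  obtain ⟨K, ξ, M, hM1, hM2, hξ1, hξ2, hn, hsave', hsmall, hMn⟩ :=
    h.bad_part (by omega) H hc hE
  have hsave : 8 * parB q * (Fintype.card α - 𝒢.card + (q + 2) * (EE H K).card) ≤
      ∑ v' ∈ Kᶜ, (NE H K v').card := by
    refine le_trans (Nat.mul_le_mul_right _ (Nat.mul_le_mul_right _ (by norm_num))) hsave'
  clear hsave'
  have hqpos : 0 < q := by omega
  have hL8 : 8 * parB q ≤ parL q := by
    unfold parL parB
    calc 8 * (100 * q) ≤ 10 ^ 4 * (100 * q) := Nat.mul_le_mul_right _ (by norm_num)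
      _ ≤ 10 ^ 4 * (100 * q) * (100 * q * q ^ 2) := Nat.le_mul_of_pos_right _ (by positivity)
      _ = _ := by ring
  have hL100 : 100 ≤ parL q := by
    unfold parB at hL8
    omega
  have hNpos : 0 < Fintype.card α := by
    have : 0 < 100 * q * (M + q) := by positivity
    omega
  obtain ⟨φ, hφ1, hφ2, hφ3⟩ := h.embed_cost (by omega) le_rfl hL8 hNpos M hM2 H K ξ hξ1 hn Kᶜ
  let ψ : V → α := fun v => if v ∈ K then ξ v else φ v
  have ψK : ∀ v ∈ K, ψ v = ξ v := fun v hv => if_pos hv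
  have ψn : ∀ v, v ∉ K → ψ v = φ v := fun v hv => if_neg hv
  have hψ𝒢 : ∀ v, v ∉ K → ψ v ∈ 𝒢 := fun v hv => by
    rw [ψn v hv]; exact hφ1 v (Finset.mem_compl.2 hv)
  have hψ : Function.Injective ψ := by
    intro p r hpr
    by_cases hp : p ∈ K <;> by_cases hr : r ∈ K
    · rw [ψK p hp, ψK r hr] at hpr
      exact hξ2 p hp r hr hpr
    · rw [ψK p hp] at hpr
      exact absurd (hpr ▸ hψ𝒢 r hr) (hξ1 p hp)
    · rw [ψK r hr] at hpr
      exact absurd (hpr ▸ hψ𝒢 p hp) (hξ1 r hr)
    · rw [ψn p hp, ψn r hr] at hpr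
      exact hφ2 p (Finset.mem_compl.2 hp) r (Finset.mem_compl.2 hr) hpr
  obtain ⟨S, I, hS, m, hSc⟩ := h.serve_K le_rfl hL100 hNpos M hM1 H K ψ hψ hψ𝒢 hMn
  have hcost : ∑ v' ∈ Kᶜ, ∑ v ∈ NE H K v', kap w M (ψ v) (ψ v') =
      ∑ v' ∈ Kᶜ, ∑ v ∈ NE H K v', kap w M (ξ v) (φ v') := by
    apply Finset.sum_congr rfl
    intro v' hv'
    apply Finset.sum_congr rfl
    intro v hv
    rw [ψK v (mem_NE.1 hv).1, ψn v' (Finset.mem_compl.1 hv')]
  rw [hcost] at hSc
  have hpart : (EE H Finset.univ).card = (EE H K).card + (EE H Kᶜ).card +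
      ∑ v ∈ Kᶜ, (NE H K v).card := by
    rw [← card_EE_union H K Kᶜ disjoint_compl_right, Finset.union_compl]
  set n := Fintype.card V with hn'
  set E := (EE H Finset.univ).card with hEdef
  set N := Fintype.card α with hN
  set b := N - 𝒢.card with hb
  set Sc := ∑ v' ∈ Kᶜ, (NE H K v').card with hScdef
  set eK := (EE H K).card with heK
  set F := (EE H Kᶜ).card with hF
  set co := ∑ v' ∈ Kᶜ, ∑ v ∈ NE H K v', kap w M (ξ v) (φ v') with hco
  set β := parB q with hβ
  have hβq : β = 100 * q := rfl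
  have hNq : N ≤ q * E := by
    have h1 : n ≤ E := by
      have : n + 1 ≤ parL q * (n + 1) := Nat.le_mul_of_pos_left _ (by omega)
      omega
    have h2 : q * E = (q - 1) * E + E := by
      obtain ⟨k, hk⟩ : ∃ k, q = k + 1 := ⟨q - 1, by omega⟩
      rw [hk, Nat.add_sub_cancel]; ring
    omega
  apply h.finish_ge4 hq (by omega) H K m hψ𝒢
  · -- `4 N ≤ β F`
    rw [← hN, ← hF, hβq]
    have h1 : q * E ≤ q * (2 * F) := Nat.mul_le_mul_left _ (by omega)
    have h2 : q * (2 * F) = 2 * (q * F) := by ring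
    have h3 : 100 * q * F = 100 * (q * F) := by ring
    omega
  · -- the count
    rw [← hF]
    have hcard : N ≤ (𝒢 \ S).card + b + S.card := by
      have e1 := Finset.le_card_sdiff S 𝒢
      omega
    have hmul : 8 * β * ((q - 1) * F) ≤ 8 * β * (𝒢 \ S).card := by
      have e1 : 8 * β * N ≤ 8 * β * ((𝒢 \ S).card + b + (n + co + (2 * q + 1) * eK)) :=
        Nat.mul_le_mul_left _ (by omega)
      rw [hc] at e1
      obtain ⟨k, hk⟩ : ∃ k, q = k + 1 := ⟨q - 1, by omega⟩
      have hk1 : q - 1 = k := by omega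
      rw [hk1] at e1 hφ3 ⊢
      rw [hpart] at e1
      rw [hk] at e1 hsave
      generalize 8 * β = B at *
      have f1 : B * (k * (eK + F + Sc) + n) = B * (k * F) + B * (k * Sc) + B * (k * eK) + B * n := by
        ring
      have f2 : B * ((𝒢 \ S).card + b + (n + co + (2 * (k + 1) + 1) * eK)) =
          B * (𝒢 \ S).card + B * b + B * n + B * co + 2 * (B * (k * eK)) + 3 * (B * eK) := by ring
      have f3 : B * (b + (k + 1 + 2) * eK) = B * b + B * (k * eK) + 3 * (B * eK) := by ring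
      omega
    exact Nat.le_of_mul_le_mul_left hmul (by omega)

/-- **Almost constant weights, `q ≥ 5`.** -/
theorem Near.case2_ge5 [Fintype V] [Fintype α] [Fact (1 < q)] {w : α → α → ZMod q}
    {𝒢 : Finset α} (h : Near w (parB q) (parL q) 𝒢) (hq : 5 ≤ q) (H : SimpleGraph V)
    (hc : Fintype.card α = (q - 1) * (EE H Finset.univ).card + Fintype.card V)
    (hE : parL q * (Fintype.card V + 1) ≤ (EE H Finset.univ).card) :
    HasModel w (EE H Finset.univ) Finset.univ Finset.univ :=
  h.case2_ge4 (by omega) H hc hE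

end

end MP0dbebe
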