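import Pool.Agent.Lib.MP_0dbebe_co.PackE

/-! # Embedding with a potential function -/

namespace MP0dbebe

section
variable {V α ι : Type*}

open Classical in
/-- choosing the images of the vertices one by one, never increasing a potential -/
theorem pot_embed [Fintype V] [Nonempty α] (𝒢 : Finset α) (J : Finset ι) (bad : ι → α → Prop)
    (lam : ι → V → ℝ) (hlam : ∀ j v, 1 ≤ lam j v) (δ : ℝ) (hδ : 0 ≤ δ) (a : V → α → ℝ)
    (θ : ℝ) (hθ : 0 ≤ θ) (X₀ : Finset V) (h𝒢 : Fintype.card V < 𝒢.card)
    (hC : ∀ C ⊆ 𝒢, 𝒢.card ≤ C.card + Fintype.card V →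
      (∀ j ∈ J, ((C.filter (bad j)).card : ℝ) ≤ δ * C.card) ∧ ∀ v ∈ X₀, ∑ y ∈ C, a v y ≤ 0)
    (X : Finset V) (hX : X ⊆ X₀) :
    ∃ φ : V → α, (∀ v ∈ X, φ v ∈ 𝒢) ∧ (∀ u ∈ X, ∀ v ∈ X, φ u = φ v → u = v) ∧
      ∑ j ∈ J, ∏ v ∈ X, ((if bad j (φ v) then lam j v else 1) / (1 + δ * (lam j v - 1))) +
        θ * ∑ v ∈ X, a v (φ v) ≤ J.card := by
  induction X using Finset.induction_on with
  | empty =>
    exact ⟨fun _ => Classical.arbitrary α, by simp, by simp, by simp⟩
  | insert v' X hv' ih =>
    obtain ⟨φ, h1, h2, h3⟩ := ih (fun v hv => hX (Finset.mem_insert_of_mem hv))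
    have hXn : X.card < Fintype.card V := Finset.card_lt_univ_of_notMem hv'
    set C := 𝒢 \ X.image φ with hCdef
    have hCc : 𝒢.card ≤ C.card + Fintype.card V := by
      have e1 := Finset.le_card_sdiff (X.image φ) 𝒢
      have e2 := Finset.card_image_le (s := X) (f := φ)
      rw [← hCdef] at e1
      omega
    have hCpos : 0 < C.card := by omega
    obtain ⟨hC1, hC2⟩ := hC C Finset.sdiff_subset hCc
    set T : ι → ℝ := fun j =>
      ∏ v ∈ X, ((if bad j (φ v) then lam j v else 1) / (1 + δ * (lam j v - 1))) with hT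
    have hden : ∀ j v, 0 < 1 + δ * (lam j v - 1) := by
      intro j v
      have := mul_nonneg hδ (sub_nonneg.2 (hlam j v))
      linarith
    have hT0 : ∀ j, 0 ≤ T j := by
      intro j
      apply Finset.prod_nonneg
      intro v _
      apply div_nonneg _ (hden j v).le
      split_ifs
      · linarith [hlam j v]
      · norm_num
    set A := ∑ v ∈ X, a v (φ v) with hA
    let f : α → ℝ := fun y => ∑ j ∈ J, T j * ((if bad j y then lam j v' else 1) /
      (1 + δ * (lam j v' - 1))) + θ * (A + a v' y)
    have hr : ∀ j ∈ J, ∑ y ∈ C, ((if bad j y then lam j v' else 1) /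
        (1 + δ * (lam j v' - 1))) ≤ C.card := by
      intro j hj
      rw [← Finset.sum_div, div_le_iff₀ (hden j v')]
      have e1 : ∀ y ∈ C, (if bad j y then lam j v' else (1 : ℝ)) =
          1 + (if bad j y then lam j v' - 1 else 0) := by
        intro y _
        split_ifs <;> ring
      rw [Finset.sum_congr rfl e1, Finset.sum_add_distrib, Finset.sum_const, nsmul_eq_mul,
        mul_one, ← Finset.sum_filter, Finset.sum_const, nsmul_eq_mul]
      have e2 := mul_le_mul_of_nonneg_right (hC1 j hj) (sub_nonneg.2 (hlam j v'))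
      nlinarith [e2]
    have hsum : ∑ y ∈ C, f y ≤ C.card • (J.card : ℝ) := by
      have e1 : ∑ y ∈ C, f y = ∑ j ∈ J, T j * ∑ y ∈ C, ((if bad j y then lam j v' else 1) /
          (1 + δ * (lam j v' - 1))) + θ * (C.card * A + ∑ y ∈ C, a v' y) := by
        simp only [f]
        rw [Finset.sum_add_distrib, Finset.sum_comm, ← Finset.mul_sum, Finset.sum_add_distrib,
          Finset.sum_const, nsmul_eq_mul]
        congr 1
        apply Finset.sum_congr rfl
        intro j _
        rw [Finset.mul_sum]
      have e2 : ∑ j ∈ J, T j * ∑ y ∈ C, ((if bad j y then lam j v' else 1) /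
          (1 + δ * (lam j v' - 1))) ≤ ∑ j ∈ J, T j * C.card :=
        Finset.sum_le_sum (fun j hj => mul_le_mul_of_nonneg_left (hr j hj) (hT0 j))
      have e3 : θ * (C.card * A + ∑ y ∈ C, a v' y) ≤ θ * (C.card * A) :=
        mul_le_mul_of_nonneg_left (by
          have := hC2 v' (hX (Finset.mem_insert_self _ _))
          linarith) hθ
      rw [← Finset.sum_mul] at e2
      rw [e1, nsmul_eq_mul]
      have e4 : (C.card : ℝ) * (∑ j ∈ J, T j + θ * A) ≤ C.card * J.card :=
        mul_le_mul_of_nonneg_left h3 (Nat.cast_nonneg _)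
      nlinarith [e2, e3, e4]
    obtain ⟨y, hyC, hy⟩ : ∃ y ∈ C, f y ≤ J.card := by
      by_contra hcon
      push Not at hcon
      have e1 := Finset.sum_lt_sum_of_nonempty (Finset.card_pos.1 hCpos) hcon
      rw [Finset.sum_const] at e1
      linarith
    have hyX : ∀ u ∈ X, φ u ≠ y := by
      intro u hu hφ
      exact (Finset.mem_sdiff.1 hyC).2 (hφ ▸ Finset.mem_image_of_mem φ hu)
    have hφv : ∀ b ∈ X, Function.update φ v' y b = φ b := by
      intro b hb
      rw [Function.update_of_ne]
      rintro rfl; exact hv' hb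
    refine ⟨Function.update φ v' y, ?_, ?_, ?_⟩
    · intro u hu
      rw [Finset.mem_insert] at hu
      rcases hu with rfl | hu
      · rw [Function.update_self]; exact (Finset.mem_sdiff.1 hyC).1
      · rw [hφv u hu]; exact h1 u hu
    · intro b hb c hc hbc
      rw [Finset.mem_insert] at hb hc
      rcases hb with rfl | hb <;> rcases hc with rfl | hc
      · rfl
      · rw [Function.update_self, hφv c hc] at hbc
        exact absurd hbc.symm (hyX c hc)
      · rw [Function.update_self, hφv b hb] at hbc
        exact absurd hbc (hyX b hb)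
      · rw [hφv b hb, hφv c hc] at hbc
        exact h2 b hb c hc hbc
    · have e1 : ∑ j ∈ J, ∏ v ∈ insert v' X,
          ((if bad j (Function.update φ v' y v) then lam j v else 1) /
            (1 + δ * (lam j v - 1))) + θ * ∑ v ∈ insert v' X, a v (Function.update φ v' y v) =
          f y := by
        simp only [f]
        congr 1
        · apply Finset.sum_congr rfl
          intro j _
          rw [Finset.prod_insert hv', Function.update_self, mul_comm]
          congr 1
          simp only [hT]
          apply Finset.prod_congr rfl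
          intro v hv
          rw [hφv v hv]
        · congr 1
          rw [Finset.sum_insert hv', Function.update_self, add_comm]
          congr 1
          rw [hA]
          apply Finset.sum_congr rfl
          intro v hv
          rw [hφv v hv]
      rw [e1]
      exact hy

end

end MP0dbebe
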