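import Pool.Agent.Lib.MP_0dbebe_co.PackF

/-! # Almost constant weights, `q = 3`: a well distributed embedding -/

namespace MP0dbebe

section
variable {V α : Type*}

open Classical in
/-- the vertices with a neighbour outside `K` -/
noncomputable def VF [Fintype V] (H : SimpleGraph V) (K : Finset V) : Finset V :=
  Kᶜ.filter (fun v => 1 ≤ (NE H Kᶜ v).card)

open Classical in
/-- the number of ends of edges at badly placed vertices -/
noncomputable def Wc [Fintype V] {q : ℕ} (w : α → α → ZMod q) (H : SimpleGraph V) (K : Finset V)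
    (φ : V → α) (x : α) : ℕ := ∑ v ∈ Kᶜ.filter (fun v => w x (φ v) ≠ 1), (NE H Kᶜ v).card

open Classical in
theorem deg_le_VF [Fintype V] (H : SimpleGraph V) (K : Finset V) (v : V) (hv : v ∉ K) :
    (NE H Kᶜ v).card ≤ (VF H K).card := by
  apply Finset.card_le_card
  intro u hu
  rw [mem_NE] at hu
  unfold VF
  refine Finset.mem_filter.2 ⟨hu.1, Finset.card_pos.2 ⟨v, ?_⟩⟩
  rw [mem_NE]
  exact ⟨Finset.mem_compl.2 hv, hu.2.symm⟩

theorem exp_big (x : ℝ) (hx : 2 * 10 ^ 9 ≤ x) : 10 ^ 6 * x ≤ Real.exp (x / 25) := by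
  have h0 : 0 ≤ x / 25 := by linarith
  have h1 := Real.quadratic_le_exp_of_nonneg h0
  nlinarith

theorem exp_half_le (y : ℝ) (h0 : 0 ≤ y) (h1 : y ≤ 1) : Real.exp (y / 2) ≤ 1 + y := by
  have h2 := Real.add_one_le_exp (-(y/2))
  have h3 : 0 < 1 - y / 2 := by linarith
  have h4 : Real.exp (y/2) * Real.exp (-(y/2)) = 1 := by rw [← Real.exp_add]; simp
  have h5 := Real.exp_pos (y/2)
  have h6 : Real.exp (y/2) * (1 - y/2) ≤ 1 := by nlinarith
  have h7 : 1 ≤ (1 + y) * (1 - y/2) := by nlinarith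
  by_contra hcon
  push Not at hcon
  nlinarith

open Classical in
theorem tail_big (a : ℕ) (ha : 10 ^ 6 ≤ a) (R : ℝ) (hR : R ≤ 10 ^ 5 * a ^ 2) :
    R < 6 ^ a := by
  have h1 : (1 + (a : ℝ) * (1 / 2)) ≤ (1 + 1 / 2) ^ a :=
    one_add_mul_le_pow (by norm_num) a
  have h2 : (a : ℝ) < 2 ^ a := by exact_mod_cast a.lt_two_pow_self
  have ha' : (10 ^ 6 : ℝ) ≤ a := by exact_mod_cast ha
  have h3 : (10 ^ 5 : ℝ) < (1 + 1 / 2) ^ a := by linarith
  have h4 : (6 : ℝ) ^ a = (1 + 1 / 2) ^ a * (2 ^ a * 2 ^ a) := by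
    rw [← mul_pow, ← mul_pow]; norm_num
  have h5 : (a : ℝ) ^ 2 ≤ 2 ^ a * 2 ^ a := by nlinarith
  have h6 : (0 : ℝ) < 2 ^ a * 2 ^ a := by positivity
  rw [h4]
  nlinarith

theorem term_one (s : Finset V) (P bad : V → Prop) [DecidablePred P] [DecidablePred bad]
    (hb : (s.filter P).card ≤ 2 * ((s.filter P).filter bad).card) :
    (6 : ℝ) ^ (s.filter P).card ≤ ∏ v ∈ s, ((if bad v then (if P v then (144 : ℝ) else 1) else 1) /
      (1 + (1 / 150) * ((if P v then (144 : ℝ) else 1) - 1))) := by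
  have h1 : ∏ v ∈ s.filter P, ((if bad v then (144 : ℝ) else 1) / 2) ≤
      ∏ v ∈ s, ((if bad v then (if P v then (144 : ℝ) else 1) else 1) /
      (1 + (1 / 150) * ((if P v then (144 : ℝ) else 1) - 1))) := by
    rw [Finset.prod_filter]
    apply Finset.prod_le_prod
    · intro v _
      split_ifs <;> norm_num
    · intro v _
      split_ifs <;> norm_num
  refine le_trans ?_ h1
  rw [Finset.prod_div_distrib, ← Finset.prod_filter, Finset.prod_const, Finset.prod_const]
  have h2 : (12 : ℝ) ^ (s.filter P).card ≤ 144 ^ ((s.filter P).filter bad).card := by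
    calc (12 : ℝ) ^ (s.filter P).card ≤ 12 ^ (2 * ((s.filter P).filter bad).card) :=
          pow_le_pow_right₀ (by norm_num) hb
      _ = 144 ^ ((s.filter P).filter bad).card := by
          rw [pow_mul]; norm_num
  rw [le_div_iff₀ (by positivity), ← mul_pow]
  norm_num
  exact h2

theorem term_two (s : Finset V) (bad : V → Prop) [DecidablePred bad] (d : V → ℝ) (hd0 : ∀ v ∈ s, 0 ≤ d v)
    (hd1 : ∀ v ∈ s, d v ≤ 1) :
    Real.exp ((∑ v ∈ s.filter bad, d v) / 2 - (1 / 150) * ∑ v ∈ s, d v) ≤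
      ∏ v ∈ s, ((if bad v then 1 + d v else 1) / (1 + (1 / 150) * ((1 + d v) - 1))) := by
  have e1 : (∑ v ∈ s.filter bad, d v) / 2 - (1 / 150) * ∑ v ∈ s, d v =
      ∑ v ∈ s, ((if bad v then d v / 2 else 0) - (1 / 150) * d v) := by
    rw [Finset.sum_sub_distrib, ← Finset.mul_sum, ← Finset.sum_filter, Finset.sum_div]
  rw [e1, Real.exp_sum]
  apply Finset.prod_le_prod
  · intro v _
    exact (Real.exp_pos _).le
  · intro v hv
    have h0 := hd0 v hv
    have h1 := hd1 v hv
    rw [le_div_iff₀ (by linarith), Real.exp_sub]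
    have h2 : 1 + 1 / 150 * (1 + d v - 1) ≤ Real.exp (1 / 150 * d v) := by
      have := Real.add_one_le_exp (1 / 150 * d v)
      linarith
    have h3 := Real.exp_pos (1 / 150 * d v)
    have h4 : Real.exp (if bad v then d v / 2 else 0) ≤ (if bad v then 1 + d v else 1) := by
      split_ifs
      · exact exp_half_le _ h0 h1
      · rw [Real.exp_zero]
    have h5 := Real.exp_pos (if bad v then d v / 2 else 0)
    calc Real.exp (if bad v then d v / 2 else 0) / Real.exp (1 / 150 * d v) *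
          (1 + 1 / 150 * (1 + d v - 1))
        ≤ Real.exp (if bad v then d v / 2 else 0) / Real.exp (1 / 150 * d v) *
          Real.exp (1 / 150 * d v) := mul_le_mul_of_nonneg_left h2 (div_pos h5 h3).le
      _ = Real.exp (if bad v then d v / 2 else 0) := div_mul_cancel₀ _ h3.ne'
      _ ≤ _ := h4

end

end MP0dbebe
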