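import Pool.Agent.Lib.MP_0dbebe_co.PackG

/-! # Almost constant weights, `q = 3`: a well distributed embedding, conclusion -/

namespace MP0dbebe

section
variable {V α : Type*}

open Classical in
theorem Near.embed3 [Fintype V] [Fintype α] {w : α → α → ZMod 3} {L : ℕ}
    {𝒢 : Finset α} (h : Near w 300 L 𝒢) (hL : 2400 ≤ L)
    (hN : 0 < Fintype.card α) (M : ℕ) (hM : 16 * 300 * 3 * (M + 3) ≤ Fintype.card α)
    (H : SimpleGraph V) (K : Finset V) (ξ : V → α) (hξ : ∀ v ∈ K, ξ v ∉ 𝒢)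
    (hn : 8 * 300 * (Fintype.card α - 𝒢.card + Fintype.card V) ≤ Fintype.card α)
    (hE : 7 * 10 ^ 9 * Fintype.card V ≤ (EE H Kᶜ).card)
    (hNp : Fintype.card α ≤ 4 * (EE H Kᶜ).card) :
    ∃ φ : V → α, (∀ v ∈ Kᶜ, φ v ∈ 𝒢) ∧ (∀ u ∈ Kᶜ, ∀ v ∈ Kᶜ, φ u = φ v → u = v) ∧
      16 * 300 * ∑ v' ∈ Kᶜ, ∑ v ∈ NE H K v', kap w M (ξ v) (φ v') + ∑ v' ∈ Kᶜ, (NE H K v').card ≤
        16 * 300 * (2 * ∑ v' ∈ Kᶜ, (NE H K v').card) ∧
      (∀ x ∈ 𝒢, (VF H K).card < 2 * ((VF H K).filter (fun v => w x (φ v) = 1)).card) ∧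
      8 * (𝒢.filter (fun x => (EE H Kᶜ).card ≤ 8 * Wc w H K φ x)).card ≤ (VF H K).card := by
  have hprime : Fact (Nat.Prime 3) := ⟨Nat.prime_three⟩
  have hα : Nonempty α := Fintype.card_pos_iff.1 hN
  set N := Fintype.card α with hN'
  set n := Fintype.card V with hn'
  set p := (EE H Kᶜ).card with hp
  set nF := (VF H K).card with hnF
  have h𝒢N : 𝒢.card ≤ N := Finset.card_le_univ 𝒢
  -- sizes
  have h2p : ∑ v ∈ Kᶜ, (NE H Kᶜ v).card = 2 * p := by
    rw [sum_NE]
  have hVFn : nF ≤ n := Finset.card_le_univ _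
  have hpos_p : 0 < p := by omega
  have h2pVF : 2 * p ≤ nF * nF := by
    rw [← h2p]
    have e1 : ∑ v ∈ Kᶜ, (NE H Kᶜ v).card = ∑ v ∈ VF H K, (NE H Kᶜ v).card := by
      unfold VF
      rw [Finset.sum_filter]
      apply Finset.sum_congr rfl
      intro v _
      split_ifs with h1
      · rfl
      · omega
    rw [e1, hnF, ← smul_eq_mul (VF H K).card]
    apply Finset.sum_le_card_nsmul
    intro v hv
    apply deg_le_VF
    exact Finset.mem_compl.1 (Finset.mem_filter.1 hv).1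
  have hnFpos : 0 < nF := by
    rcases Nat.eq_zero_or_pos nF with h0 | h0
    · rw [h0] at h2pVF; omega
    · exact h0
  have hpn : 7 * 10 ^ 9 * nF ≤ p := (Nat.mul_le_mul_left _ hVFn).trans hE
  have hnFbig : 10 ^ 9 ≤ nF := by
    have h1 : 14 * 10 ^ 9 * nF ≤ nF * nF := by omega
    have h2 := Nat.le_of_mul_le_mul_right h1 hnFpos
    omega
  have hnFR : (0 : ℝ) < nF := by exact_mod_cast hnFpos
  have hpR : (0 : ℝ) < p := by exact_mod_cast hpos_p
  set Sc := ∑ v' ∈ Kᶜ, (NE H K v').card with hSc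
  -- the tests
  obtain ⟨J, hJ⟩ : ∃ J : Finset (α × Bool), J = 𝒢 ×ˢ (Finset.univ : Finset Bool) := ⟨_, rfl⟩
  have hJc : J.card = 2 * 𝒢.card := by
    rw [hJ, Finset.card_product, Finset.card_univ, Fintype.card_bool, mul_comm]
  have h𝒢big : N ≤ 2 * 𝒢.card := by omega
  have hJpos : (0 : ℝ) < J.card := by
    have : 0 < J.card := by omega
    exact_mod_cast this
  obtain ⟨bad, hbad⟩ : ∃ bad : α × Bool → α → Prop, bad = fun j y => w j.1 y ≠ 1 := ⟨_, rfl⟩
  obtain ⟨lam, hlamd⟩ : ∃ lam : α × Bool → V → ℝ, lam = fun j v =>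
    if j.2 = true then (if 1 ≤ (NE H Kᶜ v).card then 144 else 1)
    else 1 + ((NE H Kᶜ v).card : ℝ) / nF := ⟨_, rfl⟩
  have hlam : ∀ j v, 1 ≤ lam j v := by
    intro j v
    rw [hlamd]
    dsimp only
    split_ifs
    · norm_num
    · norm_num
    · have : (0 : ℝ) ≤ ((NE H Kᶜ v).card : ℝ) / nF :=
        div_nonneg (Nat.cast_nonneg _) (Nat.cast_nonneg _)
      linarith
  obtain ⟨a, ha⟩ : ∃ a : V → α → ℝ, a = fun v' y =>
    2400 * ∑ v ∈ NE H K v', (kap w M (ξ v) y : ℝ) - 4799 * ((NE H K v').card : ℝ) := ⟨_, rfl⟩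
  obtain ⟨θ, hθ⟩ : ∃ θ : ℝ, θ = 2 * J.card / Sc := ⟨_, rfl⟩
  have hθ0 : 0 ≤ θ := by
    rw [hθ]
    exact div_nonneg (mul_nonneg (by norm_num) (Nat.cast_nonneg _)) (Nat.cast_nonneg _)
  have hC : ∀ C ⊆ 𝒢, 𝒢.card ≤ C.card + n →
      (∀ j ∈ J, ((C.filter (bad j)).card : ℝ) ≤ (1 / 150) * C.card) ∧
        ∀ v ∈ Kᶜ, ∑ y ∈ C, a v y ≤ 0 := by
    intro C hC𝒢 hCc
    have hCN : N - C.card ≤ N - 𝒢.card + n := by omega
    have hC8 : 8 * 300 * (N - C.card) ≤ N := (Nat.mul_le_mul_left _ hCN).trans hn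
    have hCle : C.card ≤ N := Finset.card_le_univ C
    constructor
    · rintro ⟨x, i⟩ hj
      rw [hJ, Finset.mem_product] at hj
      have h1 : (C.filter (bad (x, i))).card ≤ (Ex w x).card := by
        apply Finset.card_le_card
        intro y hy
        rw [mem_Ex]
        have := (Finset.mem_filter.1 hy).2
        rw [hbad] at this
        exact this
      have h2 : 300 * (Ex w x).card ≤ N := h.good x hj.1
      have h3 : 150 * (C.filter (bad (x, i))).card ≤ C.card := by omega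
      have h4 : (150 : ℝ) * ((C.filter (bad (x, i))).card : ℝ) ≤ C.card := by exact_mod_cast h3
      linarith
    · intro v' _
      have havg : ∀ v ∈ NE H K v', 2400 * ∑ y ∈ C, kap w M (ξ v) y + C.card ≤
          2400 * (2 * C.card) := by
        intro v hv
        exact h.bad_avg le_rfl le_rfl hL hN M hM (ξ v) (hξ v (mem_NE.1 hv).1) C hC𝒢 hC8
      have hsum := Finset.sum_le_sum havg
      rw [Finset.sum_add_distrib, ← Finset.mul_sum, Finset.sum_const, Finset.sum_const,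
        smul_eq_mul, smul_eq_mul, Finset.sum_comm] at hsum
      have hsumR : (2400 : ℝ) * ∑ y ∈ C, ∑ v ∈ NE H K v', (kap w M (ξ v) y : ℝ) +
          (NE H K v').card * C.card ≤ (NE H K v').card * (2400 * (2 * C.card)) := by
        exact_mod_cast hsum
      rw [ha]
      dsimp only
      rw [Finset.sum_sub_distrib, ← Finset.mul_sum, Finset.sum_const, nsmul_eq_mul]
      linarith
  obtain ⟨φ, hφ1, hφ2, hφ3⟩ := pot_embed 𝒢 J bad lam hlam (1 / 150) (by norm_num) a θ hθ0 Kᶜ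
    (by omega) hC Kᶜ (Finset.Subset.refl _)
  obtain ⟨T, hT⟩ : ∃ T : α × Bool → ℝ, T = fun j => ∏ v ∈ Kᶜ,
    ((if bad j (φ v) then lam j v else 1) / (1 + (1 / 150) * (lam j v - 1))) := ⟨_, rfl⟩
  have hT0 : ∀ j, 0 ≤ T j := by
    intro j
    rw [hT]
    apply Finset.prod_nonneg
    intro v _
    have h1 := hlam j v
    apply div_nonneg
    · split_ifs
      · linarith
      · norm_num
    · linarith
  set cost := ∑ v' ∈ Kᶜ, ∑ v ∈ NE H K v', kap w M (ξ v) (φ v') with hcost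
  have hAeq : ∑ v ∈ Kᶜ, a v (φ v) = 2400 * (cost : ℝ) - 4799 * (Sc : ℝ) := by
    rw [ha]
    dsimp only
    rw [Finset.sum_sub_distrib, ← Finset.mul_sum, ← Finset.mul_sum, hcost, hSc]
    push_cast
    ring
  have hφ3' : ∑ j ∈ J, T j + θ * (2400 * (cost : ℝ) - 4799 * (Sc : ℝ)) ≤ J.card := by
    rw [← hAeq, hT]; exact hφ3
  have hsumT0 : 0 ≤ ∑ j ∈ J, T j := Finset.sum_nonneg (fun j _ => hT0 j)
  have hθSc : θ * Sc ≤ 2 * J.card := by
    rcases Nat.eq_zero_or_pos Sc with h0 | h0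
    · rw [h0, Nat.cast_zero, mul_zero]
      exact mul_nonneg (by norm_num) (Nat.cast_nonneg _)
    · have : (Sc : ℝ) ≠ 0 := Nat.cast_ne_zero.2 h0.ne'
      rw [hθ, div_mul_cancel₀ _ this]
  have hsumT : ∑ j ∈ J, T j ≤ 9601 * J.card := by
    have h1 : 0 ≤ θ * (2400 * (cost : ℝ)) :=
      mul_nonneg hθ0 (mul_nonneg (by norm_num) (Nat.cast_nonneg _))
    have h2 : θ * (2400 * (cost : ℝ) - 4799 * (Sc : ℝ)) =
        θ * (2400 * (cost : ℝ)) - 4799 * (θ * Sc) := by ring
    linarith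
  have hsplit : ∑ j ∈ J, T j = ∑ x ∈ 𝒢, (T (x, true) + T (x, false)) := by
    rw [hJ, Finset.sum_product]
    apply Finset.sum_congr rfl
    intro x _
    rw [Fintype.sum_bool]
  have hJR : (J.card : ℝ) ≤ 8 * p := by
    have : J.card ≤ 8 * p := by omega
    exact_mod_cast this
  refine ⟨φ, hφ1, hφ2, ?_, ?_, ?_⟩
  · -- the cost
    rcases Nat.eq_zero_or_pos Sc with h0 | h0
    · have hz : cost = 0 := by
        rw [hcost]
        apply Finset.sum_eq_zero
        intro v' hv'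
        rw [hSc, Finset.sum_eq_zero_iff] at h0
        have := h0 v' hv'
        rw [Finset.card_eq_zero] at this
        rw [this, Finset.sum_empty]
      rw [← hcost, hz, h0]
    · have hScR : (0 : ℝ) < Sc := by exact_mod_cast h0
      have h1 : θ * (2400 * (cost : ℝ) - 4799 * (Sc : ℝ)) ≤ J.card := by linarith
      have h2 : (2400 * (cost : ℝ) - 4799 * (Sc : ℝ)) * 2 ≤ Sc := by
        rw [hθ, div_mul_eq_mul_div, div_le_iff₀ hScR] at h1
        have h3 : (J.card : ℝ) * ((2400 * (cost : ℝ) - 4799 * (Sc : ℝ)) * 2) ≤ J.card * Sc := by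
          linarith
        exact le_of_mul_le_mul_left h3 hJpos
      have h4 : (16 * 300 * (cost : ℝ) + Sc) ≤ 16 * 300 * (2 * Sc) := by linarith
      exact_mod_cast h4
  · -- few bad weights at each vertex
    intro x hx
    by_contra hcon
    push Not at hcon
    have hb : (Kᶜ.filter (fun v => 1 ≤ (NE H Kᶜ v).card)).card ≤
        2 * ((Kᶜ.filter (fun v => 1 ≤ (NE H Kᶜ v).card)).filter
          (fun v => w x (φ v) ≠ 1)).card := by
      change (VF H K).card ≤ 2 * ((VF H K).filter (fun v => w x (φ v) ≠ 1)).card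
      have e1 := Finset.card_filter_add_card_filter_not (s := VF H K) (fun v => w x (φ v) = 1)
      have e2 : (VF H K).filter (fun v => ¬ w x (φ v) = 1) =
          (VF H K).filter (fun v => w x (φ v) ≠ 1) := rfl
      rw [e2] at e1
      omega
    have h1 := term_one Kᶜ (fun v => 1 ≤ (NE H Kᶜ v).card) (fun v => w x (φ v) ≠ 1)
      hb
    have h2 : T (x, true) = ∏ v ∈ Kᶜ, ((if w x (φ v) ≠ 1 then
        (if 1 ≤ (NE H Kᶜ v).card then (144 : ℝ) else 1) else 1) /
        (1 + (1 / 150) * ((if 1 ≤ (NE H Kᶜ v).card then (144 : ℝ) else 1) - 1))) := by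
      rw [hT, hbad, hlamd]
      dsimp only
      simp only [if_true]
    have h3 : T (x, true) ≤ ∑ j ∈ J, T j :=
      Finset.single_le_sum (fun j _ => hT0 j)
        (by rw [hJ]; exact Finset.mem_product.2 ⟨hx, Finset.mem_univ _⟩)
    have h4 : (6 : ℝ) ^ nF ≤ 9601 * J.card := by
      refine le_trans ?_ (h3.trans hsumT)
      rw [h2]
      exact h1
    have h5 := tail_big nF (by omega) (9601 * J.card) (by
      have e1 : (2 * (p : ℝ)) ≤ nF * nF := by exact_mod_cast h2pVF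
      nlinarith)
    linarith
  · -- few coarse vertices
    set Y := 𝒢.filter (fun x => p ≤ 8 * Wc w H K φ x) with hY
    have hterm : ∀ x ∈ Y, 10 ^ 6 * ((p : ℝ) / nF) ≤ T (x, false) := by
      intro x hx
      have hWx := (Finset.mem_filter.1 hx).2
      have hd1 : ∀ v ∈ Kᶜ, ((NE H Kᶜ v).card : ℝ) / nF ≤ 1 := by
        intro v hv
        rw [div_le_one hnFR]
        exact_mod_cast deg_le_VF H K v (Finset.mem_compl.1 hv)
      have h1 := term_two Kᶜ (fun v => w x (φ v) ≠ 1) (fun v => ((NE H Kᶜ v).card : ℝ) / nF)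
        (fun v _ => div_nonneg (Nat.cast_nonneg _) (Nat.cast_nonneg _)) hd1
      have h2 : T (x, false) = ∏ v ∈ Kᶜ, ((if w x (φ v) ≠ 1 then
          1 + ((NE H Kᶜ v).card : ℝ) / nF else 1) /
          (1 + (1 / 150) * ((1 + ((NE H Kᶜ v).card : ℝ) / nF) - 1))) := by
        rw [hT, hbad, hlamd]
        dsimp only
        simp only [Bool.false_eq_true, if_false]
      rw [h2]
      refine le_trans ?_ h1
      refine (exp_big _ ?_).trans (Real.exp_le_exp.2 ?_)
      · rw [le_div_iff₀ hnFR]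
        have : (7 * 10 ^ 9 * (nF : ℝ)) ≤ p := by exact_mod_cast hpn
        linarith
      · rw [← Finset.sum_div, ← Finset.sum_div]
        have e1 : ∑ v ∈ Kᶜ, ((NE H Kᶜ v).card : ℝ) = 2 * p := by exact_mod_cast h2p
        have e2 : ∑ v ∈ Kᶜ.filter (fun v => w x (φ v) ≠ 1), ((NE H Kᶜ v).card : ℝ) =
            (Wc w H K φ x : ℕ) := by
          unfold Wc
          push_cast
          rfl
        rw [e1, e2]
        have e3 : (p : ℝ) ≤ 8 * (Wc w H K φ x : ℕ) := by exact_mod_cast hWx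
        have e4 : (p : ℝ) / nF ≤ 8 * ((Wc w H K φ x : ℕ) / nF) := by
          rw [← mul_div_assoc]
          exact div_le_div_of_nonneg_right e3 hnFR.le
        have e5 : 2 * (p : ℝ) / nF = 2 * (p / nF) := by ring
        have e6 : 0 ≤ (p : ℝ) / nF := div_nonneg (Nat.cast_nonneg _) (Nat.cast_nonneg _)
        rw [e5]
        linarith
    have hsumY : (Y.card : ℝ) * (10 ^ 6 * ((p : ℝ) / nF)) ≤ 9601 * J.card := by
      refine le_trans ?_ hsumT
      rw [hsplit]
      have e1 : (Y.card : ℝ) * (10 ^ 6 * ((p : ℝ) / nF)) ≤ ∑ x ∈ Y, T (x, false) := by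
        rw [← nsmul_eq_mul]
        exact Finset.card_nsmul_le_sum _ _ _ hterm
      refine e1.trans ((Finset.sum_le_sum_of_subset_of_nonneg (Finset.filter_subset _ _)
        (fun x _ _ => hT0 _)).trans ?_)
      apply Finset.sum_le_sum
      intro x _
      have := hT0 (x, true)
      linarith
    have h6 : (Y.card : ℝ) * 10 ^ 6 * p ≤ 76808 * nF * p := by
      have e1 : (Y.card : ℝ) * (10 ^ 6 * ((p : ℝ) / nF)) = (Y.card : ℝ) * 10 ^ 6 * p / nF := by
        ring
      rw [e1, div_le_iff₀ hnFR] at hsumY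
      nlinarith
    have h7 := le_of_mul_le_mul_right h6 hpR
    have h8 : (8 : ℝ) * Y.card ≤ nF := by linarith
    exact_mod_cast h8

end

end MP0dbebe
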