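import Pool.Agent.Lib.MP_0dbebe_co.PackH

/-! # Almost constant weights, `q = 3`: packing the remaining vertices -/

namespace MP0dbebe

section
variable {V α : Type*}

open Classical in
theorem card_end_le [Fintype V] (H : SimpleGraph V) (K : Finset V) (sr ds : Sym2 V → V)
    (hst : ∀ e, e = s(sr e, ds e)) (P : V → Prop) [DecidablePred P] (F : Finset (Sym2 V))
    (hF : F ⊆ EE H Kᶜ) :
    (F.filter (fun e => P (sr e))).card ≤ ∑ v ∈ Kᶜ.filter P, (NE H Kᶜ v).card := by
  refine le_trans (Finset.card_le_card (t := (Kᶜ.filter P).biUnion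
    (fun v => (NE H Kᶜ v).image (fun u => s(v, u)))) ?_) ?_
  · intro e he
    rw [Finset.mem_filter] at he
    have h1 : s(sr e, ds e) ∈ EE H Kᶜ := by rw [← hst e]; exact hF he.1
    rw [mk_mem_EE] at h1
    refine Finset.mem_biUnion.2 ⟨sr e, Finset.mem_filter.2 ⟨h1.1.1, he.2⟩,
      Finset.mem_image.2 ⟨ds e, ?_, (hst e).symm⟩⟩
    rw [mem_NE]
    exact ⟨h1.1.2, h1.2⟩
  · exact Finset.card_biUnion_le.trans (Finset.sum_le_sum (fun v _ => Finset.card_image_le))

open Classical in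
theorem card_VF_le [Fintype V] (H : SimpleGraph V) (K : Finset V) (P : V → Prop)
    [DecidablePred P] :
    ((VF H K).filter P).card ≤
      2 * ((EE H Kᶜ).filter (fun e => ∃ u v, e = s(u, v) ∧ P u)).card := by
  have hnb : ∀ v, ∃ u, v ∈ VF H K → u ∈ NE H Kᶜ v := by
    intro v
    by_cases hv : v ∈ VF H K
    · have h1 := (Finset.mem_filter.1 hv).2
      obtain ⟨u, hu⟩ := Finset.card_pos.1 h1
      exact ⟨u, fun _ => hu⟩
    · exact ⟨v, fun h => absurd h hv⟩
  choose nb hnb using hnb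
  apply Finset.card_le_mul_card_image_of_maps_to (f := fun v => s(v, nb v))
  · intro v hv
    rw [Finset.mem_filter] at hv
    have h1 := hnb v hv.1
    rw [mem_NE] at h1
    rw [Finset.mem_filter, mk_mem_EE]
    exact ⟨⟨⟨(Finset.mem_filter.1 hv.1).1, h1.1⟩, h1.2⟩, v, nb v, rfl, hv.2⟩
  · intro e _
    induction e using Sym2.ind with
    | _ a b =>
      refine le_trans (Finset.card_le_card (t := {a, b}) ?_) (Finset.card_le_two)
      intro v hv
      have h1 := (Finset.mem_filter.1 hv).2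
      rw [Sym2.eq_iff] at h1
      rw [Finset.mem_insert, Finset.mem_singleton]
      rcases h1 with ⟨h1, _⟩ | ⟨h1, _⟩
      · exact Or.inl h1
      · exact Or.inr h1

open Classical in
/-- **Packing**, `q = 3`. -/
theorem Near.finish3 [Fintype V] [Fintype α] {w : α → α → ZMod 3} {L : ℕ}
    {𝒢 : Finset α} (h : Near w 300 L 𝒢)
    (H : SimpleGraph V) (K : Finset V) {S : Finset α} {ψ : V → α} {I : Sym2 V → List α}
    (m : Model w (CE H K ∪ EE H K) Finset.univ S ψ I) (hK : ∀ v, v ∉ K → ψ v ∈ 𝒢)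
    (hF : 3 * Fintype.card α ≤ 10 * (EE H Kᶜ).card) (hp1000 : 1000 ≤ (EE H Kᶜ).card)
    (hU : 2 * (EE H Kᶜ).card ≤ (𝒢 \ S).card)
    (hVF : (VF H K).card ≤ (EE H Kᶜ).card)
    (ha : ∀ x ∈ 𝒢, (VF H K).card < 2 * ((VF H K).filter (fun v => w x (ψ v) = 1)).card)
    (hb : 8 * (𝒢.filter (fun x => (EE H Kᶜ).card ≤ 8 * Wc w H K ψ x)).card ≤ (VF H K).card) :
    HasModel w (EE H Finset.univ) Finset.univ Finset.univ := by
  obtain ⟨F, hFdef⟩ : ∃ F, F = EE H Kᶜ := ⟨_, rfl⟩
  obtain ⟨nF, hnF⟩ : ∃ nF, nF = (VF H K).card := ⟨_, rfl⟩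
  rw [← hFdef] at hF hp1000 hU hVF hb
  rw [← hnF] at hVF hb
  -- the ends
  have hends : ∀ e : Sym2 V, ∃ u v, e = s(u, v) := by
    intro e
    induction e using Sym2.ind with
    | _ u v => exact ⟨u, v, rfl⟩
  choose src dst hsd using hends
  have hFK' : ∀ u v : V, s(u, v) ∈ F → u ∉ K ∧ v ∉ K := by
    intro u v huv
    rw [hFdef, mk_mem_EE, Finset.mem_compl, Finset.mem_compl] at huv
    exact huv.1
  have hFK : ∀ e ∈ F, src e ∉ K ∧ dst e ∉ K := by
    intro e he
    apply hFK'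
    rw [← hsd e]; exact he
  have hEx : ∀ x ∈ 𝒢, 90 * (Ex w x).card ≤ F.card := by
    intro x hx
    have h1 := h.good x hx
    omega
  obtain ⟨U, hUdef⟩ : ∃ U, U = 𝒢 \ S := ⟨_, rfl⟩
  rw [← hUdef] at hU
  have hU𝒢 : ∀ y ∈ U, y ∈ 𝒢 := fun y hy => by
    rw [hUdef] at hy; exact (Finset.mem_sdiff.1 hy).1
  have hUS : ∀ y ∈ U, y ∉ S := fun y hy => by
    rw [hUdef] at hy; exact (Finset.mem_sdiff.1 hy).2
  -- the coarse vertices
  obtain ⟨Y, hY⟩ : ∃ Y, Y = U.filter (fun x => F.card ≤ 8 * Wc w H K ψ x) := ⟨_, rfl⟩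
  have hYU : ∀ y ∈ Y, y ∈ U := fun y hy => by
    rw [hY] at hy; exact (Finset.mem_filter.1 hy).1
  have hYc : 8 * Y.card ≤ nF := by
    refine le_trans (Nat.mul_le_mul_left _ (Finset.card_le_card ?_)) hb
    intro y hy
    rw [hY, Finset.mem_filter] at hy
    exact Finset.mem_filter.2 ⟨hU𝒢 y hy.1, hy.2⟩
  have hfine : ∀ y ∈ U, y ∉ Y → 8 * Wc w H K ψ y < F.card := by
    intro y hy hyY
    by_contra hcon
    push Not at hcon
    apply hyY
    rw [hY]
    exact Finset.mem_filter.2 ⟨hy, hcon⟩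
  have hα : Nonempty (Sym2 V) := by
    have : 0 < F.card := by omega
    obtain ⟨e, _⟩ := Finset.card_pos.1 this
    exact ⟨e⟩
  -- edges for the coarse vertices
  obtain ⟨g, hg1, hg2⟩ := hall_greedy Y F (fun y e => ∃ u v, e = s(u, v) ∧ w y (ψ u) = 1)
    (fun _ => Classical.arbitrary _) (by
      intro y hy
      refine ⟨F.filter (fun e => ¬ ∃ u v, e = s(u, v) ∧ w y (ψ u) = 1),
        fun e he hne => Finset.mem_filter.2 ⟨he, hne⟩, ?_⟩
      have e1 := card_VF_le H K (fun v => w y (ψ v) = 1)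
      have e2 := ha y (hU𝒢 y (hYU y hy))
      have e3 := Finset.card_filter_add_card_filter_not (s := F)
        (fun e => ∃ u v, e = s(u, v) ∧ w y (ψ u) = 1)
      rw [← hFdef] at e1
      rw [← hnF] at e2
      omega)
  have hsv : ∀ y, ∃ u v, y ∈ Y → g y = s(u, v) ∧ w y (ψ u) = 1 := by
    intro y
    by_cases hy : y ∈ Y
    · obtain ⟨u, v, h1, h2⟩ := (hg1 y hy).2
      exact ⟨u, v, fun _ => ⟨h1, h2⟩⟩
    · obtain ⟨u, v, _⟩ : ∃ u v, g y = s(u, v) := ⟨src (g y), dst (g y), hsd _⟩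
      exact ⟨u, v, fun h' => absurd h' hy⟩
  choose su sv hsv using hsv
  -- partners of the coarse vertices
  obtain ⟨b, hb1, hb2⟩ := hall_greedy Y (U \ Y) (fun y z => w y z = 1 ∧ w z (ψ (sv y)) = 1)
    (fun y => y) (by
      intro y hy
      have hsvK : sv y ∉ K := by
        apply (hFK' (su y) (sv y) _).2
        rw [← (hsv y hy).1]
        exact (hg1 y hy).1
      refine ⟨Ex w y ∪ Ex w (ψ (sv y)), ?_, ?_⟩
      · intro z _ hz
        rw [Finset.mem_union, mem_Ex, mem_Ex, h.symm (ψ (sv y)) z]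
        tauto
      · have e1 := hEx y (hU𝒢 y (hYU y hy))
        have e2 := hEx _ (hK _ hsvK)
        have e3 := Finset.card_union_le (Ex w y) (Ex w (ψ (sv y)))
        have e4 := Finset.le_card_sdiff Y U
        omega)
  have hbU : ∀ y ∈ Y, b y ∈ U ∧ b y ∉ Y := fun y hy => Finset.mem_sdiff.1 (hb1 y hy).1
  -- the first family
  obtain ⟨F₁, hF₁⟩ : ∃ F₁, F₁ = Y.image g := ⟨_, rfl⟩
  have hF₁c : F₁.card = Y.card := by
    rw [hF₁]
    apply Finset.card_image_of_injOn
    intro a ha' c hc hac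
    exact hg2 a ha' c hc hac
  have hF₁F : F₁ ⊆ F := by
    intro e he
    rw [hF₁, Finset.mem_image] at he
    obtain ⟨y, hy, rfl⟩ := he
    exact (hg1 y hy).1
  have hinv : ∀ e, ∃ y, e ∈ F₁ → y ∈ Y ∧ g y = e := by
    intro e
    by_cases he : e ∈ F₁
    · have he' := he
      rw [hF₁, Finset.mem_image] at he'
      obtain ⟨y, hy, hye⟩ := he'
      exact ⟨y, fun _ => ⟨hy, hye⟩⟩
    · have : 0 < U.card := by omega
      obtain ⟨y, _⟩ := Finset.card_pos.1 this
      exact ⟨y, fun h' => absurd h' he⟩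
  choose inv hinv using hinv
  have hdisjF : ∀ e ∈ F, e ∉ CE H K ∪ EE H K := by
    intro e he he'
    rw [Finset.mem_union, mem_CE] at he'
    obtain ⟨hs, hd⟩ := hFK e he
    rcases he' with ⟨u, v, huv, hu, _, _⟩ | he'
    · rw [hsd e, Sym2.eq_iff] at huv
      rcases huv with ⟨h1, _⟩ | ⟨_, h1⟩
      · exact hs (h1 ▸ hu)
      · exact hd (h1 ▸ hu)
    · rw [hsd e, mk_mem_EE] at he'
      exact hs he'.1.1
  obtain ⟨I₁, m₁⟩ := m.addFamily F₁ (fun e => [inv e, b (inv e)])
    (fun e he => hdisjF e (hF₁F he))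
    (by
      intro e he
      obtain ⟨h1, _⟩ := hinv e he
      rw [List.nodup_cons, List.mem_singleton]
      refine ⟨fun h2 => (hbU _ h1).2 (h2 ▸ h1), by simp⟩)
    (by
      intro e he x hx
      obtain ⟨h1, _⟩ := hinv e he
      rw [List.mem_cons, List.mem_singleton] at hx
      rcases hx with rfl | rfl
      · exact hUS _ (hYU _ h1)
      · exact hUS _ (hbU _ h1).1)
    (by
      intro e he e' he' hne x hx hx'
      obtain ⟨h1, h2⟩ := hinv e he
      obtain ⟨h1', h2'⟩ := hinv e' he'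
      rw [List.mem_cons, List.mem_singleton] at hx hx'
      have hinv_ne : inv e ≠ inv e' := by
        intro h3
        apply hne
        rw [← h2, ← h2', h3]
      rcases hx with rfl | rfl <;> rcases hx' with hx' | hx'
      · exact hinv_ne hx'
      · exact (hbU _ h1').2 (hx' ▸ h1)
      · exact (hbU _ h1).2 (hx' ▸ h1')
      · exact hinv_ne (hb2 _ h1 _ h1' hx'))
    (by
      intro e he
      obtain ⟨h1, h2⟩ := hinv e he
      refine ⟨su (inv e), sv (inv e), ?_, Finset.mem_univ _, Finset.mem_univ _, ?_⟩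
      · rw [← (hsv _ h1).1, h2]
      · have e1 := (hsv _ h1).2
        have e2 := (hb1 _ h1).2
        rw [List.cons_append, List.singleton_append, pw_cons_cons, pw_cons_cons, pw_cons_cons,
          pw_single, h.symm (ψ (su (inv e))), e1, e2.1, e2.2]
        rfl)
  -- the second family
  obtain ⟨F₂, hF₂⟩ : ∃ F₂, F₂ = F \ F₁ := ⟨_, rfl⟩
  have hF₂c : F₂.card + Y.card = F.card := by
    rw [hF₂, ← hF₁c]
    exact Finset.card_sdiff_add_card_eq_card hF₁F
  have hF₂F : F₂ ⊆ F := by rw [hF₂]; exact Finset.sdiff_subset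
  obtain ⟨U₂, hU₂⟩ : ∃ U₂, U₂ = (U \ Y) \ Y.image b := ⟨_, rfl⟩
  have hU₂c : 2 * F₂.card ≤ U₂.card := by
    have e1 := Finset.le_card_sdiff (Y.image b) (U \ Y)
    have e2 := Finset.le_card_sdiff Y U
    have e3 : (Y.image b).card ≤ Y.card := Finset.card_image_le
    rw [← hU₂] at e1
    omega
  have hU₂mem : ∀ y ∈ U₂, y ∈ U ∧ y ∉ Y ∧ y ∉ Y.image b := by
    intro y hy
    rw [hU₂, Finset.mem_sdiff, Finset.mem_sdiff] at hy
    tauto
  obtain ⟨Y₁, hY₁, hY₁c⟩ := Finset.exists_subset_card_eq (s := U₂) (n := F₂.card) (by omega)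
  obtain ⟨Y₂, hY₂, hY₂c⟩ := Finset.exists_subset_card_eq (s := U₂ \ Y₁) (n := F₂.card) (by
    have e1 := Finset.le_card_sdiff Y₁ U₂
    omega)
  have hY₂' : ∀ y ∈ Y₂, y ∈ U₂ ∧ y ∉ Y₁ := fun y hy => Finset.mem_sdiff.1 (hY₂ hy)
  have hWc : ∀ y ∈ U₂, ∀ (sr ds : Sym2 V → V), (∀ e, e = s(sr e, ds e)) →
      8 * (F₂.filter (fun e => w y (ψ (sr e)) ≠ 1)).card < F.card := by
    intro y hy sr ds hsr
    have e1 := card_end_le H K sr ds hsr (fun v => w y (ψ v) ≠ 1) F₂ (by
      rw [← hFdef]; exact hF₂F)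
    have e2 := hfine y (hU₂mem y hy).1 (hU₂mem y hy).2.1
    have e3 : (F₂.filter (fun e => w y (ψ (sr e)) ≠ 1)).card ≤ Wc w H K ψ y := by
      refine e1.trans (le_of_eq ?_)
      unfold Wc
      rfl
    omega
  obtain ⟨a₁, ha1, ha2⟩ := hall_bal F₂ Y₁ (fun e y => w (ψ (src e)) y = 1)
    (fun e => ψ (src e)) (F₂.card / 2) (by omega) (by
      intro e he
      have e1 := hEx _ (hK _ (hFK e (hF₂F he)).1)
      exact ⟨Ex w (ψ (src e)), fun y _ hy => by rw [mem_Ex]; exact hy, by omega⟩) (by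
      intro y hy
      refine ⟨F₂.filter (fun e => w y (ψ (src e)) ≠ 1), ?_, ?_⟩
      · intro e he hρ
        refine Finset.mem_filter.2 ⟨he, ?_⟩
        rw [h.symm]
        exact hρ
      · have e1 := hWc y (hY₁ hy) src dst hsd
        omega) (by omega)
  obtain ⟨a₂, ha1', ha2'⟩ := hall_bal F₂ Y₂ (fun e y => w (a₁ e) y = 1 ∧ w y (ψ (dst e)) = 1)
    (fun e => ψ (src e)) (F₂.card / 2) (by omega) (by
      intro e he
      have e1 := hEx _ (hK _ (hFK e (hF₂F he)).2)
      have e2 := hEx _ (hU𝒢 _ (hU₂mem _ (hY₁ (ha1 e he).1)).1)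
      have e3 := Finset.card_union_le (Ex w (a₁ e)) (Ex w (ψ (dst e)))
      refine ⟨Ex w (a₁ e) ∪ Ex w (ψ (dst e)), ?_, by omega⟩
      intro y _ hy
      rw [Finset.mem_union, mem_Ex, mem_Ex, h.symm (ψ (dst e)) y]
      tauto) (by
      intro y hy
      refine ⟨F₂.filter (fun e => a₁ e ∈ Ex w y) ∪ F₂.filter (fun e => w y (ψ (dst e)) ≠ 1),
        ?_, ?_⟩
      · intro e he hρ
        rw [Finset.mem_union, Finset.mem_filter, Finset.mem_filter, mem_Ex, h.symm y (a₁ e)]
        tauto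
      · have e1 := hWc y (hY₂' y hy).1 dst src (fun e => (hsd e).trans Sym2.eq_swap)
        have e2 : (F₂.filter (fun e => a₁ e ∈ Ex w y)).card ≤ (Ex w y).card := by
          apply Finset.card_le_card_of_injOn a₁
          · intro e he
            exact (Finset.mem_filter.1 (Finset.mem_coe.1 he)).2
          · intro e he e' he' hee
            exact ha2 e (Finset.mem_filter.1 (Finset.mem_coe.1 he)).1 e'
              (Finset.mem_filter.1 (Finset.mem_coe.1 he')).1 hee
        have e3 := hEx y (hU𝒢 y (hU₂mem y (hY₂' y hy).1).1)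
        have e4 := Finset.card_union_le (F₂.filter (fun e => a₁ e ∈ Ex w y))
          (F₂.filter (fun e => w y (ψ (dst e)) ≠ 1))
        omega) (by omega)
  have hused : ∀ x ∈ U₂, x ∉ S ∪ F₁.biUnion (fun e => ([inv e, b (inv e)] : List α).toFinset) := by
    intro x hx hx'
    obtain ⟨h1, h2, h3⟩ := hU₂mem x hx
    rw [Finset.mem_union, Finset.mem_biUnion] at hx'
    rcases hx' with hx' | ⟨e, he, hx'⟩
    · exact hUS x h1 hx'
    · rw [List.mem_toFinset, List.mem_cons, List.mem_singleton] at hx'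
      obtain ⟨h4, _⟩ := hinv e he
      rcases hx' with rfl | rfl
      · exact h2 h4
      · exact h3 (Finset.mem_image_of_mem b h4)
  obtain ⟨I₂, m₂⟩ := m₁.addFamily F₂ (fun e => [a₁ e, a₂ e])
    (by
      intro e he he'
      rw [Finset.mem_union] at he'
      rcases he' with he' | he'
      · exact hdisjF e (hF₂F he) he'
      · rw [hF₂, Finset.mem_sdiff] at he
        exact he.2 he')
    (by
      intro e he
      rw [List.nodup_cons, List.mem_singleton]
      refine ⟨fun h2 => (hY₂' _ (ha1' e he).1).2 (h2 ▸ (ha1 e he).1), by simp⟩)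
    (by
      intro e he x hx
      rw [List.mem_cons, List.mem_singleton] at hx
      rcases hx with rfl | rfl
      · exact hused _ (hY₁ (ha1 e he).1)
      · exact hused _ (hY₂' _ (ha1' e he).1).1)
    (by
      intro e he e' he' hne x hx hx'
      rw [List.mem_cons, List.mem_singleton] at hx hx'
      rcases hx with rfl | rfl <;> rcases hx' with hx' | hx'
      · exact hne (ha2 e he e' he' hx')
      · exact (hY₂' _ (ha1' e' he').1).2 (hx' ▸ (ha1 e he).1)
      · exact (hY₂' _ (ha1' e he).1).2 (hx' ▸ (ha1 e' he').1)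
      · exact hne (ha2' e he e' he' hx'))
    (by
      intro e he
      refine ⟨src e, dst e, hsd e, Finset.mem_univ _, Finset.mem_univ _, ?_⟩
      rw [List.cons_append, List.singleton_append, pw_cons_cons, pw_cons_cons, pw_cons_cons,
        pw_single, (ha1 e he).2, (ha1' e he).2.1, (ha1' e he).2.2]
      rfl)
  have hall : (CE H K ∪ EE H K ∪ F₁) ∪ F₂ = EE H Finset.univ := by
    rw [Finset.union_assoc, hF₂, Finset.union_sdiff_of_subset hF₁F, hFdef, CE_partition]
  rw [hall] at m₂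
  exact ⟨ψ, I₂, m₂.mono (Finset.subset_univ _)⟩

end

end MP0dbebe
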