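import Pool.Agent.Lib.MP_0dbebe_co.Step

/-! # The upper bound for primes -/

namespace MP0dbebe

theorem const_bound (q : ℕ) (hq : 2 ≤ q) :
    48 * q * (16 * (q - 1)) ^ (q * (q - 1)) + 2 * q + 3 ≤ (16 * q) ^ (q ^ 2) := by
  have e : q ^ 2 = q * (q - 1) + q := by
    obtain ⟨k, rfl⟩ : ∃ k, q = k + 1 := ⟨q - 1, by omega⟩
    rw [Nat.add_sub_cancel]; ring
  rw [e, pow_add]
  set A := (16 * (q - 1)) ^ (q * (q - 1)) with hA
  have h1 : A ≤ (16 * q) ^ (q * (q - 1)) := Nat.pow_le_pow_left (by omega) _
  have h2 : (16 * q) ^ 2 ≤ (16 * q) ^ q := Nat.pow_le_pow_right (by omega) hq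
  have h3 : 1 ≤ A := Nat.one_le_pow _ _ (by omega)
  have h4 : A * (16 * q) ^ 2 ≤ (16 * q) ^ (q * (q - 1)) * (16 * q) ^ q := Nat.mul_le_mul h1 h2
  refine le_trans ?_ h4
  have h5 : A * (16 * q) ^ 2 = 256 * (A * q) * q := by ring
  have h6 : q ≤ A * q := Nat.le_mul_of_pos_left q h3
  rw [h5]
  nlinarith [Nat.mul_le_mul_left (256 * (A * q)) hq]

section
variable {V α : Type*}

open Classical in
/-- **Main theorem for primes.** -/
theorem primeMain {q : ℕ} [Fact q.Prime] [Fintype V] [Fintype α] {w : α → α → ZMod q}
    (hw : ∀ a b, w a b = w b a) (H : SimpleGraph V)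
    (hc : (q - 1) * (EE H Finset.univ).card + (16 * q) ^ (q ^ 2) * Fintype.card V ≤
      Fintype.card α) :
    HasModel w (EE H Finset.univ) Finset.univ Finset.univ := by
  have hqp : q.Prime := Fact.out
  have hq2 : 2 ≤ q := hqp.two_le
  have hK := const_bound q hq2
  rcases isEmpty_or_nonempty V with hV | hV
  · refine ⟨fun v => isEmptyElim v, fun _ => [], ?_⟩
    have hno : ∀ e, e ∉ EE H Finset.univ := by
      intro e
      induction e using Sym2.ind with
      | _ a b => exact isEmptyElim a
    exact ⟨fun a => isEmptyElim a, fun a => isEmptyElim a, fun e he => absurd he (hno e),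
      fun e he => absurd he (hno e), fun e he => absurd he (hno e),
      fun e he => absurd he (hno e), fun e he => absurd he (hno e),
      fun e he => absurd he (hno e)⟩
  have hn1 : 1 ≤ Fintype.card V := Fintype.card_pos
  set K := (16 * q) ^ (q ^ 2) with hKdef
  set n := Fintype.card V with hn
  set D := (16 * (q - 1)) ^ (q * (q - 1)) with hD
  have hKn : 48 * q * n * D + (2 * q + 3) * n ≤ K * n := by
    calc 48 * q * n * D + (2 * q + 3) * n = (48 * q * D + 2 * q + 3) * n := by ring
      _ ≤ K * n := Nat.mul_le_mul_right _ hK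
  have hqn : 2 * q + 3 * n ≤ (2 * q + 3) * n := by
    have := Nat.mul_le_mul_left (2 * q) hn1
    nlinarith
  have hαpos : 0 < Fintype.card α := by omega
  have hα : Nonempty α := Fintype.card_pos_iff.1 hαpos
  have main : ∀ X : Finset V, HasModel w (EE H Finset.univ) Finset.univ Finset.univ ∨
      ∃ S φ I, Model w (EE H X) X S φ I ∧ S.card ≤ X.card + (q - 1) * (EE H X).card := by
    intro X
    induction X using Finset.induction_on with
    | empty =>
      right
      refine ⟨∅, fun _ => Classical.arbitrary α, fun _ => [], ?_, by simp⟩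
      have h2 : EE H ∅ = ∅ := by
        ext e
        induction e using Sym2.ind with
        | _ a b => rw [mk_mem_EE]; simp
      rw [h2]
      exact ⟨by simp, by simp, by simp, by simp, by simp, by simp, by simp, by simp⟩
    | insert v X hv ih =>
      rcases ih with h | ⟨S, φ, I, m, hS⟩
      · exact Or.inl h
      have hXn : X.card + 1 ≤ n := Finset.card_lt_univ_of_notMem hv
      have hE := card_EE_insert H X v hv
      have hEm : (EE H (insert v X)).card ≤ (EE H Finset.univ).card :=
        Finset.card_le_card (EE_mono H (Finset.subset_univ _))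
      have h1 : (q - 1) * (EE H X).card + (q - 1) * (NE H X v).card ≤
          (q - 1) * (EE H Finset.univ).card := by
        rw [← mul_add, ← hE]
        exact Nat.mul_le_mul_left _ hEm
      have hScompl : (Sᶜ).card = Fintype.card α - S.card := Finset.card_compl S
      rcases step hw H X v hv S φ I m (by rw [hScompl, ← hn, ← hD]; omega)
        (by rw [← hn]; omega) (by rw [← hn]; omega) with h | ⟨S', φ', I', m', hS'⟩
      · exact Or.inl h
      · right
        refine ⟨S', φ', I', m', ?_⟩
        rw [Finset.card_insert_of_notMem hv, hE, mul_add]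
        omega
  rcases main Finset.univ with h | ⟨S, φ, I, m, _⟩
  · exact h
  · exact ⟨φ, I, m.mono (Finset.subset_univ _)⟩

end

end MP0dbebe
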