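import Pool.Agent.Lib.MP_0dbebe_co.NearZero

/-! # Monochromatic cliques or sets with few nonzero pairs -/

namespace MP0dbebe

section
variable {α : Type*} {q : ℕ}

/-- conflict -/
def Bad (U : α → Finset α) (x y : α) : Prop := x ∈ U y ∨ y ∈ U x

theorem Bad.symm {U : α → Finset α} {x y : α} (h : Bad U x y) : Bad U y x := Or.symm h

open Classical in
theorem nested [NeZero q] {w : α → α → ZMod q} (U : α → Finset α) (u : ℕ)
    (hU : ∀ y, (U y).card ≤ u) (S : Finset α) (hS : 16 * (3 * u + 1) ≤ S.card) :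
    (∃ W ⊆ S, NZ w W ∧ S.card ≤ 2 * W.card) ∨
      ∃ x ∈ S, ∃ t : ZMod q, t ≠ 0 ∧ ∃ P ⊆ S, x ∉ P ∧ S.card ≤ 16 * (q - 1) * P.card ∧
        ∀ y ∈ P, w x y = t ∧ ¬ Bad U x y := by
  set S₁ := S.filter (fun x => (S.filter (fun y => x ∈ U y)).card ≤ 2 * u) with hS₁
  have hS₁sub : S₁ ⊆ S := Finset.filter_subset _ _
  have hsum : ∑ x ∈ S, (S.filter (fun y => x ∈ U y)).card ≤ S.card * u := by
    have e : ∑ x ∈ S, (S.filter (fun y => x ∈ U y)).card =
        ∑ y ∈ S, (S.filter (fun x => x ∈ U y)).card := by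
      simp only [Finset.card_filter]
      exact Finset.sum_comm
    rw [e, ← smul_eq_mul]
    apply Finset.sum_le_card_nsmul
    intro y _
    refine le_trans (Finset.card_le_card ?_) (hU y)
    intro x hx
    exact (Finset.mem_filter.1 hx).2
  have hhalf : S.card ≤ 2 * S₁.card := by
    have h1 : (S.filter (fun x => ¬ (S.filter (fun y => x ∈ U y)).card ≤ 2 * u)).card •
        (2 * u + 1) ≤ ∑ x ∈ S.filter (fun x => ¬ (S.filter (fun y => x ∈ U y)).card ≤ 2 * u),
          (S.filter (fun y => x ∈ U y)).card := by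
      apply Finset.card_nsmul_le_sum
      intro x hx
      have := (Finset.mem_filter.1 hx).2
      omega
    have h2 : ∑ x ∈ S.filter (fun x => ¬ (S.filter (fun y => x ∈ U y)).card ≤ 2 * u),
          (S.filter (fun y => x ∈ U y)).card ≤ ∑ x ∈ S, (S.filter (fun y => x ∈ U y)).card :=
      Finset.sum_le_sum_of_subset (Finset.filter_subset _ _)
    have h3 := Finset.card_filter_add_card_filter_not (s := S)
      (fun x => (S.filter (fun y => x ∈ U y)).card ≤ 2 * u)
    rw [← hS₁] at h3
    rw [smul_eq_mul] at h1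
    by_contra hcon
    push Not at hcon
    have h4 := h1.trans (h2.trans hsum)
    nlinarith
  by_cases hNZ : NZ w S₁
  · exact Or.inl ⟨S₁, hS₁sub, hNZ, hhalf⟩
  right
  obtain ⟨x, hx, Q, hQ, hxQ⟩ := exists_of_not_NZ hNZ
  set P₀ := Q.filter (fun y => y ≠ x ∧ ¬ Bad U x y) with hP₀
  have hQP : Q.card ≤ P₀.card + (3 * u + 1) := by
    have h1 := Finset.card_filter_add_card_filter_not (s := Q) (fun y => y ≠ x ∧ ¬ Bad U x y)
    rw [← hP₀] at h1
    have h2 : Q.filter (fun y => ¬ (y ≠ x ∧ ¬ Bad U x y)) ⊆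
        ({x} ∪ U x) ∪ S.filter (fun y => x ∈ U y) := by
      intro y hy
      rw [Finset.mem_filter] at hy
      obtain ⟨hy1, hy2⟩ := hy
      rw [Finset.mem_union, Finset.mem_union, Finset.mem_singleton, Finset.mem_filter]
      by_cases hyx : y = x
      · exact Or.inl (Or.inl hyx)
      · have hb : Bad U x y := by
          by_contra h
          exact hy2 ⟨hyx, h⟩
        rcases hb with hb | hb
        · exact Or.inr ⟨hS₁sub ((hQ y).1 hy1).1, hb⟩
        · exact Or.inl (Or.inr hb)
    have h3 := Finset.card_le_card h2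
    have h4 := Finset.card_union_le ({x} ∪ U x) (S.filter (fun y => x ∈ U y))
    have h5 := Finset.card_union_le {x} (U x)
    rw [Finset.card_singleton] at h5
    have h6 := hU x
    have h7 := (Finset.mem_filter.1 hx).2
    omega
  have h16 : S.card ≤ 16 * P₀.card := by omega
  have hfib : P₀.card = ∑ t ∈ Finset.univ.erase (0 : ZMod q),
      (P₀.filter (fun y => w x y = t)).card := by
    apply Finset.card_eq_sum_card_fiberwise
    intro y hy
    rw [Finset.mem_coe, Finset.mem_erase]
    refine ⟨?_, Finset.mem_univ _⟩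
    rw [Finset.mem_coe, hP₀, Finset.mem_filter, hQ] at hy
    exact hy.1.2
  have hpos : 0 < P₀.card := by omega
  have hne : (Finset.univ.erase (0 : ZMod q)).Nonempty := by
    rw [Finset.nonempty_iff_ne_empty]
    intro h
    rw [h, Finset.sum_empty] at hfib
    omega
  obtain ⟨t, ht, hle⟩ : ∃ t ∈ Finset.univ.erase (0 : ZMod q),
      P₀.card ≤ (q - 1) * (P₀.filter (fun y => w x y = t)).card := by
    by_contra hcon
    push Not at hcon
    have := Finset.sum_lt_sum_of_nonempty hne hcon
    rw [← Finset.mul_sum, ← hfib, Finset.sum_const, Finset.card_erase_of_mem (Finset.mem_univ _),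
      Finset.card_univ, ZMod.card, smul_eq_mul] at this
    exact lt_irrefl _ this
  refine ⟨x, hS₁sub hx, t, (Finset.mem_erase.1 ht).1, P₀.filter (fun y => w x y = t), ?_, ?_, ?_, ?_⟩
  · intro y hy
    exact hS₁sub ((hQ y).1 (Finset.mem_filter.1 (Finset.mem_filter.1 hy).1).1).1
  · intro h
    exact (Finset.mem_filter.1 (Finset.mem_filter.1 h).1).2.1 rfl
  · calc S.card ≤ 16 * P₀.card := h16
      _ ≤ 16 * ((q - 1) * (P₀.filter (fun y => w x y = t)).card) := Nat.mul_le_mul_left _ hle
      _ = _ := by ring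
  · intro y hy
    exact ⟨(Finset.mem_filter.1 hy).2, (Finset.mem_filter.1 (Finset.mem_filter.1 hy).1).2.2⟩

open Classical in
theorem ramsey [NeZero q] (hq : 2 ≤ q) {w : α → α → ZMod q} (hw : ∀ a b, w a b = w b a)
    (U : α → Finset α) (u : ℕ) (hU : ∀ y, (U y).card ≤ u) (M : ℕ) (hM : 16 * (3 * u + 1) ≤ M) :
    ∀ N : ℕ, ∀ g : ZMod q → ℕ, (∑ t ∈ Finset.univ.erase (0 : ZMod q), g t) ≤ N →
      ∀ S : Finset α, M * (16 * (q - 1)) ^ N ≤ S.card →
        (∃ W ⊆ S, NZ w W ∧ M ≤ 2 * W.card) ∨
          ∃ t : ZMod q, t ≠ 0 ∧ ∃ T ⊆ S, T.card = g t ∧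
            ∀ x ∈ T, ∀ y ∈ T, x ≠ y → w x y = t ∧ ¬ Bad U x y := by
  intro N
  induction N with
  | zero =>
    intro g hg S hS
    right
    have h1 : (1 : ZMod q) ≠ 0 := by
      have : Fact (1 < q) := ⟨by omega⟩
      exact one_ne_zero
    refine ⟨1, h1, ∅, Finset.empty_subset _, ?_, by simp⟩
    have h2 : g 1 ≤ ∑ t ∈ Finset.univ.erase (0 : ZMod q), g t :=
      Finset.single_le_sum (fun _ _ => Nat.zero_le _)
        (Finset.mem_erase.2 ⟨h1, Finset.mem_univ _⟩)
    rw [Finset.card_empty]; omega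
  | succ N ih =>
    intro g hg S hS
    by_cases h0 : ∃ t : ZMod q, t ≠ 0 ∧ g t = 0
    · obtain ⟨t, ht, ht0⟩ := h0
      right
      exact ⟨t, ht, ∅, Finset.empty_subset _, by rw [ht0]; simp, by simp⟩
    push Not at h0
    have hpow : 1 ≤ (16 * (q - 1)) ^ (N + 1) := Nat.one_le_pow _ _ (by omega)
    have hSM : M ≤ S.card := by
      calc M = M * 1 := (mul_one M).symm
        _ ≤ M * (16 * (q - 1)) ^ (N + 1) := Nat.mul_le_mul_left _ hpow
        _ ≤ S.card := hS
    rcases nested (w := w) U u hU S (hM.trans hSM) with ⟨W, h1, h2, h3⟩ | ⟨x, hx, t, ht, P, hPS, hxP, hPc, hP⟩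
    · exact Or.inl ⟨W, h1, h2, by omega⟩
    · have hPc' : M * (16 * (q - 1)) ^ N ≤ P.card := by
        have h4 : (16 * (q - 1)) * (M * (16 * (q - 1)) ^ N) ≤ (16 * (q - 1)) * P.card := by
          calc (16 * (q - 1)) * (M * (16 * (q - 1)) ^ N) = M * (16 * (q - 1)) ^ (N + 1) := by
                rw [pow_succ]; ring
            _ ≤ S.card := hS
            _ ≤ _ := hPc
        exact Nat.le_of_mul_le_mul_left h4 (by omega)
      have hg' : (∑ s ∈ Finset.univ.erase (0 : ZMod q), Function.update g t (g t - 1) s) ≤ N := by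
        have htm : t ∈ Finset.univ.erase (0 : ZMod q) := Finset.mem_erase.2 ⟨ht, Finset.mem_univ _⟩
        rw [← Finset.add_sum_erase _ _ htm] at hg ⊢
        rw [Function.update_self]
        have h5 : ∑ s ∈ (Finset.univ.erase (0 : ZMod q)).erase t,
            Function.update g t (g t - 1) s = ∑ s ∈ (Finset.univ.erase (0 : ZMod q)).erase t, g s := by
          apply Finset.sum_congr rfl
          intro s hs
          rw [Function.update_of_ne (Finset.mem_erase.1 hs).1]
        rw [h5]
        have := h0 t ht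
        omega
      rcases ih _ hg' P hPc' with ⟨W, h1, h2, h3⟩ | ⟨s, hs, T, hTP, hTc, hT⟩
      · exact Or.inl ⟨W, h1.trans hPS, h2, h3⟩
      · right
        by_cases hst : s = t
        · subst hst
          refine ⟨s, hs, insert x T, Finset.insert_subset hx (hTP.trans hPS), ?_, ?_⟩
          · rw [Finset.card_insert_of_notMem (fun h => hxP (hTP h)), hTc, Function.update_self]
            have := h0 s hs
            omega
          · intro a ha b hb hab
            rw [Finset.mem_insert] at ha hb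
            rcases ha with rfl | ha <;> rcases hb with rfl | hb
            · exact absurd rfl hab
            · exact hP b (hTP hb)
            · have := hP a (hTP ha)
              exact ⟨by rw [hw]; exact this.1, fun h => this.2 h.symm⟩
            · exact hT a ha b hb hab
        · refine ⟨s, hs, T, hTP.trans hPS, ?_, hT⟩
          rw [hTc, Function.update_of_ne hst]

end

end MP0dbebe
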