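import Pool.Agent.Lib.MP_0dbebe_co.Ramsey

/-! # Adding one vertex -/

namespace MP0dbebe

section
variable {V α G : Type*} [AddCommGroup G]

/-- a family of disjoint connectors from the vertices `φ u`, `u ∈ A`, to `y`, inside `R` without
`y` -/
structure Fam (w : α → α → G) (φ : V → α) (R : Finset α) (k : ℕ) (y : α) (A : Finset V)
    (L : V → List α) : Prop where
  nodup : ∀ u ∈ A, (L u).Nodup
  mem : ∀ u ∈ A, ∀ a ∈ L u, a ∈ R ∧ a ≠ y
  len : ∀ u ∈ A, (L u).length ≤ k
  zero : ∀ u ∈ A, pw w (φ u :: (L u ++ [y])) = 0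
  disj : ∀ u ∈ A, ∀ u' ∈ A, u ≠ u' → ∀ a ∈ L u, a ∉ L u'

open Classical in
theorem exists_fam (w : α → α → G) (φ : V → α) (R : Finset α) (k : ℕ) (y : α) (N : Finset V) :
    ∃ (A : Finset V) (L : V → List α), A ⊆ N ∧ Fam w φ R k y A L ∧
      ∀ u ∈ N, u ∉ A → ∀ l : List α, l.Nodup → (∀ a ∈ l, a ∈ R ∧ a ≠ y ∧ ∀ u' ∈ A, a ∉ L u') →
        l.length ≤ k → pw w (φ u :: (l ++ [y])) ≠ 0 := by
  have hne : (N.powerset.filter (fun A => ∃ L, Fam w φ R k y A L)).Nonempty :=
    ⟨∅, Finset.mem_filter.2 ⟨by simp, fun _ => [], ⟨by simp, by simp, by simp, by simp, by simp⟩⟩⟩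
  obtain ⟨A, hA, hmax⟩ := Finset.exists_max_image _ Finset.card hne
  rw [Finset.mem_filter, Finset.mem_powerset] at hA
  obtain ⟨hAN, L, hL⟩ := hA
  refine ⟨A, L, hAN, hL, ?_⟩
  intro u hu huA l hl hla hlen h0
  have hup : ∀ u' ∈ A, Function.update L u l u' = L u' := by
    intro u' hu'
    rw [Function.update_of_ne]
    rintro rfl; exact huA hu'
  have hnew : Fam w φ R k y (insert u A) (Function.update L u l) := by
    constructor
    · intro u' hu'
      rw [Finset.mem_insert] at hu'
      rcases hu' with rfl | hu'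
      · rw [Function.update_self]; exact hl
      · rw [hup u' hu']; exact hL.nodup u' hu'
    · intro u' hu' a ha
      rw [Finset.mem_insert] at hu'
      rcases hu' with rfl | hu'
      · rw [Function.update_self] at ha; exact ⟨(hla a ha).1, (hla a ha).2.1⟩
      · rw [hup u' hu'] at ha; exact hL.mem u' hu' a ha
    · intro u' hu'
      rw [Finset.mem_insert] at hu'
      rcases hu' with rfl | hu'
      · rw [Function.update_self]; exact hlen
      · rw [hup u' hu']; exact hL.len u' hu'
    · intro u' hu'
      rw [Finset.mem_insert] at hu'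
      rcases hu' with rfl | hu'
      · rw [Function.update_self]; exact h0
      · rw [hup u' hu']; exact hL.zero u' hu'
    · intro u' hu' u'' hu'' hne a ha ha'
      rw [Finset.mem_insert] at hu' hu''
      rcases hu' with rfl | hu' <;> rcases hu'' with rfl | hu''
      · exact hne rfl
      · rw [Function.update_self] at ha
        rw [hup u'' hu''] at ha'
        exact (hla a ha).2.2 u'' hu'' ha'
      · rw [Function.update_self] at ha'
        rw [hup u' hu'] at ha
        exact (hla a ha').2.2 u' hu' ha
      · rw [hup u' hu'] at ha; rw [hup u'' hu''] at ha'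
        exact hL.disj u' hu' u'' hu'' hne a ha ha'
  have := hmax (insert u A) (Finset.mem_filter.2
    ⟨Finset.mem_powerset.2 (Finset.insert_subset hu hAN), _, hnew⟩)
  rw [Finset.card_insert_of_notMem huA] at this
  omega

open Classical in
/-- adding a star -/
theorem Model.insertStar {w : α → α → G} {E : Finset (Sym2 V)} {X : Finset V} {S : Finset α}
    {φ : V → α} {I : Sym2 V → List α} (m : Model w E X S φ I) (v : V) (hv : v ∈ X)
    (A : Finset V) (L : V → List α) (hAX : A ⊆ X) (hE : ∀ u ∈ A, s(v, u) ∉ E)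
    (hnd : ∀ u ∈ A, (L u).Nodup) (hS : ∀ u ∈ A, ∀ a ∈ L u, a ∉ S)
    (h0 : ∀ u ∈ A, pw w (φ u :: (L u ++ [φ v])) = 0)
    (hd : ∀ u ∈ A, ∀ u' ∈ A, u ≠ u' → ∀ a ∈ L u, a ∉ L u') :
    ∃ I', Model w (E ∪ A.image (fun u => s(v, u))) X (S ∪ A.biUnion (fun u => (L u).toFinset))
      φ I' := by
  induction A using Finset.induction_on with
  | empty => exact ⟨I, by simpa using m⟩
  | insert u A hu ih =>
    obtain ⟨I', m'⟩ := ih (fun a ha => hAX (Finset.mem_insert_of_mem ha))
      (fun a ha => hE a (Finset.mem_insert_of_mem ha))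
      (fun a ha => hnd a (Finset.mem_insert_of_mem ha))
      (fun a ha => hS a (Finset.mem_insert_of_mem ha))
      (fun a ha => h0 a (Finset.mem_insert_of_mem ha))
      (fun a ha b hb => hd a (Finset.mem_insert_of_mem ha) b (Finset.mem_insert_of_mem hb))
    have hself : u ∈ insert u A := Finset.mem_insert_self _ _
    have hnotE : s(u, v) ∉ E ∪ A.image (fun u => s(v, u)) := by
      rw [Finset.mem_union, Finset.mem_image]
      rintro (h | ⟨b, hb, hbu⟩)
      · rw [Sym2.eq_swap] at h; exact hE u hself h
      · rw [Sym2.eq_swap (a := u)] at hbu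
        exact hu (star_injective v hbu ▸ hb)
    have m'' := m'.insertEdge (hAX hself) hv hnotE (hnd u hself) (by
      intro a ha
      rw [Finset.mem_union, Finset.mem_biUnion]
      rintro (h | ⟨b, hb, hba⟩)
      · exact hS u hself a ha h
      · rw [List.mem_toFinset] at hba
        exact hd u hself b (Finset.mem_insert_of_mem hb) (fun h => hu (h ▸ hb)) a ha hba)
      (h0 u hself)
    have e1 : E ∪ (insert u A).image (fun u => s(v, u)) =
        insert s(u, v) (E ∪ A.image (fun u => s(v, u))) := by
      rw [Finset.image_insert, Finset.union_insert, Sym2.eq_swap]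
    have e2 : S ∪ (insert u A).biUnion (fun u => (L u).toFinset) =
        S ∪ A.biUnion (fun u => (L u).toFinset) ∪ (L u).toFinset := by
      rw [Finset.biUnion_insert, Finset.union_comm (L u).toFinset, Finset.union_assoc]
    rw [e1, e2]
    exact ⟨_, m''⟩

theorem pw_mono (w : α → α → G) (T : Finset α) (t : G)
    (hT : ∀ x ∈ T, ∀ y ∈ T, x ≠ y → w x y = t) (a : α) (l : List α) (hl : (a :: l).Nodup)
    (hmem : ∀ x ∈ a :: l, x ∈ T) : pw w (a :: l) = l.length • t := by
  induction l generalizing a with
  | nil => simp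
  | cons b l ih =>
    have hab : a ≠ b := by
      rintro rfl
      exact (List.nodup_cons.1 hl).1 List.mem_cons_self
    rw [pw_cons_cons, ih b (List.nodup_cons.1 hl).2 (fun x hx => hmem x (List.mem_cons_of_mem _ hx)),
      hT a (hmem a List.mem_cons_self) b (hmem b (List.mem_cons_of_mem _ List.mem_cons_self)) hab,
      List.length_cons, add_smul, one_smul, add_comm]

end

section
variable {V α : Type*}

open Classical in
/-- **The exchange trick.** -/
theorem trick {q : ℕ} [Fact q.Prime] {w : α → α → ZMod q}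
    (φ : V → α) (R T : Finset α) (t : ZMod q) (ht : t ≠ 0)
    (hTR : T ⊆ R) (hTc : T.card = q) (hT : ∀ x ∈ T, ∀ y ∈ T, x ≠ y → w x y = t)
    (A : Finset V) (L : V → List α) (x y : α) (hx : x ∈ T) (hy : y ∈ T) (hxy : x ≠ y)
    (havoid : ∀ a ∈ T, a ≠ y → ∀ u ∈ A, a ∉ L u) (u : V)
    (hmax : ∀ l : List α, l.Nodup → (∀ a ∈ l, a ∈ R ∧ a ≠ y ∧ ∀ u' ∈ A, a ∉ L u') →
        l.length ≤ q - 1 → pw w (φ u :: (l ++ [y])) ≠ 0) : w (φ u) x = 0 := by
  have hqp : q.Prime := Fact.out
  by_contra hβ
  set j := ((- w (φ u) x) * t⁻¹).val with hj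
  have hjt : ((j : ℕ) : ZMod q) * t = - w (φ u) x := by
    rw [hj, ZMod.natCast_zmod_val, mul_assoc, inv_mul_cancel₀ ht, mul_one]
  have hj0 : j ≠ 0 := by
    intro h
    rw [h, Nat.cast_zero, zero_mul] at hjt
    exact hβ (by rw [← neg_eq_zero, ← hjt])
  have hjq : j < q := ZMod.val_lt _
  set T' := (T.erase x).erase y with hT'
  have hT'c : T'.card = q - 2 := by
    rw [hT', Finset.card_erase_of_mem (Finset.mem_erase.2 ⟨hxy.symm, hy⟩),
      Finset.card_erase_of_mem hx, hTc]
    omega
  set rest := T'.toList.take (j - 1) with hrest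
  have hrl : rest.length = j - 1 := by
    rw [hrest, List.length_take, Finset.length_toList, hT'c]
    omega
  have hrT' : ∀ a ∈ rest, a ∈ T' := fun a ha => Finset.mem_toList.1 (List.mem_of_mem_take ha)
  have hrnd : rest.Nodup := (Finset.nodup_toList T').sublist (List.take_sublist _ _)
  have hrT : ∀ a ∈ rest, a ∈ T ∧ a ≠ x ∧ a ≠ y := by
    intro a ha
    have := hrT' a ha
    rw [hT', Finset.mem_erase, Finset.mem_erase] at this
    exact ⟨this.2.2, this.2.1, this.1⟩
  have hxr : x ∉ rest := fun h => (hrT x h).2.1 rfl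
  have hyr : y ∉ rest := fun h => (hrT y h).2.2 rfl
  apply hmax (x :: rest) (List.nodup_cons.2 ⟨hxr, hrnd⟩)
  · intro a ha
    rw [List.mem_cons] at ha
    rcases ha with rfl | ha
    · exact ⟨hTR hx, hxy, havoid a hx hxy⟩
    · have := hrT a ha
      exact ⟨hTR this.1, this.2.2, havoid a this.1 this.2.2⟩
  · rw [List.length_cons, hrl]; omega
  · rw [List.cons_append, pw_cons_cons, pw_mono w T t hT x (rest ++ [y])]
    · rw [List.length_append, hrl, List.length_singleton, show j - 1 + 1 = j by omega,
        nsmul_eq_mul, hjt, add_neg_cancel]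
    · rw [List.nodup_cons, List.nodup_append]
      refine ⟨?_, hrnd, by simp, ?_⟩
      · rw [List.mem_append, List.mem_singleton]
        rintro (h | h)
        · exact hxr h
        · exact hxy h
      · intro a ha b hb hab
        rw [List.mem_singleton] at hb
        subst hb; subst hab
        exact hyr ha
    · intro a ha
      rw [List.mem_cons, List.mem_append, List.mem_singleton] at ha
      rcases ha with rfl | ha | rfl
      · exact hx
      · exact (hrT a ha).1
      · exact hy

open Classical in
theorem step {q : ℕ} [Fact q.Prime] [Fintype V] [Fintype α] {w : α → α → ZMod q}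
    (hw : ∀ a b, w a b = w b a) (H : SimpleGraph V) (X : Finset V) (v : V) (hv : v ∉ X)
    (S : Finset α) (φ : V → α) (I : Sym2 V → List α) (m : Model w (EE H X) X S φ I)
    (hR : 48 * q * Fintype.card V * (16 * (q - 1)) ^ (q * (q - 1)) ≤ (Sᶜ).card)
    (hfb : S.card + 1 + (q - 1) * (NE H X v).card + (2 * Fintype.card V + 2 * q) ≤
      Fintype.card α)
    (hc : (q - 1) * (EE H Finset.univ).card + 3 * Fintype.card V + 2 * q ≤ Fintype.card α) :
    HasModel w (EE H Finset.univ) Finset.univ Finset.univ ∨
      ∃ S' φ' I', Model w (EE H (insert v X)) (insert v X) S' φ' I' ∧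
        S'.card ≤ S.card + 1 + (q - 1) * (NE H X v).card := by
  have hqp : q.Prime := Fact.out
  have hq2 : 2 ≤ q := hqp.two_le
  have hn1 : 1 ≤ Fintype.card V := Fintype.card_pos_iff.2 ⟨v⟩
  set R := Sᶜ with hRdef
  set N := NE H X v with hN
  have hNX : N ⊆ X := Finset.filter_subset _ _
  have hNc : N.card ≤ Fintype.card V := Finset.card_le_univ _
  let N₀ : α → Finset V := fun y => N.filter (fun u => ¬ w (φ u) y = 0)
  let Z : α → Finset V := fun y => N.filter (fun u => w (φ u) y = 0)
  have hZN : ∀ y, (Z y).card + (N₀ y).card = N.card := fun y =>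
    Finset.card_filter_add_card_filter_not _
  choose A L hAN hF hmax using fun y => exists_fam w φ R (q - 1) y (N₀ y)
  let U : α → Finset α := fun y => (A y).biUnion (fun u => (L y u).toFinset)
  have hU1 : ∀ y, (U y).card ≤ (q - 1) * (A y).card := by
    intro y
    have h1 : (U y).card ≤ (A y).card * (q - 1) := by
      apply Finset.card_biUnion_le_card_mul
      intro u hu
      exact (List.toFinset_card_le _).trans ((hF y).len u hu)
    rw [mul_comm] at h1
    exact h1
  have hAc : ∀ y, (A y).card ≤ Fintype.card V := fun y => Finset.card_le_univ _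
  have hU : ∀ y, (U y).card ≤ (q - 1) * Fintype.card V := fun y =>
    (hU1 y).trans (Nat.mul_le_mul_left _ (hAc y))
  have hM : 16 * (3 * ((q - 1) * Fintype.card V) + 1) ≤ 48 * q * Fintype.card V := by
    obtain ⟨k, rfl⟩ : ∃ k, q = k + 1 := ⟨q - 1, by omega⟩
    rw [Nat.add_sub_cancel]
    nlinarith
  have hg : (∑ t ∈ Finset.univ.erase (0 : ZMod q), (fun _ => q) t) ≤ q * (q - 1) := by
    rw [Finset.sum_const, Finset.card_erase_of_mem (Finset.mem_univ _), Finset.card_univ,
      ZMod.card, smul_eq_mul, mul_comm]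
  rcases ramsey hq2 hw U _ hU _ hM (q * (q - 1)) (fun _ => q) hg R hR with
    ⟨W, hWR, hW, hWc⟩ | ⟨t, ht, T, hTR, hTc, hT⟩
  · left
    have hα : Nonempty α := by
      have : 0 < Fintype.card α := by omega
      exact Fintype.card_pos_iff.1 this
    refine nz_finish hw H W hW ?_ hα hc
    nlinarith
  -- the exchange trick
  let J : α → Finset V := fun y => N₀ y \ A y
  have hJZ : ∀ x ∈ T, ∀ y ∈ T, x ≠ y → (J y).card ≤ (Z x).card := by
    intro x hx y hy hxy
    apply Finset.card_le_card
    intro u hu
    rw [Finset.mem_sdiff] at hu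
    have huN : u ∈ N := (Finset.mem_filter.1 hu.1).1
    refine Finset.mem_filter.2 ⟨huN, ?_⟩
    apply trick φ R T t ht hTR hTc (fun a ha b hb hab => (hT a ha b hb hab).1) (A y) (L y) x y hx hy
      hxy ?_ u (hmax y u hu.1 hu.2)
    intro a ha hay u' hu' hmem
    apply (hT a ha y hy hay).2
    left
    rw [Finset.mem_biUnion]
    exact ⟨u', hu', List.mem_toFinset.2 hmem⟩
  obtain ⟨y, hyT, hyJ⟩ : ∃ y ∈ T, (J y).card ≤ (Z y).card := by
    have h1 : 1 < T.card := by rw [hTc]; omega
    obtain ⟨x, hx, y, hy, hxy⟩ := Finset.one_lt_card.1 h1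
    by_contra hcon
    push Not at hcon
    have a1 := hJZ x hx y hy hxy
    have a2 := hJZ y hy x hx hxy.symm
    have a3 := hcon x hx
    have a4 := hcon y hy
    omega
  have hyR : y ∈ R := hTR hyT
  have hyS : y ∉ S := by rw [hRdef, Finset.mem_compl] at hyR; exact hyR
  have m₁ := m.insertVertex hv hyS
  have hφ' : ∀ u ∈ X, Function.update φ v y u = φ u := by
    intro u hu
    rw [Function.update_of_ne]
    rintro rfl; exact hv hu
  let L' : V → List α := fun u => if u ∈ A y then L y u else []
  have hL'A : ∀ u ∈ A y, L' u = L y u := fun u hu => if_pos hu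
  have hL'n : ∀ u, u ∉ A y → L' u = [] := fun u hu => if_neg hu
  have hAZ : ∀ u ∈ Z y, u ∉ A y := by
    intro u hu hu'
    exact (Finset.mem_filter.1 (hAN y hu')).2 (Finset.mem_filter.1 hu).2
  obtain ⟨I₂, m₂⟩ := m₁.insertStar v (Finset.mem_insert_self _ _) (Z y ∪ A y) L'
    (by
      intro u hu
      rw [Finset.mem_union] at hu
      apply Finset.mem_insert_of_mem
      rcases hu with hu | hu
      · exact hNX (Finset.mem_filter.1 hu).1
      · exact hNX (Finset.mem_filter.1 (hAN y hu)).1)
    (by
      intro u _ h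
      rw [mk_mem_EE] at h
      exact hv h.1.1)
    (by
      intro u _
      by_cases hu : u ∈ A y
      · rw [hL'A u hu]; exact (hF y).nodup u hu
      · rw [hL'n u hu]; exact List.nodup_nil)
    (by
      intro u _ a ha
      by_cases hu : u ∈ A y
      · rw [hL'A u hu] at ha
        have := (hF y).mem u hu a ha
        rw [Finset.mem_insert]
        rintro (h | h)
        · exact this.2 h
        · have h2 := this.1
          rw [hRdef, Finset.mem_compl] at h2
          exact h2 h
      · rw [hL'n u hu] at ha; exact absurd ha (List.not_mem_nil))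
    (by
      intro u hu
      rw [Function.update_self]
      by_cases hu' : u ∈ A y
      · rw [hL'A u hu', hφ' u (hNX (Finset.mem_filter.1 (hAN y hu')).1)]
        exact (hF y).zero u hu'
      · rw [hL'n u hu']
        have huZ : u ∈ Z y := by
          rw [Finset.mem_union] at hu
          exact hu.resolve_right hu'
        rw [List.nil_append, pw_cons_cons, pw_single, add_zero,
          hφ' u (hNX (Finset.mem_filter.1 huZ).1)]
        exact (Finset.mem_filter.1 huZ).2)
    (by
      intro u _ u' _ hne a ha ha'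
      by_cases hu : u ∈ A y <;> by_cases hu' : u' ∈ A y
      · rw [hL'A u hu] at ha
        rw [hL'A u' hu'] at ha'
        exact (hF y).disj u hu u' hu' hne a ha ha'
      · rw [hL'n u' hu'] at ha'; exact absurd ha' (List.not_mem_nil)
      · rw [hL'n u hu] at ha; exact absurd ha (List.not_mem_nil)
      · rw [hL'n u hu] at ha; exact absurd ha (List.not_mem_nil))
  have hcard₂ : (insert y S ∪ (Z y ∪ A y).biUnion (fun u => (L' u).toFinset)).card ≤
      S.card + 1 + (q - 1) * (A y).card := by
    have e1 : (Z y ∪ A y).biUnion (fun u => (L' u).toFinset) ⊆ U y := by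
      intro a ha
      rw [Finset.mem_biUnion] at ha
      obtain ⟨u, _, hua⟩ := ha
      by_cases hu' : u ∈ A y
      · rw [hL'A u hu'] at hua
        exact Finset.mem_biUnion.2 ⟨u, hu', hua⟩
      · rw [hL'n u hu'] at hua; simp at hua
    have e2 := Finset.card_union_le (insert y S) ((Z y ∪ A y).biUnion (fun u => (L' u).toFinset))
    have e3 := Finset.card_insert_le y S
    have e4 := Finset.card_le_card e1
    have e5 := hU1 y
    omega
  have hsplit : (A y).card + (J y).card = (N₀ y).card := by
    have := Finset.card_sdiff_add_card_eq_card (hAN y)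
    rw [add_comm]; exact this
  have htot : (q - 1) * (A y).card + 2 * (q - 1) * (J y).card ≤ (q - 1) * N.card := by
    have h1 := hZN y
    calc (q - 1) * (A y).card + 2 * (q - 1) * (J y).card =
        (q - 1) * ((A y).card + (J y).card + (J y).card) := by ring
      _ ≤ (q - 1) * N.card := Nat.mul_le_mul_left _ (by omega)
  have hJimg : ((J y).image (fun u => s(v, u))).card = (J y).card :=
    Finset.card_image_of_injective _ (star_injective v)
  rcases m₂.addFB hw (Fintype.card V) ((J y).image (fun u => s(v, u)))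
    (by
      intro e he b hb
      rw [Finset.mem_image] at he
      obtain ⟨u, hu, rfl⟩ := he
      rw [Sym2.mem_iff] at hb
      rcases hb with rfl | rfl
      · exact Finset.mem_insert_self _ _
      · exact Finset.mem_insert_of_mem
          (hNX (Finset.mem_filter.1 (Finset.mem_sdiff.1 hu).1).1))
    (by rw [hJimg]; omega) with ⟨C, h4, h5⟩ | ⟨S', I', m₃, hS'⟩
  · exact Or.inl (hasModel_of_clique hw H C h4 h5)
  · right
    have e : EE H (insert v X) = EE H X ∪ (Z y ∪ A y).image (fun u => s(v, u)) ∪
        (J y).image (fun u => s(v, u)) := by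
        rw [EE_insert, Finset.union_assoc, ← Finset.image_union]
        congr 2
        ext u
        rw [Finset.mem_union, Finset.mem_union]
        constructor
        · intro hu
          by_cases h0 : w (φ u) y = 0
          · exact Or.inl (Or.inl (Finset.mem_filter.2 ⟨hu, h0⟩))
          · by_cases hA : u ∈ A y
            · exact Or.inl (Or.inr hA)
            · exact Or.inr (Finset.mem_sdiff.2 ⟨Finset.mem_filter.2 ⟨hu, h0⟩, hA⟩)
        · rintro ((hu | hu) | hu)
          · exact (Finset.mem_filter.1 hu).1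
          · exact (Finset.mem_filter.1 (hAN y hu)).1
          · exact (Finset.mem_filter.1 (Finset.mem_sdiff.1 hu).1).1
    rw [e]
    refine ⟨S', _, I', m₃, ?_⟩
    rw [hJimg] at hS'
    omega

end

end MP0dbebe
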