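import Pool.Agent.Lib.MP_0dbebe_co.Extend

/-! # Weights in `ZMod 2` -/

namespace MP0dbebe

section
variable {V α : Type*}

theorem two_cases (a : ZMod 2) : a = 0 ∨ a = 1 := by
  revert a; decide

theorem two_add_ne {a b : ZMod 2} (h : a + b ≠ 0) : a + b = 1 := (two_cases _).resolve_left h

open Classical in
/-- If the number `z` of edges of weight zero is maximal, then a zero clique of size `n` makes all
edges zero. -/
theorem all_zero_of_clique [Fintype V] [Fintype α] {w : α → α → ZMod 2}
    (hw : ∀ a b, w a b = w b a) (H : SimpleGraph V) (φ : V → α)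
    (hmax : ∀ ψ : V → α, Function.Injective ψ → (ZE w H ψ).card ≤ (ZE w H φ).card)
    (C : Finset α) (hC : Fintype.card V ≤ C.card) (hz : ∀ a ∈ C, ∀ b ∈ C, a ≠ b → w a b = 0) :
    ZE w H φ = EE H Finset.univ := by
  obtain ⟨f, hf⟩ : ∃ f : V ↪ α, ∀ v, f v ∈ C := by
    have h1 : Fintype.card V ≤ Fintype.card C := by rw [Fintype.card_coe]; exact hC
    obtain ⟨g⟩ := Function.Embedding.nonempty_of_card_le h1
    exact ⟨g.trans (Function.Embedding.subtype _), fun v => (g v).2⟩
  have h1 := hmax f f.injective
  have h2 : ZE w H f = EE H Finset.univ := by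
    ext e
    induction e using Sym2.ind with
    | _ a b =>
      rw [mem_ZE hw, mk_mem_EE]
      constructor
      · rintro ⟨h, _⟩; exact ⟨⟨Finset.mem_univ _, Finset.mem_univ _⟩, h⟩
      · rintro ⟨_, h⟩
        exact ⟨h, hz _ (hf a) _ (hf b) (fun hab => h.ne (f.injective hab))⟩
  rw [h2] at h1
  exact Finset.eq_of_subset_of_card_le (ZE_subset w H φ) h1

open Classical in
/-- moving one side of the unserved edges -/
theorem move [Fintype V] [Fintype α] {w : α → α → ZMod 2}
    (hw : ∀ a b, w a b = w b a) (H : SimpleGraph V) (φ : V → α) (hφ : Function.Injective φ)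
    (R : Finset α) (hR : ∀ v, φ v ∉ R) (hRc : 2 * Fintype.card V ≤ R.card + 3)
    (hRne : R.Nonempty) (F : Finset (Sym2 V)) (hF : F.Nonempty) (hFE : F ⊆ EE H Finset.univ)
    (hcut : ∀ u v, s(u, v) ∈ F → ∀ x ∈ R, w (φ u) x + w (φ v) x = 1) :
    ∃ ψ : V → α, Function.Injective ψ ∧ F ⊆ ZE w H ψ := by
  obtain ⟨x0, hx0⟩ := hRne
  let zr : V → ℕ := fun v => (R.filter (fun x => w (φ v) x = 0)).card
  let K : V → Prop := fun v => R.card < 2 * zr v ∨ (2 * zr v = R.card ∧ w (φ v) x0 = 0)
  have hzr : ∀ v, zr v + (R.filter (fun x => w (φ v) x = 1)).card = R.card := by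
    intro v
    have := Finset.card_filter_add_card_filter_not (s := R) (fun x => w (φ v) x = 0)
    have e : R.filter (fun x => ¬ w (φ v) x = 0) = R.filter (fun x => w (φ v) x = 1) := by
      apply Finset.filter_congr
      intro x _
      constructor
      · exact fun h => (two_cases _).resolve_left h
      · intro h; rw [h]; decide
    rw [e] at this
    exact this
  have hsum : ∀ u v, s(u, v) ∈ F → zr u + zr v = R.card := by
    intro u v huv
    rw [← hzr v, add_comm]
    congr 1
    change (R.filter (fun x => w (φ u) x = 0)).card = _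
    congr 1
    apply Finset.filter_congr
    intro x hx
    have h1 := hcut u v huv x hx
    constructor
    · intro h; rw [h, zero_add] at h1; exact h1
    · intro h; rw [h] at h1
      rcases two_cases (w (φ u) x) with h2 | h2
      · exact h2
      · rw [h2] at h1; exact absurd h1 (by decide)
  have hKone : ∀ u v, s(u, v) ∈ F → (K u ↔ ¬ K v) := by
    intro u v huv
    have h1 := hsum u v huv
    have h2 := hcut u v huv x0 hx0
    have h3 : w (φ u) x0 = 0 ↔ ¬ (w (φ v) x0 = 0) := by
      rcases two_cases (w (φ u) x0) with h | h <;> rcases two_cases (w (φ v) x0) with h' | h' <;>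
        rw [h, h'] at h2 ⊢ <;> revert h2 <;> decide
    simp only [K]
    constructor
    · rintro (h | ⟨h, h'⟩) (h4 | ⟨h4, h5⟩)
      · omega
      · omega
      · omega
      · exact h3.1 h' h5
    · intro h
      by_cases hlt : R.card < 2 * zr u
      · exact Or.inl hlt
      · right
        have hle : ¬ (R.card < 2 * zr v) := fun h' => h (Or.inl h')
        refine ⟨by omega, ?_⟩
        rw [h3]
        intro h5
        exact h (Or.inr ⟨by omega, h5⟩)
  let M : Finset V := Finset.univ.filter (fun v => ¬ K v ∧ ∃ u, s(u, v) ∈ F)
  -- some vertex is kept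
  have hMc : M.card + 1 ≤ Fintype.card V := by
    obtain ⟨e, he⟩ := hF
    have : ∃ k, K k := by
      induction e using Sym2.ind with
      | _ a b =>
        by_cases hKa : K a
        · exact ⟨a, hKa⟩
        · by_contra hno
          push Not at hno
          exact hKa ((hKone a b he).2 (hno b))
    obtain ⟨k, hk⟩ := this
    have hkM : k ∉ M := by
      simp only [M, Finset.mem_filter, not_and]
      intro _ h; exact absurd hk h
    have := Finset.card_lt_univ_of_notMem hkM
    omega
  have hall : ∀ s : Finset M, s.card ≤
      (s.biUnion (fun v => R.filter (fun x => w (φ v.1) x = 1))).card := by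
    intro s
    rcases s.eq_empty_or_nonempty with rfl | ⟨v, hv⟩
    · simp
    · have h1 : s.card ≤ M.card := by
        have := Finset.card_le_univ s
        rwa [Fintype.card_coe] at this
      have h2 : R.filter (fun x => w (φ v.1) x = 1) ⊆
          s.biUnion (fun v => R.filter (fun x => w (φ v.1) x = 1)) :=
        Finset.subset_biUnion_of_mem (fun v : M => R.filter (fun x => w (φ v.1) x = 1)) hv
      have h3 := Finset.card_le_card h2
      have h4 := hzr v.1
      have h5 : ¬ K v.1 := by
        have := v.2
        simp only [M, Finset.mem_filter] at this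
        exact this.2.1
      have h6 : 2 * zr v.1 ≤ R.card := by
        by_contra hcon
        exact h5 (Or.inl (by omega))
      omega
  obtain ⟨f, hf, hf2⟩ := (Finset.all_card_le_biUnion_card_iff_exists_injective _).1 hall
  have hfR : ∀ v, f v ∈ R ∧ w (φ v.1) (f v) = 1 := fun v => by simpa using hf2 v
  let ψ : V → α := fun v => if h : v ∈ M then f ⟨v, h⟩ else φ v
  have ψM : ∀ v (h : v ∈ M), ψ v = f ⟨v, h⟩ := fun v h => dif_pos h
  have ψn : ∀ v, v ∉ M → ψ v = φ v := fun v h => dif_neg h
  refine ⟨ψ, ?_, ?_⟩
  · intro a b hab
    by_cases ha : a ∈ M <;> by_cases hb : b ∈ M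
    · rw [ψM a ha, ψM b hb] at hab
      exact congrArg Subtype.val (hf hab)
    · rw [ψM a ha, ψn b hb] at hab
      exact absurd (hfR ⟨a, ha⟩).1 (hab ▸ hR b)
    · rw [ψn a ha, ψM b hb] at hab
      exact absurd (hfR ⟨b, hb⟩).1 (hab ▸ hR a)
    · rw [ψn a ha, ψn b hb] at hab
      exact hφ hab
  · have key : ∀ u v, s(u, v) ∈ F → K u → w (ψ u) (ψ v) = 0 := by
      intro u v huv hKu
      have hKv : ¬ K v := (hKone u v huv).1 hKu
      have hvM : v ∈ M := by
        simp only [M, Finset.mem_filter]
        exact ⟨Finset.mem_univ _, hKv, u, huv⟩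
      have huM : u ∉ M := by
        simp only [M, Finset.mem_filter, not_and]
        intro _ h; exact absurd hKu h
      rw [ψn u huM, ψM v hvM]
      have h1 := hcut u v huv _ (hfR ⟨v, hvM⟩).1
      have h2 := (hfR ⟨v, hvM⟩).2
      simp only at h2
      rw [h2] at h1
      rcases two_cases (w (φ u) (f ⟨v, hvM⟩)) with h3 | h3
      · exact h3
      · rw [h3] at h1; exact absurd h1 (by decide)
    intro e he
    have heE := hFE he
    induction e using Sym2.ind with
    | _ u v =>
      rw [mem_ZE hw]
      rw [mk_mem_EE] at heE
      refine ⟨heE.2, ?_⟩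
      by_cases hKu : K u
      · exact key u v he hKu
      · have hKv : K v := by
          by_contra h
          exact hKu ((hKone u v he).2 h)
        rw [hw]
        exact key v u (by rw [Sym2.eq_swap]; exact he) hKv

open Classical in
/-- **Main theorem for weights in `ZMod 2`.** -/
theorem twoWeights [Fintype V] [Fintype α] {w : α → α → ZMod 2}
    (hw : ∀ a b, w a b = w b a) (H : SimpleGraph V) (hn : 3 ≤ Fintype.card V)
    (hcard : (EE H Finset.univ).card + 3 * Fintype.card V ≤ Fintype.card α + 5) :
    HasModel w (EE H Finset.univ) Finset.univ Finset.univ := by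
  -- an injection with the largest number of zero edges
  obtain ⟨φ, hφ, hmax⟩ : ∃ φ : V → α, Function.Injective φ ∧
      ∀ ψ : V → α, Function.Injective ψ → (ZE w H ψ).card ≤ (ZE w H φ).card := by
    have hne : (Finset.univ.filter (fun φ : V → α => Function.Injective φ)).Nonempty := by
      have h1 : Fintype.card V ≤ Fintype.card α := by omega
      obtain ⟨g⟩ := Function.Embedding.nonempty_of_card_le h1
      exact ⟨g, Finset.mem_filter.2 ⟨Finset.mem_univ _, g.injective⟩⟩
    obtain ⟨φ, h1, h2⟩ := Finset.exists_max_image _ (fun φ => (ZE w H φ).card) hne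
    rw [Finset.mem_filter] at h1
    exact ⟨φ, h1.2, fun ψ hψ => h2 ψ (Finset.mem_filter.2 ⟨Finset.mem_univ _, hψ⟩)⟩
  have hZsub : ZE w H φ ⊆ EE H Finset.univ := ZE_subset w H φ
  have himg : (Finset.univ.image φ).card = Fintype.card V := by
    rw [Finset.card_image_of_injective _ hφ, Finset.card_univ]
  -- a largest family of edges served by at most one vertex
  let 𝓔 : Finset (Finset (Sym2 V)) := (EE H Finset.univ).powerset.filter (fun E' =>
    ∃ S I, Model w E' Finset.univ S φ I ∧ S.card + (ZE w H φ).card ≤ Fintype.card V + E'.card)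
  have h𝓔ne : 𝓔.Nonempty := ⟨ZE w H φ, by
    simp only [𝓔, Finset.mem_filter, Finset.mem_powerset]
    exact ⟨hZsub, _, _, model_zero hφ, by rw [himg]⟩⟩
  obtain ⟨E', hE'mem, hE'max⟩ := Finset.exists_max_image 𝓔 Finset.card h𝓔ne
  simp only [𝓔, Finset.mem_filter, Finset.mem_powerset] at hE'mem
  obtain ⟨hE'sub, S, I, m, hSc⟩ := hE'mem
  by_cases hfull : E' = EE H Finset.univ
  · rw [← hfull]
    exact ⟨φ, I, m.mono (Finset.subset_univ _)⟩
  set F := EE H Finset.univ \ E' with hFdef
  have hFne : F.Nonempty := by
    rw [Finset.sdiff_nonempty]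
    intro h
    exact hfull (Finset.Subset.antisymm hE'sub h)
  have hFsub : F ⊆ EE H Finset.univ := Finset.sdiff_subset
  have hFc : F.card + E'.card = (EE H Finset.univ).card := Finset.card_sdiff_add_card_eq_card hE'sub
  set R := Sᶜ with hRdef
  have hRc : R.card + S.card = Fintype.card α := by
    rw [hRdef, add_comm]; exact Finset.card_add_card_compl S
  have hFpos : 1 ≤ F.card := hFne.card_pos
  -- no list of at most one vertex serves an edge of `F`
  have hno : ∀ u v, s(u, v) ∈ F → ∀ l : List α, l.Nodup → l.length ≤ 1 → (∀ a ∈ l, a ∈ R) →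
      (l = [] ∨ True) → pw w (φ u :: (l ++ [φ v])) ≠ 0 := by
    intro u v huv l hl hlen hlR _ h0
    rw [hFdef, Finset.mem_sdiff] at huv
    have m' := m.insertEdge (Finset.mem_univ u) (Finset.mem_univ v) huv.2 hl
      (fun a ha => by have := hlR a ha; rw [hRdef, Finset.mem_compl] at this; exact this) h0
    have hmem : insert s(u, v) E' ∈ 𝓔 := by
      simp only [𝓔, Finset.mem_filter, Finset.mem_powerset]
      refine ⟨Finset.insert_subset huv.1 hE'sub, _, _, m', ?_⟩
      rw [Finset.card_insert_of_notMem huv.2]
      have h1 := Finset.card_union_le S l.toFinset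
      have h2 := List.toFinset_card_le l
      omega
    have := hE'max _ hmem
    rw [Finset.card_insert_of_notMem huv.2] at this
    omega
  have hφR : ∀ v, φ v ∉ R := by
    intro v hv
    rw [hRdef, Finset.mem_compl] at hv
    exact hv (m.memφ v (Finset.mem_univ v))
  have hcut : ∀ u v, s(u, v) ∈ F → ∀ x ∈ R, w (φ u) x + w (φ v) x = 1 := by
    intro u v huv x hx
    apply two_add_ne
    have := hno u v huv [x] (by simp) (by simp) (by simpa using hx) (Or.inr trivial)
    rw [List.singleton_append, pw_cons_cons, pw_cons_cons, pw_single, add_zero, hw x] at this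
    exact this
  have hnz : ∀ u v, s(u, v) ∈ F → w (φ u) (φ v) ≠ 0 := by
    intro u v huv h
    apply hno u v huv [] (by simp) (by simp) (by simp) (Or.inl rfl)
    rw [List.nil_append, pw_cons_cons, pw_single, h, add_zero]
  have hRne : R.Nonempty := by
    rw [← Finset.card_pos]; omega
  -- there is a zero edge
  have hz1 : 1 ≤ (ZE w H φ).card := by
    obtain ⟨e, he⟩ := hFne
    obtain ⟨x, hx⟩ := hRne
    have main : ∀ u v, s(u, v) ∈ F → w (φ u) x = 0 → 1 ≤ (ZE w H φ).card := by
      intro u v huv h0
      have hadj : H.Adj u v := by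
        have := hFsub huv
        rw [mk_mem_EE] at this
        exact this.2
      have hinj : Function.Injective (Function.update φ v x) := by
        intro a b hab
        by_cases ha : a = v <;> by_cases hb : b = v
        · rw [ha, hb]
        · rw [ha, Function.update_self, Function.update_of_ne hb] at hab
          exact absurd hx (hab ▸ hφR b)
        · rw [hb, Function.update_self, Function.update_of_ne ha] at hab
          exact absurd hx (hab ▸ hφR a)
        · rw [Function.update_of_ne ha, Function.update_of_ne hb] at hab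
          exact hφ hab
      refine le_trans ?_ (hmax _ hinj)
      rw [Nat.one_le_iff_ne_zero, ← Nat.pos_iff_ne_zero, Finset.card_pos]
      refine ⟨s(u, v), ?_⟩
      rw [mem_ZE hw, Function.update_self, Function.update_of_ne hadj.ne]
      exact ⟨hadj, h0⟩
    induction e using Sym2.ind with
    | _ u v =>
      rcases two_cases (w (φ u) x) with h | h
      · exact main u v he h
      · apply main v u (by rw [Sym2.eq_swap]; exact he)
        have := hcut u v he x hx
        rw [h] at this
        rcases two_cases (w (φ v) x) with h3 | h3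
        · exact h3
        · rw [h3] at this; exact absurd this (by decide)
  -- `z ≥ |F|`
  have hzF : F.card ≤ (ZE w H φ).card := by
    obtain ⟨ψ, hψ, hsub⟩ := move hw H φ hφ R hφR (by omega) hRne F hFne hFsub hcut
    exact (Finset.card_le_card hsub).trans (hmax ψ hψ)
  -- serve the remaining edges by pairs
  let 𝓕 : Finset (Finset (Sym2 V)) := (EE H Finset.univ).powerset.filter (fun E'' =>
    E' ⊆ E'' ∧ ∃ S'' I'', Model w E'' Finset.univ S'' φ I'' ∧ S ⊆ S'' ∧
      S''.card + 2 * E'.card ≤ S.card + 2 * E''.card)
  have h𝓕ne : 𝓕.Nonempty := ⟨E', by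
    simp only [𝓕, Finset.mem_filter, Finset.mem_powerset]
    exact ⟨hE'sub, Finset.Subset.refl _, S, I, m, Finset.Subset.refl _, le_refl _⟩⟩
  obtain ⟨E₂, hE₂mem, hE₂max⟩ := Finset.exists_max_image 𝓕 Finset.card h𝓕ne
  simp only [𝓕, Finset.mem_filter, Finset.mem_powerset] at hE₂mem
  obtain ⟨hE₂sub, hE'E₂, S₂, I₂, m₂, hSS₂, hS₂c⟩ := hE₂mem
  by_cases hfull₂ : E₂ = EE H Finset.univ
  · rw [← hfull₂]
    exact ⟨φ, I₂, m₂.mono (Finset.subset_univ _)⟩
  exfalso
  obtain ⟨e, he, heE₂⟩ : ∃ e ∈ EE H Finset.univ, e ∉ E₂ := by
    by_contra hcon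
    push Not at hcon
    exact hfull₂ (Finset.Subset.antisymm hE₂sub hcon)
  have hE₂lt : E₂.card + 1 ≤ (EE H Finset.univ).card := by
    rw [← Finset.card_insert_of_notMem heE₂]
    exact Finset.card_le_card (Finset.insert_subset he hE₂sub)
  set R₂ := S₂ᶜ with hR₂def
  have hR₂c : R₂.card + S₂.card = Fintype.card α := by
    rw [hR₂def, add_comm]; exact Finset.card_add_card_compl S₂
  have hR₂R : ∀ y ∈ R₂, y ∈ R := by
    intro y hy
    rw [hR₂def, Finset.mem_compl] at hy
    rw [hRdef, Finset.mem_compl]
    exact fun h => hy (hSS₂ h)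
  induction e using Sym2.ind with
  | _ u v =>
    have heF : s(u, v) ∈ F := by
      rw [hFdef, Finset.mem_sdiff]
      exact ⟨he, fun h => heE₂ (hE'E₂ h)⟩
    -- triangles
    have htri : ∀ y ∈ R₂, ∀ y' ∈ R₂, y ≠ y' → w y y' = w (φ u) y + w (φ u) y' := by
      intro y hy y' hy' hyy
      by_contra hne
      have h0 : pw w (φ u :: ([y, y'] ++ [φ v])) = 0 := by
        simp only [List.cons_append, List.nil_append, pw_cons_cons, pw_single, add_zero]
        have h1 := hcut u v heF y' (hR₂R y' hy')
        rw [hw y' (φ v)]
        revert hne h1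
        generalize w y y' = a
        generalize w (φ u) y = b
        generalize w (φ u) y' = c
        generalize w (φ v) y' = d
        revert a b c d
        decide
      have m' := m₂.insertEdge (Finset.mem_univ u) (Finset.mem_univ v) heE₂
        (l := [y, y']) (by simpa using hyy) (by
          intro a ha
          simp only [List.mem_cons, List.not_mem_nil, or_false] at ha
          rcases ha with rfl | rfl
          · rw [hR₂def, Finset.mem_compl] at hy; exact hy
          · rw [hR₂def, Finset.mem_compl] at hy'; exact hy') h0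
      have hmem : insert s(u, v) E₂ ∈ 𝓕 := by
        simp only [𝓕, Finset.mem_filter, Finset.mem_powerset]
        refine ⟨Finset.insert_subset he hE₂sub, hE'E₂.trans (Finset.subset_insert _ _), _, _, m',
          hSS₂.trans Finset.subset_union_left, ?_⟩
        rw [Finset.card_insert_of_notMem heE₂]
        have h1 := Finset.card_union_le S₂ [y, y'].toFinset
        have h2 := List.toFinset_card_le [y, y']
        simp only [List.length_cons, List.length_nil] at h2
        omega
      have := hE₂max _ hmem
      rw [Finset.card_insert_of_notMem heE₂] at this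
      omega
    -- a large zero clique
    have hL : (R₂.filter (fun y => w (φ u) y = 0)).card +
        (R₂.filter (fun y => ¬ w (φ u) y = 0)).card = R₂.card :=
      Finset.card_filter_add_card_filter_not _
    have hbig : 2 * Fintype.card V ≤ R₂.card + 3 := by omega
    have hZE : ZE w H φ = EE H Finset.univ := by
      rcases Nat.lt_or_ge ((R₂.filter (fun y => w (φ u) y = 0)).card + 1) (Fintype.card V) with
        hlt | hge
      · -- the other side
        apply all_zero_of_clique hw H φ hmax
          (insert (φ v) (R₂.filter (fun y => ¬ w (φ u) y = 0)))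
        · rw [Finset.card_insert_of_notMem]
          · omega
          · intro h
            exact hφR v (hR₂R _ (Finset.mem_filter.1 h).1)
        · have hvy : ∀ y ∈ R₂.filter (fun y => ¬ w (φ u) y = 0), w (φ v) y = 0 := by
            intro y hy
            rw [Finset.mem_filter] at hy
            have h1 := hcut u v heF y (hR₂R y hy.1)
            have h2 := (two_cases _).resolve_left hy.2
            rw [h2] at h1
            rcases two_cases (w (φ v) y) with h3 | h3
            · exact h3
            · rw [h3] at h1; exact absurd h1 (by decide)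
          intro a ha b hb hab
          rw [Finset.mem_insert] at ha hb
          rcases ha with rfl | ha <;> rcases hb with rfl | hb
          · exact absurd rfl hab
          · exact hvy b hb
          · rw [hw]; exact hvy a ha
          · rw [Finset.mem_filter] at ha hb
            rw [htri a ha.1 b hb.1 hab, (two_cases _).resolve_left ha.2,
              (two_cases _).resolve_left hb.2]
            decide
      · apply all_zero_of_clique hw H φ hmax
          (insert (φ u) (R₂.filter (fun y => w (φ u) y = 0)))
        · rw [Finset.card_insert_of_notMem]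
          · omega
          · intro h
            exact hφR u (hR₂R _ (Finset.mem_filter.1 h).1)
        · intro a ha b hb hab
          rw [Finset.mem_insert] at ha hb
          rcases ha with rfl | ha <;> rcases hb with rfl | hb
          · exact absurd rfl hab
          · exact (Finset.mem_filter.1 hb).2
          · rw [hw]; exact (Finset.mem_filter.1 ha).2
          · rw [Finset.mem_filter] at ha hb
            rw [htri a ha.1 b hb.1 hab, ha.2, hb.2, add_zero]
    have : s(u, v) ∈ ZE w H φ := by rw [hZE]; exact he
    rw [mem_ZE hw] at this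
    exact hnz u v heF this.2

end

end MP0dbebe
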